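import Pool.Agent.R611.HM.Def2

/-!
# RV-expansions of a valued field: the definitions
-/

set_option autoImplicit false

namespace Pool.Agent.R611.HM

open FirstOrder Language Structure

universe u

/-- The language with a relation symbol of arity `n` for each element of `R n`, and nothing
else. -/
def PredLang (R : ℕ → Type u) : FirstOrder.Language.{u, u} := ⟨fun _ => PEmpty, R⟩

/-- The symbols of the language of valued fields in the larger language. -/
def ValSymbols.expand {L : FirstOrder.Language.{u, u}} (sy : ValSymbols L) (R : ℕ → Type u) :
    ValSymbols (L.sum (PredLang R)) where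
  add := Sum.inl sy.add
  mul := Sum.inl sy.mul
  ring := Sum.inl sy.ring

/-- The interpretation of the new symbols on `K`: the symbol `P` of arity `n`, for which a subset
`I P` of `RV^n` is given, holds for `(x_1, …, x_n)` if `(rv(x_1), …, rv(x_n))` lies in `I P`. -/
@[reducible]
def rvPreds {K : Type u} [Field K] (O : ValuationSubring K) {R : ℕ → Type u}
    (I : ∀ n, R n → Set (Fin n → RV O 1)) : (PredLang R).Structure K where
  funMap := fun f => PEmpty.elim f
  RelMap := fun {n} P x => (fun i => rv O 1 (x i)) ∈ I n P

end Pool.Agent.R611.HM
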