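import Pool.Agent.R611.HM.T10

/-!
# Elementary extensions of valued fields are valued fields
-/

set_option autoImplicit false
set_option linter.unusedSectionVars false

namespace Pool.Agent.R611.HM

open FirstOrder Language Structure Set

universe u w

variable {L : FirstOrder.Language.{u, u}} {K N : Type u} [L.Structure K] [L.Structure N]

theorem dff_fun2 {β : Type} [Finite β] (s : L.Functions 2) {f g : (β → N) → N} (hf : DfF L f)
    (hg : DfF L g) : DfF L (fun w => (funMap s ![f w, g w] : N)) :=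
  (df_fun2 s).comp (f := fun b => if b then f else g) (by rintro (_ | _) <;> simpa)

theorem df_rel1' {β : Type} [Finite β] (s : L.Relations 1) {f : (β → N) → N} (hf : DfF L f) :
    Df L (fun w => RelMap s ![f w]) :=
  (df_rel1 s).comp (f := fun _ => f) (fun _ => hf)

section

variable [Field K] {O : ValuationSubring K} {sy : ValSymbols L} (j : K ↪ₑ[L] N)
  (hO : IsValued sy O)

include j hO

theorem raw_add (x y : K) : (funMap sy.add ![j x, j y] : N) = j (x + y) := by
  rw [← hO.add, j.map_fun]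
  congr 1
  funext i
  fin_cases i <;> rfl

theorem raw_mul (x y : K) : (funMap sy.mul ![j x, j y] : N) = j (x * y) := by
  rw [← hO.mul, j.map_fun]
  congr 1
  funext i
  fin_cases i <;> rfl

theorem raw_mem (x : K) : RelMap sy.ring ![j x] ↔ x ∈ O := by
  rw [← hO.ring, ← j.map_rel]
  apply iff_of_eq
  congr 1
  funext i
  fin_cases i
  rfl

/-- transfer with the two constants -/
theorem raw_all {n : ℕ} {P : (Bool ⊕ Fin n → N) → Prop} (hP : Df L P)
    (h : ∀ y : Fin n → K, P (Sum.elim (fun b => if b then j 1 else j 0) (fun i => j (y i)))) :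
    ∀ y : Fin n → N, P (Sum.elim (fun b => if b then j 1 else j 0) y) := by
  intro y
  have h1 := all_transfer j hP (fun b : Bool => if b then (1 : K) else 0) (fun y => by
    have h2 := h y
    refine (iff_of_eq (congrArg P ?_)).1 h2
    funext i
    rcases i with (_ | _) | i <;> rfl) y
  refine (iff_of_eq (congrArg P ?_)).1 h1
  funext i
  rcases i with (_ | _) | i <;> rfl

theorem exists_valued : ∃ (_ : Field N) (O' : ValuationSubring N), IsValued sy O' := by
  classical
  have a_assoc : ∀ x y z : N, (funMap sy.add ![funMap sy.add ![x, y], z] : N) =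
      funMap sy.add ![x, funMap sy.add ![y, z] ] := fun x y z =>
    raw_all j hO (n := 3) (P := fun q => (funMap sy.add ![funMap sy.add ![q (Sum.inr 0),
      q (Sum.inr 1)], q (Sum.inr 2)] : N) =
      funMap sy.add ![q (Sum.inr 0), funMap sy.add ![q (Sum.inr 1), q (Sum.inr 2)] ])
      (Df.eq (dff_fun2 _ (dff_fun2 _ (DfF.var _) (DfF.var _)) (DfF.var _))
        (dff_fun2 _ (DfF.var _) (dff_fun2 _ (DfF.var _) (DfF.var _))))
      (fun y => by simp only [Sum.elim_inr, raw_add j hO, add_assoc]) ![x, y, z]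
  have a_zero : ∀ x : N, (funMap sy.add ![j 0, x] : N) = x := fun x =>
    raw_all j hO (n := 1) (P := fun q => (funMap sy.add ![q (Sum.inl false), q (Sum.inr 0)] : N) =
      q (Sum.inr 0))
      (Df.eq (dff_fun2 _ (DfF.var _) (DfF.var _)) (DfF.var _))
      (fun y => by
        change (funMap sy.add ![j 0, j (y 0)] : N) = j (y 0)
        rw [raw_add j hO, zero_add]) ![x]
  have a_neg : ∀ x : N, ∃ y : N, (funMap sy.add ![y, x] : N) = j 0 := fun x =>
    raw_all j hO (n := 1) (P := fun q => ∃ y : N, (funMap sy.add ![y, q (Sum.inr 0)] : N) =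
      q (Sum.inl false))
      (Df.ex1 (Q := fun y (q : Bool ⊕ Fin 1 → N) => (funMap sy.add ![y, q (Sum.inr 0)] : N) =
        q (Sum.inl false)) (Df.eq (dff_fun2 _ (DfF.var _) (DfF.var _)) (DfF.var _)))
      (fun y => ⟨j (-(y 0)), by
        change (funMap sy.add ![j (-(y 0)), j (y 0)] : N) = j 0
        rw [raw_add j hO, neg_add_cancel]⟩) ![x]
  have m_assoc : ∀ x y z : N, (funMap sy.mul ![funMap sy.mul ![x, y], z] : N) =
      funMap sy.mul ![x, funMap sy.mul ![y, z] ] := fun x y z =>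
    raw_all j hO (n := 3) (P := fun q => (funMap sy.mul ![funMap sy.mul ![q (Sum.inr 0),
      q (Sum.inr 1)], q (Sum.inr 2)] : N) =
      funMap sy.mul ![q (Sum.inr 0), funMap sy.mul ![q (Sum.inr 1), q (Sum.inr 2)] ])
      (Df.eq (dff_fun2 _ (dff_fun2 _ (DfF.var _) (DfF.var _)) (DfF.var _))
        (dff_fun2 _ (DfF.var _) (dff_fun2 _ (DfF.var _) (DfF.var _))))
      (fun y => by simp only [Sum.elim_inr, raw_mul j hO, mul_assoc]) ![x, y, z]
  have m_comm : ∀ x y : N, (funMap sy.mul ![x, y] : N) = funMap sy.mul ![y, x] := fun x y =>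
    raw_all j hO (n := 2) (P := fun q => (funMap sy.mul ![q (Sum.inr 0), q (Sum.inr 1)] : N) =
      funMap sy.mul ![q (Sum.inr 1), q (Sum.inr 0)])
      (Df.eq (dff_fun2 _ (DfF.var _) (DfF.var _)) (dff_fun2 _ (DfF.var _) (DfF.var _)))
      (fun y => by simp only [Sum.elim_inr, raw_mul j hO, mul_comm]) ![x, y]
  have m_one : ∀ x : N, (funMap sy.mul ![j 1, x] : N) = x := fun x =>
    raw_all j hO (n := 1) (P := fun q => (funMap sy.mul ![q (Sum.inl true), q (Sum.inr 0)] : N) =
      q (Sum.inr 0))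
      (Df.eq (dff_fun2 _ (DfF.var _) (DfF.var _)) (DfF.var _))
      (fun y => by
        change (funMap sy.mul ![j 1, j (y 0)] : N) = j (y 0)
        rw [raw_mul j hO, one_mul]) ![x]
  have m_inv : ∀ x : N, x ≠ j 0 → ∃ y : N, (funMap sy.mul ![x, y] : N) = j 1 := fun x =>
    raw_all j hO (n := 1) (P := fun q => q (Sum.inr 0) ≠ q (Sum.inl false) →
      ∃ y : N, (funMap sy.mul ![q (Sum.inr 0), y] : N) = q (Sum.inl true))
      (Df.imp (Df.eq (DfF.var _) (DfF.var _)).not
        (Df.ex1 (Q := fun y (q : Bool ⊕ Fin 1 → N) => (funMap sy.mul ![q (Sum.inr 0), y] : N) =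
        q (Sum.inl true)) (Df.eq (dff_fun2 _ (DfF.var _) (DfF.var _)) (DfF.var _))))
      (fun y hy => ⟨j ((y 0)⁻¹), by
        change (funMap sy.mul ![j (y 0), j ((y 0)⁻¹)] : N) = j 1
        have hy0 : y 0 ≠ 0 := fun h => hy (by
          change j (y 0) = j 0
          rw [h])
        rw [raw_mul j hO, mul_inv_cancel₀ hy0]⟩) ![x]
  have d_left : ∀ x y z : N, (funMap sy.mul ![x, funMap sy.add ![y, z] ] : N) =
      funMap sy.add ![funMap sy.mul ![x, y], funMap sy.mul ![x, z] ] := fun x y z =>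
    raw_all j hO (n := 3) (P := fun q => (funMap sy.mul ![q (Sum.inr 0),
      funMap sy.add ![q (Sum.inr 1), q (Sum.inr 2)] ] : N) =
      funMap sy.add ![funMap sy.mul ![q (Sum.inr 0), q (Sum.inr 1)],
        funMap sy.mul ![q (Sum.inr 0), q (Sum.inr 2)] ])
      (Df.eq (dff_fun2 _ (DfF.var _) (dff_fun2 _ (DfF.var _) (DfF.var _)))
        (dff_fun2 _ (dff_fun2 _ (DfF.var _) (DfF.var _)) (dff_fun2 _ (DfF.var _) (DfF.var _))))
      (fun y => by simp only [Sum.elim_inr, raw_mul j hO, raw_add j hO, mul_add]) ![x, y, z]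
  have r_add : ∀ x y : N, RelMap sy.ring ![x] → RelMap sy.ring ![y] →
      RelMap sy.ring ![(funMap sy.add ![x, y] : N)] := fun x y =>
    raw_all j hO (n := 2) (P := fun q => RelMap sy.ring ![q (Sum.inr 0)] →
      RelMap sy.ring ![q (Sum.inr 1)] →
      RelMap sy.ring ![(funMap sy.add ![q (Sum.inr 0), q (Sum.inr 1)] : N)])
      (Df.imp (df_rel1' _ (DfF.var _)) (Df.imp (df_rel1' _ (DfF.var _))
        (df_rel1' _ (dff_fun2 _ (DfF.var _) (DfF.var _)))))
      (fun y => by
        simp only [Sum.elim_inr, raw_add j hO, raw_mem j hO]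
        exact fun h1 h2 => O.add_mem _ _ h1 h2) ![x, y]
  have r_mul : ∀ x y : N, RelMap sy.ring ![x] → RelMap sy.ring ![y] →
      RelMap sy.ring ![(funMap sy.mul ![x, y] : N)] := fun x y =>
    raw_all j hO (n := 2) (P := fun q => RelMap sy.ring ![q (Sum.inr 0)] →
      RelMap sy.ring ![q (Sum.inr 1)] →
      RelMap sy.ring ![(funMap sy.mul ![q (Sum.inr 0), q (Sum.inr 1)] : N)])
      (Df.imp (df_rel1' _ (DfF.var _)) (Df.imp (df_rel1' _ (DfF.var _))
        (df_rel1' _ (dff_fun2 _ (DfF.var _) (DfF.var _)))))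
      (fun y => by
        simp only [Sum.elim_inr, raw_mul j hO, raw_mem j hO]
        exact fun h1 h2 => O.mul_mem _ _ h1 h2) ![x, y]
  have r_neg : ∀ x y : N, (funMap sy.add ![y, x] : N) = j 0 → RelMap sy.ring ![x] →
      RelMap sy.ring ![y] := fun x y =>
    raw_all j hO (n := 2) (P := fun q => (funMap sy.add ![q (Sum.inr 1), q (Sum.inr 0)] : N) =
      q (Sum.inl false) → RelMap sy.ring ![q (Sum.inr 0)] → RelMap sy.ring ![q (Sum.inr 1)])
      (Df.imp (Df.eq (dff_fun2 _ (DfF.var _) (DfF.var _)) (DfF.var _)) (Df.imp (df_rel1' _ (DfF.var _))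
        (df_rel1' _ (DfF.var _))))
      (fun y => by
        simp only [Sum.elim_inr, raw_add j hO, raw_mem j hO]
        intro h1 h2
        have h3 : y 1 + y 0 = 0 := j.injective h1
        rw [eq_neg_of_add_eq_zero_left h3]
        exact O.neg_mem _ h2) ![x, y]
  have r_inv : ∀ x y : N, (funMap sy.mul ![x, y] : N) = j 1 → RelMap sy.ring ![x] ∨
      RelMap sy.ring ![y] := fun x y =>
    raw_all j hO (n := 2) (P := fun q => (funMap sy.mul ![q (Sum.inr 0), q (Sum.inr 1)] : N) =
      q (Sum.inl true) → RelMap sy.ring ![q (Sum.inr 0)] ∨ RelMap sy.ring ![q (Sum.inr 1)])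
      (Df.imp (Df.eq (dff_fun2 _ (DfF.var _) (DfF.var _)) (DfF.var _)) (Df.or (df_rel1' _ (DfF.var _))
        (df_rel1' _ (DfF.var _))))
      (fun y => by
        simp only [Sum.elim_inr, raw_mul j hO, raw_mem j hO]
        intro h1
        have h3 : y 0 * y 1 = 1 := j.injective h1
        rw [eq_inv_of_mul_eq_one_right h3]
        exact O.mem_or_inv_mem _) ![x, y]
  have r_zero : RelMap sy.ring ![j (0 : K)] := (raw_mem j hO 0).2 O.zero_mem
  have r_one : RelMap sy.ring ![j (1 : K)] := (raw_mem j hO 1).2 O.one_mem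
  choose ng hng using a_neg
  choose iv hiv using m_inv
  let iA : Add N := ⟨fun x y => funMap sy.add ![x, y]⟩
  let iM : Mul N := ⟨fun x y => funMap sy.mul ![x, y]⟩
  let iN : Neg N := ⟨ng⟩
  let iI : Inv N := ⟨fun x => if h : x ≠ j 0 then iv x h else j 0⟩
  let iZ : Zero N := ⟨j 0⟩
  let iO : One N := ⟨j 1⟩
  let F : Field N := Field.ofMinimalAxioms N a_assoc a_zero hng m_assoc m_comm m_one
    (fun x hx => by
      change (funMap sy.mul ![x, if h : x ≠ j 0 then iv x h else j 0] : N) = j 1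
      rw [dif_pos (show x ≠ j 0 from hx)]
      exact hiv x hx)
    (by
      change (if h : (j 0 : N) ≠ j 0 then iv (j 0) h else j 0) = j 0
      rw [dif_neg (by simp)])
    d_left ⟨j 0, j 1, fun h => zero_ne_one (j.injective h)⟩
  let O' : ValuationSubring N :=
    { carrier := {x | RelMap sy.ring ![x]}
      mul_mem' := fun {x y} hx hy => r_mul x y hx hy
      one_mem' := r_one
      add_mem' := fun {x y} hx hy => r_add x y hx hy
      zero_mem' := r_zero
      neg_mem' := fun {x} hx => r_neg x (-x) (neg_add_cancel x) hx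
      mem_or_inv_mem' := fun x => by
        by_cases hx : x = 0
        · left
          rw [hx]
          exact r_zero
        · exact r_inv x x⁻¹ (mul_inv_cancel₀ hx) }
  refine ⟨F, O', ⟨fun _ _ => rfl, fun _ _ => rfl, fun _ => Iff.rfl, ?_⟩⟩
  have hcast : ∀ n : ℕ, ((n : ℕ) : N) = j (n : K) := by
    intro n
    induction n with
    | zero => rw [Nat.cast_zero, Nat.cast_zero]; rfl
    | succ n ih =>
      rw [Nat.cast_succ, Nat.cast_succ, ← raw_add j hO, ← ih]
      rfl
  have hnat := hO.vf.nat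
  refine charZero_of_inj_zero fun n hn => ?_
  by_contra hn0
  have h1 : O.valuation ((n : K)⁻¹) ≤ 1 := by
    rw [map_inv₀, hnat n hn0, inv_one]
  have h2 : (n : K)⁻¹ ∈ O := (O.valuation_le_one_iff _).1 h1
  have hnK : (n : K) ≠ 0 := fun h => by
    have := hnat n hn0
    rw [h, map_zero] at this
    exact zero_ne_one this
  have h3 : (j ((n : K)⁻¹) : N) ∈ O' := (raw_mem j hO _).2 h2
  have h4 : ((n : ℕ) : O') * ⟨j ((n : K)⁻¹), h3⟩ = 1 := by
    apply Subtype.ext
    change ((n : ℕ) : O').1 * j ((n : K)⁻¹) = j 1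
    have e : (((n : ℕ) : O') : N) = ((n : ℕ) : N) := by simp
    rw [e, hcast]
    change (funMap sy.mul ![j (n : K), j ((n : K)⁻¹)] : N) = j 1
    rw [raw_mul j hO, mul_inv_cancel₀ hnK]
  have h5 : IsUnit ((n : ℕ) : O') := IsUnit.of_mul_eq_one _ h4
  rw [← IsLocalRing.residue_ne_zero_iff_isUnit, map_natCast] at h5
  exact h5 hn

end

end Pool.Agent.R611.HM
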