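import Pool.Agent.R611.HM.X4
import Pool.Agent.R611.HM.T11
import Pool.Agent.R611.HM.Def3

/-!
# RV-expansions: languages and structures
-/

set_option autoImplicit false
set_option linter.unusedSectionVars false

namespace Pool.Agent.R611.HM

open FirstOrder Language Structure Set

universe u w

/-! ### joint extensions -/

section joint

variable {L L₂ : FirstOrder.Language.{u, u}}

/-- If `K` is a structure for the larger language and `M` is elementarily equivalent to its
reduct, there are an elementary extension `N` of `K` in the larger language and an elementary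
embedding of `M` in the reduct of `N`. -/
theorem exists_joint {K M : Type u} [L.Structure K] [L₂.Structure K] [L.Structure M]
    [Nonempty K] (h : K ≅[L] M) :
    ∃ (N : Type u) (iN : (L.sum L₂).Structure N) (_ : K ↪ₑ[L.sum L₂] N),
      Nonempty (@ElementaryEmbedding L M N _ ((LHom.sumInl : L →ᴸ L.sum L₂).reduct N)) := by
  classical
  let θ : L →ᴸ L.sum L₂ := LHom.sumInl
  let I : Type u := Σ n : ℕ, {q : (Fin n → M) × L.Formula (Fin n) // q.2.Realize q.1}
  let S : Set ((L.sum L₂).Formula (M ⊕ K)) :=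
    Set.range fun i : I => (θ.onFormula i.2.1.2).relabel (fun k => (Sum.inl (i.2.1.1 k) : M ⊕ K))
  obtain ⟨N, iN, j, v, hv⟩ := compactU (L := L.sum L₂) (U := K) (δ := M) S (by
    intro S₀ hS₀ hfin
    have hf := hfin.to_subtype
    choose ix hix using fun ψ : S₀ => hS₀ ψ.2
    let D : Set M := ⋃ ψ : S₀, Set.range (ix ψ).2.1.1
    have hD : D.Finite := Set.finite_iUnion fun ψ => Set.finite_range _
    have := hD.to_subtype
    let Φ : L.Formula D := Formula.iInf (fun ψ : S₀ => (ix ψ).2.1.2.relabel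
      (fun k => (⟨(ix ψ).2.1.1 k, Set.mem_iUnion.2 ⟨ψ, k, rfl⟩⟩ : D)))
    have hΦ : ∀ {Q : Type u} [L.Structure Q] (u : D → Q), Φ.Realize u ↔ ∀ ψ : S₀,
        (ix ψ).2.1.2.Realize (fun k => u ⟨(ix ψ).2.1.1 k, Set.mem_iUnion.2 ⟨ψ, k, rfl⟩⟩) := by
      intro Q _ u
      rw [Formula.realize_iInf]
      refine forall_congr' fun ψ => ?_
      rw [Formula.realize_relabel]
      rfl
    let χ : L.Sentence := (Φ.relabel (Sum.inr : D → Empty ⊕ D) : L.Formula (Empty ⊕ D)).iExs D
    have hχ : ∀ {Q : Type u} [L.Structure Q], Q ⊨ χ ↔ ∃ u : D → Q, Φ.Realize u := by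
      intro Q _
      change Formula.Realize _ _ ↔ _
      rw [Formula.realize_iExs]
      refine exists_congr fun u => ?_
      rw [Formula.realize_relabel]
      rfl
    have h1 : M ⊨ χ := hχ.2 ⟨fun d => d.1, (hΦ _).2 fun ψ => (ix ψ).2.2⟩
    rw [← h.realize_sentence, hχ] at h1
    obtain ⟨u, hu⟩ := h1
    rw [hΦ] at hu
    refine ⟨fun m => if hm : m ∈ D then u ⟨m, hm⟩ else Classical.arbitrary K, fun ψ hψ => ?_⟩
    have h2 := hix ⟨ψ, hψ⟩
    have h3 := hu ⟨ψ, hψ⟩
    change ((θ.onFormula _).relabel _ : (L.sum L₂).Formula (M ⊕ K)) = ψ at h2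
    rw [← h2, Formula.realize_relabel, LHom.realize_onFormula]
    convert h3 using 1
    funext k
    simp only [Function.comp, Sum.elim_inl]
    have hk : (ix ⟨ψ, hψ⟩).2.1.1 k ∈ D := Set.mem_iUnion.2 ⟨⟨ψ, hψ⟩, k, rfl⟩
    rw [dif_pos hk])
  refine ⟨N, iN, j, ⟨?_⟩⟩
  let _ : L.Structure N := θ.reduct N
  refine ⟨v, fun n φ x => ?_⟩
  have one : ∀ φ : L.Formula (Fin n), φ.Realize x → φ.Realize (v ∘ x) := by
    intro φ hφ
    have h1 := hv _ ⟨(⟨n, ⟨(x, φ), hφ⟩⟩ : I), rfl⟩
    change ((θ.onFormula φ).relabel _ : (L.sum L₂).Formula (M ⊕ K)).Realize _ at h1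
    rw [Formula.realize_relabel, LHom.realize_onFormula] at h1
    exact h1
  refine ⟨fun h' => ?_, one φ⟩
  by_contra hc
  have := one (Formula.not φ) ((Formula.realize_not).2 hc)
  rw [Formula.realize_not] at this
  exact this h'

end joint

/-! ### the two forms of the condition -/

theorem hMinNe_of' {L : FirstOrder.Language.{u, u}} {K : Type u} [L.Structure K] [Field K]
    {O : ValuationSubring K} {sy : ValSymbols L} (hO : IsValued sy O) {l : ℕ∞}
    (h : HMinAt O L l) : HMinNe O L l := by
  intro lam h0 h1 A A' hA' hc X hX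
  obtain ⟨C, hC, hCd, hCp⟩ := h lam h0 h1 A A' hA' hc X hX
  refine ⟨C ∪ {0}, hC.union (Set.finite_singleton 0), ⟨0, Or.inr rfl⟩, ?_, ?_⟩
  · have h2 : Df L (fun w : Fin 1 → K => w 0 = 0) :=
      Df.eq (DfF.var 0) (hO.vf.fzero)
    have h3 : A.Definable L {w : Fin 1 → K | w 0 = 0} :=
      Set.Definable.mono h2 (Set.empty_subset A)
    exact Set.Definable.union hCd h3
  · intro x x' hx
    exact hCp x x' fun c hc => hx c (Or.inl hc)

theorem hMinAt_of' {L : FirstOrder.Language.{u, u}} {K : Type u} [L.Structure K] [Field K]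
    {O : ValuationSubring K} {l : ℕ∞} (h : HMinNe O L l) : HMinAt O L l := by
  intro lam h0 h1 A A' hA' hc X hX
  obtain ⟨C, hC, _, hCd, hCp⟩ := h lam h0 h1 A A' hA' hc X hX
  exact ⟨C, hC, hCd, hCp⟩

theorem HMinAt.mono' {L : FirstOrder.Language.{u, u}} {K : Type u} [L.Structure K] [Field K]
    {O : ValuationSubring K} {s t : ℕ∞} (hst : s ≤ t) (h : HMinAt O L t) : HMinAt O L s := by
  intro lam h0 h1 A A' hA' hcard X hX
  exact h lam h0 h1 A A' hA' (hcard.trans hst) X hX

/-! ### definability in the reduct -/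

section reduct

variable {L L₂ : FirstOrder.Language.{u, u}}

theorem df_reduct {L' : FirstOrder.Language.{u, u}} (θ : L →ᴸ L') {N : Type u} [L'.Structure N]
    [L.Structure N] [θ.IsExpansionOn N] {α : Type} {P : (α → N) → Prop} (h : Df L P) :
    Df L' P := by
  obtain ⟨φ, hφ⟩ := df_iff.1 h
  exact df_iff.2 ⟨θ.onFormula φ, fun w => by rw [LHom.realize_onFormula]; exact hφ w⟩

theorem df_fun {N : Type u} [L.Structure N] {n : ℕ} (f : L.Functions n) :
    DfF L (fun w : Fin n → N => (funMap f w : N)) := by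
  unfold DfF
  rw [df_iff]
  refine ⟨Term.equal (Term.var none) (Term.func f (fun i => Term.var (some i))), fun w => ?_⟩
  rw [Formula.realize_equal, Term.realize_var, Term.realize_func]
  rfl

theorem df_rel {N : Type u} [L.Structure N] {n : ℕ} (r : L.Relations n) :
    Df L (fun w : Fin n → N => RelMap r w) := by
  rw [df_iff]
  refine ⟨r.formula (fun i => Term.var i), fun w => ?_⟩
  rw [Formula.realize_rel]
  rfl

end reduct

/-- If the theory of `K` in an RV-expansion is `l`-h-minimal, so is its theory in the original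
language. -/
theorem hMinTh_of_expansion {L : FirstOrder.Language.{u, u}} {sy : ValSymbols L} {K : Type u}
    [L.Structure K] [Field K] {O : ValuationSubring K} (hO : IsValued sy O) (hnt : O ≠ ⊤)
    {R : ℕ → Type u} (I : ∀ n, R n → Set (Fin n → RV O 1)) {l : ℕ∞}
    (h : letI := rvPreds O I; HMinTh (sy.expand R) K l) : HMinTh sy K l := by
  classical
  intro M _ _ O1 hKM hO1
  let _ : (PredLang R).Structure K := rvPreds O I
  obtain ⟨N0, iN0, j0, ⟨i0⟩⟩ := exists_joint (L₂ := PredLang R) hKM
  have : Nonempty N0 := ⟨j0 0⟩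
  obtain ⟨N, iN, j1, hN⟩ := exists_satur_extension (L := L.sum (PredLang R)) N0
  let θ : L →ᴸ L.sum (PredLang R) := LHom.sumInl
  let j : K ↪ₑ[L.sum (PredLang R)] N := j1.comp j0
  let _ : L.Structure N := θ.reduct N
  let _ : L.Structure N0 := θ.reduct N0
  let i : M ↪ₑ[L] N := ⟨fun m => j1 (i0 m), fun n φ x => by
    have h1 := j1.map_formula (θ.onFormula φ) (fun k => i0 (x k))
    rw [LHom.realize_onFormula, LHom.realize_onFormula] at h1
    have h2 := i0.map_formula φ x
    exact h1.trans h2⟩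
  have hOK : IsValued (sy.expand R) O :=
    ⟨fun x y => hO.add x y, fun x y => hO.mul x y, fun x => hO.ring x, hO.char_zero⟩
  obtain ⟨fN, O', hO'⟩ := exists_valued j hOK
  have hO'L : IsValued sy O' :=
    ⟨fun x y => hO'.add x y, fun x y => hO'.mul x y, fun x => hO'.ring x, hO'.char_zero⟩
  have hm : HMinAt O' (L.sum (PredLang R)) l :=
    hMinAt_of' (h N O' j.elementarilyEquivalent hO')
  have hm0 : HMinAt O' (L.sum (PredLang R)) 0 := hm.mono' (zero_le)
  have hLL : ∀ {α : Type} {P : (α → N) → Prop}, Df L P → Df (L.sum (PredLang R)) P :=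
    fun h => df_reduct θ h
  have hV : VF L O'.valuation := hO'L.vf
  have hV' : VF (L.sum (PredLang R)) O'.valuation := hO'.vf
  have hX : RVX L (L.sum (PredLang R)) O'.valuation := by
    refine ⟨fun n f => ?_, fun n r => ?_⟩
    · rcases f with f | f
      · exact df_fun (L := L) f
      · exact f.elim
    · rcases r with r | r
      · exact Or.inl (df_rel (L := L) r)
      · right
        intro x y hxy
        let r' : (L.sum (PredLang R)).Relations n := Sum.inr r
        change RelMap r' x ↔ RelMap r' y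
        have hP : Df (L.sum (PredLang R)) (fun q : Empty ⊕ (Fin n ⊕ Fin n) → N =>
            (∀ i, RVeq O'.valuation (q (Sum.inr (Sum.inl i))) (q (Sum.inr (Sum.inr i)))) →
            (RelMap r' (fun i => q (Sum.inr (Sum.inl i))) ↔
              RelMap r' (fun i => q (Sum.inr (Sum.inr i))))) := by
          refine Df.imp (Df.all_fin fun i => hV'.rveq (dvar _) (dvar _)) (Df.iff ?_ ?_)
          · exact (df_rel (N := N) r').relabel (β := Empty ⊕ (Fin n ⊕ Fin n))
              (fun i => Sum.inr (Sum.inl i))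
          · exact (df_rel (N := N) r').relabel (β := Empty ⊕ (Fin n ⊕ Fin n))
              (fun i => Sum.inr (Sum.inr i))
        refine all_transfer j hP Empty.elim (fun s hs => ?_) (Sum.elim x y) hxy
        change RelMap r' (j ∘ (fun k => s (Sum.inl k))) ↔
          RelMap r' (j ∘ (fun k => s (Sum.inr k)))
        rw [j.map_rel, j.map_rel]
        have h3 : (fun k => rv O 1 (s (Sum.inl k))) = fun k => rv O 1 (s (Sum.inr k)) := by
          funext k
          exact (rv_one_iff _ _).2 ((j_rveq j hOK hO' _ _).1 (hs k))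
        change (fun k => rv O 1 (s (Sum.inl k))) ∈ I n r ↔ (fun k => rv O 1 (s (Sum.inr k))) ∈ I n r
        rw [h3]
  have hnt' : ∃ t : N, t ≠ 0 ∧ O'.valuation t < 1 := by
    obtain ⟨x, hx⟩ : ∃ x, x ∉ O := by
      by_contra hc
      push Not at hc
      exact hnt (eq_top_iff.2 fun x _ => hc x)
    have hx0 : x ≠ 0 := fun h => hx (h ▸ O.zero_mem)
    refine ⟨j x⁻¹, fun h => ?_, ?_⟩
    · have h1 : x⁻¹ = 0 := j.injective (h.trans (j_zero j hOK hO').symm)
      exact hx0 (inv_eq_zero.1 h1)
    · have h1 : O.valuation x⁻¹ < 1 := by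
        rw [← O.valuation_le_one_iff, not_le] at hx
        rw [map_inv₀]
        exact inv_lt_one_of_one_lt₀ hx
      have hj1 : j 1 = 1 := by
        have h2 := j_mul j hOK hO' 1 1
        rw [mul_one] at h2
        have h3 : j 1 ≠ 0 := fun h => one_ne_zero (j.injective (h.trans (j_zero j hOK hO').symm))
        exact (mul_eq_left₀ h3).1 h2.symm
      rw [← not_le, ← map_one O'.valuation, ← hj1, j_le j hOK hO', map_one, not_le]
      exact h1
  have hacl : ∀ (ι : Type) [Finite ι] (a : ι → N), acl (L.sum (PredLang R)) a ⊆ acl L a := by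
    intro ι _ a
    exact acl_le hN hV hV' hX hLL (fun ι _ a y y' h => RE_of_nr1 hO' hm0 a y y' h) hnt' a
  exact hMinNe_of' hO1 (hminAt_transfer i hO1 hO'L hLL hacl hm)

end Pool.Agent.R611.HM
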