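import Pool.Agent.R611.HM.VF

/-!
# Moves in a saturated Hensel minimal valued field: basic existence statements
-/

set_option autoImplicit false

namespace Pool.Agent.R611.HM

open FirstOrder Language Structure Set

universe u w

variable {L : FirstOrder.Language.{u, u}} {K : Type u} [L.Structure K] [Field K]
variable {Γ : Type w} [LinearOrderedCommGroupWithZero Γ] {v : Valuation K Γ}

/-- The type-level form of `n`-h-minimality in a saturated model. -/
def TH (L : FirstOrder.Language.{u, u}) {K : Type u} [L.Structure K] [Field K]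
    {Γ : Type w} [LinearOrderedCommGroupWithZero Γ] (v : Valuation K Γ) (n : ℕ) : Prop :=
  ∀ (ι : Type) [Finite ι] (a : ι → K) (Z : Set K), Z.Finite → ∀ (x : Fin n → K) (l y y' : K),
    l ≠ 0 → v l ≤ 1 → (∀ c ∈ acl L a, v (y' - y) < v l * v (y - c)) →
    ∃ S, Mv L v a Z S ∧ (y, y') ∈ S ∧ ∀ j, ∃ x', (x j, x') ∈ S ∧ RVl v l (x j) x'

/-- `x'` is `l`-next to `x` over `a`. -/
def nr (L : FirstOrder.Language.{u, u}) {K : Type u} [L.Structure K] [Field K]
    {Γ : Type w} [LinearOrderedCommGroupWithZero Γ] (v : Valuation K Γ) (l : K)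
    {ι : Type} (a : ι → K) (x x' : K) : Prop := ∀ c ∈ acl L a, v (x' - x) < v l * v (x - c)

/-- `x'` is 1-next to `x` over `a`. -/
def nr1 (L : FirstOrder.Language.{u, u}) {K : Type u} [L.Structure K] [Field K]
    {Γ : Type w} [LinearOrderedCommGroupWithZero Γ] (v : Valuation K Γ)
    {ι : Type} (a : ι → K) (x x' : K) : Prop := ∀ c ∈ acl L a, v (x' - x) < v (x - c)

theorem nr1_iff {ι : Type} (a : ι → K) (x x' : K) : nr1 L v a x x' ↔ nr L v 1 a x x' := by
  unfold nr1 nr
  simp

namespace nr1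

variable {ι : Type} {a : ι → K} {x x' : K}

theorem dist (h : nr1 L v a x x') {c : K} (hc : c ∈ acl L a) : v (x' - c) = v (x - c) :=
  v_dist_eq (by rw [v_sub_comm]; exact h c hc)

theorem symm (h : nr1 L v a x x') : nr1 L v a x' x := fun c hc => by
  rw [h.dist hc, v_sub_comm]; exact h c hc

theorem trans {x'' : K} (h : nr1 L v a x x') (h' : nr1 L v a x' x'') : nr1 L v a x x'' := by
  intro c hc
  have h1 := h c hc
  have h2 := h' c hc
  rw [h.dist hc] at h2
  exact v_tri_lt h2 h1

theorem notMem (h : nr1 L v a x x') : x ∉ acl L a := fun hx => by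
  have := h x hx
  rw [sub_self, map_zero] at this
  exact absurd this not_lt_zero

theorem notMem' (h : nr1 L v a x x') : x' ∉ acl L a := h.symm.notMem

theorem refl (h : x ∉ acl L a) : nr1 L v a x x := fun c hc => by
  rw [sub_self, map_zero]
  exact (Valuation.pos_iff v).2 (sub_ne_zero.2 fun e => h (e ▸ hc))

theorem of_le {y : K} (h : nr1 L v a x x') (hy : v (y - x) ≤ v (x' - x)) : nr1 L v a x y :=
  fun c hc => hy.trans_lt (h c hc)

end nr1

theorem nr.to1 {ι : Type} {a : ι → K} {x x' l : K} (h : nr L v l a x x') (hl : v l ≤ 1) :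
    nr1 L v a x x' := fun c hc => (h c hc).trans_le (mul_le_of_le_one_left' hl)

theorem nr1.mono_acl {ι κ : Type} {a : ι → K} {b : κ → K} {x x' : K} (h : nr1 L v b x x')
    (hab : acl L a ⊆ acl L b) : nr1 L v a x x' := fun c hc => h c (hab hc)

/-- the identity as a move -/
theorem Mv.idm {ι : Type} [Finite ι] (a : ι → K) {Z X : Set K} (hZ : Z.Finite) (hX : X.Finite) :
    Mv L v a Z ((fun x => (x, x)) '' (Z ∪ X ∪ Set.range a)) where
  el := (El.diag L K).mono (by rintro _ ⟨x, _, rfl⟩; rfl)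
  fin := ((hZ.union hX).union (Set.finite_range a)).image _
  fix := fun i => ⟨a i, Or.inr ⟨i, rfl⟩, rfl⟩
  rig := fun z hz => ⟨z, ⟨z, Or.inl (Or.inl hz), rfl⟩, RVeq.refl z⟩

section

variable (hK : Satur L K) (hV : VF L v) (h1 : TH L v 1)
variable {ι : Type} [Finite ι] (a : ι → K)

include h1 in
/-- `H_0` -/
theorem H0 {Z : Set K} (hZ : Z.Finite) {y y' : K} (h : nr1 L v a y y') :
    ∃ S, Mv L v a Z S ∧ (y, y') ∈ S := by
  obtain ⟨S, hS, hy, _⟩ := h1 ι a Z hZ (fun _ => 0) 1 y y' one_ne_zero (by simp)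
    (fun c hc => by rw [map_one, one_mul]; exact h c hc)
  exact ⟨S, hS, hy⟩

include h1 in
/-- `H_1` -/
theorem H1 {Z : Set K} (hZ : Z.Finite) {l y y' : K} (hl : l ≠ 0) (hl1 : v l ≤ 1)
    (h : nr L v l a y y') (x : K) :
    ∃ S x', Mv L v a Z S ∧ (y, y') ∈ S ∧ (x, x') ∈ S ∧ RVl v l x x' := by
  obtain ⟨S, hS, hy, hx⟩ := h1 ι a Z hZ (fun _ => x) l y y' hl hl1 h
  obtain ⟨x', h2, h3⟩ := hx 0
  exact ⟨S, x', hS, hy, h2, h3⟩

theorem exists_min_dist {C : Set K} (hC : C.Finite) (hne : C.Nonempty) (x : K) :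
    ∃ c ∈ C, ∀ c' ∈ C, v (x - c) ≤ v (x - c') := by
  obtain ⟨c, hc, hmin⟩ := hC.exists_minimalFor (fun c => v (x - c)) C hne
  refine ⟨c, hc, fun c' hc' => ?_⟩
  rcases le_total (v (x - c)) (v (x - c')) with h | h
  · exact h
  · exact hmin hc' h

include hK hV h1 in
/-- `H_1` with control relative to all algebraic points -/
theorem H1inf {Z : Set K} (hZ : Z.Finite) {l y y' : K} (hl : l ≠ 0) (hl1 : v l ≤ 1)
    (h : nr L v l a y y') {x : K} (hx : x ∉ acl L a) :
    ∃ S x', Mv L v a Z S ∧ (y, y') ∈ S ∧ (x, x') ∈ S ∧ nr L v l a x x' := by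
  classical
  obtain ⟨n, z, hz⟩ : ∃ (n : ℕ) (z : Fin n → K), Set.range z = Z := by
    have := hZ.to_subtype
    obtain ⟨n, ⟨e⟩⟩ := Finite.exists_equiv_fin Z
    refine ⟨n, fun i => (e.symm i).1, ?_⟩
    ext x
    constructor
    · rintro ⟨i, rfl⟩; exact (e.symm i).2
    · intro hx; exact ⟨e ⟨x, hx⟩, by simp⟩
  let S0 : Set (K × K) := insert (y, y') (Set.range fun i => (a i, a i))
  have hS0 : S0.Finite := (Set.finite_range _).insert _
  have hvar : ∀ {β : Type} [Finite β] (i : β), DfF L (fun w : β → K => w i) :=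
    fun i => DfF.var i
  obtain ⟨u', hel, hQ, hR⟩ := sat_acl (L := L) hK hS0 (oc x z) (oc l (oc x z)) a
    (fun u' p => ∀ i : Fin n, RVeq v (p (some (some i))) (u' (some i)))
    (Df.all_fin fun i => hV.rveq (hvar _) (hvar _))
    (fun c u' p => v (u' none - p (some none)) < v (p none * (p (some none) - c)))
    (hV.vlt (hV.fsub (hvar _) (hvar _)) (hV.fmul (hvar _) (hV.fsub (hvar _) (hvar _))))
    (by
      intro C hC hCa
      obtain ⟨c0, hc0, hmin⟩ : ∃ c ∈ acl L a, ∀ c' ∈ C, v (x - c) ≤ v (x - c') := by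
        by_cases hne : C.Nonempty
        · obtain ⟨c, hc, h'⟩ := exists_min_dist (v := v) hC hne x
          exact ⟨c, hCa hc, h'⟩
        · rw [Set.not_nonempty_iff_eq_empty] at hne
          exact ⟨0, zero_mem_acl hV a, fun c' hc' => by
            rw [hne] at hc'; exact absurd hc' (Set.notMem_empty _)⟩
      have hacl : acl L (oc c0 a) ⊆ acl L a := acl_oc_le (mem_acl_self a) hc0
      obtain ⟨S, w', hS, hy, hw, hrv⟩ := H1 h1 (oc c0 a) (Z := Z ∪ {x})
        (hZ.union (Set.finite_singleton x)) hl hl1 (fun c hc => h c (hacl hc)) (x - c0)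
      obtain ⟨x', hx', _⟩ := hS.rig x (Or.inr rfl)
      choose z' hz' hrz using fun i => hS.rig (z i) (Or.inl (hz ▸ ⟨i, rfl⟩))
      have hw' : w' = x' - c0 := Mv.el_sub hV hS.el hx' hS.fixx hw
      have hxc0 : x - c0 ≠ 0 := sub_ne_zero.2 fun e => hx (e ▸ hc0)
      refine ⟨oc x' z', hS.el.mono ?_, fun i => hrz i, fun c hc => ?_⟩
      · rintro p ((rfl | ⟨i, rfl⟩) | ⟨o, rfl⟩)
        · exact hy
        · exact hS.fix (some i)
        · rcases o with _ | i
          · exact hx'
          · exact hz' i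
      · have h2 : v (x' - x) < v l * v (x - c0) := by
          rcases hrv with ⟨h3, _⟩ | h3
          · exact absurd h3 hxc0
          · rw [hw'] at h3
            have e : x - c0 - (x' - c0) = -(x' - x) := by ring
            rw [e, Valuation.map_neg] at h3
            exact h3
        change v (x' - x) < v (l * (x - c))
        rw [map_mul]
        exact h2.trans_le (mul_le_mul_right (hmin c hc) _))
  refine ⟨_, u' none, ⟨hel, hS0.union (Set.finite_range _), fun i => Or.inl (Or.inr ⟨i, rfl⟩),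
    ?_⟩, Or.inl (Or.inl rfl), Or.inr ⟨none, rfl⟩, fun c hc => ?_⟩
  · intro w hw
    rw [← hz] at hw
    obtain ⟨i, rfl⟩ := hw
    exact ⟨u' (some i), Or.inr ⟨some i, rfl⟩, hQ i⟩
  · have := hR c hc
    change v (u' none - x) < v (l * (x - c)) at this
    rwa [map_mul] at this

include hK hV h1 in
theorem H0inf {Z : Set K} (hZ : Z.Finite) {y y' : K}
    (h : nr1 L v a y y') {x : K} (hx : x ∉ acl L a) :
    ∃ S x', Mv L v a Z S ∧ (y, y') ∈ S ∧ (x, x') ∈ S ∧ nr1 L v a x x' := by
  obtain ⟨S, x', hS, h2, h3, h4⟩ := H1inf hK hV h1 a hZ one_ne_zero (by simp)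
    ((nr1_iff a y y').1 h) hx
  exact ⟨S, x', hS, h2, h3, (nr1_iff a x x').2 h4⟩

include hK hV in
/-- there are nontrivial next points -/
theorem exists_small (hnt : ∃ t : K, t ≠ 0 ∧ v t < 1) {l : K} (hl : l ≠ 0) {x : K}
    (hx : x ∉ acl L a) : ∃ x', x' ≠ x ∧ nr L v l a x x' := by
  classical
  obtain ⟨t, ht0, ht1⟩ := hnt
  have hvar : ∀ {β : Type} [Finite β] (i : β), DfF L (fun w : β → K => w i) :=
    fun i => DfF.var i
  obtain ⟨u', h1, h2⟩ := sat_acl' (L := L) hK (α := Unit) (β := Bool)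
    (fun b => if b then l else x) a
    (fun u' p => u' () ≠ p false)
    ((Df.eq (hvar _) (hvar _)).not)
    (fun c u' p => v (u' () - p false) < v (p true * (p false - c)))
    (hV.vlt (hV.fsub (hvar _) (hvar _)) (hV.fmul (hvar _) (hV.fsub (hvar _) (hvar _))))
    (by
      intro C hC hCa
      obtain ⟨c0, hc0, hmin⟩ : ∃ c ∈ acl L a, ∀ c' ∈ C, v (x - c) ≤ v (x - c') := by
        by_cases hne : C.Nonempty
        · obtain ⟨c, hc, h'⟩ := exists_min_dist (v := v) hC hne x
          exact ⟨c, hCa hc, h'⟩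
        · rw [Set.not_nonempty_iff_eq_empty] at hne
          exact ⟨0, zero_mem_acl hV a, fun c' hc' => by
            rw [hne] at hc'; exact absurd hc' (Set.notMem_empty _)⟩
      have hxc0 : x - c0 ≠ 0 := sub_ne_zero.2 fun e => hx (e ▸ hc0)
      refine ⟨fun _ => x + t * (l * (x - c0)), ?_, ?_⟩
      · simp [ht0, hl, hxc0]
      · intro c hc
        have e : x + t * (l * (x - c0)) - x = t * (l * (x - c0)) := by ring
        simp only [e, if_true, Bool.false_eq_true, if_false]
        rw [map_mul]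
        have h3 : v (l * (x - c0)) ≤ v (l * (x - c)) := by
          rw [map_mul, map_mul]
          exact mul_le_mul_right (hmin c hc) _
        refine lt_of_lt_of_le ?_ h3
        have hpos : 0 < v (l * (x - c0)) := (Valuation.pos_iff v).2 (mul_ne_zero hl hxc0)
        calc v t * v (l * (x - c0)) < 1 * v (l * (x - c0)) :=
              mul_lt_mul_of_pos_right ht1 hpos
          _ = _ := one_mul _)
  refine ⟨u' (), by simpa using h1, fun c hc => ?_⟩
  have := h2 c hc
  simp only [if_true, Bool.false_eq_true, if_false, map_mul] at this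
  exact this

include hK hV in
theorem exists_small1 (hnt : ∃ t : K, t ≠ 0 ∧ v t < 1) {x : K}
    (hx : x ∉ acl L a) : ∃ x', x' ≠ x ∧ nr1 L v a x x' := by
  obtain ⟨x', h1, h2⟩ := exists_small hK hV a hnt one_ne_zero hx
  exact ⟨x', h1, (nr1_iff a x x').2 h2⟩

include hK hV in
/-- A property of points depending only on the value of `g`, which holds on the ball 1-next to
`u`, holds at some point with attained distance bigger than `v g`. -/
theorem attain {β : Type} [Finite β] (Q : K → (β → K) → Prop)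
    (hQ : Df L (fun w : Option β → K => Q (w none) (fun i => w (some i)))) (p : β → K) {u g : K}
    (hg : ∀ c ∈ acl L a, v g < v (u - c)) (hQu : ∀ u', nr1 L v a u u' → Q u' p) :
    ∃ u' a1, a1 ∈ acl L a ∧ Q u' p ∧ v g < v (u' - a1) ∧ ∀ c ∈ acl L a, v (u' - a1) ≤ v (u' - c) := by
  classical
  have hvar : ∀ {β : Type} [Finite β] (i : β), DfF L (fun w : β → K => w i) :=
    fun i => DfF.var i
  have hu : u ∉ acl L a := by
    intro hu
    have := hg u hu
    rw [sub_self, map_zero] at this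
    exact absurd this not_lt_zero
  by_cases hatt : ∃ a1 ∈ acl L a, ∀ c ∈ acl L a, v (u - a1) ≤ v (u - c)
  · obtain ⟨a1, ha1, hmin⟩ := hatt
    exact ⟨u, a1, ha1, hQu u (nr1.refl hu), hg a1 ha1, hmin⟩
  push Not at hatt
  obtain ⟨C, hC, hCa, hCQ⟩ : ∃ C : Set K, C.Finite ∧ C ⊆ acl L a ∧
      ∀ u', (∀ c ∈ C, v (u' - u) < v (u - c)) → Q u' p := by
    by_contra hcon
    push Not at hcon
    obtain ⟨u', h1, h2⟩ := sat_acl' (L := L) hK (α := Unit) (β := Option β) (oc u p) a
      (fun u' p' => ¬ Q (u' ()) (fun i => p' (some i)))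
      (by
        refine Df.not ?_
        exact hQ.relabel (β := Unit ⊕ Option β)
          (fun o : Option β => (o.elim (Sum.inl ()) (fun j => Sum.inr (some j)) :
            Unit ⊕ Option β)))
      (fun c u' p' => v (u' () - p' none) < v (p' none - c))
      (hV.vlt (hV.fsub (hvar _) (hvar _)) (hV.fsub (hvar _) (hvar _)))
      (by
        intro C hC hCa
        obtain ⟨u', h1, h2⟩ := hcon C hC hCa
        exact ⟨fun _ => u', h2, h1⟩)
    exact h1 (hQu _ h2)
  obtain ⟨a1, ha1, ha1C⟩ : ∃ a1 ∈ acl L a, ∀ c ∈ C, v (u - a1) < v (u - c) := by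
    by_cases hne : C.Nonempty
    · obtain ⟨c0, hc0, hmin⟩ := exists_min_dist (v := v) hC hne u
      obtain ⟨a1, ha1, h⟩ := hatt c0 (hCa hc0)
      exact ⟨a1, ha1, fun c hc => h.trans_le (hmin c hc)⟩
    · rw [Set.not_nonempty_iff_eq_empty] at hne
      exact ⟨0, zero_mem_acl hV a, fun c' hc' => by
        rw [hne] at hc'; exact absurd hc' (Set.notMem_empty _)⟩
  have hua1 : u - a1 ≠ 0 := sub_ne_zero.2 fun e => hu (e ▸ ha1)
  obtain ⟨u', h1, h2⟩ := sat_acl' (L := L) hK (α := Unit) (β := Bool)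
    (fun b => if b then u else a1) a
    (fun u' p' => v (u' () - p' false) ≤ v (p' true - p' false))
    (hV.vle (hV.fsub (hvar _) (hvar _)) (hV.fsub (hvar _) (hvar _)))
    (fun c u' p' => v (p' true - p' false) ≤ v (u' () - c))
    (hV.vle (hV.fsub (hvar _) (hvar _)) (hV.fsub (hvar _) (hvar _)))
    (by
      intro C' hC' _
      simp only [if_true, Bool.false_eq_true, if_false]
      by_contra hcon
      push Not at hcon
      have h3 : ∀ n : ℕ, ∃ c ∈ C', v (a1 + n * (u - a1) - c) < v (u - a1) := by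
        intro n
        refine hcon (fun _ => a1 + n * (u - a1)) ?_
        have e : a1 + n * (u - a1) - a1 = n * (u - a1) := by ring
        rw [e, map_mul]
        rcases Nat.eq_zero_or_pos n with h | h
        · rw [h]; simp
        · rw [hV.nat n h.ne', one_mul]
      choose c hcC hc using h3
      have : Finite C' := hC'
      obtain ⟨n, m, hnm, he⟩ := Finite.exists_ne_map_eq_of_infinite
        (fun n : ℕ => (⟨c n, hcC n⟩ : C'))
      have he' : c n = c m := congrArg Subtype.val he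
      have key : ∀ n m : ℕ, n < m → c n = c m → False := by
        intro n m hlt he'
        have h4 := v_sub_lt (hc m) (hc n)
        have e : a1 + m * (u - a1) - c m - (a1 + n * (u - a1) - c n) =
            ((m - n : ℕ) : K) * (u - a1) := by
          rw [he', Nat.cast_sub hlt.le]; ring
        rw [e, map_mul, hV.nat (m - n) (by omega), one_mul] at h4
        exact lt_irrefl _ h4
      rcases lt_or_gt_of_ne hnm with h | h
      · exact key n m h he'
      · exact key m n h he'.symm)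
  simp only [if_true, Bool.false_eq_true, if_false] at h1 h2
  have h3 : v (u' () - a1) = v (u - a1) := le_antisymm h1 (h2 a1 ha1)
  refine ⟨u' (), a1, ha1, hCQ _ fun c hc => ?_, ?_, fun c hc => ?_⟩
  · refine lt_of_le_of_lt ?_ (ha1C c hc)
    exact v_tri h1 (by rw [v_sub_comm])
  · rw [h3]; exact hg a1 ha1
  · rw [h3]; exact h2 c hc

/-- a move agrees with any compatible enumeration of the fibres -/
theorem rig_enum (hV : VF L v) {κ : Type} [Finite κ] {b b' : κ → K}
    {P : (κ → K) → K → Prop}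
    (hP : Df L (fun w : Option κ → K => P (fun i => w (some i)) (w none)))
    (hf : {x | P b x}.Finite) {T : Set (K × K)} {ι : Type} {a : ι → K} {Z : Set K}
    (hT : Mv L v a Z T) (hZ : dif {x | P b x} ⊆ Z) (hTb : ∀ i, (b i, b' i) ∈ T)
    {γ : Type*} {t t' : γ → K} (ht : ∀ e, P b e ↔ ∃ i, t i = e) (ht' : ∀ e, P b' e ↔ ∃ i, t' i = e)
    (hr : ∀ i j, RVeq v (t i - t j) (t' i - t' j)) (i : γ) : (t i, t' i) ∈ T := by
  classical
  have hTd : ∀ e, P b e → ∃ e', (e, e') ∈ T := fun e he => by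
    obtain ⟨z, hz, _⟩ := hT.rig e (hZ (mem_dif he)); exact ⟨z, hz⟩
  have hex : ∀ x', P b' x' → ∃ x'', ∃ i, (t i, x') ∈ T ∧ x'' = t' i := by
    intro x' hx'
    obtain ⟨e, he, hee⟩ := orbit_surj hT.el hTb hP hf hTd hx'
    obtain ⟨i, rfl⟩ := (ht e).1 he
    exact ⟨_, i, hee, rfl⟩
  let f : K → K := fun x' => if h : P b' x' then (hex x' h).choose else 0
  have hfspec : ∀ x', P b' x' → ∃ i, (t i, x') ∈ T ∧ f x' = t' i := by
    intro x' hx'
    simp only [f, dif_pos hx']
    exact (hex x' hx').choose_spec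
  have hf' : {x | P b' x}.Finite := by
    have hsub : {x | P b' x} ⊆ (fun p : K × K => p.2) '' T := by
      intro x hx
      obtain ⟨e, he, hee⟩ := orbit_surj hT.el hTb hP hf hTd hx
      exact ⟨_, hee, rfl⟩
    exact (hT.fin.image _).subset hsub
  have key := rigid hV.nat hf' (f := f) (by
    intro x hx
    obtain ⟨i, _, h3⟩ := hfspec x hx
    rw [h3]
    exact (ht' _).2 ⟨i, rfl⟩) (by
    intro x hx y hy
    obtain ⟨i, h3, h4⟩ := hfspec x hx
    obtain ⟨j, h5, h6⟩ := hfspec y hy
    have h7 := hT.rv_sub hV h3 h5 (hZ (sub_mem_dif ((ht _).2 ⟨i, rfl⟩) ((ht _).2 ⟨j, rfl⟩)))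
    rw [h4, h6]
    exact h7.symm.trans (hr i j))
  obtain ⟨x', hx'⟩ := hTd (t i) ((ht _).2 ⟨i, rfl⟩)
  have hPx' : P b' x' := by
    have := hT.el (Option κ) (fun o => o.elim (t i, x') (fun i => (b i, b' i)))
      (by rintro (_ | i); exacts [hx', hTb i]) _ hP
    exact this.1 ((ht _).2 ⟨i, rfl⟩)
  obtain ⟨j, h3, h4⟩ := hfspec x' hPx'
  have h5 : t j = t i := hT.el.injective h3 hx'
  have h6 : t' j = t' i := by
    have := hr j i
    rw [h5, sub_self] at this
    rcases this with ⟨_, h⟩ | h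
    · exact sub_eq_zero.1 h
    · rw [map_zero] at h
      exact absurd h not_lt_zero
  rw [key x' hPx', h6] at h4
  rw [← h4]
  exact hx'

end

end Pool.Agent.R611.HM
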