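import Mathlib

/-!
# Hensel minimality: the definitions
-/

set_option autoImplicit false

namespace Pool.Agent.R611.HM

open FirstOrder Language Structure

universe u

/-- The symbols of the language of valued fields inside a language `L`: addition, multiplication
and a unary predicate for the valuation ring. So `L` is an expansion of the language of valued
fields. -/
structure ValSymbols (L : FirstOrder.Language.{u, u}) where
  /-- the symbol for addition -/
  add : L.Functions 2
  /-- the symbol for multiplication -/
  mul : L.Functions 2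
  /-- the symbol for the valuation ring -/
  ring : L.Relations 1

/-- The field `K` with the valuation ring `O` is a valued field of equicharacteristic zero, and
the `L`-structure on `K` expands it: the three symbols of `sy` are interpreted by the addition,
the multiplication and `O`. -/
structure IsValued {L : FirstOrder.Language.{u, u}} (sy : ValSymbols L) {K : Type u}
    [L.Structure K] [Field K] (O : ValuationSubring K) : Prop where
  add : ∀ x y : K, funMap sy.add ![x, y] = x + y
  mul : ∀ x y : K, funMap sy.mul ![x, y] = x * y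
  ring : ∀ x : K, RelMap sy.ring ![x] ↔ x ∈ O
  char_zero : CharZero (IsLocalRing.ResidueField O)

section

variable {K : Type u} [Field K] (O : ValuationSubring K)

/-- `x` and `y` have the same class in `RV_lam`, which is `K^×/(1+B_{<lam}(0))` together with `0`:
both are zero, or both are nonzero and `x/y` lies in `1 + B_{<lam}(0)`. For `lam ≤ 1` this is an
equivalence relation. -/
def RvRel (lam : O.ValueGroup) (x y : K) : Prop :=
  (x = 0 ∧ y = 0) ∨ (x ≠ 0 ∧ y ≠ 0 ∧ O.valuation (x / y - 1) < lam)

/-- The set `RV_lam`. -/
def RV (lam : O.ValueGroup) : Type u := Quot (RvRel O lam)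

/-- The quotient map `rv_lam`. -/
def rv (lam : O.ValueGroup) (x : K) : RV O lam := Quot.mk _ x

/-- `X` is `lam`-prepared by `C`. -/
def Prepared (lam : O.ValueGroup) (C X : Set K) : Prop :=
  ∀ x x' : K, (∀ c ∈ C, rv O lam (x - c) = rv O lam (x' - c)) → (x ∈ X ↔ x' ∈ X)

/-- `X ⊆ K` is definable with parameters from `A ∪ RV ∪ A'`, where `A ⊆ K`, `RV = RV_1` and
`A' ⊆ RV_lam`: there are finitely many `ξ_j ∈ RV` and `ζ_i ∈ A'` and an `A`-definable set `Y` such
that `X` is the fibre of `Y` over all tuples `(z, w)` representing `(ξ, ζ)`. -/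
def DefinableOver (L : FirstOrder.Language.{u, u}) [L.Structure K] (lam : O.ValueGroup)
    (A : Set K) (A' : Set (RV O lam)) (X : Set K) : Prop :=
  ∃ (k n : ℕ) (ξ : Fin k → RV O 1) (ζ : Fin n → RV O lam) (Y : Set (Option (Fin k ⊕ Fin n) → K)),
    (∀ i, ζ i ∈ A') ∧ A.Definable L Y ∧
      ∀ (z : Fin k → K) (w : Fin n → K), (∀ j, rv O 1 (z j) = ξ j) →
        (∀ i, rv O lam (w i) = ζ i) → X = {x | (fun o => o.elim x (Sum.elim z w)) ∈ Y}

/-- The condition of `l`-h-minimality for a single valued field `K` (with `l = ⊤` standing for
`l = ω`): for every `lam ≤ 1` in the value group, every `A ⊆ K`, every finite `A' ⊆ RV_lam` with at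
most `l` elements and every `X ⊆ K` definable over `A ∪ RV ∪ A'`, some finite `A`-definable
`C ⊆ K` prepares `X` for `lam`. -/
def HMinAt (L : FirstOrder.Language.{u, u}) [L.Structure K] (l : ℕ∞) : Prop :=
  ∀ lam : O.ValueGroup, lam ≠ 0 → lam ≤ 1 → ∀ (A : Set K) (A' : Set (RV O lam)),
    A'.Finite → A'.encard ≤ l → ∀ X : Set K, DefinableOver O L lam A A' X →
      ∃ C : Set K, C.Finite ∧ A.Definable₁ L C ∧ Prepared O lam C X

end

/-- `T` is a theory of valued fields of equicharacteristic zero. -/
def IsValuedTheory {L : FirstOrder.Language.{u, u}} (sy : ValSymbols L) (T : L.Theory) : Prop :=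
  ∀ (K : Type u) [L.Structure K] [Nonempty K], K ⊨ T →
    ∃ (_ : Field K) (O : ValuationSubring K), IsValued sy O

/-- The theory `T` is `l`-h-minimal: all its models satisfy the condition. -/
def HMin {L : FirstOrder.Language.{u, u}} (sy : ValSymbols L) (T : L.Theory) (l : ℕ∞) : Prop :=
  ∀ (K : Type u) [L.Structure K] [Field K] (O : ValuationSubring K), K ⊨ T → IsValued sy O →
    HMinAt O L l

end Pool.Agent.R611.HM
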