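import Pool.Agent.R611.HM.Def

/-!
# Hensel minimality of the theory of a valued field
-/

set_option autoImplicit false

namespace Pool.Agent.R611.HM

open FirstOrder Language Structure

universe u

/-- The condition of `l`-h-minimality for a single valued field `K` (with `l = ⊤` standing for
`l = ω`), with non-empty preparing sets: for every `lam ≤ 1` in the value group, every `A ⊆ K`,
every finite `A' ⊆ RV_lam` with at most `l` elements and every `X ⊆ K` definable over
`A ∪ RV ∪ A'`, some finite non-empty `A`-definable `C ⊆ K` prepares `X` for `lam`. -/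
def HMinNe {K : Type u} [Field K] (O : ValuationSubring K) (L : FirstOrder.Language.{u, u})
    [L.Structure K] (l : ℕ∞) : Prop :=
  ∀ lam : O.ValueGroup, lam ≠ 0 → lam ≤ 1 → ∀ (A : Set K) (A' : Set (RV O lam)),
    A'.Finite → A'.encard ≤ l → ∀ X : Set K, DefinableOver O L lam A A' X →
      ∃ C : Set K, C.Finite ∧ C.Nonempty ∧ A.Definable₁ L C ∧ Prepared O lam C X

/-- The theory of the valued field `K` in the language `L` is `l`-h-minimal: the condition holds
for all `K'` elementarily equivalent to `K`. -/
def HMinTh {L : FirstOrder.Language.{u, u}} (sy : ValSymbols L) (K : Type u) [L.Structure K]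
    (l : ℕ∞) : Prop :=
  ∀ (K' : Type u) [L.Structure K'] [Field K'] (O' : ValuationSubring K'), K ≅[L] K' →
    IsValued sy O' → HMinNe O' L l

end Pool.Agent.R611.HM
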