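import Mathlib

/-!
# Existence of omega-saturated elementary extensions (arbitrary languages)
-/

set_option autoImplicit false

namespace Pool.Agent.R611.HM

open FirstOrder Language Structure

universe u

variable {L : FirstOrder.Language.{u, u}}

/-- compactness over `U`, by an ultrapower -/
theorem compactU {U : Type u} [L.Structure U] {δ : Type u} [Nonempty U] (S : Set (L.Formula (δ ⊕ U)))
    (h : ∀ S₀ ⊆ S, S₀.Finite → ∃ v : δ → U, ∀ φ ∈ S₀, φ.Realize (Sum.elim v id)) :
    ∃ (N : Type u) (_ : L.Structure N) (j : U ↪ₑ[L] N) (v : δ → N),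
      ∀ φ ∈ S, φ.Realize (Sum.elim v j) := by
  classical
  let I := Finset S
  have hv : ∀ F : I, ∃ v : δ → U, ∀ φ ∈ F, (φ : L.Formula (δ ⊕ U)).Realize (Sum.elim v id) := by
    intro F
    obtain ⟨v, hv⟩ := h (Subtype.val '' (F : Set S)) (by rintro _ ⟨φ, _, rfl⟩; exact φ.2)
      (F.finite_toSet.image _)
    exact ⟨v, fun φ hφ => hv φ ⟨φ, hφ, rfl⟩⟩
  choose w hw using hv
  let 𝓤 : Ultrafilter I := Ultrafilter.of Filter.atTop
  let N := (𝓤 : Filter I).Product (fun _ => U)
  let j : U ↪ₑ[L] N :=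
    { toFun := fun u => ((fun _ => u : I → U) : (𝓤 : Filter I).Product (fun _ => U))
      map_formula' := by
        intro n φ x
        have := Ultraproduct.realize_formula_cast (u := 𝓤) (M := fun _ : I => U) φ
          (fun i _ => x i)
        refine this.trans ?_
        simp }
  refine ⟨N, inferInstance, j, fun d => ((fun F => w F d : I → U) :
    (𝓤 : Filter I).Product (fun _ => U)), fun φ hφ => ?_⟩
  have e : (Sum.elim (fun d => ((fun F => w F d : I → U) :
      (𝓤 : Filter I).Product (fun _ => U))) j : δ ⊕ U → N) =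
      fun i => ((fun F => Sum.elim (w F) id i : I → U) :
        (𝓤 : Filter I).Product (fun _ => U)) := by
    funext i
    rcases i with i | i <;> rfl
  rw [e]
  refine (Ultraproduct.realize_formula_cast (u := 𝓤) (M := fun _ : I => U) φ
    (fun i F => Sum.elim (w F) id i)).2 ?_
  have h1 : ∀ᶠ F : I in Filter.atTop, φ.Realize (fun i => Sum.elim (w F) id i) := by
    filter_upwards [Filter.eventually_ge_atTop ({⟨φ, hφ⟩} : I)] with F hF
    exact hw F ⟨φ, hφ⟩ (hF (Finset.mem_singleton_self _))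
  exact (Ultrafilter.of_le _) h1

/-- `N` realises the finitely satisfiable sets of formulas with parameters in the tuple `a`. -/
def FinSat {M : Type u} [L.Structure M] {n m : ℕ} (a : Fin m → M)
    (P : Set (L.Formula (Fin n ⊕ Fin m))) : Prop :=
  ∀ P₀ ⊆ P, P₀.Finite → ∃ x : Fin n → M, ∀ φ ∈ P₀, φ.Realize (Sum.elim x a)

/-- one step -/
theorem exists_step (M : Type u) [L.Structure M] [Nonempty M] :
    ∃ (N : Type u) (_ : L.Structure N) (j : M ↪ₑ[L] N),
      ∀ (n m : ℕ) (a : Fin m → M) (P : Set (L.Formula (Fin n ⊕ Fin m))), FinSat a P →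
        ∃ x : Fin n → N, ∀ φ ∈ P, φ.Realize (Sum.elim x (j ∘ a)) := by
  classical
  let I : Type u := {q : Σ n : ℕ, Σ m : ℕ, (Fin m → M) × Set (L.Formula (Fin n ⊕ Fin m)) //
    FinSat q.2.2.1 q.2.2.2}
  let δ : Type u := Σ i : I, Fin i.1.1
  let tr : ∀ i : I, L.Formula (Fin i.1.1 ⊕ Fin i.1.2.1) → L.Formula (δ ⊕ M) := fun i φ =>
    φ.relabel (Sum.elim (fun k => Sum.inl ⟨i, k⟩) (fun l => Sum.inr (i.1.2.2.1 l)))
  let S : Set (L.Formula (δ ⊕ M)) := {ψ | ∃ (i : I) (φ : _), φ ∈ i.1.2.2.2 ∧ ψ = tr i φ}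
  obtain ⟨N, hN, j, v, hv⟩ := compactU S (by
    intro S₀ hS₀ hfin
    -- choose representatives
    have h1 : ∀ ψ : S₀, ∃ (i : I) (φ : _), φ ∈ i.1.2.2.2 ∧ (ψ : L.Formula (δ ⊕ M)) = tr i φ :=
      fun ψ => hS₀ ψ.2
    choose ix fx hf he using h1
    have : Finite S₀ := hfin
    have h2 : ∀ i : I, ∃ x : Fin i.1.1 → M, ∀ φ, φ ∈ {φ | ∃ ψ : S₀, ∃ h : ix ψ = i,
        φ = h ▸ fx ψ} → φ.Realize (Sum.elim x i.1.2.2.1) := by
      intro i
      refine i.2 _ ?_ ?_
      · rintro φ ⟨ψ, h, rfl⟩
        subst h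
        exact hf ψ
      · have : {φ : L.Formula (Fin i.1.1 ⊕ Fin i.1.2.1) | ∃ ψ : S₀, ∃ h : ix ψ = i,
            φ = h ▸ fx ψ} = ⋃ ψ : S₀, {φ | ∃ h : ix ψ = i, φ = h ▸ fx ψ} := by
          ext φ
          simp
        rw [this]
        refine Set.finite_iUnion (fun ψ => ?_)
        by_cases h : ix ψ = i
        · subst h
          refine (Set.finite_singleton (fx ψ)).subset ?_
          rintro φ ⟨h', rfl⟩
          rfl
        · refine Set.finite_empty.subset ?_
          rintro φ ⟨h', _⟩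
          exact h h'
    choose x hx using h2
    refine ⟨fun d => x d.1 d.2, fun ψ hψ => ?_⟩
    have h3 := hx (ix ⟨ψ, hψ⟩) (fx ⟨ψ, hψ⟩) ⟨⟨ψ, hψ⟩, rfl, rfl⟩
    have h4 : ψ = tr (ix ⟨ψ, hψ⟩) (fx ⟨ψ, hψ⟩) := he ⟨ψ, hψ⟩
    rw [h4]
    simp only [tr]
    rw [Formula.realize_relabel]
    convert h3 using 1
    funext k
    rcases k with k | k <;> rfl)
  refine ⟨N, hN, j, ?_⟩
  intro n m a P hP
  let i : I := ⟨⟨n, m, a, P⟩, hP⟩
  refine ⟨fun k => v ⟨i, k⟩, fun φ hφ => ?_⟩
  have h1 := hv (tr i φ) ⟨i, φ, hφ, rfl⟩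
  simp only [tr] at h1
  rw [Formula.realize_relabel] at h1
  convert h1 using 1
  funext k
  rcases k with k | k <;> rfl

/-- a stage of the chain -/
structure Stage (L : FirstOrder.Language.{u, u}) where
  M : Type u
  [str : L.Structure M]
  [ne : Nonempty M]

attribute [instance] Stage.str Stage.ne

theorem exists_next (s : Stage L) : ∃ (t : Stage L) (j : s.M ↪ₑ[L] t.M),
    ∀ (n m : ℕ) (a : Fin m → s.M) (P : Set (L.Formula (Fin n ⊕ Fin m))), FinSat a P →
        ∃ x : Fin n → t.M, ∀ φ ∈ P, φ.Realize (Sum.elim x ((j : s.M → t.M) ∘ a)) := by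
  obtain ⟨N, hN, j, h⟩ := exists_step (L := L) s.M
  have : Nonempty N := ⟨j (Classical.arbitrary _)⟩
  exact ⟨⟨N⟩, j, h⟩

noncomputable def nextS (s : Stage L) : Stage L := (exists_next s).choose
noncomputable def nextJ (s : Stage L) : s.M ↪ₑ[L] (nextS s).M := (exists_next s).choose_spec.choose
theorem nextH (s : Stage L) : ∀ (n m : ℕ) (a : Fin m → s.M)
    (P : Set (L.Formula (Fin n ⊕ Fin m))), FinSat a P →
        ∃ x : Fin n → (nextS s).M, ∀ φ ∈ P,
          φ.Realize (Sum.elim x ((nextJ s : s.M → (nextS s).M) ∘ a)) :=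
  (exists_next s).choose_spec.choose_spec

noncomputable def stage (s : Stage L) : ℕ → Stage L
  | 0 => s
  | n + 1 => nextS (stage s n)

section chain

variable (s : Stage L)

/-- carriers -/
abbrev G (n : ℕ) : Type u := (stage s n).M

/-- one-step embeddings -/
noncomputable def f' (n : ℕ) : G s n ↪ₑ[L] G s (n + 1) := nextJ (stage s n)

noncomputable def fe (m n : ℕ) (h : m ≤ n) : G s m ↪[L] G s n :=
  DirectedSystem.natLERec (fun n => (f' s n).toEmbedding) m n h

theorem fe_elem (m n : ℕ) (h : m ≤ n) {α : Type*} (φ : L.Formula α) (v : α → G s m) :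
    φ.Realize (fe s m n h ∘ v) ↔ φ.Realize v := by
  induction n, h using Nat.le_induction with
  | base =>
    have : (fe s m m le_rfl : G s m → G s m) = id := by
      funext x
      simp [fe, DirectedSystem.natLERec, Nat.leRecOn_self]
    rw [this]
    rfl
  | succ n hmn ih =>
    have : (fe s m (n + 1) (hmn.trans (Nat.le_succ n)) ∘ v) = f' s n ∘ (fe s m n hmn ∘ v) := by
      funext x
      simp [fe, DirectedSystem.natLERec, Nat.leRecOn_succ hmn]
    rw [this, (f' s n).map_formula, ih]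

noncomputable instance dirSys : DirectedSystem (G s) (fun i j h => fe s i j h) :=
  DirectedSystem.natLERec.directedSystem (fun n => (f' s n).toEmbedding)

/-- the union of the chain -/
abbrev Lim : Type u := Language.DirectLimit (G s) (fe s)

noncomputable def ofE (i : ℕ) : G s i ↪[L] Lim s := Language.DirectLimit.of L ℕ (G s) (fe s) i

theorem ofE_fe (i j : ℕ) (h : i ≤ j) (x : G s i) : ofE s j (fe s i j h x) = ofE s i x :=
  Language.DirectLimit.of_f

theorem exists_ofE (z : Lim s) : ∃ i x, ofE s i x = z := Language.DirectLimit.exists_of z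

theorem ofE_bounded {α : Type*} {n : ℕ} (φ : L.BoundedFormula α n) :
    ∀ (i : ℕ) (v : α → G s i) (xs : Fin n → G s i),
      φ.Realize (ofE s i ∘ v) (ofE s i ∘ xs) ↔ φ.Realize v xs := by
  have term : ∀ {n : ℕ} (t : L.Term (α ⊕ Fin n)) (i : ℕ) (v : α → G s i) (xs : Fin n → G s i),
      t.realize (Sum.elim (ofE s i ∘ v) (ofE s i ∘ xs)) = ofE s i (t.realize (Sum.elim v xs)) := by
    intro n t i v xs
    rw [← HomClass.realize_term, Sum.comp_elim]
  induction φ with
  | falsum => intros; exact Iff.rfl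
  | equal t1 t2 =>
    intro i v xs
    change t1.realize _ = t2.realize _ ↔ t1.realize _ = t2.realize _
    rw [term, term]
    exact (ofE s i).injective.eq_iff
  | rel R ts =>
    intro i v xs
    change RelMap R (fun k => (ts k).realize _) ↔ RelMap R (fun k => (ts k).realize _)
    rw [← (ofE s i).map_rel R]
    refine iff_of_eq (congrArg _ ?_)
    funext k
    exact term _ _ _ _
  | imp φ ψ ih1 ih2 =>
    intro i v xs
    rw [BoundedFormula.realize_imp, BoundedFormula.realize_imp, ih1, ih2]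
  | @all k φ ih =>
    intro i v xs
    rw [BoundedFormula.realize_all, BoundedFormula.realize_all]
    constructor
    · intro h x
      rw [← ih i v (Fin.snoc xs x)]
      have := h (ofE s i x)
      rwa [Fin.comp_snoc]
    · intro h z
      obtain ⟨j, x, rfl⟩ := exists_ofE s z
      set m := max i j with hm
      have him : i ≤ m := le_max_left _ _
      have hjm : j ≤ m := le_max_right _ _
      have h1 : (∀' φ).Realize (fe s i m him ∘ v) (fe s i m him ∘ xs) := by
        have hh : (∀' φ).Realize v xs := by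
          rw [BoundedFormula.realize_all]; exact h
        have key : ∀ {P : Type u} [L.Structure P] (v : α → P) (xs : Fin k → P),
            (∀' φ).Realize v xs ↔ (∀' φ).toFormula.Realize (Sum.elim v xs) := by
          intro P _ v xs
          rw [BoundedFormula.realize_toFormula, Sum.elim_comp_inl, Sum.elim_comp_inr]
        rw [key, ← Sum.comp_elim, fe_elem, ← key]
        exact hh
      rw [BoundedFormula.realize_all] at h1
      have h2 := h1 (fe s j m hjm x)
      rw [← ih m] at h2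
      have e1 : ofE s m ∘ (fe s i m him ∘ v) = ofE s i ∘ v := by
        funext y; exact ofE_fe s i m him _
      have e2 : ofE s m ∘ (Fin.snoc (fe s i m him ∘ xs) (fe s j m hjm x) : Fin (k + 1) → G s m) =
          Fin.snoc (ofE s i ∘ xs) (ofE s j x) := by
        rw [Fin.comp_snoc, ofE_fe]
        congr 1
        funext y; exact ofE_fe s i m him _
      rw [e1, e2] at h2
      exact h2

/-- the embedding into the union is elementary -/
noncomputable def ofEl (i : ℕ) : G s i ↪ₑ[L] Lim s where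
  toFun := ofE s i
  map_formula' := by
    intro n φ x
    have := ofE_bounded s φ i x default
    rw [Formula.Realize, Formula.Realize, ← this]
    exact iff_of_eq (congrArg _ (Subsingleton.elim _ _))

theorem ofEl_formula (i : ℕ) {α : Type*} (φ : L.Formula α) (v : α → G s i) :
    φ.Realize (ofE s i ∘ v) ↔ φ.Realize v := (ofEl s i).map_formula φ v

theorem tuple_stage {m : ℕ} (a : Fin m → Lim s) : ∃ (i : ℕ) (b : Fin m → G s i),
    a = ofE s i ∘ b := by
  choose ix x hx using fun k => exists_ofE s (a k)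
  obtain ⟨N, hN⟩ : ∃ N, ∀ k, ix k ≤ N := by
    refine ⟨Finset.univ.sup ix, fun k => Finset.le_sup (Finset.mem_univ k)⟩
  refine ⟨N, fun k => fe s (ix k) N (hN k) (x k), ?_⟩
  funext k
  rw [Function.comp, ofE_fe, hx]

theorem lim_sat (n m : ℕ) (a : Fin m → Lim s) (P : Set (L.Formula (Fin n ⊕ Fin m)))
    (hP : FinSat a P) : ∃ x : Fin n → Lim s, ∀ φ ∈ P, φ.Realize (Sum.elim x a) := by
  obtain ⟨i, b, rfl⟩ := tuple_stage s a
  have h1 : FinSat b P := by
    intro P₀ hP₀ hfin
    obtain ⟨x, hx⟩ := hP P₀ hP₀ hfin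
    have : Finite P₀ := hfin
    let ψ : L.Formula (Fin n ⊕ Fin m) := Formula.iInf (fun φ : P₀ => (φ : L.Formula _))
    have hψ : ∀ {Q : Type u} [L.Structure Q] (v : Fin n ⊕ Fin m → Q),
        ψ.Realize v ↔ ∀ φ ∈ P₀, φ.Realize v := by
      intro Q _ v
      rw [Formula.realize_iInf]
      exact ⟨fun h φ hφ => h ⟨φ, hφ⟩, fun h b => h b b.2⟩
    let χ : L.Formula (Fin m) := (ψ.relabel Sum.swap : L.Formula (Fin m ⊕ Fin n)).iExs (Fin n)
    have hχ : ∀ {Q : Type u} [L.Structure Q] (v : Fin m → Q),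
        χ.Realize v ↔ ∃ x : Fin n → Q, ψ.Realize (Sum.elim x v) := by
      intro Q _ v
      rw [Formula.realize_iExs]
      refine exists_congr fun x => ?_
      rw [Formula.realize_relabel]
      have e : Sum.elim v x ∘ Sum.swap = Sum.elim x v := by
        funext i
        rcases i with i | i <;> rfl
      rw [e]
    have h2 : χ.Realize (ofE s i ∘ b) := (hχ _).2 ⟨x, (hψ _).2 hx⟩
    rw [ofEl_formula, hχ] at h2
    obtain ⟨y, hy⟩ := h2
    exact ⟨y, (hψ _).1 hy⟩
  obtain ⟨x, hx⟩ := nextH (stage s i) n m b P h1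
  refine ⟨ofE s (i + 1) ∘ x, fun φ hφ => ?_⟩
  have h2 := hx φ hφ
  have e : Sum.elim (ofE s (i + 1) ∘ x) (ofE s i ∘ b) =
      ofE s (i + 1) ∘ (Sum.elim x ((nextJ (stage s i) : G s i → G s (i + 1)) ∘ b) :
        Fin n ⊕ Fin m → G s (i + 1)) := by
    funext k
    rcases k with k | k
    · rfl
    · have h3 := ofE_fe s i (i + 1) (Nat.le_succ i) (b k)
      have h4 : fe s i (i + 1) (Nat.le_succ i) (b k) = nextJ (stage s i) (b k) := by
        simp [fe, f', DirectedSystem.natLERec, Nat.leRecOn_succ le_rfl, Nat.leRecOn_self]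
        rfl
      rw [h4] at h3
      exact h3.symm
  rw [e, ofEl_formula]
  exact h2

end chain

/-- every structure has an elementary extension that is saturated for finite tuples over finite
parameter tuples -/
theorem exists_sat_extension (M : Type u) [L.Structure M] [Nonempty M] :
    ∃ (N : Type u) (_ : L.Structure N) (_ : M ↪ₑ[L] N),
      ∀ (n m : ℕ) (a : Fin m → N) (P : Set (L.Formula (Fin n ⊕ Fin m))), FinSat a P →
        ∃ x : Fin n → N, ∀ φ ∈ P, φ.Realize (Sum.elim x a) :=
  ⟨Lim ⟨M⟩, inferInstance, ofEl ⟨M⟩ 0, lim_sat ⟨M⟩⟩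

end Pool.Agent.R611.HM
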