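import Mathlib
import Pool.Agent.R611.HM.Sat

/-!
# Definability calculus without parameters; saturation for predicates
-/

set_option autoImplicit false

namespace Pool.Agent.R611.HM

open FirstOrder Language Structure Set

universe u

/-- Definability (without parameters) of a relation. -/
def Df (L : FirstOrder.Language.{u, u}) {K : Type u} [L.Structure K] {α : Type}
    (P : (α → K) → Prop) : Prop :=
  (∅ : Set K).Definable L {v : α → K | P v}

/-- A definable function. -/
def DfF (L : FirstOrder.Language.{u, u}) {K : Type u} [L.Structure K] {α : Type}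
    (f : (α → K) → K) : Prop :=
  Df L (fun w : Option α → K => w none = f (fun i => w (some i)))

variable {L : FirstOrder.Language.{u, u}} {K : Type u} [L.Structure K]

namespace Df

variable {α β γ : Type}

theorem congr {P Q : (α → K) → Prop} (h : Df L P) (e : ∀ w, P w ↔ Q w) : Df L Q := by
  have : P = Q := funext fun w => propext (e w)
  rwa [← this]

theorem and {P Q : (α → K) → Prop} (hP : Df L P) (hQ : Df L Q) :
    Df L (fun w => P w ∧ Q w) := Set.Definable.inter hP hQ

theorem or {P Q : (α → K) → Prop} (hP : Df L P) (hQ : Df L Q) :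
    Df L (fun w => P w ∨ Q w) := Set.Definable.union hP hQ

theorem not {P : (α → K) → Prop} (hP : Df L P) :
    Df L (fun w => ¬ P w) := Set.Definable.compl hP

theorem imp {P Q : (α → K) → Prop} (hP : Df L P) (hQ : Df L Q) :
    Df L (fun w => P w → Q w) :=
  (hP.not.or hQ).congr fun w => by tauto

theorem iff {P Q : (α → K) → Prop} (hP : Df L P) (hQ : Df L Q) :
    Df L (fun w => P w ↔ Q w) :=
  ((hP.imp hQ).and (hQ.imp hP)).congr fun w => by tauto

theorem all_fin {ι : Type*} [Finite ι] {P : ι → (α → K) → Prop} (hP : ∀ i, Df L (P i)) :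
    Df L (fun w => ∀ i, P i w) := by
  have := Set.definable_iInter_of_finite (A := (∅ : Set K)) (L := L) hP
  unfold Df
  convert this using 1
  ext v
  simp

theorem ex_fin {ι : Type*} [Finite ι] {P : ι → (α → K) → Prop} (hP : ∀ i, Df L (P i)) :
    Df L (fun w => ∃ i, P i w) := by
  have := Set.definable_iUnion_of_finite (A := (∅ : Set K)) (L := L) hP
  unfold Df
  convert this using 1
  ext v
  simp

theorem const (p : Prop) : Df L (fun _ : α → K => p) := by
  by_cases hp : p
  · have : Df L (fun _ : α → K => True) := by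
      unfold Df
      convert Set.definable_univ (A := (∅ : Set K)) (L := L) (α := α) using 1
      ext; simp
    exact this.congr fun _ => by simp [hp]
  · have : Df L (fun _ : α → K => False) := by
      unfold Df
      convert Set.definable_empty (A := (∅ : Set K)) (L := L) (α := α) using 1
      ext; simp
    exact this.congr fun _ => by simp [hp]

theorem relabel (σ : α → β) {P : (α → K) → Prop} (hP : Df L P) :
    Df L (fun w : β → K => P (fun i => w (σ i))) :=
  Set.Definable.preimage_comp σ hP

theorem ex [Finite α] [Finite γ] {P : (α ⊕ γ → K) → Prop} (hP : Df L P) :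
    Df L (fun w : α → K => ∃ y : γ → K, P (Sum.elim w y)) := by
  have h := Set.Definable.image_comp (A := (∅ : Set K)) (L := L) hP
    (Sum.inl : α → α ⊕ γ)
  unfold Df
  convert h using 1
  ext v
  simp only [Set.mem_image, Set.mem_ofPred_eq]
  constructor
  · rintro ⟨y, hy⟩
    refine ⟨Sum.elim v y, hy, ?_⟩
    funext p; rfl
  · rintro ⟨g, hg, rfl⟩
    refine ⟨fun c => g (Sum.inr c), ?_⟩
    convert hg using 1
    funext i
    cases i <;> rfl

theorem all [Finite α] [Finite γ] {P : (α ⊕ γ → K) → Prop} (hP : Df L P) :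
    Df L (fun w : α → K => ∀ y : γ → K, P (Sum.elim w y)) :=
  (hP.not.ex.not).congr fun w => by push Not; rfl

/-- Quantifier over a tuple, functional form. -/
theorem exT [Finite α] [Finite γ] {Q : (γ → K) → (α → K) → Prop}
    (h : Df L (fun w : α ⊕ γ → K => Q (fun c => w (Sum.inr c)) (fun i => w (Sum.inl i)))) :
    Df L (fun v : α → K => ∃ y : γ → K, Q y v) := h.ex

theorem allT [Finite α] [Finite γ] {Q : (γ → K) → (α → K) → Prop}
    (h : Df L (fun w : α ⊕ γ → K => Q (fun c => w (Sum.inr c)) (fun i => w (Sum.inl i)))) :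
    Df L (fun v : α → K => ∀ y : γ → K, Q y v) := h.all

/-- Quantifier over one element, functional form. -/
theorem ex1 [Finite α] {Q : K → (α → K) → Prop}
    (h : Df L (fun w : Option α → K => Q (w none) (fun i => w (some i)))) :
    Df L (fun v : α → K => ∃ y, Q y v) := by
  have h1 := (h.relabel (fun o : Option α => (o.elim (Sum.inr ()) Sum.inl : α ⊕ Unit))).ex
  refine h1.congr fun w => ?_
  constructor
  · rintro ⟨y, hy⟩
    exact ⟨y (), hy⟩
  · rintro ⟨a, ha⟩
    exact ⟨fun _ => a, ha⟩

theorem all1 [Finite α] {Q : K → (α → K) → Prop}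
    (h : Df L (fun w : Option α → K => Q (w none) (fun i => w (some i)))) :
    Df L (fun v : α → K => ∀ y, Q y v) :=
  ((ex1 (Q := fun y v => ¬ Q y v) h.not).not).congr fun w => by push Not; rfl

end Df

section

variable {α β : Type}

theorem df_eq_var (i j : α) : Df L (fun v : α → K => v i = v j) := by
  unfold Df
  rw [Set.Definable]
  refine ⟨Term.equal (Term.var i) (Term.var j), ?_⟩
  ext v
  simp [Formula.Realize, Term.equal]

theorem DfF.var (i : α) : DfF L (fun v : α → K => v i) := df_eq_var none (some i)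

/-- Substitution of definable functions into a definable relation. -/
theorem Df.comp [Finite α] [Finite β] {P : (β → K) → Prop} (hP : Df L P)
    {f : β → (α → K) → K} (hf : ∀ i, DfF L (f i)) : Df L (fun w => P (fun i => f i w)) := by
  have h1 : Df L (fun w : α ⊕ β → K => (∀ i, w (Sum.inr i) = f i (fun j => w (Sum.inl j))) ∧
      P (fun i => w (Sum.inr i))) := by
    refine Df.and (Df.all_fin fun i => ?_) (hP.relabel Sum.inr)
    exact (hf i).relabel (fun o : Option α => (o.elim (Sum.inr i) Sum.inl : α ⊕ β))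
  refine (Df.exT (Q := fun y v => (∀ i, y i = f i v) ∧ P y) h1).congr fun w => ?_
  constructor
  · rintro ⟨y, hy, hP⟩
    have : y = fun i => f i w := funext hy
    rwa [← this]
  · intro h
    exact ⟨_, fun i => rfl, h⟩

theorem DfF.comp [Finite α] [Finite β] {g : (β → K) → K} (hg : DfF L g)
    {f : β → (α → K) → K} (hf : ∀ i, DfF L (f i)) : DfF L (fun w => g (fun i => f i w)) := by
  have hf' : ∀ o : Option β, DfF L (fun w : Option α → K =>
      (o.elim (w none) (fun i => f i (fun j => w (some j))) : K)) := by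
    rintro (_ | i)
    · exact DfF.var _
    · have := (hf i).relabel (β := Option (Option α))
        (fun o : Option α => (o.elim none (fun j => some (some j)) : Option (Option α)))
      exact this
  exact Df.comp (P := fun w : Option β → K => w none = g (fun i => w (some i))) hg hf'

theorem Df.eq [Finite α] {f g : (α → K) → K} (hf : DfF L f) (hg : DfF L g) :
    Df L (fun v => f v = g v) := by
  have h0 : Df L (fun v : Bool → K => v true = v false) := df_eq_var _ _
  exact h0.comp (f := fun b => if b then f else g) (by rintro (_ | _) <;> simpa)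

end

/-- Saturation for predicates. -/
def Satur (L : FirstOrder.Language.{u, u}) (K : Type u) [L.Structure K] : Prop :=
  ∀ (α β : Type) [Finite α] [Finite β] (a : β → K) (Ps : Set ((α ⊕ β → K) → Prop)),
    (∀ P ∈ Ps, Df L P) →
    (∀ Qs ⊆ Ps, Qs.Finite → ∃ x : α → K, ∀ P ∈ Qs, P (Sum.elim x a)) →
      ∃ x : α → K, ∀ P ∈ Ps, P (Sum.elim x a)

theorem satur_of_finSat (h : ∀ (n m : ℕ) (a : Fin m → K) (P : Set (L.Formula (Fin n ⊕ Fin m))),
    FinSat a P → ∃ x : Fin n → K, ∀ φ ∈ P, φ.Realize (Sum.elim x a)) : Satur L K := by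
  classical
  intro α β _ _ a Ps hdf hfs
  obtain ⟨n, ⟨eα⟩⟩ := Finite.exists_equiv_fin α
  obtain ⟨m, ⟨eβ⟩⟩ := Finite.exists_equiv_fin β
  have hφ : ∀ P : Ps, ∃ φ : L.Formula (α ⊕ β), ∀ v, P.1 v ↔ φ.Realize v := by
    intro P
    obtain ⟨φ, hφ⟩ := Set.empty_definable_iff.1 (hdf P.1 P.2)
    refine ⟨φ, fun v => ?_⟩
    have := Set.ext_iff.1 hφ v
    exact this
  choose φ hφ using hφ
  let tr : Ps → L.Formula (Fin n ⊕ Fin m) := fun P => (φ P).relabel (Sum.map eα eβ)
  have htr : ∀ (P : Ps) (x : Fin n → K), (tr P).Realize (Sum.elim x (a ∘ eβ.symm)) ↔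
      P.1 (Sum.elim (x ∘ eα) a) := by
    intro P x
    rw [hφ P, Formula.realize_relabel]
    apply iff_of_eq
    congr 1
    funext k
    rcases k with k | k <;> simp
  obtain ⟨x, hx⟩ := h n m (a ∘ eβ.symm) (Set.range tr) (by
    intro P₀ hP₀ hfin
    have h1 : ∀ ψ : P₀, ∃ P : Ps, tr P = ψ := fun ψ => hP₀ ψ.2
    choose g hg using h1
    have : Finite P₀ := hfin
    obtain ⟨x, hx⟩ := hfs (Set.range (fun ψ => (g ψ).1)) (by
      rintro _ ⟨ψ, rfl⟩
      exact (g ψ).2) (Set.finite_range _)
    refine ⟨x ∘ eα.symm, fun ψ hψ => ?_⟩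
    have h2 := hx _ ⟨⟨ψ, hψ⟩, rfl⟩
    have e : ψ = tr (g ⟨ψ, hψ⟩) := (hg ⟨ψ, hψ⟩).symm
    rw [e, htr]
    convert h2 using 2
    funext k
    simp)
  refine ⟨x ∘ eα, fun P hP => ?_⟩
  exact (htr ⟨P, hP⟩ x).1 (hx _ ⟨⟨P, hP⟩, rfl⟩)

theorem exists_satur_extension (M : Type u) [L.Structure M] [Nonempty M] :
    ∃ (N : Type u) (_ : L.Structure N) (_ : M ↪ₑ[L] N), Satur L N := by
  obtain ⟨N, hN, j, h⟩ := exists_sat_extension (L := L) M
  exact ⟨N, hN, j, satur_of_finSat h⟩

end Pool.Agent.R611.HM
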