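import Pool.Agent.R611.HM.Df

/-!
# Partial elementary maps and algebraic closure
-/

set_option autoImplicit false

namespace Pool.Agent.R611.HM

open FirstOrder Language Structure Set

universe u

/-- A set of pairs which preserves all definable relations. -/
def El (L : FirstOrder.Language.{u, u}) {K : Type u} [L.Structure K] (S : Set (K × K)) : Prop :=
  ∀ (α : Type) [Finite α] (s : α → K × K), (∀ i, s i ∈ S) → ∀ P : (α → K) → Prop, Df L P →
    (P (fun i => (s i).1) ↔ P (fun i => (s i).2))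

variable {L : FirstOrder.Language.{u, u}} {K : Type u} [L.Structure K]

namespace El

theorem mono {S T : Set (K × K)} (hT : El L T) (h : S ⊆ T) : El L S :=
  fun α _ s hs P hP => hT α s (fun i => h (hs i)) P hP

theorem swap {S : Set (K × K)} (hS : El L S) : El L (Prod.swap '' S) := by
  intro α _ s hs P hP
  choose t ht hts using hs
  have e1 : (fun i => (s i).1) = fun i => (t i).2 := by funext i; rw [← hts i]; rfl
  have e2 : (fun i => (s i).2) = fun i => (t i).1 := by funext i; rw [← hts i]; rfl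
  rw [e1, e2]
  exact (hS α t ht P hP).symm

/-- composition -/
def cmp (S T : Set (K × K)) : Set (K × K) := {p | ∃ b, (p.1, b) ∈ S ∧ (b, p.2) ∈ T}

theorem comp {S T : Set (K × K)} (hS : El L S) (hT : El L T) : El L (cmp S T) := by
  intro α _ s hs P hP
  choose b h1 h2 using hs
  exact (hS α (fun i => ((s i).1, b i)) h1 P hP).trans (hT α (fun i => (b i, (s i).2)) h2 P hP)

theorem functional {S : Set (K × K)} (hS : El L S) {a b b' : K} (h : (a, b) ∈ S)
    (h' : (a, b') ∈ S) : b = b' := by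
  have := hS Bool (fun i => if i then (a, b) else (a, b')) (by rintro (_ | _) <;> simpa)
    (fun v => v true = v false) (df_eq_var _ _)
  simpa using this

theorem injective {S : Set (K × K)} (hS : El L S) {a a' b : K} (h : (a, b) ∈ S)
    (h' : (a', b) ∈ S) : a = a' := by
  have := hS Bool (fun i => if i then (a, b) else (a', b)) (by rintro (_ | _) <;> simpa)
    (fun v => v true = v false) (df_eq_var _ _)
  simpa using this

theorem diag (L : FirstOrder.Language.{u, u}) (K : Type u) [L.Structure K] :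
    El L {p : K × K | p.1 = p.2} := by
  intro α _ s hs P _
  have : (fun i => (s i).1) = fun i => (s i).2 := funext hs
  rw [this]

/-- adding the values of a definable function -/
theorem fn {S : Set (K × K)} (hS : El L S) {α : Type} [Finite α] (s : α → K × K)
    (hs : ∀ i, s i ∈ S) {f : (α → K) → K} (hf : DfF L f) :
    El L (insert (f (fun i => (s i).1), f (fun i => (s i).2)) S) := by
  classical
  intro γ _ t ht P hP
  set new : K × K := (f (fun i => (s i).1), f (fun i => (s i).2)) with hnew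
  let γ' : Type := {i : γ // t i ∈ S}
  let s' : γ' ⊕ α → K × K := Sum.elim (fun i => t i.1) s
  have hs' : ∀ i, s' i ∈ S := by
    rintro (i | i)
    · exact i.2
    · exact hs i
  let g : γ → ((γ' ⊕ α) → K) → K := fun i w =>
    if h : t i ∈ S then w (Sum.inl ⟨i, h⟩) else f (fun j => w (Sum.inr j))
  have hg : ∀ i, DfF L (g i) := by
    intro i
    by_cases h : t i ∈ S
    · simp only [g, dif_pos h]
      exact DfF.var _
    · simp only [g, dif_neg h]
      exact hf.comp (fun j => DfF.var (Sum.inr j))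
  have key := hS (γ' ⊕ α) s' hs' _ (hP.comp hg)
  have e1 : (fun i => g i (fun j => (s' j).1)) = fun i => (t i).1 := by
    funext i
    by_cases h : t i ∈ S
    · simp only [g, dif_pos h]; rfl
    · simp only [g, dif_neg h]
      rcases ht i with h' | h'
      · rw [h']; rfl
      · exact absurd h' h
  have e2 : (fun i => g i (fun j => (s' j).2)) = fun i => (t i).2 := by
    funext i
    by_cases h : t i ∈ S
    · simp only [g, dif_pos h]; rfl
    · simp only [g, dif_neg h]
      rcases ht i with h' | h'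
      · rw [h']; rfl
      · exact absurd h' h
  rw [e1, e2] at key
  exact key

/-- General saturation for images of tuples. -/
theorem sat (hK : Satur L K) {S : Set (K × K)} (hf : S.Finite) {α β : Type}
    [Finite α] [Finite β] (u : α → K) (p : β → K) (Qs : Set ((α → K) → (β → K) → Prop))
    (hQ : ∀ Q ∈ Qs, Df L (fun w : α ⊕ β → K => Q (fun i => w (Sum.inl i))
      (fun i => w (Sum.inr i))))
    (h : ∀ Rs ⊆ Qs, Rs.Finite → ∃ u' : α → K, El L (S ∪ Set.range (fun i => (u i, u' i))) ∧
      ∀ Q ∈ Rs, Q u' p) :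
    ∃ u' : α → K, El L (S ∪ Set.range (fun i => (u i, u' i))) ∧ ∀ Q ∈ Qs, Q u' p := by
  classical
  obtain ⟨n, s, hs⟩ : ∃ (n : ℕ) (s : Fin n → K × K), Set.range s = S := by
    have := hf.to_subtype
    obtain ⟨n, ⟨e⟩⟩ := Finite.exists_equiv_fin S
    refine ⟨n, fun i => (e.symm i).1, ?_⟩
    ext x
    constructor
    · rintro ⟨i, rfl⟩; exact (e.symm i).2
    · intro hx; exact ⟨e ⟨x, hx⟩, by simp⟩
  -- the predicates
  let T1 : Set ((α ⊕ (Fin n ⊕ β) → K) → Prop) :=
    {R | ∃ P : (α ⊕ Fin n → K) → Prop, Df L P ∧ P (Sum.elim u (fun i => (s i).1)) ∧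
      R = fun w => P (Sum.elim (fun i => w (Sum.inl i)) (fun i => w (Sum.inr (Sum.inl i))))}
  let T2 : Set ((α ⊕ (Fin n ⊕ β) → K) → Prop) :=
    {R | ∃ Q ∈ Qs, R = fun w => Q (fun i => w (Sum.inl i)) (fun i => w (Sum.inr (Sum.inr i)))}
  obtain ⟨u', hu'⟩ := hK α (Fin n ⊕ β) (Sum.elim (fun i => (s i).2) p) (T1 ∪ T2) (by
    rintro R (⟨P, hP, -, rfl⟩ | ⟨Q, hQ', rfl⟩)
    · have := hP.relabel (β := α ⊕ (Fin n ⊕ β))
        (Sum.elim (fun i => Sum.inl i) (fun i => Sum.inr (Sum.inl i)))
      refine this.congr fun w => ?_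
      apply iff_of_eq
      congr 1
      funext k
      rcases k with k | k <;> rfl
    · have := (hQ Q hQ').relabel (β := α ⊕ (Fin n ⊕ β))
        (Sum.elim (fun i => Sum.inl i) (fun i => Sum.inr (Sum.inr i)))
      exact this) (by
    intro Rs hRs hfin
    have hfin' : (Rs ∩ T2).Finite := hfin.subset Set.inter_subset_left
    have h1 : ∀ R : ↥(Rs ∩ T2), ∃ Q ∈ Qs, R.1 = fun w => Q (fun i => w (Sum.inl i))
        (fun i => w (Sum.inr (Sum.inr i))) := fun R => R.2.2
    choose q hq hqe using h1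
    have := hfin'.to_subtype
    obtain ⟨u', hel, hu'⟩ := h (Set.range q) (by rintro _ ⟨R, rfl⟩; exact hq R)
      (Set.finite_range _)
    refine ⟨u', fun R hR => ?_⟩
    by_cases hR2 : R ∈ T2
    · have e := hqe ⟨R, hR, hR2⟩
      have h2 := hu' _ ⟨⟨R, hR, hR2⟩, rfl⟩
      change R _
      rw [show R = (⟨R, hR, hR2⟩ : ↥(Rs ∩ T2)).1 from rfl, e]
      exact h2
    · rcases hRs hR with ⟨P, hP, hPt, rfl⟩ | h'
      · have h3 := hel (α ⊕ Fin n) (Sum.elim (fun i => (u i, u' i)) s) (by
          rintro (i | i)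
          · exact Or.inr ⟨i, rfl⟩
          · exact Or.inl (hs ▸ ⟨i, rfl⟩)) P hP
        have e1 : (fun i => (Sum.elim (fun i => (u i, u' i)) s i).1) =
            Sum.elim u (fun i => (s i).1) := by
          funext k
          rcases k with k | k <;> rfl
        have e2 : (fun i => (Sum.elim (fun i => (u i, u' i)) s i).2) =
            Sum.elim u' (fun i => (s i).2) := by
          funext k
          rcases k with k | k <;> rfl
        rw [e1, e2] at h3
        exact h3.1 hPt
      · exact absurd h' hR2)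
  refine ⟨u', ?_, fun Q hQ' => ?_⟩
  · have base : ∀ P : (α ⊕ Fin n → K) → Prop, Df L P →
        (P (Sum.elim u (fun i => (s i).1)) ↔ P (Sum.elim u' (fun i => (s i).2))) := by
      intro P hP
      have one : ∀ P : (α ⊕ Fin n → K) → Prop, Df L P →
        P (Sum.elim u (fun i => (s i).1)) → P (Sum.elim u' (fun i => (s i).2)) := by
        intro P hP hPt
        have := hu' _ (Or.inl ⟨P, hP, hPt, rfl⟩)
        exact this
      refine ⟨one P hP, fun h' => ?_⟩
      by_contra hc
      exact one _ hP.not hc h'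
    intro γ _ t ht P hP
    have hc : ∀ i, ∃ j : α ⊕ Fin n, t i = Sum.elim (fun i => (u i, u' i)) s j := by
      intro i
      rcases ht i with h' | ⟨j, hj⟩
      · rw [← hs] at h'
        obtain ⟨j, hj⟩ := h'
        exact ⟨Sum.inr j, hj.symm⟩
      · exact ⟨Sum.inl j, hj.symm⟩
    choose σ hσ using hc
    have h4 := base _ (hP.relabel σ)
    have e1 : (fun i => Sum.elim u (fun i => (s i).1) (σ i)) = fun i => (t i).1 := by
      funext i
      rw [hσ i]
      rcases σ i with k | k <;> rfl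
    have e2 : (fun i => Sum.elim u' (fun i => (s i).2) (σ i)) = fun i => (t i).2 := by
      funext i
      rw [hσ i]
      rcases σ i with k | k <;> rfl
    rw [e1, e2] at h4
    exact h4
  · exact hu' _ (Or.inr ⟨Q, hQ', rfl⟩)

/-- One-point extension. -/
theorem ext (hK : Satur L K) {S : Set (K × K)} (hf : S.Finite) (hS : El L S) (c : K) :
    ∃ d, El L (insert (c, d) S) := by
  classical
  -- first show that each finite amount of information can be met
  obtain ⟨n, s, hs⟩ : ∃ (n : ℕ) (s : Fin n → K × K), Set.range s = S := by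
    have := hf.to_subtype
    obtain ⟨n, ⟨e⟩⟩ := Finite.exists_equiv_fin S
    refine ⟨n, fun i => (e.symm i).1, ?_⟩
    ext x
    constructor
    · rintro ⟨i, rfl⟩; exact (e.symm i).2
    · intro hx; exact ⟨e ⟨x, hx⟩, by simp⟩
  let T1 : Set ((Unit ⊕ Fin n → K) → Prop) :=
    {P | Df L P ∧ P (Sum.elim (fun _ => c) (fun i => (s i).1))}
  obtain ⟨u', hu'⟩ := hK Unit (Fin n) (fun i => (s i).2) T1 (fun P hP => hP.1) (by
    intro Rs hRs hfin
    have := hfin.to_subtype
    have hd : Df L (fun v : Fin n → K => ∃ x : Unit → K, ∀ R : Rs, R.1 (Sum.elim x v)) := by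
      refine Df.exT (Q := fun x v => ∀ R : Rs, R.1 (Sum.elim x v)) ?_
      refine Df.all_fin fun R => ?_
      refine ((hRs R.2).1.relabel (β := Fin n ⊕ Unit) Sum.swap).congr fun w => ?_
      apply iff_of_eq
      refine congrArg R.1 ?_
      funext k
      rcases k with k | k <;> rfl
    have h1 := (hS (Fin n) s (fun i => hs ▸ ⟨i, rfl⟩) _ hd).1
      ⟨fun _ => c, fun R => (hRs R.2).2⟩
    obtain ⟨x, hx⟩ := h1
    exact ⟨x, fun P hP => hx ⟨P, hP⟩⟩)
  refine ⟨u' (), ?_⟩
  have base : ∀ P : (Unit ⊕ Fin n → K) → Prop, Df L P →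
      (P (Sum.elim (fun _ => c) (fun i => (s i).1)) ↔ P (Sum.elim u' (fun i => (s i).2))) := by
    intro P hP
    refine ⟨fun h' => hu' _ ⟨hP, h'⟩, fun h' => ?_⟩
    by_contra hc
    exact hu' _ ⟨hP.not, hc⟩ h'
  intro γ _ t ht P hP
  have hc : ∀ i, ∃ j : Unit ⊕ Fin n, t i = Sum.elim (fun _ => (c, u' ())) s j := by
    intro i
    rcases ht i with h' | h'
    · exact ⟨Sum.inl (), h'⟩
    · rw [← hs] at h'
      obtain ⟨j, hj⟩ := h'
      exact ⟨Sum.inr j, hj.symm⟩
  choose σ hσ using hc
  have h4 := base _ (hP.relabel σ)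
  have e1 : (fun i => Sum.elim (fun _ => c) (fun i => (s i).1) (σ i)) = fun i => (t i).1 := by
    funext i
    rw [hσ i]
    rcases σ i with k | k <;> rfl
  have e2 : (fun i => Sum.elim u' (fun i => (s i).2) (σ i)) = fun i => (t i).2 := by
    funext i
    rw [hσ i]
    rcases σ i with k | k
    · cases k; rfl
    · rfl
  rw [e1, e2] at h4
  exact h4

end El

/-! ### algebraic closure -/

/-- the relations with finite fibre over `a` -/
def FD (L : FirstOrder.Language.{u, u}) {K : Type u} [L.Structure K] {ι : Type} (a : ι → K) :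
    Set ((ι → K) → K → Prop) :=
  {P | Df L (fun w : Option ι → K => P (fun i => w (some i)) (w none)) ∧ {x | P a x}.Finite}

/-- algebraic closure of a finite tuple -/
def acl (L : FirstOrder.Language.{u, u}) {K : Type u} [L.Structure K] {ι : Type} (a : ι → K) :
    Set K := {c | ∃ P ∈ FD L a, P a c}

/-- adding an element to a tuple -/
def oc {ι : Type} (x : K) (a : ι → K) : Option ι → K := fun o => o.elim x a

section acl

variable {ι κ : Type} [Finite ι] [Finite κ]

omit [Finite ι] [Finite κ] in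
theorem mem_acl_self (a : ι → K) (i : ι) : a i ∈ acl L a := by
  refine ⟨fun b x => x = b i, ⟨?_, ?_⟩, rfl⟩
  · exact df_eq_var none (some i)
  · exact (Set.finite_singleton (a i)).subset fun x hx => hx

theorem df_atMost {α : Type} [Finite α] (k : ℕ) {P : (α → K) → K → Prop}
    (hP : Df L (fun w : Option α → K => P (fun i => w (some i)) (w none))) :
    Df L (fun w : α → K => ¬ ∃ t : Fin (k + 1) → K, Function.Injective t ∧ ∀ i, P w (t i)) := by
  refine Df.not (Df.exT (Q := fun t w => Function.Injective t ∧ ∀ i, P w (t i)) ?_)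
  refine Df.and ?_ (Df.all_fin fun i => ?_)
  · have : Df L (fun w : α ⊕ Fin (k + 1) → K => ∀ i j : Fin (k + 1),
        w (Sum.inr i) = w (Sum.inr j) → i = j) := by
      refine Df.all_fin fun i => Df.all_fin fun j => Df.imp (df_eq_var _ _) (Df.const _)
    refine this.congr fun w => ?_
    exact ⟨fun h i j e => h i j e, fun h i j e => h e⟩
  · have := hP.relabel (β := α ⊕ Fin (k + 1))
      (fun o : Option α => (o.elim (Sum.inr i) Sum.inl : α ⊕ Fin (k + 1)))
    exact this

theorem finite_of_atMost {X : Set K} {k : ℕ}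
    (h : ¬ ∃ t : Fin (k + 1) → K, Function.Injective t ∧ ∀ i, t i ∈ X) : X.Finite := by
  by_contra hX
  have hX' : X.Infinite := hX
  refine h ⟨fun i => ((hX'.natEmbedding X) i : K), ?_, fun i => ((hX'.natEmbedding X) i).2⟩
  intro i j hij
  have := (hX'.natEmbedding X).injective (Subtype.ext hij)
  exact Fin.ext this

theorem atMost_of_finite {X : Set K} (hX : X.Finite) :
    ∃ k : ℕ, ¬ ∃ t : Fin (k + 1) → K, Function.Injective t ∧ ∀ i, t i ∈ X := by
  refine ⟨X.ncard, ?_⟩
  rintro ⟨t, ht, htX⟩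
  have h1 : (Set.range t).ncard ≤ X.ncard :=
    Set.ncard_le_ncard (by rintro _ ⟨i, rfl⟩; exact htX i) hX
  have h2 : (Set.range t).ncard = X.ncard + 1 := by
    rw [← Set.image_univ, Set.ncard_image_of_injective _ ht, Set.ncard_univ]
    simp
  omega

/-- transitivity of algebraic closure -/
theorem acl_trans {a : ι → K} {b : κ → K} (h : ∀ i, a i ∈ acl L b) : acl L a ⊆ acl L b := by
  rintro c ⟨P, ⟨hPd, hPf⟩, hPc⟩
  choose Q hQ hQa using h
  obtain ⟨k, hk⟩ := atMost_of_finite hPf
  refine ⟨fun w x => ∃ t : ι → K, (∀ i, Q i w (t i)) ∧ P t x ∧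
    ¬ ∃ s : Fin (k + 1) → K, Function.Injective s ∧ ∀ j, P t (s j), ⟨?_, ?_⟩, ?_⟩
  · refine Df.exT (Q := fun t w => (∀ i, Q i (fun j => w (some j)) (t i)) ∧ P t (w none) ∧
      ¬ ∃ s : Fin (k + 1) → K, Function.Injective s ∧ ∀ j, P t (s j)) ?_
    refine Df.and (Df.all_fin fun i => ?_) (Df.and ?_ ?_)
    · exact (hQ i).1.relabel (β := Option κ ⊕ ι)
        (fun o : Option κ => (o.elim (Sum.inr i) (fun j => Sum.inl (some j)) : Option κ ⊕ ι))
    · exact hPd.relabel (β := Option κ ⊕ ι)
        (fun o : Option ι => (o.elim (Sum.inl none) (fun j => Sum.inr j) : Option κ ⊕ ι))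
    · exact (df_atMost k hPd).relabel (β := Option κ ⊕ ι) Sum.inr
  · have hfin : {t : ι → K | ∀ i, Q i b (t i)}.Finite := by
      have := Set.Finite.pi' (ι := ι) (t := fun i => {x | Q i b x}) (fun i => (hQ i).2)
      exact this
    have : {x | ∃ t : ι → K, (∀ i, Q i b (t i)) ∧ P t x ∧
        ¬ ∃ s : Fin (k + 1) → K, Function.Injective s ∧ ∀ j, P t (s j)} ⊆
        ⋃ t ∈ {t : ι → K | ∀ i, Q i b (t i)}, {x | P t x ∧
          ¬ ∃ s : Fin (k + 1) → K, Function.Injective s ∧ ∀ j, P t (s j)} := by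
      rintro x ⟨t, h1, h2, h3⟩
      exact Set.mem_biUnion h1 ⟨h2, h3⟩
    refine (hfin.biUnion fun t _ => ?_).subset this
    by_cases hc : ∃ s : Fin (k + 1) → K, Function.Injective s ∧ ∀ j, P t (s j)
    · refine Set.finite_empty.subset ?_
      rintro x ⟨_, h⟩
      exact h hc
    · exact (finite_of_atMost (X := {x | P t x}) hc).subset fun x hx => hx.1
  · exact ⟨a, hQa, hPc, hk⟩

theorem acl_le_oc (a : ι → K) (x : K) : acl L a ⊆ acl L (oc x a) :=
  acl_trans fun i => mem_acl_self (oc x a) (some i)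

theorem mem_acl_oc (a : ι → K) (x : K) : x ∈ acl L (oc x a) := mem_acl_self (oc x a) none

theorem acl_oc_le {a : ι → K} {x : K} {b : κ → K} (h : ∀ i, a i ∈ acl L b) (hx : x ∈ acl L b) :
    acl L (oc x a) ⊆ acl L b := by
  refine acl_trans ?_
  rintro (_ | i)
  · exact hx
  · exact h i

/-- images of algebraic elements are algebraic -/
theorem acl_conj {a : ι → K} {a' : ι → K} {S : Set (K × K)} (hS : El L S)
    (ha : ∀ i, (a i, a' i) ∈ S) {c c' : K} (hc : (c, c') ∈ S) (h : c ∈ acl L a) :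
    c' ∈ acl L a' := by
  obtain ⟨P, ⟨hPd, hPf⟩, hPc⟩ := h
  obtain ⟨k, hk⟩ := atMost_of_finite hPf
  have hk' : ¬ ∃ t : Fin (k + 1) → K, Function.Injective t ∧ ∀ i, P a (t i) := hk
  refine ⟨P, ⟨hPd, ?_⟩, ?_⟩
  · have := (hS ι (fun i => (a i, a' i)) ha _ (df_atMost k hPd)).1 hk'
    exact finite_of_atMost (X := {x | P a' x}) this
  · have := hS (Option ι) (fun o => o.elim (c, c') (fun i => (a i, a' i)))
      (by rintro (_ | i); exacts [hc, ha i]) _ hPd
    exact this.1 hPc

omit [Finite ι] [Finite κ] in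
/-- orbit data of an algebraic element -/
theorem acl_orbit {a : ι → K} {c : K} (h : c ∈ acl L a) :
    ∃ P : (ι → K) → K → Prop, Df L (fun w : Option ι → K => P (fun i => w (some i)) (w none)) ∧
      {x | P a x}.Finite ∧ P a c := by
  obtain ⟨P, ⟨hPd, hPf⟩, hPc⟩ := h
  exact ⟨P, hPd, hPf, hPc⟩

/-- Saturation relative to the algebraic closure of a finite tuple. -/
theorem sat_acl (hK : Satur L K) {S : Set (K × K)} (hf : S.Finite) {α β : Type}
    [Finite α] [Finite β] (u : α → K) (p : β → K) (a : ι → K)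
    (Q : (α → K) → (β → K) → Prop)
    (hQ : Df L (fun w : α ⊕ β → K => Q (fun i => w (Sum.inl i)) (fun i => w (Sum.inr i))))
    (R : K → (α → K) → (β → K) → Prop)
    (hR : Df L (fun w : Option (α ⊕ β) → K => R (w none) (fun i => w (some (Sum.inl i)))
      (fun i => w (some (Sum.inr i)))))
    (h : ∀ C : Set K, C.Finite → C ⊆ acl L a → ∃ u' : α → K,
      El L (S ∪ Set.range (fun i => (u i, u' i))) ∧ Q u' p ∧ ∀ c ∈ C, R c u' p) :
    ∃ u' : α → K, El L (S ∪ Set.range (fun i => (u i, u' i))) ∧ Q u' p ∧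
      ∀ c ∈ acl L a, R c u' p := by
  classical
  -- parameters: a and p
  let T : Set ((α → K) → (ι ⊕ β → K) → Prop) :=
    {fun u' w => Q u' (fun i => w (Sum.inr i))} ∪
    {G | ∃ P ∈ FD L a, G = fun u' w => ∀ c, P (fun i => w (Sum.inl i)) c →
      R c u' (fun i => w (Sum.inr i))}
  obtain ⟨u', h1, h2⟩ := El.sat hK hf u (Sum.elim a p) T (by
    rintro G (rfl | ⟨P, hP, rfl⟩)
    · have := hQ.relabel (β := α ⊕ (ι ⊕ β)) (Sum.map id Sum.inr)
      exact this
    · refine Df.all1 (Q := fun c (w : α ⊕ (ι ⊕ β) → K) => P (fun i => w (Sum.inr (Sum.inl i))) c →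
        R c (fun i => w (Sum.inl i)) (fun i => w (Sum.inr (Sum.inr i)))) ?_
      refine Df.imp ?_ ?_
      · exact hP.1.relabel (β := Option (α ⊕ (ι ⊕ β)))
          (fun o : Option ι => (o.elim none (fun j => some (Sum.inr (Sum.inl j))) :
            Option (α ⊕ (ι ⊕ β))))
      · exact hR.relabel (β := Option (α ⊕ (ι ⊕ β)))
          (fun o : Option (α ⊕ β) => (o.elim none (fun j => some (Sum.map id Sum.inr j)) :
            Option (α ⊕ (ι ⊕ β))))) (by
    intro Rs hRs hfin
    -- choose a representative for each element of Rs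
    have hch : ∀ G : Rs, ∃ P : (ι → K) → K → Prop, (P ∈ FD L a) ∧ (G.1 ∈
        {G | ∃ P ∈ FD L a, G = fun u' (w : ι ⊕ β → K) => ∀ c, P (fun i => w (Sum.inl i)) c →
      R c u' (fun i => w (Sum.inr i))} → G.1 = fun u' (w : ι ⊕ β → K) =>
        ∀ c, P (fun i => w (Sum.inl i)) c → R c u' (fun i => w (Sum.inr i))) := by
      intro G
      by_cases hG : G.1 ∈ {G | ∃ P ∈ FD L a, G = fun u' (w : ι ⊕ β → K) =>
        ∀ c, P (fun i => w (Sum.inl i)) c → R c u' (fun i => w (Sum.inr i))}
      · obtain ⟨P, hP, hGP⟩ := hG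
        exact ⟨P, hP, fun _ => hGP⟩
      · refine ⟨fun _ _ => False, ⟨Df.const _, ?_⟩, fun h' => absurd h' hG⟩
        convert Set.finite_empty using 1
        ext x
        simp
    choose P hP hGP using hch
    have := hfin.to_subtype
    obtain ⟨u', h1, h2, h3⟩ := h (⋃ G : Rs, {c | P G a c})
      (Set.finite_iUnion fun G => (hP G).2) (by
        intro c hc
        obtain ⟨G, hG⟩ := Set.mem_iUnion.1 hc
        exact ⟨P G, hP G, hG⟩)
    refine ⟨u', h1, fun G hG => ?_⟩
    rcases hRs hG with h' | h'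
    · rw [Set.mem_singleton_iff] at h'
      rw [h']
      exact h2
    · rw [show G = (⟨G, hG⟩ : Rs).1 from rfl, hGP ⟨G, hG⟩ h']
      intro c hc
      exact h3 c (Set.mem_iUnion.2 ⟨⟨G, hG⟩, hc⟩))
  refine ⟨u', h1, ?_, ?_⟩
  · exact h2 _ (Or.inl rfl)
  · rintro c ⟨P, hP, hPc⟩
    exact h2 _ (Or.inr ⟨P, hP, rfl⟩) c hPc

/-- Saturation relative to the algebraic closure of a finite tuple, for one new tuple. -/
theorem sat_acl' (hK : Satur L K) {α β : Type}
    [Finite α] [Finite β] (p : β → K) (a : ι → K)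
    (Q : (α → K) → (β → K) → Prop)
    (hQ : Df L (fun w : α ⊕ β → K => Q (fun i => w (Sum.inl i)) (fun i => w (Sum.inr i))))
    (R : K → (α → K) → (β → K) → Prop)
    (hR : Df L (fun w : Option (α ⊕ β) → K => R (w none) (fun i => w (some (Sum.inl i)))
      (fun i => w (some (Sum.inr i)))))
    (h : ∀ C : Set K, C.Finite → C ⊆ acl L a → ∃ u' : α → K, Q u' p ∧ ∀ c ∈ C, R c u' p) :
    ∃ u' : α → K, Q u' p ∧ ∀ c ∈ acl L a, R c u' p := by
  classical
  let T : Set ((α ⊕ (ι ⊕ β) → K) → Prop) :=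
    {fun w => Q (fun i => w (Sum.inl i)) (fun i => w (Sum.inr (Sum.inr i)))} ∪
    {G | ∃ P ∈ FD L a, G = fun w => ∀ c, P (fun i => w (Sum.inr (Sum.inl i))) c →
      R c (fun i => w (Sum.inl i)) (fun i => w (Sum.inr (Sum.inr i)))}
  obtain ⟨u', h2⟩ := hK α (ι ⊕ β) (Sum.elim a p) T (by
    rintro G (rfl | ⟨P, hP, rfl⟩)
    · have := hQ.relabel (β := α ⊕ (ι ⊕ β)) (Sum.map id Sum.inr)
      exact this
    · refine Df.all1 (Q := fun c (w : α ⊕ (ι ⊕ β) → K) => P (fun i => w (Sum.inr (Sum.inl i))) c →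
        R c (fun i => w (Sum.inl i)) (fun i => w (Sum.inr (Sum.inr i)))) ?_
      refine Df.imp ?_ ?_
      · exact hP.1.relabel (β := Option (α ⊕ (ι ⊕ β)))
          (fun o : Option ι => (o.elim none (fun j => some (Sum.inr (Sum.inl j))) :
            Option (α ⊕ (ι ⊕ β))))
      · exact hR.relabel (β := Option (α ⊕ (ι ⊕ β)))
          (fun o : Option (α ⊕ β) => (o.elim none (fun j => some (Sum.map id Sum.inr j)) :
            Option (α ⊕ (ι ⊕ β))))) (by
    intro Rs hRs hfin
    have hch : ∀ G : Rs, ∃ P : (ι → K) → K → Prop, (P ∈ FD L a) ∧ (G.1 ∈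
        {G | ∃ P ∈ FD L a, G = fun (w : α ⊕ (ι ⊕ β) → K) => ∀ c,
          P (fun i => w (Sum.inr (Sum.inl i))) c →
          R c (fun i => w (Sum.inl i)) (fun i => w (Sum.inr (Sum.inr i)))} →
        G.1 = fun (w : α ⊕ (ι ⊕ β) → K) => ∀ c, P (fun i => w (Sum.inr (Sum.inl i))) c →
          R c (fun i => w (Sum.inl i)) (fun i => w (Sum.inr (Sum.inr i)))) := by
      intro G
      by_cases hG : G.1 ∈ {G | ∃ P ∈ FD L a, G = fun (w : α ⊕ (ι ⊕ β) → K) => ∀ c,
          P (fun i => w (Sum.inr (Sum.inl i))) c →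
          R c (fun i => w (Sum.inl i)) (fun i => w (Sum.inr (Sum.inr i)))}
      · obtain ⟨P, hP, hGP⟩ := hG
        exact ⟨P, hP, fun _ => hGP⟩
      · refine ⟨fun _ _ => False, ⟨Df.const _, ?_⟩, fun h' => absurd h' hG⟩
        convert Set.finite_empty using 1
        ext x
        simp
    choose P hP hGP using hch
    have := hfin.to_subtype
    obtain ⟨u', h2, h3⟩ := h (⋃ G : Rs, {c | P G a c})
      (Set.finite_iUnion fun G => (hP G).2) (by
        intro c hc
        obtain ⟨G, hG⟩ := Set.mem_iUnion.1 hc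
        exact ⟨P G, hP G, hG⟩)
    refine ⟨u', fun G hG => ?_⟩
    rcases hRs hG with h' | h'
    · rw [Set.mem_singleton_iff] at h'
      rw [h']
      exact h2
    · rw [show G = (⟨G, hG⟩ : Rs).1 from rfl, hGP ⟨G, hG⟩ h']
      intro c hc
      exact h3 c (Set.mem_iUnion.2 ⟨⟨G, hG⟩, hc⟩))
  refine ⟨u', ?_, ?_⟩
  · exact h2 _ (Or.inl rfl)
  · rintro c ⟨P, hP, hPc⟩
    exact h2 _ (Or.inr ⟨P, hP, rfl⟩) c hPc

/-- a map of finite fibres that is defined on the whole fibre is onto -/
theorem orbit_surj {κ : Type} [Finite κ] {b b' : κ → K} {S : Set (K × K)} (hS : El L S)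
    (hb : ∀ i, (b i, b' i) ∈ S) {P : (κ → K) → K → Prop}
    (hP : Df L (fun w : Option κ → K => P (fun i => w (some i)) (w none)))
    (hf : {x | P b x}.Finite) (hd : ∀ e, P b e → ∃ e', (e, e') ∈ S) {e' : K} (he' : P b' e') :
    ∃ e, P b e ∧ (e, e') ∈ S := by
  classical
  choose g hg using fun e : {x | P b x} => hd e.1 e.2
  have hmem : ∀ e, P b' (g e) := by
    intro e
    have := hS (Option κ) (fun o => o.elim (e.1, g e) (fun i => (b i, b' i)))
      (by rintro (_ | i); exacts [hg e, hb i]) _ hP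
    exact this.1 e.2
  have hinj : Function.Injective g := by
    intro e1 e2 h
    exact Subtype.ext (hS.injective (hg e1) (h ▸ hg e2))
  have := hf.to_subtype
  set k := {x | P b x}.ncard with hk
  have h1 : ¬ ∃ t : Fin (k + 1) → K, Function.Injective t ∧ ∀ i, P b (t i) := by
    rintro ⟨t, ht, htX⟩
    have h1 : (Set.range t).ncard ≤ {x | P b x}.ncard :=
      Set.ncard_le_ncard (by rintro _ ⟨i, rfl⟩; exact htX i) hf
    have h2 : (Set.range t).ncard = k + 1 := by
      rw [← Set.image_univ, Set.ncard_image_of_injective _ ht, Set.ncard_univ]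
      simp
    omega
  have h2 := (hS κ (fun i => (b i, b' i)) hb _ (df_atMost k hP)).1 h1
  have hf' : {x | P b' x}.Finite := finite_of_atMost (X := {x | P b' x}) h2
  have h3 : {x | P b' x}.ncard ≤ k := by
    by_contra hc
    push Not at hc
    obtain ⟨F, hF⟩ : ∃ F : Finset K, (F : Set K) = {x | P b' x} := hf'.exists_finset_coe
    have h4 : k + 1 ≤ F.card := by
      rw [← Set.ncard_coe_finset, hF]; omega
    obtain ⟨t⟩ := Function.Embedding.nonempty_of_card_le (α := Fin (k + 1)) (β := F)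
      (by simpa using h4)
    refine h2 ⟨fun i => (t i : K), fun i j hij => t.injective (Subtype.ext hij), fun i => ?_⟩
    have : (t i : K) ∈ (F : Set K) := (t i).2
    rw [hF] at this
    exact this
  have h5 : Set.range g = {x | P b' x} := by
    refine Set.eq_of_subset_of_ncard_le ?_ ?_ hf'
    · rintro _ ⟨e, rfl⟩; exact hmem e
    · have : (Set.range g).ncard = k := by
        rw [← Set.image_univ, Set.ncard_image_of_injective _ hinj, Set.ncard_univ, hk]
        exact Nat.card_coe_set_eq _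
      rw [this]
      exact h3
  have h6 : e' ∈ Set.range g := by rw [h5]; exact he'
  obtain ⟨e, rfl⟩ := h6
  exact ⟨e.1, e.2, hg e⟩

end acl

end Pool.Agent.R611.HM
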