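import Pool.Agent.R611.HM.T9

/-!
# From types back to the definition
-/

set_option autoImplicit false
set_option linter.unusedSectionVars false

namespace Pool.Agent.R611.HM

open FirstOrder Language Structure Set

universe u w

variable {L : FirstOrder.Language.{u, u}} {K N : Type u} [L.Structure K] [L.Structure N]

/-- universal statements with definable matrix transfer to an elementary extension -/
theorem all_transfer (j : K ↪ₑ[L] N) {α γ : Type} [Finite γ] {P : (α ⊕ γ → N) → Prop}
    (hP : Df L P) (w : α → K) (h : ∀ y : γ → K, P (j ∘ Sum.elim w y)) (y : γ → N) :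
    P (Sum.elim (j ∘ w) y) := by
  obtain ⟨φ, hφ⟩ := df_iff.1 hP
  by_contra hcon
  have h1 : (Formula.iExs γ (Formula.not φ) : L.Formula α).Realize (j ∘ w) := by
    rw [Formula.realize_iExs]
    refine ⟨y, ?_⟩
    rw [Formula.realize_not, ← hφ]
    exact hcon
  rw [j.map_formula, Formula.realize_iExs] at h1
  obtain ⟨y', hy'⟩ := h1
  rw [Formula.realize_not] at hy'
  have h2 := h y'
  rw [hφ, j.map_formula] at h2
  exact hy' h2

section

variable [Field K] [Field N] {O : ValuationSubring K} {O' : ValuationSubring N}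
  {sy : ValSymbols L} (j : K ↪ₑ[L] N) (hO : IsValued sy O) (hO' : IsValued sy O')

include j hO hO'

theorem j_add (x y : K) : j (x + y) = j x + j y := by
  rw [← hO.add, ← hO'.add, j.map_fun]
  congr 1
  funext i
  fin_cases i <;> rfl

theorem j_mul (x y : K) : j (x * y) = j x * j y := by
  rw [← hO.mul, ← hO'.mul, j.map_fun]
  congr 1
  funext i
  fin_cases i <;> rfl

theorem j_zero : j (0 : K) = 0 := by
  have := j_add j hO hO' 0 0
  rw [add_zero] at this
  exact left_eq_add.1 this

theorem j_sub (x y : K) : j (x - y) = j x - j y := by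
  rw [eq_sub_iff_add_eq, ← j_add j hO hO', sub_add_cancel]

theorem j_mem (x : K) : j x ∈ O' ↔ x ∈ O := by
  rw [← hO.ring, ← hO'.ring, ← j.map_rel]
  apply iff_of_eq
  congr 1
  funext i
  fin_cases i
  rfl

theorem j_le (x y : K) : O'.valuation (j x) ≤ O'.valuation (j y) ↔
    O.valuation x ≤ O.valuation y := by
  by_cases hy : y = 0
  · rw [hy, j_zero j hO hO', map_zero, map_zero, le_zero_iff, le_zero_iff, Valuation.zero_iff,
      Valuation.zero_iff]
    constructor
    · intro h
      exact j.injective (h.trans (j_zero j hO hO').symm)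
    · rintro rfl
      exact j_zero j hO hO'
  · have hjy : j y ≠ 0 := fun h => hy (j.injective (h.trans (j_zero j hO hO').symm))
    have e : j (x / y) = j x / j y := by
      rw [eq_div_iff hjy, ← j_mul j hO hO', div_mul_cancel₀ _ hy]
    have h1 := j_mem j hO hO' (x / y)
    rw [e, ← O'.valuation_le_one_iff, ← O.valuation_le_one_iff, map_div₀, map_div₀,
      div_le_one₀ ((Valuation.pos_iff _).2 hjy), div_le_one₀ ((Valuation.pos_iff _).2 hy)] at h1
    exact h1

theorem j_rvl (l x y : K) : RVl O'.valuation (j l) (j x) (j y) ↔ RVl O.valuation l x y := by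
  unfold RVl
  rw [← j_sub j hO hO', ← map_mul O'.valuation, ← map_mul O.valuation, ← j_mul j hO hO',
    ← not_le, ← not_le, j_le j hO hO']
  have h0 : ∀ t : K, j t = 0 ↔ t = 0 := fun t =>
    ⟨fun h => j.injective (h.trans (j_zero j hO hO').symm), fun h => by
      rw [h]; exact j_zero j hO hO'⟩
  rw [h0, h0]

theorem j_rveq (x y : K) : RVeq O'.valuation (j x) (j y) ↔ RVeq O.valuation x y := by
  unfold RVeq
  rw [← j_sub j hO hO', ← not_le, ← not_le, j_le j hO hO']
  have h0 : ∀ t : K, j t = 0 ↔ t = 0 := fun t =>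
    ⟨fun h => j.injective (h.trans (j_zero j hO hO').symm), fun h => by
      rw [h]; exact j_zero j hO hO'⟩
  rw [h0, h0]

/-- The type-level form of h-minimality in a saturated elementary extension gives the condition in
the small model. -/
theorem hminAt_of_TH (hN : Satur L N) (hT : ∀ n, TH L O'.valuation n) (s : ℕ∞) :
    HMinAt O L s := by
  classical
  have hV' := hO'.vf
  intro lam hlam0 hlam1 A A' _ _ X hXdef
  obtain ⟨l, rfl⟩ := O.valuation_surjective lam
  have hl0 : l ≠ 0 := (Valuation.ne_zero_iff _).1 hlam0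
  obtain ⟨k, n, ξ, ζ, Y, -, hY, hX⟩ := hXdef
  choose z hz using fun i => Quot.exists_rep (ξ i)
  choose w hw using fun i => Quot.exists_rep (ζ i)
  obtain ⟨p, a, φ, ha, hφ⟩ := df_of_definable hY
  have hXm : ∀ (z1 : Fin k → K) (w1 : Fin n → K), (∀ i, RVeq O.valuation (z i) (z1 i)) →
      (∀ i, RVl O.valuation l (w i) (w1 i)) → ∀ x, x ∈ X ↔
        φ.Realize (Sum.elim a (fun o : Option (Fin k ⊕ Fin n) => o.elim x (Sum.elim z1 w1))) := by
    intro z1 w1 hz1 hw1 x
    rw [← hφ, hX z1 w1 (fun i => ?_) (fun i => ?_)]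
    · rfl
    · rw [← hz i]
      exact ((rv_one_iff _ _).2 (hz1 i)).symm
    · rw [← hw i]
      exact ((rv_eq_iff hl0 hlam1 _ _).2 (hw1 i)).symm
  by_contra hcon
  push Not at hcon
  let q0 : Fin p ⊕ (Unit ⊕ (Fin k ⊕ Fin n)) → K :=
    Sum.elim a (Sum.elim (fun _ => l) (Sum.elim z w))
  -- evaluation of the formula in `N`
  let F : N → (Fin p → N) → (Fin k ⊕ Fin n → N) → Prop := fun y a zw =>
    φ.Realize (Sum.elim a (fun o : Option (Fin k ⊕ Fin n) => o.elim y zw))
  have hF : ∀ {β : Type} [Finite β] (i0 : β) (ia : Fin p → β) (iz : Fin k ⊕ Fin n → β),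
      Df L (fun q : β → N => F (q i0) (fun i => q (ia i)) (fun i => q (iz i))) := by
    intro β _ i0 ia iz
    rw [df_iff]
    refine ⟨φ.relabel (Sum.elim ia (fun o => o.elim i0 iz)), fun q => ?_⟩
    rw [Formula.realize_relabel]
    apply iff_of_eq
    refine congrArg (Formula.Realize _) ?_
    funext i
    rcases i with i | _ | i <;> rfl
  have hFj : ∀ (y : K) (z1 : Fin k → K) (w1 : Fin n → K), F (j y) (j ∘ a)
      (Sum.elim (j ∘ z1) (j ∘ w1)) ↔
      φ.Realize (Sum.elim a (fun o : Option (Fin k ⊕ Fin n) => o.elim y (Sum.elim z1 w1))) := by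
    intro y z1 w1
    rw [← j.map_formula]
    apply iff_of_eq
    refine congrArg (Formula.Realize _) ?_
    funext i
    rcases i with i | _ | i | i <;> rfl
  let T2 : Set ((Bool ⊕ (Fin p ⊕ (Unit ⊕ (Fin k ⊕ Fin n))) → N) → Prop) :=
    {R | ∃ P ∈ FD L (j ∘ a), R = fun q => ∀ c, P (fun i => q (Sum.inr (Sum.inl i))) c →
      RVl O'.valuation (q (Sum.inr (Sum.inr (Sum.inl ())))) (q (Sum.inl true) - c)
        (q (Sum.inl false) - c)}
  let R0 : (Bool ⊕ (Fin p ⊕ (Unit ⊕ (Fin k ⊕ Fin n))) → N) → Prop := fun q =>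
    F (q (Sum.inl true)) (fun i => q (Sum.inr (Sum.inl i)))
      (fun i => q (Sum.inr (Sum.inr (Sum.inr i)))) ∧
    ¬ F (q (Sum.inl false)) (fun i => q (Sum.inr (Sum.inl i)))
      (fun i => q (Sum.inr (Sum.inr (Sum.inr i))))
  obtain ⟨u', hu'⟩ := hN Bool (Fin p ⊕ (Unit ⊕ (Fin k ⊕ Fin n))) (j ∘ q0) (T2 ∪ {R0}) (by
      rintro R (⟨P, hP, rfl⟩ | hR)
      · refine Df.all1 (Q := fun c (q : Bool ⊕ (Fin p ⊕ (Unit ⊕ (Fin k ⊕ Fin n))) → N) =>
          P (fun i => q (Sum.inr (Sum.inl i))) c →
          RVl O'.valuation (q (Sum.inr (Sum.inr (Sum.inl ())))) (q (Sum.inl true) - c)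
            (q (Sum.inl false) - c)) ?_
        refine Df.imp ?_ (hV'.rvl (dvar _) (hV'.fsub (dvar _) (dvar _))
          (hV'.fsub (dvar _) (dvar _)))
        exact hP.1.relabel (β := Option (Bool ⊕ (Fin p ⊕ (Unit ⊕ (Fin k ⊕ Fin n)))))
          (fun o : Option (Fin p) => (o.elim none (fun i => some (Sum.inr (Sum.inl i))) :
            Option (Bool ⊕ (Fin p ⊕ (Unit ⊕ (Fin k ⊕ Fin n))))))
      · rw [Set.mem_singleton_iff] at hR
        rw [hR]
        exact (hF _ _ _).and (hF _ _ _).not) (by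
    intro Rs hRs hfin
    have hch : ∀ R : Rs, ∃ P : (Fin p → N) → N → Prop, P ∈ FD L (j ∘ a) ∧ (R.1 ∈ T2 →
        R.1 = fun q => ∀ c, P (fun i => q (Sum.inr (Sum.inl i))) c →
          RVl O'.valuation (q (Sum.inr (Sum.inr (Sum.inl ())))) (q (Sum.inl true) - c)
            (q (Sum.inl false) - c)) := by
      intro R
      by_cases hR : R.1 ∈ T2
      · obtain ⟨P, hP, he⟩ := hR
        exact ⟨P, hP, fun _ => he⟩
      · refine ⟨fun _ _ => False, ⟨Df.const _, ?_⟩, fun h' => absurd h' hR⟩
        convert Set.finite_empty using 1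
        ext x
        simp
    choose P hP hPe using hch
    have := hfin.to_subtype
    let C : Set K := ⋃ R : Rs, {x | P R (j ∘ a) (j x)}
    have hCf : C.Finite := Set.finite_iUnion fun R =>
      (hP R).2.preimage j.injective.injOn
    choose ψ hψ using fun R : Rs => df_iff.1 (hP R).1
    have hCm : ∀ x, x ∈ C ↔ ∃ R : Rs, (ψ R).Realize (fun o : Option (Fin p) => o.elim x a) := by
      intro x
      simp only [C, Set.mem_iUnion, Set.mem_ofPred_eq]
      refine exists_congr fun R => ?_
      rw [← j.map_formula, ← hψ R]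
      rfl
    have hCd : A.Definable₁ L C := by
      have hD : Df L (fun q : Fin 1 ⊕ Fin p → K => ∃ R : Rs, (ψ R).Realize
          (fun o : Option (Fin p) => o.elim (q (Sum.inl 0)) (fun i => q (Sum.inr i)))) := by
        refine Df.ex_fin fun R => ?_
        rw [df_iff]
        refine ⟨(ψ R).relabel (fun o => o.elim (Sum.inl 0) Sum.inr), fun q => ?_⟩
        rw [Formula.realize_relabel]
        apply iff_of_eq
        refine congrArg (Formula.Realize _) ?_
        funext i
        rcases i with _ | i <;> rfl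
      have h2 := hD.params a ha
      unfold Set.Definable₁
      convert h2 using 1
      ext x
      exact hCm (x 0)
    have hnp := hcon C hCf hCd
    unfold Prepared at hnp
    push Not at hnp
    obtain ⟨y, y', hyy, hyX, hy'X⟩ : ∃ y y' : K, (∀ c ∈ C, RVl O.valuation l (y - c) (y' - c)) ∧
        y ∈ X ∧ y' ∉ X := by
      obtain ⟨x, x', h2, h3⟩ := hnp
      have h2' : ∀ c ∈ C, RVl O.valuation l (x - c) (x' - c) := fun c hc =>
        (rv_eq_iff hl0 hlam1 _ _).1 (h2 c hc)
      by_cases hx : x ∈ X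
      · by_cases hx' : x' ∈ X
        · rcases h3 with h3 | h3
          · exact absurd hx' h3.2
          · exact absurd hx h3.1
        · exact ⟨x, x', h2', hx, hx'⟩
      · by_cases hx' : x' ∈ X
        · exact ⟨x', x, fun c hc => (h2' c hc).symm' hlam1, hx', hx⟩
        · rcases h3 with h3 | h3
          · exact absurd h3.1 hx
          · exact absurd h3.2 hx'
    refine ⟨fun b => if b then j y else j y', fun R hR => ?_⟩
    by_cases hRT : R ∈ T2
    · have e := hPe ⟨R, hR⟩ hRT
      change R _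
      rw [show R = (⟨R, hR⟩ : Rs).1 from rfl, e]
      -- transfer
      let G : ((Fin p ⊕ (Unit ⊕ Bool)) ⊕ Unit → N) → Prop := fun q =>
        P ⟨R, hR⟩ (fun i => q (Sum.inl (Sum.inl i))) (q (Sum.inr ())) →
          RVl O'.valuation (q (Sum.inl (Sum.inr (Sum.inl ()))))
            (q (Sum.inl (Sum.inr (Sum.inr true))) - q (Sum.inr ()))
            (q (Sum.inl (Sum.inr (Sum.inr false))) - q (Sum.inr ()))
      have hG : Df L G := by
        refine Df.imp ?_ (hV'.rvl (dvar _) (hV'.fsub (dvar _) (dvar _))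
          (hV'.fsub (dvar _) (dvar _)))
        exact (hP ⟨R, hR⟩).1.relabel (β := (Fin p ⊕ (Unit ⊕ Bool)) ⊕ Unit)
          (fun o : Option (Fin p) => (o.elim (Sum.inr ()) (fun i => Sum.inl (Sum.inl i)) :
            (Fin p ⊕ (Unit ⊕ Bool)) ⊕ Unit))
      have h4 := all_transfer j hG (Sum.elim a (Sum.elim (fun _ => l)
        (fun b : Bool => if b then y else y'))) (fun c => by
          intro hc
          have hcC : c () ∈ C := Set.mem_iUnion.2 ⟨⟨R, hR⟩, hc⟩
          have := hyy _ hcC
          rw [← j_rvl j hO hO', j_sub j hO hO', j_sub j hO hO'] at this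
          exact this)
      intro c hc
      exact h4 (fun _ => c) hc
    · rcases hRs hR with h | h
      · exact absurd h hRT
      · rw [Set.mem_singleton_iff] at h
        rw [h]
        refine ⟨?_, ?_⟩
        · have := (hFj y z w).2 ((hXm z w (fun i => RVeq.refl _) (fun i => RVl.refl hl0 _) y).1
            hyX)
          refine (iff_of_eq ?_).1 this
          refine congrArg (F (j y) (j ∘ a)) ?_
          funext i
          rcases i with i | i <;> rfl
        · intro hc
          refine hy'X ((hXm z w (fun i => RVeq.refl _) (fun i => RVl.refl hl0 _) y').2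
            ((hFj y' z w).1 ?_))
          refine (iff_of_eq ?_).1 hc
          refine congrArg (F (j y') (j ∘ a)) ?_
          funext i
          rcases i with i | i <;> rfl)
  -- the two points
  set y := u' true with hy
  set y' := u' false with hy'
  obtain ⟨hFy, hFy'⟩ := hu' R0 (Or.inr rfl)
  change F y (j ∘ a) (fun i => (j ∘ q0) (Sum.inr (Sum.inr i))) at hFy
  change ¬ F y' (j ∘ a) (fun i => (j ∘ q0) (Sum.inr (Sum.inr i))) at hFy'
  have ezw : (fun i : Fin k ⊕ Fin n => (j ∘ q0) (Sum.inr (Sum.inr i))) =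
      Sum.elim (j ∘ z) (j ∘ w) := by
    funext i
    rcases i with i | i <;> rfl
  rw [ezw] at hFy hFy'
  have hacl : ∀ c ∈ acl L (j ∘ a), RVl O'.valuation (j l) (y - c) (y' - c) := by
    rintro c ⟨P, hP, hPc⟩
    exact hu' _ (Or.inl ⟨P, hP, rfl⟩) c hPc
  have hne : y ≠ y' := fun h => hFy' (h ▸ hFy)
  have hnr : nr L O'.valuation (j l) (j ∘ a) y y' := by
    intro c hc
    rcases hacl c hc with ⟨h1, h2⟩ | h1
    · exact absurd ((sub_eq_zero.1 h1).trans (sub_eq_zero.1 h2).symm) hne
    · have e : y - c - (y' - c) = -(y' - y) := by ring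
      rwa [e, Valuation.map_neg] at h1
  have hjl0 : j l ≠ 0 := fun h => hl0 (j.injective (h.trans (j_zero j hO hO').symm))
  have hjl1 : O'.valuation (j l) ≤ 1 := by
    rw [O'.valuation_le_one_iff, j_mem j hO hO', ← O.valuation_le_one_iff]
    exact hlam1
  obtain ⟨S, hS, hyS, hwS⟩ := hT n (Fin p) (j ∘ a) (Set.range (j ∘ z)) (Set.finite_range _)
    (j ∘ w) (j l) y y' hjl0 hjl1 hnr
  choose z2 hz2 hz2r using fun i => hS.rig (j (z i)) ⟨i, rfl⟩
  choose w2 hw2 hw2r using hwS
  have hE := hS.el (Option (Fin p ⊕ (Fin k ⊕ Fin n))) (fun o => o.elim (y, y')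
    (Sum.elim (fun i => (j (a i), j (a i))) (Sum.elim (fun i => (j (z i), z2 i))
      (fun i => (j (w i), w2 i)))))
    (by
      rintro (_ | i | i | i)
      · exact hyS
      · exact hS.fix i
      · exact hz2 i
      · exact hw2 i) _ (hF none (fun i => some (Sum.inl i)) (fun i => some (Sum.inr i)))
  have hF2 : F y' (j ∘ a) (Sum.elim z2 w2) := by
    have h5 : F y (j ∘ a) (Sum.elim (j ∘ z) (j ∘ w)) ↔ F y' (j ∘ a) (Sum.elim z2 w2) := by
      refine Iff.trans (iff_of_eq ?_) (hE.trans (iff_of_eq ?_))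
      · refine congrArg (F y (j ∘ a)) ?_
        funext i
        rcases i with i | i <;> rfl
      · refine congrArg (F y' (j ∘ a)) ?_
        funext i
        rcases i with i | i <;> rfl
    exact h5.1 hFy
  -- invariance in `N`
  let I : ((Fin p ⊕ (Unit ⊕ (Fin k ⊕ Fin n))) ⊕ (Unit ⊕ (Fin k ⊕ Fin n)) → N) → Prop := fun q =>
    (∀ i : Fin k, RVeq O'.valuation (q (Sum.inl (Sum.inr (Sum.inr (Sum.inl i)))))
      (q (Sum.inr (Sum.inr (Sum.inl i))))) →
    (∀ i : Fin n, RVl O'.valuation (q (Sum.inl (Sum.inr (Sum.inl ()))))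
      (q (Sum.inl (Sum.inr (Sum.inr (Sum.inr i))))) (q (Sum.inr (Sum.inr (Sum.inr i))))) →
    (F (q (Sum.inr (Sum.inl ()))) (fun i => q (Sum.inl (Sum.inl i)))
      (fun i => q (Sum.inr (Sum.inr i))) ↔
     F (q (Sum.inr (Sum.inl ()))) (fun i => q (Sum.inl (Sum.inl i)))
      (fun i => q (Sum.inl (Sum.inr (Sum.inr i)))))
  have hI : Df L I := Df.imp (Df.all_fin fun i => hV'.rveq (dvar _) (dvar _))
    (Df.imp (Df.all_fin fun i => hV'.rvl (dvar _) (dvar _) (dvar _))
      (Df.iff (hF _ _ _) (hF _ _ _)))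
  have h6 := all_transfer j hI q0 (fun s => by
    intro h7 h8
    have h7' : ∀ i, RVeq O.valuation (z i) (s (Sum.inr (Sum.inl i))) := fun i =>
      (j_rveq j hO hO' _ _).1 (h7 i)
    have h8' : ∀ i, RVl O.valuation l (w i) (s (Sum.inr (Sum.inr i))) := fun i =>
      (j_rvl j hO hO' _ _ _).1 (h8 i)
    have h9 := hXm _ _ h7' h8' (s (Sum.inl ()))
    have h10 := hXm z w (fun i => RVeq.refl _) (fun i => RVl.refl hl0 _) (s (Sum.inl ()))
    rw [← hFj] at h9 h10
    refine Iff.trans (iff_of_eq ?_) (h9.symm.trans (h10.trans (iff_of_eq ?_)))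
    · refine congrArg (F _ _) ?_
      funext i
      rcases i with i | i <;> rfl
    · refine congrArg (F _ _) ?_
      funext i
      rcases i with i | i <;> rfl)
    (Sum.elim (fun _ => y') (Sum.elim z2 w2)) hz2r hw2r
  refine hFy' ?_
  have h11 : F y' (j ∘ a) (Sum.elim z2 w2) ↔ F y' (j ∘ a) (Sum.elim (j ∘ z) (j ∘ w)) := by
    refine Iff.trans (iff_of_eq ?_) (h6.trans (iff_of_eq ?_))
    · refine congrArg (F y' (j ∘ a)) ?_
      funext i
      rcases i with i | i <;> rfl
    · refine congrArg (F y' (j ∘ a)) ?_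
      funext i
      rcases i with i | i <;> rfl
  exact h11.1 hF2

end

/-- 1-h-minimality implies l-h-minimality for all l, including l = ω. -/
theorem HMin.of_one {sy : ValSymbols L} {T : L.Theory} (hT : IsValuedTheory sy T)
    (h : HMin sy T 1) (s : ℕ∞) : HMin sy T s := by
  intro K _ _ O hKT hO
  obtain ⟨N, hNs, j, hN⟩ := exists_satur_extension (L := L) K
  have hNT : N ⊨ T := (j.theory_model_iff T).1 hKT
  have : Nonempty N := ⟨j 0⟩
  obtain ⟨hNf, O', hO'⟩ := hT N hNT
  have h1 : TH L O'.valuation 1 := TH1_of hN hO' (h N O' hNT hO')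
  exact hminAt_of_TH j hO hO' hN (TH_all hN hO'.vf h1) s

theorem HMin.mono {sy : ValSymbols L} {T : L.Theory} {s t : ℕ∞} (hst : s ≤ t)
    (h : HMin sy T t) : HMin sy T s := by
  intro K _ _ O hKT hO lam h0 h1 A A' hA' hcard X hX
  exact h K O hKT hO lam h0 h1 A A' hA' (hcard.trans hst) X hX

end Pool.Agent.R611.HM
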