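import Pool.Agent.R611.HM.T1a

/-!
# The valuative Jacobian property from 1-h-minimality
-/

set_option autoImplicit false

namespace Pool.Agent.R611.HM

open FirstOrder Language Structure Set

universe u w

variable {L : FirstOrder.Language.{u, u}} {K : Type u} [L.Structure K] [Field K]
variable {Γ : Type w} [LinearOrderedCommGroupWithZero Γ] {v : Valuation K Γ}

/-- `x ↦ d` scales distances by `v m` on the ball 1-next to `x` over `a`. -/
def Scal (L : FirstOrder.Language.{u, u}) {K : Type u} [L.Structure K] [Field K]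
    {Γ : Type w} [LinearOrderedCommGroupWithZero Γ] (v : Valuation K Γ)
    {ι : Type} (a : ι → K) (x d m : K) : Prop :=
  ∃ Z : Set K, Z.Finite ∧ ∀ (S : Set (K × K)) (x' d' : K), Mv L v a Z S → (x, x') ∈ S →
    (d, d') ∈ S → nr1 L v a x x' → v (d' - d) = v m * v (x' - x)

variable (hK : Satur L K) (hV : VF L v) (h1 : TH L v 1) (hnt : ∃ t : K, t ≠ 0 ∧ v t < 1)
variable {ι : Type} [Finite ι] (a : ι → K)

/-- moves which agree on `x` agree on algebraic points over `x` -/
theorem unique_img (hV : VF L v) {x d : K} {P : (Option ι → K) → K → Prop}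
    (hP : Df L (fun w : Option (Option ι) → K => P (fun i => w (some i)) (w none)))
    (hf : {e | P (oc x a) e}.Finite) (hd : P (oc x a) d) {S T : Set (K × K)} {Z Z' : Set K}
    (hS : Mv L v a Z S) (hT : Mv L v a Z' T) (hZ : dif {e | P (oc x a) e} ⊆ Z)
    (hZ' : dif {e | P (oc x a) e} ⊆ Z') {x' d1 d2 : K} (h1 : (x, x') ∈ S) (h2 : (x, x') ∈ T)
    (h3 : (d, d1) ∈ S) (h4 : (d, d2) ∈ T) : d1 = d2 := by
  refine rig_unique hV hP hf hS hT hZ hZ' (b := oc x a) (b' := oc x' a) ?_ ?_ hd h3 h4
  · rintro (_ | i)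
    · exact h1
    · exact hS.fix i
  · rintro (_ | i)
    · exact h2
    · exact hT.fix i

include hK hV h1 hnt in
/-- exchange when the distance to the algebraic closure is attained -/
theorem exchange_att {x d ax : K} (hx : x ∉ acl L a) (hax : ax ∈ acl L a)
    (hd : d ∈ acl L (oc x a)) (hda : d ∉ acl L a) : x ∈ acl L (oc d a) := by
  by_contra hcon
  obtain ⟨P, hP, hPf, hPd⟩ := acl_orbit hd
  obtain ⟨x', hx'ne, hx'⟩ := exists_small1 hK hV (oc d a) hnt hcon
  have hxax : x - ax ≠ 0 := sub_ne_zero.2 fun e => hx (e ▸ hax)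
  set l := (x' - x) / (x - ax) with hl
  have hl0 : l ≠ 0 := div_ne_zero (sub_ne_zero.2 hx'ne) hxax
  have hvl : v l * v (x - ax) = v (x' - x) := by
    rw [hl, map_div₀, div_mul_cancel₀]
    exact (Valuation.ne_zero_iff v).2 hxax
  have hl1 : v l ≤ 1 := by
    have h2 : v (x' - x) < v (x - ax) := hx' ax (acl_le_oc a d hax)
    rw [← hvl] at h2
    by_contra hc
    push Not at hc
    have : v (x - ax) ≤ v l * v (x - ax) := le_mul_of_one_le_left' hc.le
    exact absurd h2 (not_lt.2 this)
  obtain ⟨d', hd'ne, hd'⟩ := exists_small hK hV a hnt hl0 hda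
  have hZf := dif_finite hPf
  obtain ⟨S, x'', hS, h3, h4, h5⟩ := H1inf hK hV h1 a hZf hl0 hl1 hd' hx
  have h6 : nr1 L v (oc d a) x x'' := hx'.of_le (by
    have := h5 ax hax
    rw [hvl] at this
    exact this.le)
  obtain ⟨T, hT, h7⟩ := H0 h1 (oc d a) hZf h6
  have := unique_img a hV hP hPf hPd hS hT.base le_rfl le_rfl h4 h7 h3 hT.fixx
  exact hd'ne this

include hK hV h1 hnt in
theorem scal_att {x d ax : K} (hx : x ∉ acl L a) (hax : ax ∈ acl L a)
    (hmin : ∀ c ∈ acl L a, v (x - ax) ≤ v (x - c))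
    (hd : d ∈ acl L (oc x a)) (hda : d ∉ acl L a) : ∃ m, m ≠ 0 ∧ Scal L v a x d m := by
  have hex := exchange_att hK hV h1 hnt a hx hax hd hda
  obtain ⟨P, hP, hPf, hPd⟩ := acl_orbit hd
  obtain ⟨Q, hQ, hQf, hQd⟩ := acl_orbit hex
  set Z : Set K := dif {e | P (oc x a) e} ∪ dif {e | Q (oc d a) e} with hZ
  have hZf : Z.Finite := (dif_finite hPf).union (dif_finite hQf)
  have hZ1 : dif {e | P (oc x a) e} ⊆ Z := Set.subset_union_left
  have hZ2 : dif {e | Q (oc d a) e} ⊆ Z := Set.subset_union_right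
  have hxax : x - ax ≠ 0 := sub_ne_zero.2 fun e => hx (e ▸ hax)
  have hvxax : v (x - ax) ≠ 0 := (Valuation.ne_zero_iff v).2 hxax
  -- main computation for a nontrivial move
  have key : ∀ (S : Set (K × K)) (x' d' : K), Mv L v a Z S → (x, x') ∈ S → (d, d') ∈ S →
      nr1 L v a x x' → x' ≠ x → ∃ b0 ∈ acl L a, (∀ b ∈ acl L a, v (d - b0) ≤ v (d - b)) ∧
        v (d' - d) = v ((d - b0) / (x - ax)) * v (x' - x) := by
    intro S x' d' hS hxx hdd hn hne
    set l0 := (x' - x) / (x - ax) with hl0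
    have hl00 : l0 ≠ 0 := div_ne_zero (sub_ne_zero.2 hne) hxax
    have hvl0 : v l0 * v (x - ax) = v (x' - x) := by
      rw [hl0, map_div₀, div_mul_cancel₀]
      exact hvxax
    have hl01 : v l0 < 1 := by
      have h2 := hn ax hax
      rw [← hvl0] at h2
      by_contra hc
      push Not at hc
      exact absurd h2 (not_lt.2 (le_mul_of_one_le_left' hc))
    -- claim 1
    have c1 : ∃ b0 ∈ acl L a, v l0 * v (d - b0) ≤ v (d' - d) := by
      by_contra hc
      push Not at hc
      obtain ⟨T, x'', hT, h3, h4, h5⟩ := H1inf hK hV h1 a hZf hl00 hl01.le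
        (y := d) (y' := d') (fun b hb => hc b hb) hx
      have h6 := h5 ax hax
      rw [hvl0] at h6
      have h7 : x' = x'' := unique_img a hV hQ hQf hQd hS hT hZ2 hZ2 hdd h3 hxx h4
      rw [h7] at h6
      exact lt_irrefl _ h6
    -- claim 2
    have c2 : ∀ l : K, v l ≤ 1 → v l0 < v l → ∀ b ∈ acl L a, v (d' - d) < v l * v (d - b) := by
      intro l hl1 hlt
      have hl : l ≠ 0 := by
        rintro rfl
        rw [map_zero] at hlt
        exact absurd hlt not_lt_zero
      have hn' : nr L v l a x x' := by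
        intro c hc
        rw [← hvl0]
        have hp : 0 < v (x - ax) := zero_lt_iff.2 hvxax
        exact (mul_lt_mul_of_pos_right hlt hp).trans_le (mul_le_mul_right (hmin c hc) _)
      obtain ⟨T, d'', hT, h3, h4, h5⟩ := H1inf hK hV h1 a hZf hl hl1 hn' hda
      have h7 : d' = d'' := unique_img a hV hP hPf hPd hS hT hZ1 hZ1 hxx h3 hdd h4
      rw [h7]
      exact h5
    obtain ⟨b0, hb0, hb0'⟩ := c1
    have hdb : ∀ b ∈ acl L a, v (d - b) ≠ 0 := fun b hb =>
      (Valuation.ne_zero_iff v).2 (sub_ne_zero.2 fun e => hda (e ▸ hb))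
    have hlt1 : ∀ b ∈ acl L a, v (d' - d) < v (d - b) := by
      intro b hb
      have := c2 1 (by simp) (by simpa using hl01) b hb
      simpa using this
    have c3 : ∀ b ∈ acl L a, v (d - b0) ≤ v (d - b) := by
      intro b hb
      by_contra hc
      push Not at hc
      set l := l0 * (d - b0) / (d - b) with hl
      have hvl : v l * v (d - b) = v l0 * v (d - b0) := by
        rw [hl, map_div₀, map_mul, div_mul_cancel₀ _ (hdb b hb)]
      have hl1 : v l ≤ 1 := by
        by_contra hc'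
        push Not at hc'
        have h3 : v (d - b) ≤ v l * v (d - b) := le_mul_of_one_le_left' hc'.le
        rw [hvl] at h3
        exact absurd (h3.trans hb0') (not_le.2 (hlt1 b hb))
      have hl2 : v l0 < v l := by
        by_contra hc'
        push Not at hc'
        have h3 : v l * v (d - b) ≤ v l0 * v (d - b) := mul_le_mul_left hc' _
        rw [hvl] at h3
        have hp : 0 < v l0 := (Valuation.pos_iff v).2 hl00
        exact absurd h3 (not_le.2 (mul_lt_mul_of_pos_left hc hp))
      have := c2 l hl1 hl2 b hb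
      rw [hvl] at this
      exact absurd this (not_lt.2 hb0')
    refine ⟨b0, hb0, c3, ?_⟩
    have c4 : v (d' - d) = v l0 * v (d - b0) := by
      refine le_antisymm ?_ hb0'
      by_contra hc
      push Not at hc
      set l := (d' - d) / (d - b0) with hl
      have hvl : v l * v (d - b0) = v (d' - d) := by
        rw [hl, map_div₀, div_mul_cancel₀ _ (hdb b0 hb0)]
      have hl1 : v l ≤ 1 := by
        by_contra hc'
        push Not at hc'
        have h3 : v (d - b0) ≤ v l * v (d - b0) := le_mul_of_one_le_left' hc'.le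
        rw [hvl] at h3
        exact absurd h3 (not_le.2 (hlt1 b0 hb0))
      have hl2 : v l0 < v l := by
        by_contra hc'
        push Not at hc'
        have h3 : v l * v (d - b0) ≤ v l0 * v (d - b0) := mul_le_mul_left hc' _
        rw [hvl] at h3
        exact absurd h3 (not_le.2 hc)
      have := c2 l hl1 hl2 b0 hb0
      rw [hvl] at this
      exact lt_irrefl _ this
    rw [c4, hl0, map_div₀, map_div₀, div_mul_comm]
  by_cases hb : ∃ b0 ∈ acl L a, ∀ b ∈ acl L a, v (d - b0) ≤ v (d - b)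
  · obtain ⟨b1, hb1, hb1'⟩ := hb
    have hdb1 : d - b1 ≠ 0 := sub_ne_zero.2 fun e => hda (e ▸ hb1)
    refine ⟨(d - b1) / (x - ax), div_ne_zero hdb1 hxax, Z, hZf, ?_⟩
    intro S x' d' hS hxx hdd hn
    by_cases hne : x' = x
    · subst hne
      have hI : Mv L v a Z _ := Mv.idm a hZf (X := {x', d}) (Set.toFinite _)
      have : d' = d := unique_img a hV hP hPf hPd hS hI hZ1 hZ1 hxx
        ⟨x', Or.inl (Or.inr (Or.inl rfl)), rfl⟩ hdd ⟨d, Or.inl (Or.inr (Or.inr rfl)), rfl⟩
      rw [this, sub_self, sub_self, map_zero, mul_zero]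
    · obtain ⟨b0, hb0, h2, h3⟩ := key S x' d' hS hxx hdd hn hne
      have h4 : v (d - b0) = v (d - b1) := le_antisymm (h2 b1 hb1) (hb1' b0 hb0)
      rw [h3, map_div₀, map_div₀, h4]
  · refine ⟨1, one_ne_zero, Z, hZf, ?_⟩
    intro S x' d' hS hxx hdd hn
    by_cases hne : x' = x
    · subst hne
      have hI : Mv L v a Z _ := Mv.idm a hZf (X := {x', d}) (Set.toFinite _)
      have : d' = d := unique_img a hV hP hPf hPd hS hI hZ1 hZ1 hxx
        ⟨x', Or.inl (Or.inr (Or.inl rfl)), rfl⟩ hdd ⟨d, Or.inl (Or.inr (Or.inr rfl)), rfl⟩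
      rw [this, sub_self, sub_self, map_zero, mul_zero]
    · obtain ⟨b0, hb0, h2, _⟩ := key S x' d' hS hxx hdd hn hne
      exact absurd ⟨b0, hb0, h2⟩ hb

end Pool.Agent.R611.HM
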