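import Pool.Agent.R611.HM.T1b

/-!
# The valuative Jacobian property: general case
-/

set_option autoImplicit false

namespace Pool.Agent.R611.HM

open FirstOrder Language Structure Set

universe u w

variable {L : FirstOrder.Language.{u, u}} {K : Type u} [L.Structure K] [Field K]
variable {Γ : Type w} [LinearOrderedCommGroupWithZero Γ] {v : Valuation K Γ}

theorem exists_enum {X : Set K} (hX : X.Finite) : ∃ (k : ℕ) (t : Fin k → K), Set.range t = X := by
  have := hX.to_subtype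
  obtain ⟨n, ⟨e⟩⟩ := Finite.exists_equiv_fin X
  refine ⟨n, fun i => (e.symm i).1, ?_⟩
  ext x
  constructor
  · rintro ⟨i, rfl⟩; exact (e.symm i).2
  · intro hx; exact ⟨e ⟨x, hx⟩, by simp⟩

theorem Df.ocr {ι β : Type} {P : (Option ι → K) → K → Prop}
    (hP : Df L (fun w : Option (Option ι) → K => P (fun i => w (some i)) (w none)))
    (A C : β) (B : ι → β) : Df L (fun w : β → K => P (oc (w A) (fun i => w (B i))) (w C)) := by
  refine (hP.relabel (β := β) (fun o : Option (Option ι) =>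
    o.elim C (fun o' => o'.elim A B))).congr fun w => ?_
  have e : (fun i : Option ι => w ((fun o : Option (Option ι) =>
      (o.elim C (fun o' => o'.elim A B) : β)) (some i))) = oc (w A) (fun i => w (B i)) := by
    funext i
    rcases i with _ | i <;> rfl
  rw [e]
  rfl

variable (hK : Satur L K) (hV : VF L v) (h1 : TH L v 1) (hnt : ∃ t : K, t ≠ 0 ∧ v t < 1)
variable {ι : Type} [Finite ι] (a : ι → K)

/-- the configuration contradicting uniform scaling -/
def QC (v : Valuation K Γ) {ι : Type} (P : (Option ι → K) → K → Prop) (k : ℕ) (i0 : Fin k)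
    (u : K) (p : Option ι → K) : Prop :=
  ∃ s : (Bool ⊕ (Option Bool × Fin k)) → K,
    (v (s (Sum.inl true) - u) ≤ v (p none) ∧ v (s (Sum.inl false) - u) ≤ v (p none)) ∧
    (∀ e, P (oc u (fun i => p (some i))) e ↔ ∃ i, s (Sum.inr (none, i)) = e) ∧
    (∀ b : Bool, ∀ e, P (oc (s (Sum.inl b)) (fun i => p (some i))) e ↔
      ∃ i, s (Sum.inr (some b, i)) = e) ∧
    (∀ b : Bool, ∀ i j, RVeq v (s (Sum.inr (none, i)) - s (Sum.inr (none, j)))
      (s (Sum.inr (some b, i)) - s (Sum.inr (some b, j)))) ∧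
    v ((s (Sum.inr (some true, i0)) - s (Sum.inr (none, i0))) * (s (Sum.inl false) - u)) <
      v ((s (Sum.inr (some false, i0)) - s (Sum.inr (none, i0))) * (s (Sum.inl true) - u))

theorem QC_df (hV : VF L v) {P : (Option ι → K) → K → Prop}
    (hP : Df L (fun w : Option (Option ι) → K => P (fun i => w (some i)) (w none)))
    (k : ℕ) (i0 : Fin k) :
    Df L (fun w : Option (Option ι) → K => QC v P k i0 (w none) (fun i => w (some i))) := by
  have hvar : ∀ {β : Type} [Finite β] (i : β), DfF L (fun w : β → K => w i) :=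
    fun i => DfF.var i
  unfold QC
  refine Df.exT (γ := Bool ⊕ (Option Bool × Fin k)) (Q := fun s w =>
    (v (s (Sum.inl true) - w none) ≤ v (w (some none)) ∧
      v (s (Sum.inl false) - w none) ≤ v (w (some none))) ∧
    (∀ e, P (oc (w none) (fun i => w (some (some i)))) e ↔ ∃ i, s (Sum.inr (none, i)) = e) ∧
    (∀ b : Bool, ∀ e, P (oc (s (Sum.inl b)) (fun i => w (some (some i)))) e ↔
      ∃ i, s (Sum.inr (some b, i)) = e) ∧
    (∀ b : Bool, ∀ i j, RVeq v (s (Sum.inr (none, i)) - s (Sum.inr (none, j)))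
      (s (Sum.inr (some b, i)) - s (Sum.inr (some b, j)))) ∧
    v ((s (Sum.inr (some true, i0)) - s (Sum.inr (none, i0))) * (s (Sum.inl false) - w none)) <
      v ((s (Sum.inr (some false, i0)) - s (Sum.inr (none, i0))) *
        (s (Sum.inl true) - w none))) ?_
  refine Df.and (Df.and ?_ ?_) (Df.and ?_ (Df.and ?_ (Df.and ?_ ?_)))
  · exact hV.vle (hV.fsub (hvar _) (hvar _)) (hvar _)
  · exact hV.vle (hV.fsub (hvar _) (hvar _)) (hvar _)
  · refine Df.all1 (Q := fun e (w : Option (Option ι) ⊕ (Bool ⊕ (Option Bool × Fin k)) → K) =>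
      P (oc (w (Sum.inl none)) (fun i => w (Sum.inl (some (some i))))) e ↔
        ∃ i, w (Sum.inr (Sum.inr (none, i))) = e) ?_
    exact Df.iff (Df.ocr hP (some (Sum.inl none)) none (fun i => some (Sum.inl (some (some i)))))
      (Df.ex_fin fun i => Df.eq (hvar _) (hvar _))
  · refine Df.all_fin fun b => ?_
    refine Df.all1 (Q := fun e (w : Option (Option ι) ⊕ (Bool ⊕ (Option Bool × Fin k)) → K) =>
      P (oc (w (Sum.inr (Sum.inl b))) (fun i => w (Sum.inl (some (some i))))) e ↔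
        ∃ i, w (Sum.inr (Sum.inr (some b, i))) = e) ?_
    exact Df.iff (Df.ocr hP (some (Sum.inr (Sum.inl b))) none
      (fun i => some (Sum.inl (some (some i)))))
      (Df.ex_fin fun i => Df.eq (hvar _) (hvar _))
  · refine Df.all_fin fun b => Df.all_fin fun i => Df.all_fin fun j => ?_
    exact hV.rveq (hV.fsub (hvar _) (hvar _)) (hV.fsub (hvar _) (hvar _))
  · exact hV.vlt (hV.fmul (hV.fsub (hvar _) (hvar _)) (hV.fsub (hvar _) (hvar _)))
      (hV.fmul (hV.fsub (hvar _) (hvar _)) (hV.fsub (hvar _) (hvar _)))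

/-- images of an enumeration of a fibre -/
theorem enum_img (hV : VF L v) {P : (Option ι → K) → K → Prop}
    (hP : Df L (fun w : Option (Option ι) → K => P (fun i => w (some i)) (w none))) {x x' : K}
    (hf : {e | P (oc x a) e}.Finite) {k : ℕ} {t : Fin k → K}
    (ht : Set.range t = {e | P (oc x a) e}) {S : Set (K × K)}
    (hS : Mv L v a (dif {e | P (oc x a) e}) S) (hx : (x, x') ∈ S) :
    ∃ t' : Fin k → K, (∀ i, (t i, t' i) ∈ S) ∧ (∀ e, P (oc x' a) e ↔ ∃ i, t' i = e) ∧
      ∀ i j, RVeq v (t i - t j) (t' i - t' j) := by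
  have hmem : ∀ i, P (oc x a) (t i) := fun i => by
    have : t i ∈ {e | P (oc x a) e} := ht ▸ ⟨i, rfl⟩
    exact this
  choose t' h1 h2 using fun i => hS.rig (t i) (mem_dif (hmem i))
  have hb : ∀ o, (oc x a o, oc x' a o) ∈ S := by
    rintro (_ | i)
    · exact hx
    · exact hS.fix i
  refine ⟨t', h1, fun e => ⟨fun he => ?_, ?_⟩, fun i j => ?_⟩
  · obtain ⟨e0, he0, hee⟩ := orbit_surj hS.el hb hP hf (fun e he => by
      obtain ⟨z', h, _⟩ := hS.rig e (mem_dif he)
      exact ⟨z', h⟩) he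
    have : e0 ∈ Set.range t := by rw [ht]; exact he0
    obtain ⟨i, rfl⟩ := this
    exact ⟨i, hS.el.functional (h1 i) hee⟩
  · rintro ⟨i, rfl⟩
    have := hS.el (Option (Option ι)) (fun o => o.elim (t i, t' i) (fun i => (oc x a i, oc x' a i)))
      (by rintro (_ | i'); exacts [h1 i, hb i']) _ hP
    exact this.1 (hmem i)
  · exact hS.rv_sub hV (h1 i) (h1 j) (sub_mem_dif (hmem i) (hmem j))

/-- algebraic elements are fixed by rigid moves -/
theorem fix_acl (hV : VF L v) {c : K} (hc : c ∈ acl L a) : ∃ Z : Set K, Z.Finite ∧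
    ∀ S c', Mv L v a Z S → (c, c') ∈ S → c' = c := by
  obtain ⟨P, hP, hf, hPc⟩ := acl_orbit hc
  refine ⟨dif {x | P a x}, dif_finite hf, fun S c' hS hcc => ?_⟩
  have hI : Mv L v a (dif {x | P a x}) _ := Mv.idm a (dif_finite hf) (X := {c}) (Set.toFinite _)
  exact rig_unique hV hP hf hS hI le_rfl le_rfl (fun i => hS.fix i) (fun i => hI.fix i) hPc hcc
    ⟨c, Or.inl (Or.inr rfl), rfl⟩

include hK hV h1 hnt in
theorem scal_C {x d : K} {P : (Option ι → K) → K → Prop}
    (hP : Df L (fun w : Option (Option ι) → K => P (fun i => w (some i)) (w none)))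
    (hf : {e | P (oc x a) e}.Finite) (hPd : P (oc x a) d) {S T : Set (K × K)} {x' x'' d' d'' : K}
    (hS : Mv L v a (dif {e | P (oc x a) e}) S) (hT : Mv L v a (dif {e | P (oc x a) e}) T)
    (hxS : (x, x') ∈ S) (hdS : (d, d') ∈ S) (hxT : (x, x'') ∈ T) (hdT : (d, d'') ∈ T)
    (hn' : nr1 L v a x x') (hn'' : nr1 L v a x x'') :
    ¬ v ((d' - d) * (x'' - x)) < v ((d'' - d) * (x' - x)) := by
  intro hlt
  obtain ⟨k, t, ht⟩ := exists_enum hf
  obtain ⟨i0, hi0⟩ : ∃ i, t i = d := by
    have : d ∈ Set.range t := by rw [ht]; exact hPd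
    exact this
  obtain ⟨t', ht1, ht2, ht3⟩ := enum_img a hV hP hf ht hS hxS
  obtain ⟨t'', hs1, hs2, hs3⟩ := enum_img a hV hP hf ht hT hxT
  have ed' : t' i0 = d' := hS.el.functional (ht1 i0) (by rw [hi0]; exact hdS)
  have ed'' : t'' i0 = d'' := hT.el.functional (hs1 i0) (by rw [hi0]; exact hdT)
  obtain ⟨g, hg1, hg2, hg3⟩ : ∃ g, v (x' - x) ≤ v g ∧ v (x'' - x) ≤ v g ∧
      ∀ c ∈ acl L a, v g < v (x - c) := by
    rcases le_total (v (x' - x)) (v (x'' - x)) with h | h
    · exact ⟨x'' - x, h, le_rfl, hn''⟩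
    · exact ⟨x' - x, le_rfl, h, hn'⟩
  have hQx : QC v P k i0 x (oc g a) := by
    refine ⟨Sum.elim (fun b => if b then x' else x'') (fun q => q.1.elim (t q.2)
      (fun b => if b then t' q.2 else t'' q.2)), ⟨by simpa [oc] using hg1, by simpa [oc] using hg2⟩,
      fun e => ?_, fun b e => ?_, fun b i j => ?_, ?_⟩
    · change P (oc x a) e ↔ ∃ i, t i = e
      have := Set.ext_iff.1 ht e
      exact this.symm
    · cases b
      · exact hs2 e
      · exact ht2 e
    · cases b
      · exact hs3 i j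
      · exact ht3 i j
    · simp only [Sum.elim_inr, Sum.elim_inl, Option.elim_some, Option.elim_none, if_true,
        Bool.false_eq_true, if_false]
      rw [ed', ed'', hi0]
      exact hlt
  have hinv : ∀ u g', v g' = v g → QC v P k i0 u (oc g' a) → QC v P k i0 u (oc g a) := by
    rintro u g' hgg ⟨s, ⟨h2, h3⟩, h4, h5, h6, h7⟩
    refine ⟨s, ⟨?_, ?_⟩, h4, h5, h6, h7⟩
    · change _ ≤ v g
      rw [← hgg]; exact h2
    · change _ ≤ v g
      rw [← hgg]; exact h3
  have hQu : ∀ u', nr1 L v a x u' → QC v P k i0 u' (oc g a) := by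
    intro u' hu'
    obtain ⟨R, hR, hxu⟩ := H0 h1 a (Z := {g}) (Set.finite_singleton g) hu'
    obtain ⟨g', hgg, hrg⟩ := hR.rig g rfl
    have key := hR.el (Option (Option ι)) (fun o => o.elim (x, u')
      (fun o' => o'.elim (g, g') (fun i => (a i, a i))))
      (by rintro (_ | _ | i); exacts [hxu, hgg, hR.fix i]) _ (QC_df hV hP k i0)
    refine hinv u' g' hrg.v_eq ?_
    have e1 : (fun i : Option ι => ((fun o : Option (Option ι) => (o.elim (x, u')
      (fun o' => o'.elim (g, g') (fun i => (a i, a i))) : K × K)) (some i)).1) = oc g a := by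
      funext i; rcases i with _ | i <;> rfl
    have e2 : (fun i : Option ι => ((fun o : Option (Option ι) => (o.elim (x, u')
      (fun o' => o'.elim (g, g') (fun i => (a i, a i))) : K × K)) (some i)).2) = oc g' a := by
      funext i; rcases i with _ | i <;> rfl
    rw [e1, e2] at key
    exact key.1 hQx
  obtain ⟨u, a1, ha1, ⟨s, ⟨q1, q2⟩, q3, q4, q5, q6⟩, hga, hmin⟩ :=
    attain hK hV a _ (QC_df hV hP k i0) (oc g a) hg3 hQu
  have e0 : (fun i => oc g a (some i)) = a := rfl
  rw [e0] at q3 q4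
  have eg : oc g a none = g := rfl
  rw [eg] at q1 q2
  set u' := s (Sum.inl true) with hu'
  set u'' := s (Sum.inl false) with hu''
  have hgc : ∀ c ∈ acl L a, v g < v (u - c) := fun c hc => hga.trans_le (hmin c hc)
  have hu : u ∉ acl L a := fun hc => by
    have := hgc u hc
    rw [sub_self, map_zero] at this
    exact not_lt_zero this
  have hnu' : nr1 L v a u u' := fun c hc => q1.trans_lt (hgc c hc)
  have hnu'' : nr1 L v a u u'' := fun c hc => q2.trans_lt (hgc c hc)
  have hPu : {e | P (oc u a) e}.Finite := by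
    have : {e | P (oc u a) e} = Set.range (fun i => s (Sum.inr (none, i))) := by
      ext e
      exact q3 e
    rw [this]
    exact Set.finite_range _
  set D := s (Sum.inr (none, i0)) with hD
  have hPD : P (oc u a) D := (q3 D).2 ⟨i0, rfl⟩
  -- the move realizing each enumeration
  have himg : ∀ (Z : Set K), Z.Finite → ∀ b : Bool, ∃ R, Mv L v a Z R ∧
      (u, s (Sum.inl b)) ∈ R ∧ (D, s (Sum.inr (some b, i0))) ∈ R := by
    intro Z hZ b
    have hnb : nr1 L v a u (s (Sum.inl b)) := by cases b; exacts [hnu'', hnu']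
    obtain ⟨R, hR, hRu⟩ := H0 h1 a (Z := Z ∪ dif {e | P (oc u a) e})
      (hZ.union (dif_finite hPu)) hnb
    refine ⟨R, hR.monoZ Set.subset_union_left, hRu, ?_⟩
    refine rig_enum hV (b := oc u a) (b' := oc (s (Sum.inl b)) a) hP hPu hR
      Set.subset_union_right ?_ (t := fun i => s (Sum.inr (none, i)))
      (t' := fun i => s (Sum.inr (some b, i))) q3 (q4 b) (q5 b) i0
    rintro (_ | i)
    · exact hRu
    · exact hR.fix i
  by_cases hDa : D ∈ acl L a
  · obtain ⟨Z, hZ, hfix⟩ := fix_acl a hV hDa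
    obtain ⟨R, hR, _, h3⟩ := himg Z hZ false
    have := hfix R _ hR h3
    rw [this, sub_self, zero_mul, map_zero] at q6
    exact not_lt_zero q6
  · have hDx : D ∈ acl L (oc u a) := ⟨P, ⟨hP, hPu⟩, hPD⟩
    obtain ⟨m, _, Z, hZ, hsc⟩ := scal_att hK hV h1 hnt a hu ha1 hmin hDx hDa
    obtain ⟨R, hR, h2, h3⟩ := himg Z hZ false
    obtain ⟨R', hR', h4, h5⟩ := himg Z hZ true
    have e1 := hsc R _ _ hR h2 h3 hnu''
    have e2 := hsc R' _ _ hR' h4 h5 hnu'
    rw [map_mul, map_mul, e1, e2] at q6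
    have : v m * v (u' - u) * v (u'' - u) = v m * v (u'' - u) * v (u' - u) := by
      rw [mul_assoc, mul_assoc, mul_comm (v (u' - u))]
    rw [← hu', ← hu'', this] at q6
    exact lt_irrefl _ q6

include hK hV h1 hnt in
/-- the valuative Jacobian property -/
theorem scal_gen {x d : K} (hx : x ∉ acl L a) (hd : d ∈ acl L (oc x a)) (hda : d ∉ acl L a) :
    ∃ m, m ≠ 0 ∧ Scal L v a x d m := by
  obtain ⟨P, hP, hPf, hPd⟩ := acl_orbit hd
  obtain ⟨d0, hd0ne, hd0⟩ := exists_small1 hK hV a hnt hda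
  obtain ⟨S, x0, hS, h2, h3, h4⟩ := H0inf hK hV h1 a (dif_finite hPf) hd0 hx
  have hx0 : x0 ≠ x := by
    rintro rfl
    have hI : Mv L v a (dif {e | P (oc x0 a) e}) _ := Mv.idm a (dif_finite hPf) (X := {x0, d})
      (Set.toFinite _)
    exact hd0ne (unique_img a hV hP hPf hPd hS hI le_rfl le_rfl h3
      ⟨x0, Or.inl (Or.inr (Or.inl rfl)), rfl⟩ h2 ⟨d, Or.inl (Or.inr (Or.inr rfl)), rfl⟩)
  have hxx : x0 - x ≠ 0 := sub_ne_zero.2 hx0
  have hdd : d0 - d ≠ 0 := sub_ne_zero.2 hd0ne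
  refine ⟨(d0 - d) / (x0 - x), div_ne_zero hdd hxx, dif {e | P (oc x a) e}, dif_finite hPf, ?_⟩
  intro T x' d' hT h5 h6 h7
  have c1 := scal_C hK hV h1 hnt a hP hPf hPd hS hT h3 h2 h5 h6 h4 h7
  have c2 := scal_C hK hV h1 hnt a hP hPf hPd hT hS h5 h6 h3 h2 h7 h4
  rw [not_lt] at c1 c2
  have hne : v (x0 - x) ≠ 0 := (Valuation.ne_zero_iff v).2 hxx
  have c3 : v (d' - d) * v (x0 - x) = v (d0 - d) * v (x' - x) := by
    rw [← map_mul, ← map_mul]
    exact le_antisymm c1 c2
  rw [map_div₀]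
  rw [div_mul_eq_mul_div, ← c3, mul_div_cancel_right₀ _ hne]

include hK hV h1 hnt in
theorem exch {x d : K} (hx : x ∉ acl L a) (hd : d ∈ acl L (oc x a)) (hda : d ∉ acl L a) :
    x ∈ acl L (oc d a) := by
  by_contra hcon
  obtain ⟨m, hm, Z, hZ, hsc⟩ := scal_gen hK hV h1 hnt a hx hd hda
  obtain ⟨x', hx'ne, hx'⟩ := exists_small1 hK hV (oc d a) hnt hcon
  obtain ⟨S, hS, h2⟩ := H0 h1 (oc d a) hZ hx'
  have := hsc S x' d hS.base h2 hS.fixx (hx'.mono_acl (acl_le_oc a d))
  rw [sub_self, map_zero, ← map_mul] at this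
  have h3 : m * (x' - x) = 0 := (Valuation.zero_iff v).1 this.symm
  rcases mul_eq_zero.1 h3 with h | h
  · exact hm h
  · exact hx'ne (sub_eq_zero.1 h)

end Pool.Agent.R611.HM
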