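import Pool.Agent.R611.HM.T1c

/-!
# Calculus of scaling factors
-/

set_option autoImplicit false
set_option linter.unusedSectionVars false

namespace Pool.Agent.R611.HM

open FirstOrder Language Structure Set

universe u w

variable {L : FirstOrder.Language.{u, u}} {K : Type u} [L.Structure K] [Field K]
variable {Γ : Type w} [LinearOrderedCommGroupWithZero Γ] {v : Valuation K Γ}

theorem dvar {β : Type} [Finite β] (i : β) : DfF L (fun w : β → K => w i) := DfF.var i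

/-- extension of a partial elementary map to a finite set -/
theorem El.ext_set (hK : Satur L K) {σ : Set (K × K)} (hσ : El L σ) (hf : σ.Finite) {Z : Set K}
    (hZ : Z.Finite) : ∃ τ, σ ⊆ τ ∧ El L τ ∧ τ.Finite ∧ ∀ z ∈ Z, ∃ z', (z, z') ∈ τ := by
  classical
  induction Z, hZ using Set.Finite.induction_on with
  | empty => exact ⟨σ, le_rfl, hσ, hf, fun z hz => absurd hz (Set.notMem_empty z)⟩
  | @insert c Z _ _ ih =>
    obtain ⟨τ, h1, h2, h3, h4⟩ := ih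
    obtain ⟨d, hd⟩ := h2.ext hK h3 c
    refine ⟨insert (c, d) τ, h1.trans (Set.subset_insert _ _), hd, h3.insert _, ?_⟩
    rintro z (rfl | hz)
    · exact ⟨d, Set.mem_insert _ _⟩
    · obtain ⟨z', hz'⟩ := h4 z hz
      exact ⟨z', Set.mem_insert_of_mem _ hz'⟩

/-- extension backwards -/
theorem El.ext_back (hK : Satur L K) {σ : Set (K × K)} (hσ : El L σ) (hf : σ.Finite) {Z : Set K}
    (hZ : Z.Finite) : ∃ τ, σ ⊆ τ ∧ El L τ ∧ τ.Finite ∧ ∀ z' ∈ Z, ∃ z, (z, z') ∈ τ := by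
  obtain ⟨τ, h1, h2, h3, h4⟩ := El.ext_set hK hσ.swap (hf.image _) hZ
  refine ⟨Prod.swap '' τ, ?_, h2.swap, h3.image _, ?_⟩
  · rintro ⟨x, y⟩ hp
    exact ⟨(y, x), h1 ⟨(x, y), hp, rfl⟩, rfl⟩
  · intro z' hz'
    obtain ⟨z, hz⟩ := h4 z' hz'
    exact ⟨z, _, hz, rfl⟩

theorem El.rv_iff (hV : VF L v) {σ : Set (K × K)} (hσ : El L σ) {x x' y y' : K}
    (hx : (x, x') ∈ σ) (hy : (y, y') ∈ σ) : RVeq v x y ↔ RVeq v x' y' := by
  have := hσ (Fin 2) ![(x, x'), (y, y')] (by intro i; fin_cases i <;> assumption)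
    (fun w => RVeq v (w 0) (w 1)) (hV.rveq (dvar _) (dvar _))
  simpa using this

theorem El.nr_iff (hV : VF L v) {σ : Set (K × K)} (hσ : El L σ) {x x' y y' z z' : K}
    (hx : (x, x') ∈ σ) (hy : (y, y') ∈ σ) (hz : (z, z') ∈ σ) :
    v (y - x) < v (x - z) ↔ v (y' - x') < v (x' - z') := by
  have := hσ (Fin 3) ![(x, x'), (y, y'), (z, z')] (by intro i; fin_cases i <;> assumption)
    (fun w => v (w 1 - w 0) < v (w 0 - w 2)) (hV.vlt (hV.fsub (dvar _) (dvar _))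
      (hV.fsub (dvar _) (dvar _)))
  simpa using this

theorem El.sc_iff (hV : VF L v) {σ : Set (K × K)} (hσ : El L σ) {x x' y y' z z' t t' m m' : K}
    (hx : (x, x') ∈ σ) (hy : (y, y') ∈ σ) (hz : (z, z') ∈ σ) (ht : (t, t') ∈ σ)
    (hm : (m, m') ∈ σ) :
    v (x - y) = v m * v (z - t) ↔ v (x' - y') = v m' * v (z' - t') := by
  have := hσ (Fin 5) ![(x, x'), (y, y'), (z, z'), (t, t'), (m, m')]
    (by intro i; fin_cases i <;> assumption)
    (fun w => v (w 0 - w 1) = v (w 4 * (w 2 - w 3))) (hV.veq (hV.fsub (dvar _) (dvar _))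
      (hV.fmul (dvar _) (hV.fsub (dvar _) (dvar _))))
  simpa using this

variable {ι κ : Type} [Finite ι] [Finite κ]

theorem Scal.congr {a : ι → K} {x d m m' : K} (h : Scal L v a x d m) (e : v m = v m') :
    Scal L v a x d m' := by
  obtain ⟨Z, hZ, h⟩ := h
  exact ⟨Z, hZ, fun S x' d' h1 h2 h3 h4 => by rw [← e]; exact h S x' d' h1 h2 h3 h4⟩

/-- scaling factors are preserved by elementary maps -/
theorem Scal.conj (hK : Satur L K) (hV : VF L v) {b b' : κ → K} {x x' d d' m m' : K}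
    {σ : Set (K × K)} (hσ : El L σ) (hσf : σ.Finite) (hb : ∀ i, (b i, b' i) ∈ σ)
    (hx : (x, x') ∈ σ) (hd : (d, d') ∈ σ) (hm : (m, m') ∈ σ) (h : Scal L v b x d m) :
    Scal L v b' x' d' m' := by
  obtain ⟨Z, hZ, hsc⟩ := h
  obtain ⟨τ, h1, h2, h3, h4⟩ := El.ext_set hK hσ hσf hZ
  refine ⟨{z' | ∃ z ∈ Z, (z, z') ∈ τ}, ?_, ?_⟩
  · refine (h3.image Prod.snd).subset ?_
    rintro z' ⟨z, _, hz⟩
    exact ⟨_, hz, rfl⟩
  intro S' x1' d1' hS' hx1 hd1 hn
  obtain ⟨ρ, r1, r2, r3, r4⟩ := El.ext_back hK h2 h3 (hS'.fin.image Prod.snd)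
  have hbk : ∀ {p q}, (p, q) ∈ S' → ∃ y, (y, q) ∈ ρ := fun {p q} hpq => r4 q ⟨_, hpq, rfl⟩
  set S : Set (K × K) := El.cmp ρ (El.cmp S' (Prod.swap '' ρ)) with hS
  have hmem : ∀ {p p' q q'}, (p, p') ∈ ρ → (p', q') ∈ S' → (q, q') ∈ ρ → (p, q) ∈ S :=
    fun {p p' q q'} e1 e2 e3 => ⟨p', e1, q', e2, ⟨_, e3, rfl⟩⟩
  have hmv : Mv L v b Z S := by
    refine ⟨r2.comp (hS'.el.comp r2.swap), ?_, fun i => ?_, fun z hz => ?_⟩
    · have : S ⊆ (fun p : (K × K) × (K × K) => (p.1.1, p.2.1)) '' (ρ ×ˢ ρ) := by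
        rintro ⟨p, q⟩ ⟨p', hp, q', hq, ⟨q2, hq2, hqq⟩⟩
        have : q2 = (q, q') := by
          rw [← Prod.swap_swap q2, hqq]; rfl
        rw [this] at hq2
        exact ⟨((p, p'), (q, q')), ⟨hp, hq2⟩, rfl⟩
      exact ((r3.prod r3).image _).subset this
    · exact hmem (r1 (h1 (hb i))) (hS'.fix i) (r1 (h1 (hb i)))
    · obtain ⟨z', hz'⟩ := h4 z hz
      obtain ⟨z'', hzz, hr⟩ := hS'.rig z' ⟨z, hz, hz'⟩
      obtain ⟨y, hy⟩ := hbk hzz
      exact ⟨y, hmem (r1 hz') hzz hy, (El.rv_iff hV r2 (r1 hz') hy).2 hr⟩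
  obtain ⟨x1, hx1'⟩ := hbk hx1
  obtain ⟨d1, hd1'⟩ := hbk hd1
  have hn' : nr1 L v b x x1 := by
    intro c hc
    obtain ⟨c', hc'⟩ := r2.ext hK r3 c
    have hm' : ∀ {p}, p ∈ σ → p ∈ insert (c, c') ρ := fun hp =>
      Set.mem_insert_of_mem _ (r1 (h1 hp))
    have := acl_conj hc' (fun i => hm' (hb i)) (Set.mem_insert _ _) hc
    exact (El.nr_iff hV hc' (hm' hx) (Set.mem_insert_of_mem _ hx1') (Set.mem_insert _ _)).2
      (hn c' this)
  have key := hsc S x1 d1 hmv (hmem (r1 (h1 hx)) hx1 hx1') (hmem (r1 (h1 hd)) hd1 hd1') hn'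
  exact (El.sc_iff hV r2 hd1' (r1 (h1 hd)) hx1' (r1 (h1 hx)) (r1 (h1 hm))).1 key

/-- rigid moves over a base fix the algebraic points -/
theorem mv_base (hV : VF L v) {a : ι → K} {b : κ → K} (h : ∀ i, a i ∈ acl L b) :
    ∃ Z : Set K, Z.Finite ∧ ∀ Z' S, Z ⊆ Z' → Mv L v b Z' S → Mv L v a Z' S := by
  choose Zf hZf hfix using fun i => fix_acl b hV (h i)
  refine ⟨(⋃ i, Zf i) ∪ Set.range a, (Set.finite_iUnion hZf).union (Set.finite_range a), ?_⟩
  intro Z' S hZ hS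
  refine ⟨hS.el, hS.fin, fun i => ?_, hS.rig⟩
  obtain ⟨z', h1, _⟩ := hS.rig (a i) (hZ (Or.inr ⟨i, rfl⟩))
  have := hfix i S z' (hS.monoZ fun z hz => hZ (Or.inl (Set.mem_iUnion.2 ⟨i, hz⟩))) h1
  rwa [this] at h1

theorem Scal.mono (hV : VF L v) {a : ι → K} {b : κ → K} (h : ∀ i, a i ∈ acl L b) {x d m : K}
    (hs : Scal L v a x d m) : Scal L v b x d m := by
  obtain ⟨Z, hZ, hsc⟩ := hs
  obtain ⟨Z0, hZ0, hb⟩ := mv_base hV h
  refine ⟨Z ∪ Z0, hZ.union hZ0, fun S x' d' hS h1 h2 h3 => ?_⟩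
  exact hsc S x' d' ((hb _ S Set.subset_union_right hS).monoZ Set.subset_union_left) h1 h2
    (h3.mono_acl (acl_trans h))

/-- points algebraic over the base have scaling factor zero -/
theorem Scal.zero (hV : VF L v) {a : ι → K} {x d : K} (hd : d ∈ acl L a) : Scal L v a x d 0 := by
  obtain ⟨Z, hZ, hfix⟩ := fix_acl a hV hd
  refine ⟨Z, hZ, fun S x' d' hS _ h2 _ => ?_⟩
  rw [hfix S d' hS h2, sub_self, map_zero, zero_mul]

variable (hK : Satur L K) (hV : VF L v) (h1 : TH L v 1) (hnt : ∃ t : K, t ≠ 0 ∧ v t < 1)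
variable (a : ι → K)

include hK hV h1 in
theorem nr_transfer {x d : K} (hd : d ∈ acl L (oc x a)) (hda : d ∉ acl L a) :
    ∃ Z : Set K, Z.Finite ∧ ∀ S x' d', Mv L v a Z S → (x, x') ∈ S → (d, d') ∈ S →
      nr1 L v a x x' → nr1 L v a d d' := by
  obtain ⟨P, hP, hPf, hPd⟩ := acl_orbit hd
  refine ⟨dif {e | P (oc x a) e}, dif_finite hPf, fun S x' d' hS h2 h3 h4 => ?_⟩
  obtain ⟨T, d'', hT, h5, h6, h7⟩ := H0inf hK hV h1 a (dif_finite hPf) h4 hda
  have := unique_img a hV hP hPf hPd hS hT le_rfl le_rfl h2 h5 h3 h6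
  rw [this]
  exact h7

include hK hV h1 hnt in
theorem Scal.inv {x d m : K} (hx : x ∉ acl L a) (hd : d ∈ acl L (oc x a)) (hda : d ∉ acl L a)
    (hm : m ≠ 0) (hs : Scal L v a x d m) : Scal L v a d x m⁻¹ := by
  have hex := exch hK hV h1 hnt a hx hd hda
  obtain ⟨Z, hZ, hsc⟩ := hs
  obtain ⟨Z0, hZ0, htr⟩ := nr_transfer hK hV h1 a hex hx
  refine ⟨Z ∪ Z0, hZ.union hZ0, fun S d' x' hS h2 h3 h4 => ?_⟩
  have h5 := htr S d' x' (hS.monoZ Set.subset_union_right) h2 h3 h4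
  have h6 := hsc S x' d' (hS.monoZ Set.subset_union_left) h3 h2 h5
  have hvm : v m ≠ 0 := (Valuation.ne_zero_iff v).2 hm
  rw [h6, map_inv₀, inv_mul_cancel_left₀ hvm]

include hK hV h1 in
theorem Scal.trans {x d e m m' : K} (hd : d ∈ acl L (oc x a)) (hda : d ∉ acl L a)
    (hs : Scal L v a x d m) (hs' : Scal L v a d e m') : Scal L v a x e (m' * m) := by
  obtain ⟨Z, hZ, hsc⟩ := hs
  obtain ⟨Z', hZ', hsc'⟩ := hs'
  obtain ⟨Z0, hZ0, htr⟩ := nr_transfer hK hV h1 a hd hda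
  refine ⟨Z ∪ Z' ∪ Z0, (hZ.union hZ').union hZ0, fun S x' e' hS h2 h3 h4 => ?_⟩
  obtain ⟨d', hT⟩ := hS.ext hK d
  have h2' := Set.mem_insert_of_mem (d, d') h2
  have h3' := Set.mem_insert_of_mem (d, d') h3
  have hdd := Set.mem_insert (d, d') S
  have h5 := htr _ x' d' (hT.monoZ Set.subset_union_right) h2' hdd h4
  have h6 := hsc _ x' d' (hT.monoZ (Set.subset_union_left.trans Set.subset_union_left)) h2' hdd h4
  have h7 := hsc' _ d' e' (hT.monoZ (Set.subset_union_right.trans Set.subset_union_left))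
    hdd h3' h5
  rw [h7, h6, map_mul, mul_assoc]

include hK hV h1 in
/-- transfer of distances -/
theorem Scal.tr {x d m : K} (hx : x ∉ acl L a) (hda : d ∉ acl L a) (hm : m ≠ 0)
    (hs : Scal L v a x d m) {c : K} (hc : c ∈ acl L a) :
    ∃ b ∈ acl L a, v (d - b) ≤ v m * v (x - c) := by
  by_contra hcon
  push Not at hcon
  obtain ⟨Z, hZ, hsc⟩ := hs
  have e : d + m * (x - c) - d = m * (x - c) := by ring
  obtain ⟨S, x', hS, h2, h3, h4⟩ := H0inf hK hV h1 a hZ (y := d) (y' := d + m * (x - c))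
    (fun b hb => by rw [e, map_mul]; exact hcon b hb) hx
  have h5 := hsc S x' _ hS h3 h2 h4
  rw [e, map_mul] at h5
  have hvm : 0 < v m := (Valuation.pos_iff v).2 hm
  exact absurd h5 (ne_of_gt (mul_lt_mul_of_pos_left (h4 c hc) hvm))

include hK hV h1 hnt in
/-- nearby algebraic points have the same scaling factor -/
theorem Scal.uniq {x d d1 m : K} (hx : x ∉ acl L a) (hd : d ∈ acl L (oc x a))
    (hd1 : d1 ∈ acl L (oc x a)) (hdd : ∀ c ∈ acl L a, v (d - d1) < v (d - c)) (hm : m ≠ 0)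
    (hs : Scal L v a x d m) : Scal L v a x d1 m := by
  have hda : d ∉ acl L a := fun h => by
    have := hdd d h
    rw [sub_self, map_zero] at this
    exact not_lt_zero this
  have hw : d - d1 ∈ acl L (oc x a) := sub_mem_acl hV hd hd1
  by_cases hwa : d - d1 ∈ acl L a
  · obtain ⟨Z0, hZ0, hfix⟩ := fix_acl a hV hwa
    obtain ⟨Z, hZ, hsc⟩ := hs
    refine ⟨Z ∪ Z0, hZ.union hZ0, fun S x' d1' hS h2 h3 h4 => ?_⟩
    obtain ⟨d', hT⟩ := hS.ext hK d
    obtain ⟨w', hT'⟩ := hT.ext hK (d - d1)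
    have hm2 : ∀ {p}, p ∈ S → p ∈ insert (d - d1, w') (insert (d, d') S) := fun hp =>
      Set.mem_insert_of_mem _ (Set.mem_insert_of_mem _ hp)
    have hdm : (d, d') ∈ insert (d - d1, w') (insert (d, d') S) :=
      Set.mem_insert_of_mem _ (Set.mem_insert _ _)
    have e1 : w' = d' - d1' := Mv.el_sub hV hT'.el hdm (hm2 h3) (Set.mem_insert _ _)
    have e2 : w' = d - d1 := hfix _ w' (hT'.monoZ Set.subset_union_right) (Set.mem_insert _ _)
    have h5 := hsc _ x' d' (hT'.monoZ Set.subset_union_left) (hm2 h2) hdm h4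
    have e3 : d1' - d1 = d' - d := by
      have : d' - d1' = d - d1 := by rw [← e1, e2]
      linear_combination this * (-1)
    rw [e3, h5]
  · obtain ⟨mw, hmw, hsw⟩ := scal_gen hK hV h1 hnt a hx hw hwa
    have hlt : v mw < v m := by
      have s1 := hsw.inv hK hV h1 hnt a hx hw hwa hmw
      have hxw := exch hK hV h1 hnt a hx hw hwa
      have s2 := s1.trans hK hV h1 a hxw hx hs
      obtain ⟨b, hb, hb'⟩ := s2.tr hK hV h1 a hwa hda (mul_ne_zero hm (inv_ne_zero hmw))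
        (zero_mem_acl hV a)
      rw [sub_zero, map_mul, map_inv₀] at hb'
      have h2 := hdd b hb
      have hpw : 0 < v mw := (Valuation.pos_iff v).2 hmw
      have hpm : 0 < v m := (Valuation.pos_iff v).2 hm
      by_contra hc
      push Not at hc
      have h3 : v m * (v mw)⁻¹ ≤ 1 := by
        rw [← div_eq_mul_inv]
        exact div_le_one_of_le₀ hc zero_le'
      have h4 : v m * (v mw)⁻¹ * v (d - d1) ≤ v (d - d1) := mul_le_of_le_one_left' h3
      exact absurd (hb'.trans h4) (not_le.2 h2)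
    obtain ⟨Z, hZ, hsc⟩ := hs
    obtain ⟨Z0, hZ0, hsc0⟩ := hsw
    refine ⟨Z ∪ Z0, hZ.union hZ0, fun S x' d1' hS h2 h3 h4 => ?_⟩
    obtain ⟨d', hT⟩ := hS.ext hK d
    obtain ⟨w', hT'⟩ := hT.ext hK (d - d1)
    have hm2 : ∀ {p}, p ∈ S → p ∈ insert (d - d1, w') (insert (d, d') S) := fun hp =>
      Set.mem_insert_of_mem _ (Set.mem_insert_of_mem _ hp)
    have hdm : (d, d') ∈ insert (d - d1, w') (insert (d, d') S) :=
      Set.mem_insert_of_mem _ (Set.mem_insert _ _)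
    have e1 : w' = d' - d1' := Mv.el_sub hV hT'.el hdm (hm2 h3) (Set.mem_insert _ _)
    have h5 := hsc _ x' d' (hT'.monoZ Set.subset_union_left) (hm2 h2) hdm h4
    have h6 := hsc0 _ x' w' (hT'.monoZ Set.subset_union_right) (hm2 h2) (Set.mem_insert _ _) h4
    have e3 : d1' - d1 = (d' - d) - (w' - (d - d1)) := by rw [e1]; ring
    by_cases hxx : x' = x
    · rw [hxx, sub_self, map_zero, mul_zero] at h5 h6 ⊢
      have e4 : d' - d = 0 := (Valuation.zero_iff v).1 h5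
      have e5 : w' - (d - d1) = 0 := (Valuation.zero_iff v).1 h6
      rw [e3, e4, e5, sub_zero, map_zero]
    · have hp : 0 < v (x' - x) := (Valuation.pos_iff v).2 (sub_ne_zero.2 hxx)
      have h7 : v (w' - (d - d1)) < v (d' - d) := by
        rw [h5, h6]
        exact mul_lt_mul_of_pos_right hlt hp
      rw [e3, Valuation.map_sub_eq_of_lt_left v h7, h5]

include hK hV h1 in
/-- transport to a nearby point -/
theorem Scal.transport {x d m x1 : K} (hd : d ∈ acl L (oc x a))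
    (hda : d ∉ acl L a) (hs : Scal L v a x d m) (hn : nr1 L v a x x1) :
    ∃ d1 ∈ acl L (oc x1 a), v (d1 - d) = v m * v (x1 - x) ∧ nr1 L v a d d1 ∧
      Scal L v a x1 d1 m := by
  have hs0 := hs
  obtain ⟨Z, hZ, hsc⟩ := hs
  obtain ⟨Z0, hZ0, htr⟩ := nr_transfer hK hV h1 a hd hda
  obtain ⟨S, hS, h2⟩ := H0 h1 a (Z := Z ∪ Z0 ∪ {m}) ((hZ.union hZ0).union
    (Set.finite_singleton m)) hn
  obtain ⟨d1, hT⟩ := hS.ext hK d
  have h2' := Set.mem_insert_of_mem (d, d1) h2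
  have hdd := Set.mem_insert (d, d1) S
  obtain ⟨m', hmm, hr⟩ := hT.rig m (Or.inr rfl)
  refine ⟨d1, ?_, ?_, ?_, ?_⟩
  · refine acl_conj hT.el (a := oc x a) (a' := oc x1 a) ?_ hdd hd
    rintro (_ | i)
    · exact h2'
    · exact hT.fix i
  · exact hsc _ x1 d1 (hT.monoZ (Set.subset_union_left.trans Set.subset_union_left)) h2' hdd hn
  · exact htr _ x1 d1 (hT.monoZ (Set.subset_union_right.trans Set.subset_union_left)) h2' hdd hn
  · exact (Scal.conj hK hV hT.el hT.fin hT.fix h2' hdd hmm hs0).congr hr.v_eq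

end Pool.Agent.R611.HM
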