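import Pool.Agent.R611.HM.T2

/-!
# Linked points
-/

set_option autoImplicit false
set_option linter.unusedSectionVars false

namespace Pool.Agent.R611.HM

open FirstOrder Language Structure Set

universe u w

variable {L : FirstOrder.Language.{u, u}} {K : Type u} [L.Structure K] [Field K]
variable {Γ : Type w} [LinearOrderedCommGroupWithZero Γ] {v : Valuation K Γ}

/-- `x` is linked to `y` over `a`, through the point `e` algebraic over `y`, with factor `m`. -/
def LkAt (L : FirstOrder.Language.{u, u}) {K : Type u} [L.Structure K] [Field K]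
    {Γ : Type w} [LinearOrderedCommGroupWithZero Γ] (v : Valuation K Γ)
    {ι : Type} (a : ι → K) (y x m e : K) : Prop :=
  e ∈ acl L (oc y a) ∧ (∀ c ∈ acl L a, v (x - e) < v (x - c)) ∧ m ≠ 0 ∧ Scal L v a y e m

namespace LkAt

variable {ι κ : Type} [Finite ι] [Finite κ] {a : ι → K} {b : κ → K} {x y m e : K}

theorem x_notMem (h : LkAt L v a y x m e) : x ∉ acl L a := fun hx => by
  have := h.2.1 x hx
  rw [sub_self x, map_zero] at this
  exact not_lt_zero this

theorem e_notMem (h : LkAt L v a y x m e) : e ∉ acl L a := fun hx => lt_irrefl _ (h.2.1 e hx)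

theorem y_notMem (h : LkAt L v a y x m e) : y ∉ acl L a := fun hy =>
  h.e_notMem (acl_oc_le (mem_acl_self a) hy h.1)

/-- the algebraic point is 1-next to `x` -/
theorem nr_e (h : LkAt L v a y x m e) : nr1 L v a x e := fun c hc => by
  rw [v_sub_comm]; exact h.2.1 c hc

end LkAt

variable {ι κ : Type} [Finite ι] [Finite κ] {a : ι → K} {b : κ → K}
variable (hK : Satur L K) (hV : VF L v) (h1 : TH L v 1) (hnt : ∃ t : K, t ≠ 0 ∧ v t < 1)

include hK hV h1 hnt

theorem LkAt.exi {x y e : K} (hy : y ∉ acl L a) (he : e ∈ acl L (oc y a))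
    (h : ∀ c ∈ acl L a, v (x - e) < v (x - c)) : ∃ m, LkAt L v a y x m e := by
  have hea : e ∉ acl L a := fun hx => lt_irrefl _ (h e hx)
  obtain ⟨m, hm, hs⟩ := scal_gen hK hV h1 hnt a hy he hea
  exact ⟨m, he, h, hm, hs⟩

theorem LkAt.sym {x y m e : K} (h : LkAt L v a y x m e) :
    ∃ d, LkAt L v a x y m⁻¹ d ∧ v (y - d) = (v m)⁻¹ * v (x - e) := by
  obtain ⟨he, hxe, hm, hs⟩ := h
  have h' : LkAt L v a y x m e := ⟨he, hxe, hm, hs⟩
  have hy := h'.y_notMem
  have hea := h'.e_notMem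
  have hye := exch hK hV h1 hnt a hy he hea
  have hinv := hs.inv hK hV h1 hnt a hy he hea hm
  obtain ⟨d, hd, h2, h3, h4⟩ := hinv.transport hK hV h1 a hye hy h'.nr_e.symm
  refine ⟨d, ⟨hd, fun c hc => ?_, inv_ne_zero hm, h4⟩, ?_⟩
  · rw [v_sub_comm]; exact h3 c hc
  · rw [v_sub_comm y d, h2, map_inv₀]

theorem LkAt.tr {x y m e : K} (h : LkAt L v a y x m e) {c : K} (hc : c ∈ acl L a) :
    ∃ b ∈ acl L a, v (x - b) ≤ v m * v (y - c) := by
  obtain ⟨b, hb, h2⟩ := h.2.2.2.tr hK hV h1 a h.y_notMem h.e_notMem h.2.2.1 hc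
  refine ⟨b, hb, ?_⟩
  rw [← h.nr_e.dist hb]
  exact h2

theorem LkAt.trI {x y m e : K} (h : LkAt L v a y x m e) {c : K} (hc : c ∈ acl L a) :
    ∃ b ∈ acl L a, v (y - b) ≤ (v m)⁻¹ * v (x - c) := by
  obtain ⟨d, hd, _⟩ := h.sym hK hV h1 hnt
  obtain ⟨b, hb, h2⟩ := hd.tr hK hV h1 hnt hc
  exact ⟨b, hb, by rwa [map_inv₀] at h2⟩

theorem LkAt.uniq {x y m e e1 : K} (h : LkAt L v a y x m e) (he1 : e1 ∈ acl L (oc y a))
    (hx : ∀ c ∈ acl L a, v (x - e1) < v (x - c)) : LkAt L v a y x m e1 := by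
  refine ⟨he1, hx, h.2.2.1, h.2.2.2.uniq hK hV h1 hnt a h.y_notMem h.1 he1 (fun c hc => ?_)
    h.2.2.1⟩
  rw [h.nr_e.dist hc]
  refine v_tri_lt (y := x) ?_ (hx c hc)
  rw [v_sub_comm]
  exact h.2.1 c hc

omit hK h1 hnt in
theorem LkAt.mono {x y m e : K} (h : LkAt L v a y x m e) (hab : ∀ i, a i ∈ acl L b)
    (hx : ∀ c ∈ acl L b, v (x - e) < v (x - c)) : LkAt L v b y x m e := by
  refine ⟨?_, hx, h.2.2.1, h.2.2.2.mono hV hab⟩
  refine acl_trans ?_ h.1
  rintro (_ | i)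
  · exact mem_acl_oc b y
  · exact acl_le_oc b y (hab i)

/-- scaling from a near point algebraic over `x` back to `x` -/
theorem LkAt.back {x y m e d : K} (h : LkAt L v a y x m e) (hd : d ∈ acl L (oc x a))
    (hyd : ∀ c ∈ acl L a, v (y - d) < v (y - c)) :
    Scal L v a d x m ∧ d ∉ acl L a ∧ x ∈ acl L (oc d a) := by
  obtain ⟨d0, hd0, _⟩ := h.sym hK hV h1 hnt
  have h2 := hd0.uniq hK hV h1 hnt hd hyd
  have h3 := h2.2.2.2.inv hK hV h1 hnt a h.x_notMem hd h2.e_notMem h2.2.2.1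
  rw [inv_inv] at h3
  exact ⟨h3, h2.e_notMem, exch hK hV h1 hnt a h.x_notMem hd h2.e_notMem⟩

/-- If `x` is not linked to `y` then `acl (a x)` is not closer to `y` than `acl a`. -/
theorem unlinked {x y : K} (hun : ¬ ∃ e ∈ acl L (oc y a), ∀ c ∈ acl L a, v (x - e) < v (x - c)) :
    ∀ d ∈ acl L (oc x a), ∃ c ∈ acl L a, v (y - c) ≤ v (y - d) := by
  intro d hd
  by_contra hcon
  push Not at hcon
  have hx : x ∉ acl L a := fun hx =>
    lt_irrefl _ (hcon d (acl_oc_le (mem_acl_self a) hx hd))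
  obtain ⟨m, hm⟩ := LkAt.exi hK hV h1 hnt hx hd hcon
  obtain ⟨e, he, _⟩ := hm.sym hK hV h1 hnt
  exact hun ⟨e, he.1, he.2.1⟩

omit hK hV h1 hnt

/-! ### base tuples -/

section bs

variable {J : Type} (z : J → K)

/-- the base tuple `a` extended by the points `z j`, `j ∈ B` -/
def bs {ι : Type} (a : ι → K) {J : Type} (z : J → K) (B : Set J) : ι ⊕ B → K :=
  Sum.elim a (fun j => z j)

variable [Finite J]

theorem bs_left (a : ι → K) (B : Set J) (i : ι) : a i ∈ acl L (bs a z B) :=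
  mem_acl_self (bs a z B) (Sum.inl i)

theorem bs_right (a : ι → K) {B : Set J} {j : J} (hj : j ∈ B) : z j ∈ acl L (bs a z B) :=
  mem_acl_self (bs a z B) (Sum.inr ⟨j, hj⟩)

theorem bs_sub {a : ι → K} {B : Set J} {c : κ → K} (h : ∀ i, a i ∈ acl L c)
    (h' : ∀ j ∈ B, z j ∈ acl L c) : ∀ i, bs a z B i ∈ acl L c := by
  rintro (i | j)
  · exact h i
  · exact h' j j.2

theorem bs_mono {B C : Set J} (h : B ⊆ C) : acl L (bs a z B) ⊆ acl L (bs a z C) :=
  acl_trans (bs_sub z (bs_left z a C) fun _ hj => bs_right z a (h hj))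

theorem acl_le_bs (B : Set J) : acl L a ⊆ acl L (bs a z B) := acl_trans (bs_left z a B)

theorem oc_bs_le {B C : Set J} {j : J} (h : B ⊆ C) (hj : j ∈ C) :
    acl L (oc (z j) (bs a z B)) ⊆ acl L (bs a z C) := by
  refine acl_oc_le ?_ (bs_right z a hj)
  exact bs_sub z (bs_left z a C) fun _ hj => bs_right z a (h hj)

theorem bs_le_oc {B C : Set J} {j : J} (h : C ⊆ insert j B) :
    acl L (bs a z C) ⊆ acl L (oc (z j) (bs a z B)) := by
  refine acl_trans (bs_sub z (fun i => acl_le_oc _ _ (bs_left z a B i)) fun k hk => ?_)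
  rcases h hk with rfl | hk
  · exact mem_acl_oc _ _
  · exact acl_le_oc _ _ (bs_right z a hk)

theorem oc_le_bs {B : Set J} {j : J} (hj : j ∈ B) :
    acl L (oc (z j) a) ⊆ acl L (bs a z B) :=
  acl_oc_le (bs_left z a B) (bs_right z a hj)

end bs

end Pool.Agent.R611.HM
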