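import Pool.Agent.R611.HM.T3

/-!
# Telescoping
-/

set_option autoImplicit false
set_option linter.unusedSectionVars false

namespace Pool.Agent.R611.HM

open FirstOrder Language Structure Set

universe u w

variable {L : FirstOrder.Language.{u, u}} {K : Type u} [L.Structure K] [Field K]
variable {Γ : Type w} [LinearOrderedCommGroupWithZero Γ] {v : Valuation K Γ}
variable {ι : Type} [Finite ι] {a : ι → K}
variable {J : Type} [Finite J] [DecidableEq J]

/-- images of a set under a relation -/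
def imgs (S : Set (K × K)) (Z : Set K) : Set K := {z' | ∃ z ∈ Z, (z, z') ∈ S}

omit [L.Structure K] [Field K] in
theorem imgs_finite {S : Set (K × K)} (hS : S.Finite) (Z : Set K) : (imgs S Z).Finite := by
  refine (hS.image Prod.snd).subset ?_
  rintro z' ⟨z, _, hz⟩
  exact ⟨_, hz, rfl⟩

/-- composition, with the second move rigid on the images -/
theorem Mv.comp' {Z : Set K} {S T : Set (K × K)} (h : Mv L v a Z S)
    (h' : Mv L v a (imgs S Z) T) : Mv L v a Z (El.cmp S T) :=
  h.comp h' fun z hz _ hzz => ⟨z, hz, hzz⟩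

/-- partially moved tuple -/
def mix (z z' : J → K) (F : Finset J) (j : J) : K := if j ∈ F then z' j else z j

variable (hK : Satur L K) (hV : VF L v) (h1 : TH L v 1)

include hK hV h1 in
theorem telescope_aux (B : Finset J) (z z' : J → K) {G : K} (α : J → K)
    (hα : ∀ b ∈ B, Scal L v (bs a z ↑(B.erase b)) (z b) G (α b))
    (hn : ∀ b ∈ B, nr1 L v (bs a z ↑(B.erase b)) (z b) (z' b)) (F : Finset J) (hF : F ⊆ B) :
    (∀ Z : Set K, Z.Finite → ∃ S, Mv L v a Z S ∧ (∀ j ∈ B, (z j, mix z z' F j) ∈ S) ∧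
      ∃ (G' : K) (t : J → K), (G, G') ∈ S ∧ G' - G = ∑ b ∈ F, t b ∧
        ∀ b ∈ F, v (t b) = v (α b) * v (z' b - z b)) ∧
    (∀ Z : Set K, Z.Finite → ∃ S, Mv L v a Z S ∧ ∀ j ∈ B, (mix z z' F j, z j) ∈ S) := by
  classical
  induction F using Finset.induction_on with
  | empty =>
    have e : mix z z' ∅ = z := by funext j; simp [mix]
    rw [e]
    refine ⟨fun Z hZ => ?_, fun Z hZ => ?_⟩
    · refine ⟨_, Mv.idm a hZ (X := Set.range z ∪ {G})
        ((Set.finite_range z).union (Set.finite_singleton G)), fun j _ =>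
        ⟨z j, Or.inl (Or.inr (Or.inl ⟨j, rfl⟩)), rfl⟩, G, fun _ => 0,
        ⟨G, Or.inl (Or.inr (Or.inr rfl)), rfl⟩, by simp, by simp⟩
    · exact ⟨_, Mv.idm a hZ (X := Set.range z) (Set.finite_range z), fun j _ =>
        ⟨z j, Or.inl (Or.inr ⟨j, rfl⟩), rfl⟩⟩
  | @insert b F hbF ih =>
    obtain ⟨ih1, ih2⟩ := ih ((Finset.subset_insert b F).trans hF)
    have hbB : b ∈ B := hF (Finset.mem_insert_self b F)
    set zF := mix z z' F with hzF
    set zF' := mix z z' (insert b F) with hzF'
    have e1 : zF b = z b := by simp [hzF, mix, hbF]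
    have e2 : zF' b = z' b := by simp [hzF', mix]
    have e3 : ∀ j, j ≠ b → zF' j = zF j := by
      intro j hj
      simp [hzF, hzF', mix, hj]
    have hnF : nr1 L v (bs a zF ↑(B.erase b)) (z b) (z' b) := by
      intro c hc
      obtain ⟨S, hS, hS2⟩ := ih2 {c, z b - c} (Set.toFinite _)
      obtain ⟨c0, hcc, _⟩ := hS.rig c (Or.inl rfl)
      have hzz : (z b, z b) ∈ S := by
        have := hS2 b hbB
        rwa [e1] at this
      have hc0 : c0 ∈ acl L (bs a z ↑(B.erase b)) := by
        refine acl_conj hS.el (a := bs a zF ↑(B.erase b)) (a' := bs a z ↑(B.erase b)) ?_ hcc hc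
        rintro (i | j)
        · exact hS.fix i
        · exact hS2 j (Finset.mem_of_mem_erase (Finset.mem_coe.1 j.2))
      have := hn b hbB c0 hc0
      rwa [hS.v_sub hV hzz hcc (Or.inr rfl)] at this
    have ebs : bs a zF' ↑(B.erase b) = bs a zF ↑(B.erase b) := by
      funext i
      rcases i with i | j
      · rfl
      · exact e3 j (Finset.ne_of_mem_erase (Finset.mem_coe.1 j.2))
    refine ⟨fun Z hZ => ?_, fun Z hZ => ?_⟩
    · obtain ⟨N, hN, hN1, GF, t, hG, hsum, ht⟩ := ih1 (Z ∪ {α b})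
        (hZ.union (Set.finite_singleton _))
      obtain ⟨α', hαα, hr⟩ := hN.rig (α b) (Or.inr rfl)
      have hzz : (z b, z b) ∈ N := by
        have := hN1 b hbB
        rwa [e1] at this
      have hsc : Scal L v (bs a zF ↑(B.erase b)) (z b) GF (α b) := by
        refine (Scal.conj hK hV hN.el hN.fin (b := bs a z ↑(B.erase b)) ?_ hzz hG hαα
          (hα b hbB)).congr hr.v_eq
        rintro (i | j)
        · exact hN.fix i
        · exact hN1 j (Finset.mem_of_mem_erase (Finset.mem_coe.1 j.2))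
      obtain ⟨Zs, hZs, hsc⟩ := hsc
      obtain ⟨S, hS, hS1⟩ := H0 h1 (bs a zF ↑(B.erase b)) (Z := imgs N Z ∪ Zs)
        ((imgs_finite hN.fin Z).union hZs) hnF
      obtain ⟨G', hT⟩ := hS.ext hK GF
      have hS1' := Set.mem_insert_of_mem (GF, G') hS1
      have hGG := Set.mem_insert (GF, G') S
      have hval := hsc _ (z' b) G' (hT.monoZ Set.subset_union_right) hS1' hGG hnF
      have hTa : Mv L v a (imgs N Z) (insert (GF, G') S) :=
        ⟨hT.el, hT.fin, fun i => hT.fix (Sum.inl i),
          (hT.monoZ Set.subset_union_left).rig⟩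
      refine ⟨_, (hN.monoZ Set.subset_union_left).comp' hTa, fun j hj => ?_, G',
        Function.update t b (G' - GF), ⟨GF, hG, hGG⟩, ?_, fun c hc => ?_⟩
      · by_cases hjb : j = b
        · rw [hjb, e2]
          exact ⟨z b, hzz, hS1'⟩
        · rw [e3 j hjb]
          exact ⟨zF j, hN1 j hj, hT.fix (Sum.inr ⟨j, Finset.mem_coe.2
            (Finset.mem_erase.2 ⟨hjb, hj⟩)⟩)⟩
      · rw [Finset.sum_insert hbF, Function.update_self]
        have : ∑ c ∈ F, Function.update t b (G' - GF) c = ∑ c ∈ F, t c := by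
          refine Finset.sum_congr rfl fun c hc => ?_
          rw [Function.update_of_ne]
          rintro rfl
          exact hbF hc
        rw [this, ← hsum]
        ring
      · rcases Finset.mem_insert.1 hc with hcb | hc'
        · rw [hcb, Function.update_self]
          exact hval
        · rw [Function.update_of_ne]
          · exact ht c hc'
          · intro hcb
            exact hbF (hcb ▸ hc')
    · obtain ⟨S, hS, hS1⟩ := H0 h1 (bs a zF ↑(B.erase b)) (Z := Z) hZ hnF.symm
      obtain ⟨T, hT, hT1⟩ := ih2 (imgs S Z) (imgs_finite hS.fin Z)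
      have hSa : Mv L v a Z S := ⟨hS.el, hS.fin, fun i => hS.fix (Sum.inl i), hS.rig⟩
      refine ⟨_, hSa.comp' hT, fun j hj => ?_⟩
      by_cases hjb : j = b
      · rw [hjb, e2]
        refine ⟨z b, hS1, ?_⟩
        have := hT1 b hbB
        rwa [e1] at this
      · rw [e3 j hjb]
        exact ⟨zF j, hS.fix (Sum.inr ⟨j, Finset.mem_coe.2
            (Finset.mem_erase.2 ⟨hjb, hj⟩)⟩), hT1 j hj⟩

include hK hV h1 in
/-- telescoping: the displacement of a point algebraic over several free points is the sum of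
displacements in the single directions -/
theorem telescope (B : Finset J) (z : J → K) {G : K} (hG : G ∈ acl L (bs a z ↑B)) (α : J → K)
    (hα : ∀ b ∈ B, Scal L v (bs a z ↑(B.erase b)) (z b) G (α b)) :
    ∃ Z : Set K, Z.Finite ∧ ∀ z' : J → K,
      (∀ b ∈ B, nr1 L v (bs a z ↑(B.erase b)) (z b) (z' b)) → ∀ (S : Set (K × K)) (G' : K),
      Mv L v a Z S → (∀ b ∈ B, (z b, z' b) ∈ S) → (G, G') ∈ S →
      ∃ t : J → K, G' - G = ∑ b ∈ B, t b ∧ ∀ b ∈ B, v (t b) = v (α b) * v (z' b - z b) := by
  obtain ⟨P, hP, hPf, hPG⟩ := acl_orbit hG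
  refine ⟨dif {e | P (bs a z ↑B) e}, dif_finite hPf, fun z' hn S G' hS hzS hGS => ?_⟩
  obtain ⟨N, hN, hN1, GF, t, hGN, hsum, ht⟩ :=
    (telescope_aux hK hV h1 B z z' α hα hn B le_rfl).1 _ (dif_finite hPf)
  have hN1' : ∀ j ∈ B, (z j, z' j) ∈ N := fun j hj => by
    have := hN1 j hj
    simpa [mix, hj] using this
  have : G' = GF := by
    refine rig_unique hV (b := bs a z ↑B) (b' := bs a z' ↑B) hP hPf hS hN le_rfl le_rfl ?_ ?_
      hPG hGS hGN
    · rintro (i | j)
      · exact hS.fix i
      · exact hzS j (Finset.mem_coe.1 j.2)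
    · rintro (i | j)
      · exact hN.fix i
      · exact hN1' j (Finset.mem_coe.1 j.2)
  rw [this]
  exact ⟨t, hsum, ht⟩

end Pool.Agent.R611.HM
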