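import Pool.Agent.R611.HM.T4

/-!
# Configurations of mutually linked points at a common distance
-/

set_option autoImplicit false
set_option linter.unusedSectionVars false

namespace Pool.Agent.R611.HM

open FirstOrder Language Structure Set

universe u w

variable {L : FirstOrder.Language.{u, u}} {K : Type u} [L.Structure K] [Field K]
variable {Γ : Type w} [LinearOrderedCommGroupWithZero Γ] {v : Valuation K Γ}

/-- A configuration: the points `z i` are linked to `z o` over `a` with factors `m i`, and the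
algebraic closures of `a z_i` all have the same distance to `z o`. -/
structure Cfg (L : FirstOrder.Language.{u, u}) {K : Type u} [L.Structure K] [Field K]
    {Γ : Type w} [LinearOrderedCommGroupWithZero Γ] (v : Valuation K Γ)
    {ι : Type} (a : ι → K) {E : Type} (z m : E → K) (o i0 : E) : Prop where
  ne : i0 ≠ o
  mo : m o = 1
  lk : ∀ i, i ≠ o → ∃ e, LkAt L v a (z o) (z i) (m i) e
  far : ∀ i, i ≠ o → ∀ d ∈ acl L (oc (z i0) a), ∃ d' ∈ acl L (oc (z i) a),
    v (z o - d') ≤ v (z o - d)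
  rac : ∀ i, i ≠ o → ∀ d ∈ acl L (oc (z i) a), ∃ d' ∈ acl L (oc (z i0) a),
    v (z o - d') ≤ v (z o - d)
  out : z o ∉ acl L (oc (z i0) a)

/-- smaller than the common distance -/
def Sm (L : FirstOrder.Language.{u, u}) {K : Type u} [L.Structure K] [Field K]
    {Γ : Type w} [LinearOrderedCommGroupWithZero Γ] (v : Valuation K Γ)
    {ι : Type} (a : ι → K) (y x g : K) : Prop := ∀ d ∈ acl L (oc x a), v g < v (y - d)

/-- free sets of points -/
def Fr (L : FirstOrder.Language.{u, u}) {K : Type u} [L.Structure K] [Field K]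
    {Γ : Type w} [LinearOrderedCommGroupWithZero Γ] (v : Valuation K Γ)
    {ι : Type} (a : ι → K) {E : Type} [DecidableEq E] (z m : E → K) (o i0 : E) (B : Finset E) :
    Prop :=
  ∀ b ∈ B, ∀ c ∈ acl L (bs a z ↑(B.erase b)), ∀ g, Sm L v a (z o) (z i0) g →
    v (m b * g) < v (z b - c)

variable {ι : Type} [Finite ι] {a : ι → K} {E : Type} [Finite E] [DecidableEq E]
  {z m : E → K} {o i0 : E}

theorem Sm.of_le {y x g g' : K} (h : Sm L v a y x g) (hg : v g' ≤ v g) : Sm L v a y x g' :=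
  fun d hd => hg.trans_lt (h d hd)

theorem Cfg.m_ne (h : Cfg L v a z m o i0) (i : E) : m i ≠ 0 := by
  by_cases hi : i = o
  · rw [hi, h.mo]; exact one_ne_zero
  · obtain ⟨e, he⟩ := h.lk i hi
    exact he.2.2.1

theorem Cfg.sm_zero (h : Cfg L v a z m o i0) : Sm L v a (z o) (z i0) 0 := fun d hd => by
  rw [map_zero]
  exact (Valuation.pos_iff v).2 (sub_ne_zero.2 fun e => h.out (e ▸ hd))

variable (hK : Satur L K) (hV : VF L v) (h1 : TH L v 1) (hnt : ∃ t : K, t ≠ 0 ∧ v t < 1)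

include hK hV h1 hnt in
/-- a near point algebraic over `a z_{i0}` which is nearer than `acl a` -/
theorem Cfg.near (h : Cfg L v a z m o i0) : ∃ d ∈ acl L (oc (z i0) a),
    ∀ c ∈ acl L a, v (z o - d) < v (z o - c) := by
  obtain ⟨e, he⟩ := h.lk i0 h.ne
  obtain ⟨d, hd, _⟩ := he.sym hK hV h1 hnt
  exact ⟨d, hd.1, hd.2.1⟩

include hK hV h1 hnt in
theorem Cfg.near' (h : Cfg L v a z m o i0) {d : K} (hd : d ∈ acl L (oc (z i0) a)) :
    ∃ d2 ∈ acl L (oc (z i0) a), v (z o - d2) ≤ v (z o - d) ∧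
      ∀ c ∈ acl L a, v (z o - d2) < v (z o - c) := by
  obtain ⟨d1, hd1, h2⟩ := h.near hK hV h1 hnt
  rcases le_or_gt (v (z o - d1)) (v (z o - d)) with h3 | h3
  · exact ⟨d1, hd1, h3, h2⟩
  · exact ⟨d, hd, le_rfl, fun c hc => h3.trans (h2 c hc)⟩

include hK hV h1 hnt in
theorem Cfg.P0 (h : Cfg L v a z m o i0) (i j : E) {d : K} (hd : d ∈ acl L (oc (z i0) a)) :
    ∃ c ∈ acl L (oc (z j) a), v (z i - c) ≤ v (m i) * v (z o - d) := by
  obtain ⟨d2, hd2, hle, hlt⟩ := h.near' hK hV h1 hnt hd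
  obtain ⟨dj, hdj, hj⟩ : ∃ dj ∈ acl L (oc (z j) a), v (z o - dj) ≤ v (z o - d2) := by
    by_cases hjo : j = o
    · subst hjo
      exact ⟨z j, mem_acl_oc a _, by rw [sub_self, map_zero]; exact zero_le'⟩
    · exact h.far j hjo d2 hd2
  by_cases hio : i = o
  · subst hio
    refine ⟨dj, hdj, ?_⟩
    rw [h.mo, map_one, one_mul]
    exact hj.trans hle
  · obtain ⟨di, hdi, hi⟩ := h.far i hio d2 hd2
    obtain ⟨e, he⟩ := h.lk i hio
    have hdi' : ∀ c ∈ acl L a, v (z o - di) < v (z o - c) := fun c hc => hi.trans_lt (hlt c hc)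
    obtain ⟨hs, hdia, hzi⟩ := he.back hK hV h1 hnt hdi hdi'
    have hdd : v (dj - di) ≤ v (z o - d2) := by
      refine v_tri (y := z o) ?_ hi
      rw [v_sub_comm]; exact hj
    have hn : nr1 L v a di dj := fun c hc => by
      have : v (di - c) = v (z o - c) := v_dist_eq (hdi' c hc)
      rw [this]
      exact hdd.trans_lt (hlt c hc)
    obtain ⟨c, hc, h2, _, _⟩ := hs.transport hK hV h1 a hzi he.x_notMem hn
    refine ⟨c, acl_oc_le (fun i => acl_le_oc a (z j) (mem_acl_self a i)) hdj hc, ?_⟩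
    rw [v_sub_comm, h2]
    exact mul_le_mul_right (hdd.trans hle) _

include hK hV h1 hnt in
/-- pairs are free -/
theorem Cfg.P1 (h : Cfg L v a z m o i0) {i : E} (hi : i ≠ o) : Fr L v a z m o i0 {o, i} := by
  intro b hb c hc g hg
  rcases Finset.mem_insert.1 hb with rfl | hb
  · rw [h.mo, one_mul]
    have : c ∈ acl L (oc (z i) a) := by
      refine acl_trans (bs_sub z (fun j => acl_le_oc a _ (mem_acl_self a j)) fun j hj => ?_) hc
      have : j = i := by
        have := Finset.mem_coe.1 hj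
        simp only [Finset.mem_erase, Finset.mem_insert, Finset.mem_singleton] at this
        tauto
      rw [this]
      exact mem_acl_oc a _
    obtain ⟨d', hd', h2⟩ := h.rac i hi c this
    exact (hg d' hd').trans_le h2
  · have hbi : b = i := Finset.mem_singleton.1 hb
    subst hbi
    have hc' : c ∈ acl L (oc (z o) a) := by
      refine acl_trans (bs_sub z (fun j => acl_le_oc a _ (mem_acl_self a j)) fun j hj => ?_) hc
      have : j = o := by
        have := Finset.mem_coe.1 hj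
        simp only [Finset.mem_erase, Finset.mem_insert, Finset.mem_singleton] at this
        tauto
      rw [this]
      exact mem_acl_oc a _
    by_contra hcon
    rw [not_lt] at hcon
    obtain ⟨e, he⟩ := h.lk b hi
    have hm0 : v (m b) ≠ 0 := (Valuation.ne_zero_iff v).2 (h.m_ne b)
    have hnear : ∀ c' ∈ acl L a, v (z b - c) < v (z b - c') := by
      intro c' hc'
      obtain ⟨b1, hb1, h2⟩ := he.trI hK hV h1 hnt hc'
      have h3 := (hg b1 (acl_le_oc a _ hb1)).trans_le h2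
      refine hcon.trans_lt ?_
      rw [map_mul]
      have := mul_lt_mul_of_pos_left h3 (zero_lt_iff.2 hm0)
      rwa [mul_inv_cancel_left₀ hm0] at this
    have h4 := he.uniq hK hV h1 hnt hc' hnear
    obtain ⟨d, hd, h5⟩ := h4.sym hK hV h1 hnt
    obtain ⟨d', hd', h6⟩ := h.rac b hi d hd.1
    have h7 : v (z o - d) ≤ v g := by
      rw [h5]
      have := mul_le_mul_right hcon (v (m b))⁻¹
      rwa [map_mul, inv_mul_cancel_left₀ hm0] at this
    exact absurd (hg d' hd') (not_lt.2 (h6.trans h7))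

/-- free sets of maximal size containing `o` -/
def Mx (L : FirstOrder.Language.{u, u}) {K : Type u} [L.Structure K] [Field K]
    {Γ : Type w} [LinearOrderedCommGroupWithZero Γ] (v : Valuation K Γ)
    {ι : Type} (a : ι → K) {E : Type} [DecidableEq E] (z m : E → K) (o i0 : E) (B : Finset E) :
    Prop :=
  o ∈ B ∧ Fr L v a z m o i0 B ∧ ∀ B' : Finset E, o ∈ B' → Fr L v a z m o i0 B' →
    B'.card ≤ B.card

include hK hV h1 hnt in
theorem Mx.two (h : Cfg L v a z m o i0) {B : Finset E} (hB : Mx L v a z m o i0 B) :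
    2 ≤ B.card := by
  have := hB.2.2 {o, i0} (by simp) (h.P1 hK hV h1 hnt h.ne)
  rwa [Finset.card_pair h.ne.symm] at this

include hK hV h1 hnt in
theorem Mx.exi (h : Cfg L v a z m o i0) : ∃ B : Finset E, Mx L v a z m o i0 B := by
  classical
  have := Fintype.ofFinite E
  obtain ⟨B, hB, hmax⟩ := Set.Finite.exists_maximalFor (fun B : Finset E => B.card)
    {B : Finset E | o ∈ B ∧ Fr L v a z m o i0 B} (Set.toFinite _)
    ⟨{o, i0}, by simp, h.P1 hK hV h1 hnt h.ne⟩
  refine ⟨B, hB.1, hB.2, fun B' h2 h3 => ?_⟩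
  rcases le_total B'.card B.card with h4 | h4
  · exact h4
  · exact hmax (show B' ∈ {B : Finset E | o ∈ B ∧ Fr L v a z m o i0 B} from ⟨h2, h3⟩) h4

include hK hV h1 hnt in
/-- If `z j` is near `acl (A'' z_k)`, then `z k` is near `acl (A'' z_j)`: the exchange property at
the scale of the common distance. -/
theorem Cfg.flip (h : Cfg L v a z m o i0) {C : Finset E} (hC : C.Nonempty) {j k : E} {c g : K}
    (hc : c ∈ acl L (oc (z k) (bs a z ↑C))) (hg : Sm L v a (z o) (z i0) g)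
    (hjc : v (z j - c) ≤ v (m j * g))
    (hfree : ∀ c' ∈ acl L (bs a z ↑C), ∀ g, Sm L v a (z o) (z i0) g →
      v (m j * g) < v (z j - c')) :
    ∃ e ∈ acl L (oc (z j) (bs a z ↑C)), ∃ g', Sm L v a (z o) (z i0) g' ∧
      v (z k - e) ≤ v (m k * g') := by
  have hnear : ∀ c' ∈ acl L (bs a z ↑C), v (z j - c) < v (z j - c') := fun c' hc' =>
    hjc.trans_lt (hfree c' hc' g hg)
  have hk : z k ∉ acl L (bs a z ↑C) := fun hk =>
    lt_irrefl _ (hnear c (acl_oc_le (mem_acl_self _) hk hc))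
  obtain ⟨μ, hμ⟩ := LkAt.exi hK hV h1 hnt hk hc hnear
  obtain ⟨e, he, h2⟩ := hμ.sym hK hV h1 hnt
  have hmk : v (m k) ≠ 0 := (Valuation.ne_zero_iff v).2 (h.m_ne k)
  have hμ0 : v μ ≠ 0 := (Valuation.ne_zero_iff v).2 hμ.2.2.1
  refine ⟨e, he.1, μ⁻¹ * (m j * g) / m k, fun d hd => ?_, ?_⟩
  · obtain ⟨i, hi⟩ := hC
    obtain ⟨c1, hc1, h3⟩ := h.P0 hK hV h1 hnt k i hd
    have hc1' : c1 ∈ acl L (bs a z ↑C) := oc_le_bs z (Finset.mem_coe.2 hi) hc1
    obtain ⟨b1, hb1, h4⟩ := hμ.tr hK hV h1 hnt hc1'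
    have h5 := (hfree b1 hb1 g hg).trans_le (h4.trans (mul_le_mul_right h3 _))
    rw [map_div₀, map_mul, map_inv₀, div_lt_iff₀ (zero_lt_iff.2 hmk)]
    rw [inv_mul_lt_iff₀ (zero_lt_iff.2 hμ0), mul_comm (v (z o - d))]
    exact h5
  · rw [h2, map_mul, map_div₀, map_mul, map_inv₀, mul_div_cancel₀ _ hmk]
    exact mul_le_mul_right hjc _

include hK hV h1 hnt in
/-- all points are near the closure of a free set of maximal size -/
theorem Mx.P2 (h : Cfg L v a z m o i0) {B : Finset E} (hB : Mx L v a z m o i0 B) {k : E}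
    (hk : k ∉ B) : ∃ G ∈ acl L (bs a z ↑B), ∃ g, Sm L v a (z o) (z i0) g ∧
      v (z k - G) ≤ v (m k * g) := by
  have hnf : ¬ Fr L v a z m o i0 (insert k B) := fun hf => by
    have := hB.2.2 _ (Finset.mem_insert_of_mem hB.1) hf
    rw [Finset.card_insert_of_notMem hk] at this
    omega
  unfold Fr at hnf
  push Not at hnf
  obtain ⟨b, hb, c, hc, g, hg, h2⟩ := hnf
  rcases Finset.mem_insert.1 hb with hbk | hb
  · rw [hbk] at hc h2
    rw [Finset.erase_insert hk] at hc
    exact ⟨c, hc, g, hg, h2⟩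
  · have hbk : b ≠ k := fun e => hk (e ▸ hb)
    have h2c := hB.two hK hV h1 hnt h
    have hne : (B.erase b).Nonempty := by
      rw [← Finset.card_pos, Finset.card_erase_of_mem hb]
      omega
    have hc' : c ∈ acl L (oc (z k) (bs a z ↑(B.erase b))) := by
      refine bs_le_oc z (C := ↑((insert k B).erase b)) ?_ hc
      intro x hx
      have := Finset.mem_coe.1 hx
      simp only [Finset.mem_erase, Finset.mem_insert] at this
      rcases this with ⟨h3, h4 | h4⟩
      · exact Or.inl h4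
      · exact Or.inr (Finset.mem_coe.2 (Finset.mem_erase.2 ⟨h3, h4⟩))
    obtain ⟨e, he, g', hg', h3⟩ := h.flip hK hV h1 hnt hne hc' hg h2 (hB.2.1 b hb)
    refine ⟨e, oc_bs_le z ?_ (Finset.mem_coe.2 hb) he, g', hg', h3⟩
    exact Finset.coe_subset.2 (Finset.erase_subset _ _)

/-- the data attached to a free set of maximal size and a further point -/
def Dat (L : FirstOrder.Language.{u, u}) {K : Type u} [L.Structure K] [Field K]
    {Γ : Type w} [LinearOrderedCommGroupWithZero Γ] (v : Valuation K Γ)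
    {ι : Type} (a : ι → K) {E : Type} [DecidableEq E] (z m : E → K) (o i0 : E) (B : Finset E)
    (k : E) (G : K) (α : E → K) : Prop :=
  G ∈ acl L (bs a z ↑B) ∧ Sm L v a (z o) (z i0) ((z k - G) / m k) ∧
    (∀ b ∈ B, Scal L v (bs a z ↑(B.erase b)) (z b) G (α b)) ∧
    (∀ b ∈ B, (α b = 0 ↔ G ∈ acl L (bs a z ↑(B.erase b)))) ∧
    ∀ b ∈ B, ∀ g, Sm L v a (z o) (z i0) g → Sm L v a (z o) (z i0) (α b * m b / m k * g)

include hK hV h1 hnt in
theorem Mx.dat (h : Cfg L v a z m o i0) {B : Finset E} (hB : Mx L v a z m o i0 B) {k : E}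
    (hk : k ∉ B) : ∃ G α, Dat L v a z m o i0 B k G α := by
  classical
  obtain ⟨G, hG, g0, hg0, hGk⟩ := hB.P2 hK hV h1 hnt h hk
  have hmk : v (m k) ≠ 0 := (Valuation.ne_zero_iff v).2 (h.m_ne k)
  have hzb : ∀ b ∈ B, z b ∉ acl L (bs a z ↑(B.erase b)) := fun b hb hmem => by
    have := hB.2.1 b hb _ hmem 0 h.sm_zero
    rw [sub_self, map_zero] at this
    exact not_lt_zero this
  have hGoc : ∀ b ∈ B, G ∈ acl L (oc (z b) (bs a z ↑(B.erase b))) := fun b hb => by
    refine bs_le_oc z ?_ hG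
    intro x hx
    by_cases hxb : x = b
    · exact Or.inl hxb
    · exact Or.inr (Finset.mem_coe.2 (Finset.mem_erase.2 ⟨hxb, Finset.mem_coe.1 hx⟩))
  have hα : ∀ b, ∃ α : K, b ∈ B → (Scal L v (bs a z ↑(B.erase b)) (z b) G α ∧
      (α = 0 ↔ G ∈ acl L (bs a z ↑(B.erase b)))) := by
    intro b
    by_cases hb : b ∈ B
    · by_cases hGb : G ∈ acl L (bs a z ↑(B.erase b))
      · exact ⟨0, fun _ => ⟨Scal.zero hV hGb, by simp [hGb]⟩⟩
      · obtain ⟨α, hα, hs⟩ := scal_gen hK hV h1 hnt _ (hzb b hb) (hGoc b hb) hGb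
        exact ⟨α, fun _ => ⟨hs, by simp [hα, hGb]⟩⟩
    · exact ⟨0, fun h' => absurd h' hb⟩
  choose α hα using hα
  refine ⟨G, α, hG, ?_, fun b hb => (hα b hb).1, fun b hb => (hα b hb).2, ?_⟩
  · refine hg0.of_le ?_
    rw [map_div₀]
    refine div_le_of_le_mul₀ zero_le' zero_le' ?_
    rw [mul_comm, ← map_mul]
    exact hGk
  · intro b hb g hg d hd
    obtain ⟨hs, hiff⟩ := hα b hb
    by_cases hα0 : α b = 0
    · rw [hα0, zero_mul, zero_div, zero_mul]
      exact h.sm_zero d hd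
    have hGb : G ∉ acl L (bs a z ↑(B.erase b)) := fun hmem => hα0 (hiff.2 hmem)
    have hv0 : v (α b) ≠ 0 := (Valuation.ne_zero_iff v).2 hα0
    have h2c := hB.two hK hV h1 hnt h
    obtain ⟨j, hj⟩ : (B.erase b).Nonempty := by
      rw [← Finset.card_pos, Finset.card_erase_of_mem hb]
      omega
    obtain ⟨c1, hc1, h3⟩ := h.P0 hK hV h1 hnt k j hd
    have hc1' : c1 ∈ acl L (bs a z ↑(B.erase b)) := oc_le_bs z (Finset.mem_coe.2 hj) hc1
    have h4 : v (G - c1) ≤ v (m k) * v (z o - d) := by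
      refine v_tri (y := z k) ?_ h3
      rw [v_sub_comm]
      refine hGk.trans ?_
      rw [map_mul]
      exact mul_le_mul_right (hg0 d hd).le _
    have hex := exch hK hV h1 hnt _ (hzb b hb) (hGoc b hb) hGb
    have hs' := hs.inv hK hV h1 hnt _ (hzb b hb) (hGoc b hb) hGb hα0
    obtain ⟨b1, hb1, h5⟩ := hs'.tr hK hV h1 _ hGb (hzb b hb) (inv_ne_zero hα0) hc1'
    have h6 := (hB.2.1 b hb b1 hb1 g hg).trans_le (h5.trans (mul_le_mul_right h4 _))
    rw [map_inv₀, map_mul] at h6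
    rw [map_mul, map_div₀, map_mul, div_mul_eq_mul_div, div_lt_iff₀ (zero_lt_iff.2 hmk),
      mul_comm (v (z o - d)), mul_assoc]
    have h7 := mul_lt_mul_of_pos_left h6 (zero_lt_iff.2 hv0)
    rwa [mul_inv_cancel_left₀ hv0] at h7

end Pool.Agent.R611.HM
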