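import Pool.Agent.R611.HM.T5

/-!
# The choice of a good free set
-/

set_option autoImplicit false
set_option linter.unusedSectionVars false

namespace Pool.Agent.R611.HM

open FirstOrder Language Structure Set

universe u w

variable {L : FirstOrder.Language.{u, u}} {K : Type u} [L.Structure K] [Field K]
variable {Γ : Type w} [LinearOrderedCommGroupWithZero Γ] {v : Valuation K Γ}
variable {ι : Type} [Finite ι] {a : ι → K} {E : Type} [Finite E] [DecidableEq E]
  {z m : E → K} {o i0 : E}
variable (hK : Satur L K) (hV : VF L v) (h1 : TH L v 1) (hnt : ∃ t : K, t ≠ 0 ∧ v t < 1)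

include hK hV h1 hnt in
/-- A move over `a` at a scale below the common distance, but above given small elements, with
all displacements controlled. -/
theorem Cfg.star (h : Cfg L v a z m o i0)
    (hna : ∀ d ∈ acl L (oc (z i0) a), ∃ d' ∈ acl L (oc (z i0) a), v (z o - d') < v (z o - d))
    {Z W : Set K} (hZ : Z.Finite) (hW : W.Finite) (hWs : ∀ w ∈ W, Sm L v a (z o) (z i0) w) :
    ∃ (S : Set (K × K)) (z' : E → K), Mv L v a Z S ∧ (∀ i, (z i, z' i) ∈ S) ∧
      Sm L v a (z o) (z i0) (z' o - z o) ∧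
      (∀ i, v (z' i - z i) ≤ v (m i) * v (z' o - z o)) ∧ ∀ w ∈ W, v w < v (z' o - z o) := by
  classical
  obtain ⟨n, zz, hzz⟩ := exists_enum hZ
  obtain ⟨k, ww, hww⟩ := exists_enum hW
  let S0 : Set (K × K) := Set.range fun i => (a i, a i)
  have hS0 : S0.Finite := Set.finite_range _
  obtain ⟨u', hel, ⟨q1, q2, q3⟩, hR⟩ := sat_acl (L := L) hK hS0 (Sum.elim z zz : E ⊕ Fin n → K)
    (Sum.elim z (Sum.elim m (Sum.elim zz ww)) : E ⊕ (E ⊕ (Fin n ⊕ Fin k)) → K)
    (oc (z i0) a)
    (fun u' p => (∀ i : E, v (u' (Sum.inl i) - p (Sum.inl i)) ≤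
        v (p (Sum.inr (Sum.inl i)) * (u' (Sum.inl o) - p (Sum.inl o)))) ∧
      (∀ j : Fin n, RVeq v (p (Sum.inr (Sum.inr (Sum.inl j)))) (u' (Sum.inr j))) ∧
      (∀ j : Fin k, v (p (Sum.inr (Sum.inr (Sum.inr j)))) < v (u' (Sum.inl o) - p (Sum.inl o))))
    (by
      refine Df.and ?_ (Df.and ?_ ?_)
      · exact Df.all_fin fun i => hV.vle (hV.fsub (dvar _) (dvar _))
          (hV.fmul (dvar _) (hV.fsub (dvar _) (dvar _)))
      · exact Df.all_fin fun i => hV.rveq (dvar _) (dvar _)
      · exact Df.all_fin fun i => hV.vlt (dvar _) (hV.fsub (dvar _) (dvar _)))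
    (fun c u' p => v (u' (Sum.inl o) - p (Sum.inl o)) < v (p (Sum.inl o) - c))
    (hV.vlt (hV.fsub (dvar _) (dvar _)) (hV.fsub (dvar _) (dvar _)))
    (by
      intro C hC hCa
      obtain ⟨d0, hd0, hd0'⟩ := h.near hK hV h1 hnt
      obtain ⟨c1, hc1, hmin⟩ := exists_min_dist (v := v) (hC.insert d0) ⟨d0, Or.inl rfl⟩ (z o)
      have hc1a : c1 ∈ acl L (oc (z i0) a) := by
        rcases hc1 with rfl | hc1
        · exact hd0
        · exact hCa hc1
      obtain ⟨d1, hd1, hlt⟩ := hna c1 hc1a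
      have hd1C : ∀ c ∈ insert d0 C, v (z o - d1) < v (z o - c) := fun c hc =>
        hlt.trans_le (hmin c hc)
      have hd1a : ∀ c ∈ acl L a, v (z o - d1) < v (z o - c) := fun c hc =>
        (hd1C d0 (Or.inl rfl)).trans (hd0' c hc)
      -- near points
      have hdi : ∀ i, ∃ (di : K) (Zi : Set K), i ≠ o → (v (z o - di) ≤ v (z o - d1) ∧
          Zi.Finite ∧ ∀ (S : Set (K × K)) (x' d' : K), Mv L v a Zi S → (di, x') ∈ S →
            (z i, d') ∈ S → nr1 L v a di x' → v (d' - z i) = v (m i) * v (x' - di)) := by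
        intro i
        by_cases hio : i = o
        · exact ⟨0, ∅, fun h' => absurd hio h'⟩
        · obtain ⟨di, hdi, hi⟩ := h.far i hio d1 hd1
          obtain ⟨e, he⟩ := h.lk i hio
          obtain ⟨⟨Zi, hZi, hs⟩, _, _⟩ := he.back hK hV h1 hnt hdi
            (fun c hc => hi.trans_lt (hd1a c hc))
          exact ⟨di, Zi, fun _ => ⟨hi, hZi, hs⟩⟩
      choose di Zi hdi using hdi
      have hZif : (⋃ i ∈ {i | i ≠ o}, Zi i).Finite :=
        Set.Finite.biUnion (Set.toFinite _) fun i hi => (hdi i hi).2.1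
      obtain ⟨S, hS, hy⟩ := H0 h1 a (Z := (Z ∪ Set.range z) ∪ (Set.range di ∪
        Set.range fun i => z o - di i) ∪ ⋃ i ∈ {i | i ≠ o}, Zi i)
        (((hZ.union (Set.finite_range z)).union ((Set.finite_range di).union
          (Set.finite_range _))).union hZif)
        (y := z o) (y' := d1) (fun c hc => by rw [v_sub_comm]; exact hd1a c hc)
      choose z' hz' _ using fun i => hS.rig (z i) (Or.inl (Or.inl (Or.inr ⟨i, rfl⟩)))
      choose zz' hzz' hrr using fun j : Fin n => hS.rig (zz j)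
        (Or.inl (Or.inl (Or.inl (hzz ▸ ⟨j, rfl⟩))))
      choose di' hdi' _ using fun i => hS.rig (di i) (Or.inl (Or.inr (Or.inl ⟨i, rfl⟩)))
      have ho : z' o = d1 := hS.el.functional (hz' o) hy
      have hbd : ∀ i, v (z' i - z i) ≤ v (m i) * v (d1 - z o) := by
        intro i
        by_cases hio : i = o
        · rw [hio, ho, h.mo, map_one, one_mul]
        · obtain ⟨h2, _, h3⟩ := hdi i hio
          have h4 : v (d1 - di' i) = v (z o - di i) :=
            hS.v_sub hV hy (hdi' i) (Or.inl (Or.inr (Or.inr ⟨i, rfl⟩)))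
          have h5 : v (di' i - di i) ≤ v (d1 - z o) := by
            refine v_tri (y := d1) ?_ (v_tri (y := z o) le_rfl ?_)
            · rw [v_sub_comm, h4, v_sub_comm d1]; exact h2
            · rw [v_sub_comm d1]; exact h2
          have hn : nr1 L v a (di i) (di' i) := fun c hc => by
            have : v (di i - c) = v (z o - c) := v_dist_eq (h2.trans_lt (hd1a c hc))
            rw [this]
            refine h5.trans_lt ?_
            rw [v_sub_comm]
            exact hd1a c hc
          have h6 := h3 S (di' i) (z' i) (hS.monoZ ?_) (hdi' i) (hz' i) hn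
          · rw [h6]
            exact mul_le_mul_right h5 _
          · intro x hx
            exact Or.inr (Set.mem_biUnion (show i ∈ {i | i ≠ o} from hio) hx)
      refine ⟨Sum.elim z' zz', hS.el.mono ?_, ⟨fun i => ?_, fun j => hrr j, fun j => ?_⟩,
        fun c hc => ?_⟩
      · rintro p (⟨i, rfl⟩ | ⟨i | j, rfl⟩)
        · exact hS.fix i
        · exact hz' i
        · exact hzz' j
      · change v (z' i - z i) ≤ v (m i * (z' o - z o))
        rw [map_mul, ho]
        exact hbd i
      · change v (ww j) < v (z' o - z o)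
        rw [ho, v_sub_comm]
        exact hWs (ww j) (hww ▸ ⟨j, rfl⟩) d1 hd1
      · change v (z' o - z o) < v (z o - c)
        rw [ho, v_sub_comm]
        exact hd1C c (Or.inr hc))
  refine ⟨_, fun i => u' (Sum.inl i), ⟨hel, hS0.union (Set.finite_range _),
    fun i => Or.inl ⟨i, rfl⟩, ?_⟩, fun i => Or.inr ⟨Sum.inl i, rfl⟩, fun d hd => hR d hd,
    fun i => ?_, ?_⟩
  · intro x hx
    rw [← hzz] at hx
    obtain ⟨j, rfl⟩ := hx
    exact ⟨u' (Sum.inr j), Or.inr ⟨Sum.inr j, rfl⟩, q2 j⟩
  · have := q1 i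
    change v (u' (Sum.inl i) - z i) ≤ v (m i * (u' (Sum.inl o) - z o)) at this
    rwa [map_mul] at this
  · intro x hx
    rw [← hww] at hx
    obtain ⟨j, rfl⟩ := hx
    exact q3 j

end Pool.Agent.R611.HM
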