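import Pool.Agent.R611.HM.T6

/-!
# The choice of a good free set, conclusion
-/

set_option autoImplicit false
set_option linter.unusedSectionVars false

namespace Pool.Agent.R611.HM

open FirstOrder Language Structure Set

universe u w

variable {L : FirstOrder.Language.{u, u}} {K : Type u} [L.Structure K] [Field K]
variable {Γ : Type w} [LinearOrderedCommGroupWithZero Γ] {v : Valuation K Γ}
variable {ι : Type} [Finite ι] {a : ι → K} {E : Type} [Finite E] [DecidableEq E]
  {z m : E → K} {o i0 : E}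
variable (hK : Satur L K) (hV : VF L v) (h1 : TH L v 1) (hnt : ∃ t : K, t ≠ 0 ∧ v t < 1)

theorem Fr.nr (h : Cfg L v a z m o i0) {B : Finset E} (hB : Fr L v a z m o i0 B) {b : E}
    (hb : b ∈ B) {x' : K} (hx : Sm L v a (z o) (z i0) ((x' - z b) / m b)) :
    nr1 L v (bs a z ↑(B.erase b)) (z b) x' := by
  intro c hc
  have := hB b hb c hc _ hx
  rwa [mul_div_cancel₀ _ (h.m_ne b)] at this

include hK hV h1 in
theorem Dat.tele (h : Cfg L v a z m o i0) {B : Finset E} (hB : Fr L v a z m o i0 B) {k : E}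
    {G : K} {α : E → K} (hd : Dat L v a z m o i0 B k G α) :
    ∃ Z : Set K, Z.Finite ∧ ∀ (S : Set (K × K)) (z' : E → K) (G' : K), Mv L v a Z S →
      (∀ b ∈ B, (z b, z' b) ∈ S) → (G, G') ∈ S →
      (∀ b ∈ B, Sm L v a (z o) (z i0) ((z' b - z b) / m b)) →
      ∃ t : E → K, G' - G = ∑ b ∈ B, t b ∧ ∀ b ∈ B, v (t b) = v (α b) * v (z' b - z b) := by
  obtain ⟨Z, hZ, ht⟩ := telescope hK hV h1 B z hd.1 α hd.2.2.1
  exact ⟨Z, hZ, fun S z' G' h2 h3 h4 h5 => ht z' (fun b hb => hB.nr h hb (h5 b hb)) S G' h2 h3 h4⟩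

include hK hV h1 hnt in
/-- the exchange step preserves the free sets of maximal size -/
theorem Mx.exchange (h : Cfg L v a z m o i0) {B : Finset E} (hB : Mx L v a z m o i0 B) {k : E}
    (hk : k ∉ B) {G : K} {α : E → K} (hd : Dat L v a z m o i0 B k G α) {b1 : E} (hb1 : b1 ∈ B)
    (hb1o : b1 ≠ o) (hlt : v (m k) < v (α b1 * m b1)) :
    Mx L v a z m o i0 (insert k (B.erase b1)) := by
  obtain ⟨hG, hGk, hsc, hiff, _⟩ := hd
  have hmk : m k ≠ 0 := h.m_ne k
  have hα0 : α b1 ≠ 0 := by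
    intro h0
    rw [h0, zero_mul, map_zero] at hlt
    exact not_lt_zero hlt
  have hGn : G ∉ acl L (bs a z ↑(B.erase b1)) := fun hh => hα0 ((hiff b1 hb1).2 hh)
  have hzb : z b1 ∉ acl L (bs a z ↑(B.erase b1)) := fun hmem => by
    have := hB.2.1 b1 hb1 _ hmem 0 h.sm_zero
    rw [sub_self, map_zero] at this
    exact not_lt_zero this
  have hGoc : G ∈ acl L (oc (z b1) (bs a z ↑(B.erase b1))) := by
    refine bs_le_oc z ?_ hG
    intro x hx
    by_cases hxb : x = b1
    · exact Or.inl hxb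
    · exact Or.inr (Finset.mem_coe.2 (Finset.mem_erase.2 ⟨hxb, Finset.mem_coe.1 hx⟩))
  have hke : k ∉ B.erase b1 := fun hh => hk (Finset.mem_of_mem_erase hh)
  have hcard : (insert k (B.erase b1)).card = B.card := by
    rw [Finset.card_insert_of_notMem hke, Finset.card_erase_of_mem hb1]
    have := Finset.card_pos.2 ⟨b1, hb1⟩
    omega
  have hoB : o ∈ insert k (B.erase b1) :=
    Finset.mem_insert_of_mem (Finset.mem_erase.2 ⟨hb1o.symm, hB.1⟩)
  -- freeness at `k`
  have hfk : ∀ c ∈ acl L (bs a z ↑(B.erase b1)), ∀ g, Sm L v a (z o) (z i0) g →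
      v (m k * g) < v (z k - c) := by
    intro c hc g hg
    have hinv := (hsc b1 hb1).inv hK hV h1 hnt _ hzb hGoc hGn hα0
    obtain ⟨c1, hc1, h2⟩ := hinv.tr hK hV h1 _ hGn hzb (inv_ne_zero hα0) hc
    have hv0 : v (α b1) ≠ 0 := (Valuation.ne_zero_iff v).2 hα0
    have key : ∀ g', Sm L v a (z o) (z i0) g' → v (m k * g') < v (G - c) := by
      intro g' hg'
      have h3 := (hB.2.1 b1 hb1 c1 hc1 g' hg').trans_le h2
      have h4 := mul_lt_mul_of_pos_left h3 (zero_lt_iff.2 hv0)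
      rw [map_inv₀, mul_inv_cancel_left₀ hv0, ← map_mul] at h4
      refine lt_of_le_of_lt ?_ h4
      rw [← mul_assoc, map_mul v (m k), map_mul v (α b1 * m b1)]
      exact mul_le_mul_left hlt.le _
    have h5 := key _ hGk
    rw [mul_div_cancel₀ _ hmk] at h5
    have h6 : v (z k - c) = v (G - c) := v_dist_eq (by rw [v_sub_comm]; exact h5)
    rw [h6]
    exact key g hg
  refine ⟨hoB, fun b hb => ?_, fun B' h2 h3 => by rw [hcard]; exact hB.2.2 B' h2 h3⟩
  rcases Finset.mem_insert.1 hb with hbk | hb'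
  · rw [hbk, Finset.erase_insert hke]
    exact hfk
  · by_contra hcon
    push Not at hcon
    obtain ⟨c, hc, g, hg, h2⟩ := hcon
    have hbk : b ≠ k := fun e => hke (e ▸ hb')
    rcases ((B.erase b1).erase b).eq_empty_or_nonempty with hemp | hne
    · -- the pair case
      have hsing : ∀ x ∈ B.erase b1, x = b := by
        intro x hx
        by_contra hxb
        have : x ∈ (B.erase b1).erase b := Finset.mem_erase.2 ⟨hxb, hx⟩
        rw [hemp] at this
        exact absurd this (Finset.notMem_empty x)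
      have hob : o = b := hsing o (Finset.mem_erase.2 ⟨hb1o.symm, hB.1⟩)
      have hB' : insert k (B.erase b1) = {o, k} := by
        ext x
        simp only [Finset.mem_insert, Finset.mem_singleton]
        constructor
        · rintro (hx | hx)
          · exact Or.inr hx
          · exact Or.inl (by rw [hsing x hx, hob])
        · rintro (hx | hx)
          · rw [hx]; exact Or.inr (Finset.mem_erase.2 ⟨hb1o.symm, hB.1⟩)
          · exact Or.inl hx
      have hko : k ≠ o := fun e => hk (e ▸ hB.1)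
      have hP := h.P1 hK hV h1 hnt hko
      rw [← hB'] at hP
      exact absurd (hP b hb c hc g hg) (not_lt.2 h2)
    · have hc' : c ∈ acl L (oc (z k) (bs a z ↑((B.erase b1).erase b))) := by
        refine bs_le_oc z (C := ↑((insert k (B.erase b1)).erase b)) ?_ hc
        intro x hx
        have := Finset.mem_coe.1 hx
        rw [Finset.mem_erase, Finset.mem_insert] at this
        rcases this with ⟨h3, h4 | h4⟩
        · exact Or.inl h4
        · exact Or.inr (Finset.mem_coe.2 (Finset.mem_erase.2 ⟨h3, h4⟩))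
      have hfree : ∀ c' ∈ acl L (bs a z ↑((B.erase b1).erase b)), ∀ g,
          Sm L v a (z o) (z i0) g → v (m b * g) < v (z b - c') := by
        intro c' hc'
        refine hB.2.1 b (Finset.mem_of_mem_erase hb') c' (bs_mono z ?_ hc')
        intro x hx
        have := Finset.mem_coe.1 hx
        rw [Finset.mem_erase, Finset.mem_erase] at this
        exact Finset.mem_coe.2 (Finset.mem_erase.2 ⟨this.1, this.2.2⟩)
      obtain ⟨e, he, g', hg', h3⟩ := h.flip hK hV h1 hnt hne hc' hg h2 hfree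
      have he' : e ∈ acl L (bs a z ↑(B.erase b1)) :=
        oc_bs_le z (Finset.coe_subset.2 (Finset.erase_subset _ _)) (Finset.mem_coe.2 hb') he
      exact absurd (hfk e he' g' hg') (not_lt.2 h3)

/-- the controlled motions -/
def Lam (L : FirstOrder.Language.{u, u}) {K : Type u} [L.Structure K] [Field K]
    {Γ : Type w} [LinearOrderedCommGroupWithZero Γ] (v : Valuation K Γ)
    {ι : Type} (a : ι → K) {E : Type} (z m : E → K) (o i0 : E) (Z : Set K) (hs : K)
    (B : Finset E) : Set (E → K) :=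
  {z' | ∃ S, Mv L v a Z S ∧ (∀ i, (z i, z' i) ∈ S) ∧
    (∀ i, Sm L v a (z o) (z i0) ((z' i - z i) / m i)) ∧
    ∀ b ∈ B, v (z' b - z b) ≤ v (m b) * v hs}

theorem sm_div (h : Cfg L v a z m o i0) {i : E} {x g : K} (hg : Sm L v a (z o) (z i0) g)
    (hx : v x ≤ v (m i) * v g) : Sm L v a (z o) (z i0) (x / m i) := by
  refine hg.of_le ?_
  rw [map_div₀]
  refine div_le_of_le_mul₀ zero_le zero_le ?_
  rwa [mul_comm]

include hK hV h1 hnt in
/-- A free set such that the points outside are controlled by the motion of `z o`. -/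
theorem Cfg.good (h : Cfg L v a z m o i0) : ∃ B : Finset E, Mx L v a z m o i0 B ∧
    ∀ k, k ∉ B → ∃ G α, Dat L v a z m o i0 B k G α ∧ v (α o) ≤ v (m k) := by
  classical
  have := Fintype.ofFinite E
  by_cases hna : ∀ d ∈ acl L (oc (z i0) a), ∃ d' ∈ acl L (oc (z i0) a),
    v (z o - d') < v (z o - d)
  swap
  · -- attained distance
    push Not at hna
    obtain ⟨d0, hd0, hmin⟩ := hna
    obtain ⟨B, hB⟩ := Mx.exi hK hV h1 hnt h
    refine ⟨B, hB, fun k hk => ?_⟩
    obtain ⟨G, α, hd⟩ := hB.dat hK hV h1 hnt h hk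
    refine ⟨G, α, hd, ?_⟩
    by_contra hcon
    push Not at hcon
    have hα : v (α o) ≠ 0 := fun h0 => by rw [h0] at hcon; exact not_lt_zero hcon
    have hαn : α o ≠ 0 := (Valuation.ne_zero_iff v).1 hα
    have hmk : m k ≠ 0 := h.m_ne k
    have hpos : 0 < v (z o - d0) := (Valuation.pos_iff v).2 (sub_ne_zero.2 fun e =>
      h.out (e ▸ hd0))
    have hg : Sm L v a (z o) (z i0) ((z o - d0) * (m k / α o)) := by
      intro d hd'
      refine lt_of_lt_of_le ?_ (hmin d hd')
      rw [map_mul, map_div₀]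
      have h3 : v (m k) / v (α o) < 1 := by
        rw [div_lt_one₀ (zero_lt_iff.2 hα)]
        exact hcon
      calc v (z o - d0) * (v (m k) / v (α o)) < v (z o - d0) * 1 :=
            mul_lt_mul_of_pos_left h3 hpos
        _ = _ := mul_one _
    have h4 := hd.2.2.2.2 o hB.1 _ hg d0 hd0
    have e : α o * m o / m k * ((z o - d0) * (m k / α o)) = z o - d0 := by
      rw [h.mo]
      field_simp
    rw [e] at h4
    exact lt_irrefl _ h4
  -- the cut case
  have hdat : ∀ (B : Finset E) (k : E), ∃ (G : K) (α : E → K), Mx L v a z m o i0 B → k ∉ B →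
      Dat L v a z m o i0 B k G α := by
    intro B k
    by_cases hB : Mx L v a z m o i0 B
    · by_cases hk : k ∉ B
      · obtain ⟨G, α, hd⟩ := hB.dat hK hV h1 hnt h hk
        exact ⟨G, α, fun _ _ => hd⟩
      · exact ⟨0, 0, fun _ h' => absurd h' hk⟩
    · exact ⟨0, 0, fun h' => absurd h' hB⟩
  choose G α hdat using hdat
  have htel : ∀ (B : Finset E) (k : E), ∃ Z : Set K, Z.Finite ∧ (Mx L v a z m o i0 B → k ∉ B →
      ∀ (S : Set (K × K)) (z' : E → K) (G' : K), Mv L v a Z S →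
      (∀ b ∈ B, (z b, z' b) ∈ S) → (G B k, G') ∈ S →
      (∀ b ∈ B, Sm L v a (z o) (z i0) ((z' b - z b) / m b)) →
      ∃ t : E → K, G' - G B k = ∑ b ∈ B, t b ∧
        ∀ b ∈ B, v (t b) = v (α B k b) * v (z' b - z b)) := by
    intro B k
    by_cases hB : Mx L v a z m o i0 B ∧ k ∉ B
    · obtain ⟨Z, hZ, h2⟩ := (hdat B k hB.1 hB.2).tele hK hV h1 h hB.1.2.1
      exact ⟨Z, hZ, fun _ _ => h2⟩
    · exact ⟨∅, Set.finite_empty, fun h2 h3 => absurd ⟨h2, h3⟩ hB⟩
  choose Zt hZt htel using htel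
  set Z0 : Set K := (⋃ B, ⋃ k, Zt B k) ∪ (Set.range z ∪ (Set.range (fun p : Finset E × E =>
    G p.1 p.2) ∪ Set.range (fun p : Finset E × E => z p.2 - G p.1 p.2))) with hZ0
  have hZ0f : Z0.Finite := (Set.finite_iUnion fun B => Set.finite_iUnion fun k => hZt B k).union
    ((Set.finite_range _).union ((Set.finite_range _).union (Set.finite_range _)))
  have hZtk : ∀ B k, Zt B k ⊆ Z0 := fun B k x hx =>
    Or.inl (Set.mem_iUnion.2 ⟨B, Set.mem_iUnion.2 ⟨k, hx⟩⟩)
  have hzZ : ∀ i, z i ∈ Z0 := fun i => Or.inr (Or.inl ⟨i, rfl⟩)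
  have hGZ : ∀ B k, G B k ∈ Z0 := fun B k => Or.inr (Or.inr (Or.inl ⟨(B, k), rfl⟩))
  have hzGZ : ∀ B k, z k - G B k ∈ Z0 := fun B k => Or.inr (Or.inr (Or.inr ⟨(B, k), rfl⟩))
  set W : Set K := insert 0 (Set.range (fun p : Finset E × E =>
    if Mx L v a z m o i0 p.1 ∧ p.2 ∉ p.1 then (z p.2 - G p.1 p.2) / m p.2 else 0)) with hW
  have hWf : W.Finite := (Set.finite_range _).insert _
  have hWs : ∀ w ∈ W, Sm L v a (z o) (z i0) w := by
    rintro w (rfl | ⟨p, rfl⟩)
    · exact h.sm_zero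
    · dsimp only
      split_ifs with hp
      · exact (hdat p.1 p.2 hp.1 hp.2).2.1
      · exact h.sm_zero
  obtain ⟨S0, zs, hS0, hzs, hsm, hbd, hWlt⟩ := h.star hK hV h1 hnt hna hZ0f hWf hWs
  set hs : K := zs o - z o with hhs
  have hs0 : 0 < v hs := by
    have := hWlt 0 (Or.inl rfl)
    rwa [map_zero] at this
  have hGlt : ∀ B k, Mx L v a z m o i0 B → k ∉ B → v (z k - G B k) < v (m k) * v hs := by
    intro B k hB hk
    have h2 := hWlt ((z k - G B k) / m k) (Or.inr ⟨(B, k), by simp [hB, hk]⟩)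
    rw [map_div₀, div_lt_iff₀ ((Valuation.pos_iff v).2 (h.m_ne k)), mul_comm] at h2
    exact h2
  obtain ⟨B1, hB1⟩ := Mx.exi hK hV h1 hnt h
  obtain ⟨B, hB, hmin⟩ := Set.Finite.exists_minimalFor (Lam L v a z m o i0 Z0 hs)
    {B : Finset E | Mx L v a z m o i0 B} (Set.toFinite _) ⟨B1, hB1⟩
  have hB : Mx L v a z m o i0 B := hB
  refine ⟨B, hB, fun k hk => ⟨G B k, α B k, hdat B k hB hk, ?_⟩⟩
  by_contra hcon
  push Not at hcon
  have hdk := hdat B k hB hk
  have hGk := hGlt B k hB hk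
  -- general bound for the displacement of `G`
  have hGbd : ∀ (S : Set (K × K)) (z' : E → K) (G' : K), Mv L v a Z0 S → (z k, z' k) ∈ S →
      (G B k, G') ∈ S → v (z' k - z k) ≤ v (m k) * v hs →
      v (G' - G B k) ≤ v (m k) * v hs := by
    intro S z' G' hS h2 h3 h4
    have h5 : v (z' k - G') = v (z k - G B k) := hS.v_sub hV h2 h3 (hzGZ B k)
    refine v_tri (y := z' k) ?_ (v_tri (y := z k) h4 hGk.le)
    rw [v_sub_comm, h5]
    exact hGk.le
  -- Step 1
  obtain ⟨b2, hb2, hb2o, hb2v⟩ : ∃ b2 ∈ B, b2 ≠ o ∧ v (α B k o) ≤ v (α B k b2 * m b2) := by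
    obtain ⟨G', hGG, _⟩ := hS0.rig (G B k) (hGZ B k)
    obtain ⟨t, hsum, ht⟩ := htel B k hB hk S0 zs G' (hS0.monoZ (hZtk B k)) (fun b _ => hzs b) hGG
      (fun b _ => sm_div h hsm (hbd b))
    have h2 := hGbd S0 zs G' hS0 (hzs k) hGG (hbd k)
    have h3 : v (t o) = v (α B k o) * v hs := ht o hB.1
    have h4 : v (m k) * v hs < v (t o) := by
      rw [h3]
      exact mul_lt_mul_of_pos_right hcon hs0
    by_contra hcon2
    push Not at hcon2
    have h5 : v (∑ b ∈ B, t b) = v (t o) := by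
      refine Valuation.map_sum_eq_of_lt v hB.1 fun b hb => ?_
      rw [Finset.mem_sdiff, Finset.mem_singleton] at hb
      rw [ht b hb.1, h3]
      have h6 := hcon2 b hb.1 hb.2
      rw [map_mul] at h6
      calc v (α B k b) * v (zs b - z b) ≤ v (α B k b) * (v (m b) * v hs) :=
            mul_le_mul_right (hbd b) _
        _ = v (α B k b) * v (m b) * v hs := (mul_assoc _ _ _).symm
        _ < v (α B k o) * v hs := mul_lt_mul_of_pos_right h6 hs0
    rw [hsum, h5] at h2
    exact absurd h4 (not_lt.2 h2)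
  obtain ⟨b1, hb1, hmax⟩ := Finset.exists_max_image (B.erase o) (fun b => v (α B k b * m b))
    ⟨b2, Finset.mem_erase.2 ⟨hb2o, hb2⟩⟩
  have hb1B : b1 ∈ B := Finset.mem_of_mem_erase hb1
  have hb1o : b1 ≠ o := Finset.ne_of_mem_erase hb1
  have hmax' : ∀ b ∈ B, v (α B k b * m b) ≤ v (α B k b1 * m b1) := by
    intro b hb
    by_cases hbo : b = o
    · rw [hbo, h.mo, mul_one]
      exact hb2v.trans (hmax b2 (Finset.mem_erase.2 ⟨hb2o, hb2⟩))
    · exact hmax b (Finset.mem_erase.2 ⟨hbo, hb⟩)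
  have hlt1 : v (m k) < v (α B k b1 * m b1) := by
    refine hcon.trans_le ?_
    have := hmax' o hB.1
    rwa [h.mo, mul_one] at this
  have hB' := hB.exchange hK hV h1 hnt h hk hdk hb1B hb1o hlt1
  -- Step 3
  have hsub : Lam L v a z m o i0 Z0 hs (insert k (B.erase b1)) ⊆ Lam L v a z m o i0 Z0 hs B := by
    rintro z' ⟨S, hS, h2, h3, h4⟩
    refine ⟨S, hS, h2, h3, fun b hb => ?_⟩
    by_cases hbb : b = b1
    swap
    · exact h4 b (Finset.mem_insert_of_mem (Finset.mem_erase.2 ⟨hbb, hb⟩))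
    rw [hbb]
    by_contra hc2
    rw [not_le] at hc2
    obtain ⟨G', hGG, _⟩ := hS.rig (G B k) (hGZ B k)
    obtain ⟨t, hsum, ht⟩ := htel B k hB hk S z' G' (hS.monoZ (hZtk B k)) (fun b _ => h2 b) hGG
      (fun b _ => h3 b)
    have h5 := hGbd S z' G' hS (h2 k) hGG (h4 k (Finset.mem_insert_self _ _))
    have hα1 : 0 < v (α B k b1) := by
      rw [zero_lt_iff]
      intro h0
      rw [map_mul, h0, zero_mul] at hlt1
      exact not_lt_zero hlt1
    have h7 : v (α B k b1 * m b1) * v hs < v (t b1) := by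
      rw [ht b1 hb1B, map_mul, mul_assoc]
      exact mul_lt_mul_of_pos_left hc2 hα1
    have h6 : v (∑ b ∈ B, t b) = v (t b1) := by
      refine Valuation.map_sum_eq_of_lt v hb1B fun b hb => ?_
      rw [Finset.mem_sdiff, Finset.mem_singleton] at hb
      refine lt_of_le_of_lt ?_ h7
      rw [ht b hb.1]
      calc v (α B k b) * v (z' b - z b) ≤ v (α B k b) * (v (m b) * v hs) :=
            mul_le_mul_right (h4 b (Finset.mem_insert_of_mem (Finset.mem_erase.2
              ⟨hb.2, hb.1⟩))) _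
        _ = v (α B k b * m b) * v hs := by rw [map_mul, mul_assoc]
        _ ≤ v (α B k b1 * m b1) * v hs := mul_le_mul_left (hmax' b hb.1) _
    rw [hsum, h6] at h5
    have h8 : v (m k) * v hs < v (α B k b1 * m b1) * v hs := mul_lt_mul_of_pos_right hlt1 hs0
    exact absurd (h8.trans h7) (not_lt.2 h5)
  have hsup := hmin hB' hsub
  -- Step 4
  have hn1 : nr1 L v (bs a z ↑(B.erase b1)) (z b1) (z b1 + m b1 * hs) := by
    refine hB.2.1.nr h hb1B ?_
    have e : (z b1 + m b1 * hs - z b1) / m b1 = hs := by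
      rw [add_sub_cancel_left, mul_div_cancel_left₀ _ (h.m_ne b1)]
    rw [e]
    exact hsm
  have hscZ : ∀ i, ∃ Zi : Set K, Zi.Finite ∧ (i ∉ B → ∀ (S : Set (K × K)) (x' d' : K),
      Mv L v (bs a z ↑(B.erase b1)) Zi S → (z b1, x') ∈ S → (G B i, d') ∈ S →
      nr1 L v (bs a z ↑(B.erase b1)) (z b1) x' →
      v (d' - G B i) = v (α B i b1) * v (x' - z b1)) := by
    intro i
    by_cases hi : i ∉ B
    · obtain ⟨Zi, hZi, h2⟩ := (hdat B i hB hi).2.2.1 b1 hb1B
      exact ⟨Zi, hZi, fun _ => h2⟩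
    · exact ⟨∅, Set.finite_empty, fun h' => absurd h' hi⟩
  choose Zi hZi hsc using hscZ
  obtain ⟨S, hS, hS1⟩ := H0 h1 (bs a z ↑(B.erase b1)) (Z := Z0 ∪ ⋃ i, Zi i)
    (hZ0f.union (Set.finite_iUnion hZi)) hn1
  have hSa : Mv L v a Z0 S :=
    ⟨hS.el, hS.fin, fun i => hS.fix (Sum.inl i), (hS.monoZ Set.subset_union_left).rig⟩
  choose z' hz' _ using fun i => hSa.rig (z i) (hzZ i)
  have hzb1 : z' b1 = z b1 + m b1 * hs := hS.el.functional (hz' b1) hS1
  have hzb : ∀ b ∈ B, b ≠ b1 → z' b = z b := fun b hb hbb => by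
    refine hS.el.functional (hz' b) (hS.fix (Sum.inr ⟨b, ?_⟩))
    exact Finset.mem_coe.2 (Finset.mem_erase.2 ⟨hbb, hb⟩)
  have hdisp : ∀ i, i ∉ B → ∀ G', (G B i, G') ∈ S →
      v (G' - G B i) = v (α B i b1) * v (m b1 * hs) := by
    intro i hi G' hG'
    have := hsc i hi S _ G' (hS.monoZ fun x hx => Or.inr (Set.mem_iUnion.2 ⟨i, hx⟩)) hS1 hG' hn1
    rw [this, add_sub_cancel_left]
  have hz'L : z' ∈ Lam L v a z m o i0 Z0 hs B := by
    refine ⟨S, hSa, hz', fun i => ?_, fun b hb => ?_⟩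
    · by_cases hi : i ∈ B
      · by_cases hib : i = b1
        · rw [hib, hzb1, add_sub_cancel_left, mul_div_cancel_left₀ _ (h.m_ne b1)]
          exact hsm
        · rw [hzb i hi hib, sub_self, zero_div]
          exact h.sm_zero
      · obtain ⟨G', hGG, _⟩ := hSa.rig (G B i) (hGZ B i)
        have h2 := hdisp i hi G' hGG
        have h3 : v (z' i - G') = v (z i - G B i) := hSa.v_sub hV (hz' i) hGG (hzGZ B i)
        obtain ⟨_, h4, _, _, h5⟩ := hdat B i hB hi
        have h6 := h5 b1 hb1B hs hsm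
        intro d hd
        have h7 := h4 d hd
        have h8 := h6 d hd
        have hmi : 0 < v (m i) := (Valuation.pos_iff v).2 (h.m_ne i)
        rw [map_div₀, div_lt_iff₀ hmi] at h7 ⊢
        have e : α B i b1 * m b1 / m i * hs = (α B i b1 * (m b1 * hs)) / m i := by ring
        rw [e, map_div₀, div_lt_iff₀ hmi, map_mul, ← h2] at h8
        refine v_tri_lt (y := G') ?_ (v_tri_lt (y := G B i) h8 ?_)
        · rw [h3]; exact h7
        · rw [v_sub_comm]; exact h7
    · by_cases hbb : b = b1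
      · rw [hbb, hzb1, add_sub_cancel_left, map_mul]
      · rw [hzb b hb hbb, sub_self, map_zero]
        exact zero_le
  obtain ⟨S', hS', h2, h3, h4⟩ := hsup hz'L
  have h5 := h4 k (Finset.mem_insert_self _ _)
  obtain ⟨G', hGG, _⟩ := hSa.rig (G B k) (hGZ B k)
  have h6 := hGbd S z' G' hSa (hz' k) hGG h5
  rw [hdisp k hk G' hGG, map_mul, ← mul_assoc, ← map_mul] at h6
  exact absurd h6 (not_le.2 (mul_lt_mul_of_pos_right hlt1 hs0))

end Pool.Agent.R611.HM
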