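import Pool.Agent.R611.HM.T7

/-!
# 1-h-minimality implies n-h-minimality, type level
-/

set_option autoImplicit false
set_option linter.unusedSectionVars false

namespace Pool.Agent.R611.HM

open FirstOrder Language Structure Set

universe u w

variable {L : FirstOrder.Language.{u, u}} {K : Type u} [L.Structure K] [Field K]
variable {Γ : Type w} [LinearOrderedCommGroupWithZero Γ] {v : Valuation K Γ}

/-- linked with factor at most `m` -/
def CL (L : FirstOrder.Language.{u, u}) {K : Type u} [L.Structure K] [Field K]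
    {Γ : Type w} [LinearOrderedCommGroupWithZero Γ] (v : Valuation K Γ)
    {ι : Type} (a : ι → K) (y x m : K) : Prop := ∃ m' e, LkAt L v a y x m' e ∧ v m' ≤ v m

/-- near `acl a`, with tolerance `m` -/
def CN (L : FirstOrder.Language.{u, u}) {K : Type u} [L.Structure K] [Field K]
    {Γ : Type w} [LinearOrderedCommGroupWithZero Γ] (v : Valuation K Γ)
    {ι : Type} (a : ι → K) (y x m : K) : Prop :=
  ∃ c ∈ acl L a, ∃ g, (∀ c' ∈ acl L a, v g < v (y - c')) ∧ v (x - c) ≤ v m * v g

variable (hK : Satur L K) (hV : VF L v) (h1 : TH L v 1) (hnt : ∃ t : K, t ≠ 0 ∧ v t < 1)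

/-- the set of values above the distances from `y` to `acl (a x)` -/
def DD (L : FirstOrder.Language.{u, u}) {K : Type u} [L.Structure K] [Field K]
    {Γ : Type w} [LinearOrderedCommGroupWithZero Γ] (v : Valuation K Γ)
    {ι : Type} (a : ι → K) (y x : K) : Set Γ := {γ | ∃ d ∈ acl L (oc x a), v (y - d) ≤ γ}

theorem DD_total {ι : Type} (a : ι → K) (y x x' : K) :
    DD L v a y x ⊆ DD L v a y x' ∨ DD L v a y x' ⊆ DD L v a y x := by
  by_contra hcon
  push Not at hcon
  obtain ⟨h2, h3⟩ := hcon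
  obtain ⟨γ, ⟨d, hd, hdγ⟩, hγ⟩ := Set.not_subset.1 h2
  refine h3 ?_
  rintro γ' ⟨d', hd', hdγ'⟩
  refine ⟨d, hd, ?_⟩
  by_contra hc
  rw [not_le] at hc
  exact hγ ⟨d', hd', hdγ'.trans (hc.le.trans hdγ)⟩

theorem DD_sub {ι : Type} {a : ι → K} {y x x' : K} (h : DD L v a y x ⊆ DD L v a y x') {d : K}
    (hd : d ∈ acl L (oc x a)) : ∃ d' ∈ acl L (oc x' a), v (y - d') ≤ v (y - d) :=
  h ⟨d, hd, le_rfl⟩

include hK hV h1 hnt in
theorem SS (n : ℕ) : ∀ (J : Type) [Finite J], Nat.card J ≤ n → ∀ (ι : Type) [Finite ι]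
    (a : ι → K) (y : K) (x m : J → K), (∀ j, m j ≠ 0) →
    (∀ j, CL L v a y (x j) (m j) ∨ CN L v a y (x j) (m j)) →
    ∀ Z : Set K, Z.Finite → ∀ y', nr1 L v a y y' →
    ∃ S, Mv L v a Z S ∧ (y, y') ∈ S ∧
      ∀ j, ∃ x', (x j, x') ∈ S ∧ v (x' - x j) ≤ v (m j) * v (y' - y) := by
  classical
  induction n with
  | zero =>
    intro J _ hJ ι _ a y x m _ _ Z hZ y' hn
    have : IsEmpty J := by
      rw [← Finite.card_eq_zero_iff]
      omega
    obtain ⟨S, hS, h2⟩ := H0 h1 a hZ hn
    exact ⟨S, hS, h2, fun j => isEmptyElim j⟩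
  | succ n ih =>
    intro J _ hJ ι _ a y x m hm hcl Z hZ y' hn
    by_cases hun : ∃ j, ¬ ∃ e ∈ acl L (oc y a), ∀ c ∈ acl L a, v (x j - e) < v (x j - c)
    · -- an unlinked point is fixed
      obtain ⟨j, hj⟩ := hun
      have hd := unlinked hK hV h1 hnt hj
      have hcard : Nat.card {i : J // i ≠ j} ≤ n := by
        have h2 : Nat.card {i : J // i ≠ j} < Nat.card J :=
          Finite.card_subtype_lt (p := fun i => i ≠ j) (x := j) (by simp)
        omega
      have hn' : nr1 L v (oc (x j) a) y y' := fun d hdd => by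
        obtain ⟨c, hc, h2⟩ := hd d hdd
        exact (hn c hc).trans_le h2
      have hab : ∀ i, a i ∈ acl L (oc (x j) a) := fun i => acl_le_oc a _ (mem_acl_self a i)
      obtain ⟨S, hS, h2, h3⟩ := ih {i : J // i ≠ j} hcard (Option ι) (oc (x j) a) y
        (fun i => x i) (fun i => m i) (fun i => hm i) (fun i => by
          rcases hcl i with ⟨m', e, he, hle⟩ | ⟨c, hc, g, hg, hle⟩
          · left
            obtain ⟨d, hdl, _⟩ := he.sym hK hV h1 hnt
            have h5 : LkAt L v (oc (x j) a) (x i) y m'⁻¹ d := hdl.mono hV hab fun c hc => by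
              obtain ⟨c', hc', h6⟩ := hd c hc
              exact (hdl.2.1 c' hc').trans_le h6
            obtain ⟨e', he', _⟩ := h5.sym hK hV h1 hnt
            rw [inv_inv] at he'
            exact ⟨m', e', he', hle⟩
          · right
            refine ⟨c, acl_le_oc a _ hc, g, fun c' hc' => ?_, hle⟩
            obtain ⟨c'', hc'', h6⟩ := hd c' hc'
            exact (hg c'' hc'').trans_le h6) Z hZ y' hn'
      refine ⟨S, hS.base, h2, fun i => ?_⟩
      by_cases hij : i = j
      · rw [hij]
        exact ⟨x j, hS.fixx, by rw [sub_self, map_zero]; exact zero_le⟩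
      · exact h3 ⟨i, hij⟩
    push Not at hun
    have hlk : ∀ j, ∃ μ e, LkAt L v a y (x j) μ e ∧ v μ ≤ v (m j) := by
      intro j
      rcases hcl j with ⟨m', e, he, hle⟩ | ⟨c, hc, g, hg, hle⟩
      · exact ⟨m', e, he, hle⟩
      · obtain ⟨e, he, he'⟩ := hun j
        have hy : y ∉ acl L a := fun hy =>
          lt_irrefl _ (he' e (acl_oc_le (mem_acl_self a) hy he))
        obtain ⟨μ, hμ⟩ := LkAt.exi hK hV h1 hnt hy he he'
        refine ⟨μ, e, hμ, ?_⟩
        obtain ⟨b, hb, h3⟩ := hμ.trI hK hV h1 hnt hc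
        have hμ0 : v μ ≠ 0 := (Valuation.ne_zero_iff v).2 hμ.2.2.1
        have h4 := (hg b hb).trans_le (h3.trans (mul_le_mul_right hle _))
        by_contra hcon
        rw [not_le] at hcon
        have h5 : (v μ)⁻¹ * (v (m j) * v g) ≤ v g := by
          rw [← mul_assoc]
          refine mul_le_of_le_one_left' ?_
          rw [inv_mul_le_iff₀ (zero_lt_iff.2 hμ0), mul_one]
          exact hcon.le
        exact absurd h4 (not_lt.2 h5)
    choose μ e he hle using hlk
    have hμ0 : ∀ j, μ j ≠ 0 := fun j => (he j).2.2.1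
    by_cases hA : ∀ j, ∃ d ∈ acl L (oc (x j) a), v (y - d) ≤ v (y' - y)
    · -- all points are closer than the displacement
      choose d hd hdle using hA
      have hback : ∀ j, ∃ Zj : Set K, Zj.Finite ∧ ∀ (S : Set (K × K)) (x' d' : K),
          Mv L v a Zj S → (d j, x') ∈ S → (x j, d') ∈ S → nr1 L v a (d j) x' →
          v (d' - x j) = v (μ j) * v (x' - d j) := fun j => by
        obtain ⟨hs, _, _⟩ := (he j).back hK hV h1 hnt (hd j) (fun c hc =>
          (hdle j).trans_lt (hn c hc))
        exact hs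
      choose Zj hZj hsc using hback
      obtain ⟨S, hS, hy⟩ := H0 h1 a (Z := (Z ∪ Set.range x) ∪ (Set.range d ∪
        Set.range fun i => y - d i) ∪ ⋃ i, Zj i)
        (((hZ.union (Set.finite_range x)).union ((Set.finite_range d).union
          (Set.finite_range _))).union (Set.finite_iUnion hZj)) hn
      choose x' hx' _ using fun i => hS.rig (x i) (Or.inl (Or.inl (Or.inr ⟨i, rfl⟩)))
      choose d' hd' _ using fun i => hS.rig (d i) (Or.inl (Or.inr (Or.inl ⟨i, rfl⟩)))
      refine ⟨S, hS.monoZ ?_, hy, fun j => ⟨x' j, hx' j, ?_⟩⟩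
      · exact Set.subset_union_left.trans (Set.subset_union_left.trans Set.subset_union_left)
      · have h4 : v (y' - d' j) = v (y - d j) :=
          hS.v_sub hV hy (hd' j) (Or.inl (Or.inr (Or.inr ⟨j, rfl⟩)))
        have h5 : v (d' j - d j) ≤ v (y' - y) := by
          refine v_tri (y := y') ?_ (v_tri (y := y) le_rfl (hdle j))
          rw [v_sub_comm, h4]; exact hdle j
        have hnj : nr1 L v a (d j) (d' j) := fun c hc => by
          have : v (d j - c) = v (y - c) := v_dist_eq ((hdle j).trans_lt (hn c hc))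
          rw [this]
          exact h5.trans_lt (hn c hc)
        have h6 := hsc j S (d' j) (x' j) (hS.monoZ fun z hz =>
          Or.inr (Set.mem_iUnion.2 ⟨j, hz⟩)) (hd' j) (hx' j) hnj
        rw [h6]
        exact (mul_le_mul_right h5 _).trans (mul_le_mul_left (hle j) _)
    -- the main case
    push Not at hA
    obtain ⟨i1, hi1⟩ := hA
    have : Nonempty J := ⟨i1⟩
    obtain ⟨i0, _, hi0min⟩ := Set.Finite.exists_minimalFor (fun j => DD L v a y (x j))
      (Set.univ : Set J) Set.finite_univ Set.univ_nonempty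
    have hi0 : ∀ j, DD L v a y (x i0) ⊆ DD L v a y (x j) := fun j => by
      rcases DD_total (L := L) (v := v) a y (x i0) (x j) with h2 | h2
      · exact h2
      · exact hi0min (Set.mem_univ j) h2
    have hh0 : ∀ d ∈ acl L (oc (x i0) a), v (y' - y) < v (y - d) := fun d hd => by
      obtain ⟨d', hd', h2⟩ := DD_sub (hi0 i1) hd
      exact (hi1 d' hd').trans_le h2
    let T : Type := {i : J // DD L v a y (x i) ⊆ DD L v a y (x i0)}
    let zE : Option T → K := fun o => o.elim y (fun i => x i)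
    let mE : Option T → K := fun o => o.elim 1 (fun i => μ i)
    let e0 : Option T := some ⟨i0, le_rfl⟩
    have hcfg : Cfg L v a zE mE none e0 := by
      refine ⟨by simp [e0], rfl, ?_, ?_, ?_, fun hy => ?_⟩
      · rintro (_ | i) hi
        · exact absurd rfl hi
        · exact ⟨e i, he i⟩
      · rintro (_ | i) hi d hd
        · exact absurd rfl hi
        · exact DD_sub (hi0 i) hd
      · rintro (_ | i) hi d hd
        · exact absurd rfl hi
        · exact DD_sub (L := L) (v := v) (a := a) (y := y) (x := x i) (x' := x i0) i.2 hd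
      · have := hh0 y hy
        rw [sub_self y, map_zero] at this
        exact not_lt_zero this
    obtain ⟨B, hB, hgood⟩ := hcfg.good hK hV h1 hnt
    set bb := bs a zE ↑(B.erase none) with hbb
    have hSm : ∀ g, Sm L v a y (x i0) g ↔ Sm L v a (zE none) (zE e0) g := fun g => Iff.rfl
    have hfree : ∀ c ∈ acl L bb, ∀ g, Sm L v a y (x i0) g → v g < v (y - c) := by
      intro c hc g hg
      have := hB.2.1 none hB.1 c hc g hg
      change v (1 * g) < v (y - c) at this
      rwa [one_mul] at this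
    obtain ⟨k0, hk0⟩ : (B.erase none).Nonempty := by
      rw [← Finset.card_pos, Finset.card_erase_of_mem hB.1]
      have := hB.two hK hV h1 hnt hcfg
      omega
    obtain ⟨j0, rfl⟩ : ∃ j0, k0 = some j0 := by
      rcases k0 with _ | j0
      · exact absurd rfl (Finset.ne_of_mem_erase hk0)
      · exact ⟨j0, rfl⟩
    let J' : Type := {j : J // ¬ ∃ h : DD L v a y (x j) ⊆ DD L v a y (x i0),
      (some ⟨j, h⟩ : Option T) ∈ B}
    have hcard : Nat.card J' ≤ n := by
      have h2 : Nat.card J' < Nat.card J :=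
        Finite.card_subtype_lt (x := j0.1) (by
          simp only [not_not]
          exact ⟨j0.2, Finset.mem_of_mem_erase hk0⟩)
      omega
    have hab : ∀ i, a i ∈ acl L bb := bs_left zE a _
    obtain ⟨S, hS, h2, h3⟩ := ih J' hcard (ι ⊕ ↑(↑(B.erase none) : Set (Option T))) bb y
      (fun j => x j) (fun j => m j) (fun j => hm j) (fun j => by
        by_cases hjT : DD L v a y (x j) ⊆ DD L v a y (x i0)
        · -- `j` in the far class
          have hkB : (some ⟨j, hjT⟩ : Option T) ∉ B := fun hh => j.2 ⟨hjT, hh⟩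
          obtain ⟨G, α, hd, hα⟩ := hgood _ hkB
          change v (α none) ≤ v (μ j) at hα
          by_cases hnear : ∃ c ∈ acl L bb, ∃ g, Sm L v a y (x i0) g ∧
              v (x j - c) ≤ v (μ j) * v g
          · right
            obtain ⟨c, hc, g, hg, h5⟩ := hnear
            exact ⟨c, hc, g, fun c' hc' => hfree c' hc' g hg,
              h5.trans (mul_le_mul_left (hle j) _)⟩
          · left
            push Not at hnear
            have hGs : Sm L v a y (x i0) ((x j - G) / μ j) := hd.2.1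
            have hlt : ∀ c ∈ acl L bb, v (x j - G) < v (x j - c) := fun c hc => by
              have := hnear c hc _ hGs
              rwa [← map_mul, mul_div_cancel₀ _ (hμ0 j)] at this
            have hGn : G ∉ acl L bb := fun hh => lt_irrefl _ (hlt G hh)
            have hα0 : α none ≠ 0 := fun h0 => hGn ((hd.2.2.2.1 none hB.1).1 h0)
            refine ⟨α none, G, ⟨?_, hlt, hα0, hd.2.2.1 none hB.1⟩, hα.trans (hle j)⟩
            refine bs_le_oc (j := none) zE (C := ↑B) ?_ hd.1
            intro k hk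
            by_cases hkn : k = none
            · exact Or.inl hkn
            · exact Or.inr (Finset.mem_coe.2 (Finset.mem_erase.2 ⟨hkn, Finset.mem_coe.1 hk⟩))
        · -- `j` nearer than the far class
          left
          obtain ⟨γ, ⟨d, hd, hdγ⟩, hγ⟩ := Set.not_subset.1 hjT
          have hds : Sm L v a y (x i0) (y - d) := fun d' hd' => by
            by_contra hc
            rw [not_lt] at hc
            exact hγ ⟨d', hd', hc.trans hdγ⟩
          obtain ⟨d0, hd0, _⟩ := (he j).sym hK hV h1 hnt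
          have h5 := hd0.uniq hK hV h1 hnt hd (fun c hc => hds c (acl_le_oc a _ hc))
          have h6 : LkAt L v bb (x j) y (μ j)⁻¹ d := h5.mono hV hab fun c hc =>
            hfree c hc _ hds
          obtain ⟨e', he', _⟩ := h6.sym hK hV h1 hnt
          rw [inv_inv] at he'
          exact ⟨μ j, e', he', hle j⟩) Z hZ y' (fun c hc => hfree c hc _ hh0)
    refine ⟨S, ⟨hS.el, hS.fin, fun i => hS.fix (Sum.inl i), hS.rig⟩, h2, fun j => ?_⟩
    by_cases hj : ∃ h : DD L v a y (x j) ⊆ DD L v a y (x i0), (some ⟨j, h⟩ : Option T) ∈ B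
    · obtain ⟨hT, hjB⟩ := hj
      refine ⟨x j, hS.fix (Sum.inr ⟨some ⟨j, hT⟩, ?_⟩), by rw [sub_self, map_zero]; exact zero_le⟩
      exact Finset.mem_coe.2 (Finset.mem_erase.2 ⟨by simp, hjB⟩)
    · exact h3 ⟨j, hj⟩

include hK hV h1 hnt in
theorem THJ (n : ℕ) : ∀ (J : Type) [Finite J], Nat.card J ≤ n → ∀ (ι : Type) [Finite ι]
    (a : ι → K) (Z : Set K), Z.Finite → ∀ (x : J → K) (l y y' : K), l ≠ 0 → v l ≤ 1 →
    nr L v l a y y' →
    ∃ S, Mv L v a Z S ∧ (y, y') ∈ S ∧ ∀ j, ∃ x', (x j, x') ∈ S ∧ RVl v l (x j) x' := by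
  classical
  induction n with
  | zero =>
    intro J _ hJ ι _ a Z hZ x l y y' hl hl1 hn
    have : IsEmpty J := by
      rw [← Finite.card_eq_zero_iff]
      omega
    obtain ⟨S, hS, h2⟩ := H0 h1 a hZ (hn.to1 hl1)
    exact ⟨S, hS, h2, fun j => isEmptyElim j⟩
  | succ n ih =>
    intro J _ hJ ι _ a Z hZ x l y y' hl hl1 hn
    by_cases hun : ∃ j, ¬ ∃ e ∈ acl L (oc y a), ∀ c ∈ acl L a, v (x j - e) < v (x j - c)
    · obtain ⟨j, hj⟩ := hun
      have hd := unlinked hK hV h1 hnt hj
      have hcard : Nat.card {i : J // i ≠ j} ≤ n := by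
        have h2 : Nat.card {i : J // i ≠ j} < Nat.card J :=
          Finite.card_subtype_lt (p := fun i => i ≠ j) (x := j) (by simp)
        omega
      obtain ⟨S, hS, h2, h3⟩ := ih {i : J // i ≠ j} hcard (Option ι) (oc (x j) a) Z hZ
        (fun i => x i) l y y' hl hl1 (fun d hdd => by
          obtain ⟨c, hc, h2⟩ := hd d hdd
          exact (hn c hc).trans_le (mul_le_mul_right h2 _))
      refine ⟨S, hS.base, h2, fun i => ?_⟩
      by_cases hij : i = j
      · rw [hij]
        exact ⟨x j, hS.fixx, RVl.refl hl _⟩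
      · exact h3 ⟨i, hij⟩
    push Not at hun
    have hlk : ∀ j, ∃ μ e, LkAt L v a y (x j) μ e := by
      intro j
      obtain ⟨e, he, he'⟩ := hun j
      have hy : y ∉ acl L a := fun hy =>
        lt_irrefl _ (he' e (acl_oc_le (mem_acl_self a) hy he))
      obtain ⟨μ, hμ⟩ := LkAt.exi hK hV h1 hnt hy he he'
      exact ⟨μ, e, hμ⟩
    choose μ e he using hlk
    obtain ⟨S, hS, h2, h3⟩ := SS hK hV h1 hnt (n + 1) J hJ ι a y x μ (fun j => (he j).2.2.1)
      (fun j => Or.inl ⟨μ j, e j, he j, le_rfl⟩) Z hZ y' (hn.to1 hl1)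
    refine ⟨S, hS, h2, fun j => ?_⟩
    obtain ⟨x', hx', h4⟩ := h3 j
    refine ⟨x', hx', Or.inr ?_⟩
    obtain ⟨b, hb, h5⟩ := (he j).trI hK hV h1 hnt (zero_mem_acl hV a)
    rw [sub_zero] at h5
    have h6 := (hn b hb).trans_le (mul_le_mul_right h5 _)
    have hμ0 : 0 < v (μ j) := (Valuation.pos_iff v).2 (he j).2.2.1
    rw [v_sub_comm]
    refine h4.trans_lt ?_
    have h7 := mul_lt_mul_of_pos_left h6 hμ0
    refine h7.trans_le (le_of_eq ?_)
    rw [← mul_assoc, ← mul_assoc, mul_comm (v (μ j)), mul_assoc (v l), mul_inv_cancel₀ hμ0.ne',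
      mul_one]

include hK hV h1 in
/-- 1-h-minimality implies n-h-minimality at the level of types. -/
theorem TH_all (n : ℕ) : TH L v n := by
  classical
  intro ι _ a Z hZ x l y y' hl hl1 hn
  by_cases hnt : ∃ t : K, t ≠ 0 ∧ v t < 1
  · exact THJ hK hV h1 hnt n (Fin n) (by simp) ι a Z hZ x l y y' hl hl1 hn
  · push Not at hnt
    have hle : ∀ t : K, t ≠ 0 → v t = 1 := fun t ht => by
      refine le_antisymm ?_ (hnt t ht)
      have := hnt t⁻¹ (inv_ne_zero ht)
      rw [map_inv₀] at this
      exact (one_le_inv₀ ((Valuation.pos_iff v).2 ht)).1 this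
    have hyy : y' = y := by
      by_contra hne
      have h2 := hn 0 (zero_mem_acl hV a)
      rw [hle _ (sub_ne_zero.2 hne), hle l hl, one_mul, sub_zero] at h2
      by_cases hy : y = 0
      · rw [hy, map_zero] at h2
        exact not_lt_zero h2
      · rw [hle y hy] at h2
        exact lt_irrefl _ h2
    refine ⟨_, Mv.idm a hZ (X := {y} ∪ Set.range x) ((Set.finite_singleton y).union
      (Set.finite_range x)), ?_, fun j => ⟨x j, ?_, RVl.refl hl _⟩⟩
    · rw [hyy]
      exact ⟨y, Or.inl (Or.inr (Or.inl rfl)), rfl⟩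
    · exact ⟨x j, Or.inl (Or.inr (Or.inr ⟨j, rfl⟩)), rfl⟩

end Pool.Agent.R611.HM
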