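import Pool.Agent.R611.HM.T8
import Pool.Agent.R611.HM.Def

/-!
# From the definition to types
-/

set_option autoImplicit false
set_option linter.unusedSectionVars false

namespace Pool.Agent.R611.HM

open FirstOrder Language Structure Set

universe u w

variable {L : FirstOrder.Language.{u, u}} {K : Type u} [L.Structure K]

/-! ### basic definability -/

theorem df_iff {α : Type} {P : (α → K) → Prop} :
    Df L P ↔ ∃ φ : L.Formula α, ∀ w, P w ↔ φ.Realize w := by
  unfold Df
  rw [Set.empty_definable_iff]
  refine exists_congr fun φ => ?_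
  rw [Set.ext_iff]
  rfl

theorem df_fun2 (f : L.Functions 2) :
    DfF L (fun w : Bool → K => (funMap f ![w true, w false] : K)) := by
  unfold DfF
  rw [df_iff]
  refine ⟨Term.equal (Term.var none)
    (Term.func f ![Term.var (some true), Term.var (some false)]), fun w => ?_⟩
  rw [Formula.realize_equal, Term.realize_var, Term.realize_func]
  have : (fun i => ((![Term.var (some true), Term.var (some false)] :
      Fin 2 → L.Term (Option Bool)) i).realize w) = ![w (some true), w (some false)] := by
    funext i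
    fin_cases i <;> rfl
  rw [this]

theorem df_rel1 (R : L.Relations 1) : Df L (fun w : Unit → K => RelMap R ![w ()]) := by
  rw [df_iff]
  refine ⟨R.formula ![Term.var ()], fun w => ?_⟩
  rw [Formula.realize_rel]
  apply iff_of_eq
  congr 1
  funext i
  fin_cases i
  rfl

/-- plugging in parameters -/
theorem Df.params {κ ι : Type} {P : (κ ⊕ ι → K) → Prop} (hP : Df L P) (a : ι → K) {A : Set K}
    (ha : ∀ i, a i ∈ A) : A.Definable L {w : κ → K | P (Sum.elim w a)} := by
  obtain ⟨φ, hφ⟩ := df_iff.1 hP
  rw [Set.definable_iff_exists_formula_sum]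
  refine ⟨φ.relabel (Sum.elim Sum.inr (fun i => Sum.inl ⟨a i, ha i⟩)), ?_⟩
  ext w
  simp only [Set.mem_ofPred_eq]
  rw [Formula.realize_relabel, hφ]
  apply iff_of_eq
  congr 1
  funext i
  rcases i with i | i <;> rfl

/-- definable sets use finitely many parameters -/
theorem df_of_definable {κ : Type} {A : Set K} {Y : Set (κ → K)} (h : A.Definable L Y) :
    ∃ (n : ℕ) (a : Fin n → K) (φ : L.Formula (Fin n ⊕ κ)), (∀ i, a i ∈ A) ∧
      ∀ w, w ∈ Y ↔ φ.Realize (Sum.elim a w) := by
  classical
  obtain ⟨A0, hA0, h0⟩ := Set.definable_iff_finitely_definable.1 h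
  obtain ⟨φ, hφ⟩ := Set.definable_iff_exists_formula_sum.1 h0
  have e : ↥(A0 : Set K) ≃ Fin A0.card := by
    have e1 : ↥(A0 : Set K) ≃ ↥A0 := Equiv.refl _
    exact e1.trans A0.equivFin
  refine ⟨A0.card, fun i => (e.symm i : K), φ.relabel (Sum.map e id), fun i =>
    hA0 (e.symm i).2, fun w => ?_⟩
  rw [hφ]
  simp only [Set.mem_ofPred_eq]
  rw [Formula.realize_relabel]
  apply iff_of_eq
  congr 1
  funext i
  rcases i with i | i
  · simp
  · rfl

/-- finite sets definable over the range of a tuple are algebraic -/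
theorem acl_of_definable {ι : Type} [Finite ι] {a : ι → K} {C : Set K} (hC : C.Finite)
    (h : (Set.range a).Definable₁ L C) : C ⊆ acl L a := by
  classical
  intro c hc
  obtain ⟨φ, hφ⟩ := Set.definable_iff_exists_formula_sum.1 h
  have hσ : ∀ s : Set.range a, ∃ i, a i = s := fun s => s.2
  choose σ hσ using hσ
  have key : ∀ x, x ∈ C ↔ (φ.relabel (Sum.map σ (fun _ => ()))).Realize
      (Sum.elim a (fun _ : Unit => x)) := by
    intro x
    have := Set.ext_iff.1 hφ (fun _ => x)
    simp only [Set.mem_ofPred_eq] at this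
    rw [this, Formula.realize_relabel]
    apply iff_of_eq
    congr 1
    funext i
    rcases i with i | i
    · simp [hσ]
    · rfl
  refine ⟨fun w x => (φ.relabel (Sum.map σ (fun _ => ()))).Realize
    (Sum.elim w (fun _ : Unit => x)), ⟨?_, ?_⟩, (key c).1 hc⟩
  · rw [df_iff]
    refine ⟨(φ.relabel (Sum.map σ (fun _ => ()))).relabel
      (Sum.elim (fun i => some i) (fun _ => none)), fun w => ?_⟩
    rw [Formula.realize_relabel]
    apply iff_of_eq
    refine congrArg (Formula.Realize _) ?_
    funext i
    rcases i with i | i <;> rfl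
  · refine hC.subset fun x hx => (key x).2 hx

/-! ### leading terms -/

section

variable [Field K] {O : ValuationSubring K}

theorem rvRel_iff {l : K} (hl : O.valuation l ≤ 1) (x y : K) :
    RvRel O (O.valuation l) x y ↔ RVl O.valuation l x y := by
  unfold RvRel RVl
  constructor
  · rintro (h | ⟨hx, hy, h⟩)
    · exact Or.inl h
    · right
      have hvy : 0 < O.valuation y := (Valuation.pos_iff _).2 hy
      have e : x / y - 1 = (x - y) / y := by field_simp
      rw [e, map_div₀, div_lt_iff₀ hvy] at h
      have h2 : O.valuation (x - y) < O.valuation y :=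
        h.trans_le (mul_le_of_le_one_left' hl)
      have h3 : O.valuation x = O.valuation y := v_eq_of_sub_lt (by rwa [v_sub_comm])
      rwa [h3]
  · rintro (h | h)
    · exact Or.inl h
    · right
      have h2 : O.valuation (x - y) < O.valuation x :=
        h.trans_le (mul_le_of_le_one_left' hl)
      have h3 : O.valuation y = O.valuation x := v_eq_of_sub_lt h2
      have hx : x ≠ 0 := by
        rintro rfl
        rw [map_zero] at h2
        exact not_lt_zero h2
      have hy : y ≠ 0 := by
        intro h0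
        rw [h0, map_zero] at h3
        exact hx ((Valuation.zero_iff _).1 h3.symm)
      refine ⟨hx, hy, ?_⟩
      have hvy : 0 < O.valuation y := (Valuation.pos_iff _).2 hy
      have e : x / y - 1 = (x - y) / y := by field_simp
      rw [e, map_div₀, div_lt_iff₀ hvy, h3]
      exact h

theorem RVl.v_eq' {Γ : Type w} [LinearOrderedCommGroupWithZero Γ] {v : Valuation K Γ} {l x y : K}
    (hl : v l ≤ 1) (h : RVl v l x y) : v y = v x := by
  rcases h with ⟨h1, h2⟩ | h
  · rw [h1, h2]
  · exact v_eq_of_sub_lt (h.trans_le (mul_le_of_le_one_left' hl))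

theorem RVl.symm' {Γ : Type w} [LinearOrderedCommGroupWithZero Γ] {v : Valuation K Γ} {l x y : K}
    (hl : v l ≤ 1) (h : RVl v l x y) : RVl v l y x := by
  have e := h.v_eq' hl
  rcases h with ⟨h1, h2⟩ | h
  · exact Or.inl ⟨h2, h1⟩
  · right
    rw [v_sub_comm, e]
    exact h

theorem RVl.trans' {Γ : Type w} [LinearOrderedCommGroupWithZero Γ] {v : Valuation K Γ}
    {l x y z : K} (hl : v l ≤ 1) (h : RVl v l x y) (h' : RVl v l y z) : RVl v l x z := by
  have e := h.v_eq' hl
  have e' := h'.v_eq' hl
  rcases h with ⟨h1, h2⟩ | h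
  · rcases h' with ⟨h3, h4⟩ | h'
    · exact Or.inl ⟨h1, h4⟩
    · left
      refine ⟨h1, ?_⟩
      rw [h2, map_zero] at e'
      exact (Valuation.zero_iff _).1 e'
  · rcases h' with ⟨h3, h4⟩ | h'
    · rw [h3, map_zero] at e
      have : x = 0 := (Valuation.zero_iff _).1 e.symm
      exact Or.inl ⟨this, h4⟩
    · right
      rw [e] at h'
      exact v_tri_lt h h'

theorem rv_eq_iff {l : K} (hl0 : l ≠ 0) (hl : O.valuation l ≤ 1) (x y : K) :
    rv O (O.valuation l) x = rv O (O.valuation l) y ↔ RVl O.valuation l x y := by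
  have h0 : rv O (O.valuation l) x = rv O (O.valuation l) y ↔
      Relation.EqvGen (RvRel O (O.valuation l)) x y := Quot.eq
  rw [h0, ← rvRel_iff hl]
  clear h0
  constructor
  · intro h
    induction h with
    | rel x y h => exact h
    | refl x => exact (rvRel_iff hl x x).2 (RVl.refl hl0 x)
    | symm x y _ ih =>
      exact (rvRel_iff hl _ _).2 (((rvRel_iff hl _ _).1 ih).symm' hl)
    | trans x y z _ _ ih1 ih2 =>
      exact (rvRel_iff hl _ _).2 (((rvRel_iff hl _ _).1 ih1).trans' hl ((rvRel_iff hl _ _).1 ih2))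
  · exact Relation.EqvGen.rel x y

theorem rvl_one (x y : K) : RVl O.valuation 1 x y ↔ RVeq O.valuation x y := by
  unfold RVl RVeq
  rw [map_one, one_mul]

theorem rv_one_iff (x y : K) : rv O 1 x = rv O 1 y ↔ RVeq O.valuation x y := by
  have := rv_eq_iff (O := O) (l := 1) one_ne_zero (by rw [map_one]) x y
  rw [map_one] at this
  rw [this, rvl_one]

/-- a valued field in the sense of the definition -/
theorem IsValued.vf {sy : ValSymbols L} (h : IsValued sy O) : VF L O.valuation where
  add := (df_fun2 sy.add).congr fun w => by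
    change w none = funMap sy.add ![w (some true), w (some false)] ↔
      w none = w (some true) + w (some false)
    rw [h.add]
  mul := (df_fun2 sy.mul).congr fun w => by
    change w none = funMap sy.mul ![w (some true), w (some false)] ↔
      w none = w (some true) * w (some false)
    rw [h.mul]
  le := by
    have hmul : DfF L (fun w : Bool → K => w true * w false) :=
      (df_fun2 sy.mul).congr fun w => by
        change w none = funMap sy.mul ![w (some true), w (some false)] ↔
          w none = w (some true) * w (some false)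
        rw [h.mul]
    have hO : Df L (fun w : Unit → K => w () ∈ O) :=
      (df_rel1 sy.ring).congr fun w => h.ring _
    have h2 : Df L (fun w : Option Bool → K => w none ∈ O ∧
        w (some true) = w none * w (some false)) := by
      refine Df.and (hO.relabel (fun _ => none)) (Df.eq (DfF.var _) ?_)
      exact hmul.comp (f := fun b (w : Option Bool → K) => if b then w none else w (some false))
        (by rintro (_ | _); exacts [DfF.var _, DfF.var _])
    refine (Df.ex1 (Q := fun t (w : Bool → K) => t ∈ O ∧ w true = t * w false) h2).congr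
      fun w => ?_
    constructor
    · rintro ⟨t, ht, he⟩
      rw [he, map_mul]
      exact mul_le_of_le_one_left' ((O.valuation_le_one_iff t).2 ht)
    · intro hle
      by_cases hy : w false = 0
      · rw [hy, map_zero, le_zero_iff, Valuation.zero_iff] at hle
        exact ⟨1, O.one_mem, by rw [hle, hy, mul_zero]⟩
      · refine ⟨w true / w false, ?_, by rw [div_mul_cancel₀ _ hy]⟩
        rw [← O.valuation_le_one_iff, map_div₀]
        exact div_le_one_of_le₀ hle zero_le
  nat := by
    intro n hn
    have h1 : ((n : O) : K) = (n : K) := by simp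
    rw [← h1, ← O.valuation_eq_one_iff]
    have hc := h.char_zero
    rw [← IsLocalRing.residue_ne_zero_iff_isUnit, map_natCast]
    exact_mod_cast hn

/-- 1-h-minimality in a saturated model implies its type-level form -/
theorem TH1_of (hK : Satur L K) {sy : ValSymbols L} (hv : IsValued sy O)
    (hm : HMinAt O L 1) : TH L O.valuation 1 := by
  classical
  have hV := hv.vf
  intro ι _ a Z hZ x l y y' hl hl1 hn
  obtain ⟨n, zz, hzz⟩ := exists_enum hZ
  -- unknowns: images of `x 0` and of the enumeration; parameters: `y'` and `a`, and data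
  let u : Unit ⊕ Fin n → K := Sum.elim (fun _ => x 0) zz
  let lam := O.valuation l
  -- the types
  let T1 : Set (((Unit ⊕ Fin n) ⊕ ((Unit ⊕ ι) ⊕ (Unit ⊕ (Unit ⊕ Fin n))) → K) → Prop) :=
    {R | ∃ P : ((Unit ⊕ Fin n) ⊕ (Unit ⊕ ι) → K) → Prop, Df L P ∧
      P (Sum.elim u (Sum.elim (fun _ => y) a)) ∧
      R = fun w => P (Sum.elim (fun i => w (Sum.inl i)) (fun i => w (Sum.inr (Sum.inl i))))}
  let R0 : ((Unit ⊕ Fin n) ⊕ ((Unit ⊕ ι) ⊕ (Unit ⊕ (Unit ⊕ Fin n))) → K) → Prop := fun w =>
    RVl O.valuation (w (Sum.inr (Sum.inr (Sum.inl ()))))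
      (w (Sum.inr (Sum.inr (Sum.inr (Sum.inl ()))))) (w (Sum.inl (Sum.inl ()))) ∧
    ∀ j : Fin n, RVeq O.valuation (w (Sum.inr (Sum.inr (Sum.inr (Sum.inr j)))))
      (w (Sum.inl (Sum.inr j)))
  have hR0 : Df L R0 := Df.and (hV.rvl (dvar _) (dvar _) (dvar _))
    (Df.all_fin fun j => hV.rveq (dvar _) (dvar _))
  obtain ⟨u', hu'⟩ := hK (Unit ⊕ Fin n) ((Unit ⊕ ι) ⊕ (Unit ⊕ (Unit ⊕ Fin n)))
    (Sum.elim (Sum.elim (fun _ => y') a) (Sum.elim (fun _ => l) (Sum.elim (fun _ => x 0) zz)))
    (T1 ∪ {R0}) (by
      rintro R (⟨P, hP, -, rfl⟩ | hR)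
      · refine (hP.relabel (β := (Unit ⊕ Fin n) ⊕ ((Unit ⊕ ι) ⊕ (Unit ⊕ (Unit ⊕ Fin n))))
          (Sum.elim (fun i => Sum.inl i) (fun i => Sum.inr (Sum.inl i)))).congr fun w => ?_
        apply iff_of_eq
        congr 1
        funext k
        rcases k with k | k <;> rfl
      · rw [Set.mem_singleton_iff] at hR
        rw [hR]
        exact hR0) (by
    intro Rs hRs hfin
    -- the conjunction of the finitely many conditions
    have hch : ∀ R : Rs, ∃ P : ((Unit ⊕ Fin n) ⊕ (Unit ⊕ ι) → K) → Prop, Df L P ∧
        P (Sum.elim u (Sum.elim (fun _ => y) a)) ∧ (R.1 ∈ T1 → R.1 = fun w =>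
          P (Sum.elim (fun i => w (Sum.inl i)) (fun i => w (Sum.inr (Sum.inl i))))) := by
      intro R
      by_cases hR : R.1 ∈ T1
      · obtain ⟨P, hP, hPt, he⟩ := hR
        exact ⟨P, hP, hPt, fun _ => he⟩
      · exact ⟨fun _ => True, Df.const _, trivial, fun h => absurd h hR⟩
    choose P hP hPt hPe using hch
    have := hfin.to_subtype
    -- the definable set
    let Yp : (Option (Fin (1 + n) ⊕ Fin 1) ⊕ ι → K) → Prop := fun q =>
      ∃ s : Unit ⊕ Fin n → K,
        (∀ R : Rs, P R (Sum.elim s (Sum.elim (fun _ => q (Sum.inl none))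
          (fun i => q (Sum.inr i))))) ∧
        RVl O.valuation (q (Sum.inl (some (Sum.inl (Fin.castAdd n 0)))))
          (q (Sum.inl (some (Sum.inr 0)))) (s (Sum.inl ())) ∧
        ∀ j : Fin n, RVeq O.valuation (q (Sum.inl (some (Sum.inl (Fin.natAdd 1 j)))))
          (s (Sum.inr j))
    have hYp : Df L Yp := by
      refine Df.exT (Q := fun s (q : Option (Fin (1 + n) ⊕ Fin 1) ⊕ ι → K) =>
        (∀ R : Rs, P R (Sum.elim s (Sum.elim (fun _ => q (Sum.inl none))
          (fun i => q (Sum.inr i))))) ∧
        RVl O.valuation (q (Sum.inl (some (Sum.inl (Fin.castAdd n 0)))))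
          (q (Sum.inl (some (Sum.inr 0)))) (s (Sum.inl ())) ∧
        ∀ j : Fin n, RVeq O.valuation (q (Sum.inl (some (Sum.inl (Fin.natAdd 1 j)))))
          (s (Sum.inr j))) ?_
      refine Df.and (Df.all_fin fun R => ?_) (Df.and (hV.rvl (dvar _) (dvar _) (dvar _))
        (Df.all_fin fun j => hV.rveq (dvar _) (dvar _)))
      refine ((hP R).relabel (β := (Option (Fin (1 + n) ⊕ Fin 1) ⊕ ι) ⊕ (Unit ⊕ Fin n))
        (Sum.elim (fun i => Sum.inr i) (Sum.elim (fun _ => Sum.inl (Sum.inl none))
          (fun i => Sum.inl (Sum.inr i))))).congr fun w => ?_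
      apply iff_of_eq
      congr 1
      funext k
      rcases k with k | k | k <;> rfl
    let X : Set K := {x1 | Yp (Sum.elim (fun o => o.elim x1
      (Sum.elim (Fin.append (fun _ : Fin 1 => l) zz) (fun _ => x 0))) a)}
    have hyX : y ∈ X := by
      refine ⟨u, fun R => hPt R, ?_, fun j => ?_⟩
      · simp only [Sum.elim_inl, Option.elim_some, Sum.elim_inr, Fin.append_left]
        exact RVl.refl hl _
      · simp only [Sum.elim_inl, Option.elim_some, Fin.append_right]
        exact RVeq.refl _
    have hXdef : DefinableOver O L lam (Set.range a) {rv O lam (x 0)} X := by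
      refine ⟨1 + n, 1, fun j => rv O 1 (Fin.append (fun _ : Fin 1 => l) zz j),
        fun _ => rv O lam (x 0), {w | Yp (Sum.elim w a)}, fun _ => rfl,
        hYp.params a (fun i => ⟨i, rfl⟩), fun z w hz hw => ?_⟩
      have hz' : ∀ j, RVeq O.valuation (z j) (Fin.append (fun _ : Fin 1 => l) zz j) := fun j =>
        (rv_one_iff _ _).1 (hz j)
      have hl' : O.valuation (z (Fin.castAdd n 0)) = O.valuation l := by
        have := (hz' (Fin.castAdd n 0)).v_eq
        rw [Fin.append_left] at this
        exact this.symm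
      have hw' : RVl O.valuation l (w 0) (x 0) := (rv_eq_iff hl hl1 _ _).1 (hw 0)
      have hlv : ∀ p q, RVl O.valuation (z (Fin.castAdd n 0)) p q ↔ RVl O.valuation l p q := by
        intro p q
        unfold RVl
        rw [hl']
      ext x1
      constructor
      · rintro ⟨s, h2, h3, h4⟩
        simp only [Sum.elim_inl, Option.elim_some, Sum.elim_inr, Fin.append_left,
          Fin.append_right] at h3 h4
        refine ⟨s, h2, ?_, fun j => ?_⟩
        · change RVl O.valuation (z (Fin.castAdd n 0)) (w 0) (s (Sum.inl ()))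
          rw [hlv]
          exact hw'.trans' hl1 h3
        · change RVeq O.valuation (z (Fin.natAdd 1 j)) (s (Sum.inr j))
          have := hz' (Fin.natAdd 1 j)
          rw [Fin.append_right] at this
          exact this.trans (h4 j)
      · rintro ⟨s, h2, h3, h4⟩
        change RVl O.valuation (z (Fin.castAdd n 0)) (w 0) (s (Sum.inl ())) at h3
        rw [hlv] at h3
        refine ⟨s, h2, ?_, fun j => ?_⟩
        · simp only [Sum.elim_inl, Option.elim_some, Sum.elim_inr, Fin.append_left]
          exact (hw'.symm' hl1).trans' hl1 h3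
        · simp only [Sum.elim_inl, Option.elim_some, Fin.append_right]
          have h5 : RVeq O.valuation (z (Fin.natAdd 1 j)) (s (Sum.inr j)) := h4 j
          have := hz' (Fin.natAdd 1 j)
          rw [Fin.append_right] at this
          exact this.symm.trans h5
    obtain ⟨C, hC, hCdef, hCp⟩ := hm lam ((Valuation.ne_zero_iff _).2 hl) hl1 (Set.range a)
      {rv O lam (x 0)} (Set.finite_singleton _) (by rw [Set.encard_singleton]) X hXdef
    have hCacl := acl_of_definable hC hCdef
    have hy'X : y' ∈ X := by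
      refine (hCp y y' fun c hc => ?_).1 hyX
      rw [rv_eq_iff hl hl1]
      right
      have e : y - c - (y' - c) = -(y' - y) := by ring
      rw [e, Valuation.map_neg]
      exact hn c (hCacl hc)
    obtain ⟨s, h2, h3, h4⟩ := hy'X
    simp only [Sum.elim_inl, Option.elim_some, Sum.elim_inr, Fin.append_left,
      Fin.append_right] at h3 h4
    refine ⟨s, fun R hR => ?_⟩
    by_cases hRT : R ∈ T1
    · have e := hPe ⟨R, hR⟩ hRT
      change R _
      rw [show R = (⟨R, hR⟩ : Rs).1 from rfl, e]
      exact h2 ⟨R, hR⟩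
    · rcases hRs hR with h | h
      · exact absurd h hRT
      · rw [Set.mem_singleton_iff] at h
        rw [h]
        exact ⟨h3, h4⟩)
  have hRl := hu' R0 (Or.inr rfl)
  let S : Set (K × K) := insert (y, y') (Set.range (fun i => (a i, a i)) ∪
    Set.range (fun i => (u i, u' i)))
  have hel : El L S := by
    intro γ _ t ht P hP
    have hc : ∀ i, ∃ j : (Unit ⊕ Fin n) ⊕ (Unit ⊕ ι), t i =
        Sum.elim (fun i => (u i, u' i)) (Sum.elim (fun _ => (y, y')) (fun i => (a i, a i))) j := by
      intro i
      rcases ht i with h' | ⟨j, hj⟩ | ⟨j, hj⟩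
      · exact ⟨Sum.inr (Sum.inl ()), h'⟩
      · exact ⟨Sum.inr (Sum.inr j), hj.symm⟩
      · exact ⟨Sum.inl j, hj.symm⟩
    choose σ hσ using hc
    have base : ∀ P : ((Unit ⊕ Fin n) ⊕ (Unit ⊕ ι) → K) → Prop, Df L P →
        (P (Sum.elim u (Sum.elim (fun _ => y) a)) ↔
          P (Sum.elim u' (Sum.elim (fun _ => y') a))) := by
      intro P hP
      have one : ∀ P : ((Unit ⊕ Fin n) ⊕ (Unit ⊕ ι) → K) → Prop, Df L P →
          P (Sum.elim u (Sum.elim (fun _ => y) a)) →
          P (Sum.elim u' (Sum.elim (fun _ => y') a)) := by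
        intro P hP hPt
        exact hu' _ (Or.inl ⟨P, hP, hPt, rfl⟩)
      refine ⟨one P hP, fun h' => ?_⟩
      by_contra hc
      exact one _ hP.not hc h'
    have h4 := base _ (hP.relabel σ)
    have e1 : (fun i => Sum.elim u (Sum.elim (fun _ => y) a) (σ i)) = fun i => (t i).1 := by
      funext i
      rw [hσ i]
      rcases σ i with k | k | k <;> rfl
    have e2 : (fun i => Sum.elim u' (Sum.elim (fun _ => y') a) (σ i)) = fun i => (t i).2 := by
      funext i
      rw [hσ i]
      rcases σ i with k | k | k <;> rfl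
    rw [e1, e2] at h4
    exact h4
  refine ⟨S, ⟨hel, ((Set.finite_range _).union (Set.finite_range _)).insert _, fun i =>
    Or.inr (Or.inl ⟨i, rfl⟩), fun z hz => ?_⟩, Or.inl rfl, fun j => ?_⟩
  · rw [← hzz] at hz
    obtain ⟨j, rfl⟩ := hz
    exact ⟨u' (Sum.inr j), Or.inr (Or.inr ⟨Sum.inr j, rfl⟩), hRl.2 j⟩
  · have : j = 0 := Subsingleton.elim _ _
    rw [this]
    exact ⟨u' (Sum.inl ()), Or.inr (Or.inr ⟨Sum.inl (), rfl⟩), hRl.1⟩

end

end Pool.Agent.R611.HM
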