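import Pool.Agent.R611.HM.El

/-!
# Valued fields as definable structures, leading terms, rigid moves
-/

set_option autoImplicit false

namespace Pool.Agent.R611.HM

open FirstOrder Language Structure Set

universe u w

section basic

variable {K : Type u} [Field K] {Γ : Type w} [LinearOrderedCommGroupWithZero Γ]

/-- same leading term -/
def RVeq (v : Valuation K Γ) (x x' : K) : Prop := (x = 0 ∧ x' = 0) ∨ v (x - x') < v x

/-- same leading term of depth `l` -/
def RVl (v : Valuation K Γ) (l x x' : K) : Prop := (x = 0 ∧ x' = 0) ∨ v (x - x') < v l * v x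

variable {v : Valuation K Γ}

theorem v_sub_comm (x y : K) : v (x - y) = v (y - x) := Valuation.map_sub_swap v x y

theorem v_sub_le {x y : K} {g : Γ} (hx : v x ≤ g) (hy : v y ≤ g) : v (x - y) ≤ g :=
  (Valuation.map_sub v x y).trans (max_le hx hy)

theorem v_sub_lt {x y : K} {g : Γ} (hx : v x < g) (hy : v y < g) : v (x - y) < g :=
  (Valuation.map_sub v x y).trans_lt (max_lt hx hy)

theorem v_add_le {x y : K} {g : Γ} (hx : v x ≤ g) (hy : v y ≤ g) : v (x + y) ≤ g :=
  (Valuation.map_add v x y).trans (max_le hx hy)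

theorem v_add_lt {x y : K} {g : Γ} (hx : v x < g) (hy : v y < g) : v (x + y) < g :=
  (Valuation.map_add v x y).trans_lt (max_lt hx hy)

/-- if `v (x - y) < v x` then `v y = v x` -/
theorem v_eq_of_sub_lt {x y : K} (h : v (x - y) < v x) : v y = v x := by
  have e : y = x - (x - y) := by ring
  rw [e, Valuation.map_sub_eq_of_lt_left v h]

/-- the isosceles principle for distances -/
theorem v_tri {x y z : K} {g : Γ} (h1 : v (x - y) ≤ g) (h2 : v (y - z) ≤ g) : v (x - z) ≤ g := by
  have e : x - z = (x - y) + (y - z) := by ring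
  rw [e]
  exact v_add_le h1 h2

theorem v_tri_lt {x y z : K} {g : Γ} (h1 : v (x - y) < g) (h2 : v (y - z) < g) :
    v (x - z) < g := by
  have e : x - z = (x - y) + (y - z) := by ring
  rw [e]
  exact v_add_lt h1 h2

/-- if `x` is strictly closer to `y` than to `z`, the distances to `z` agree -/
theorem v_dist_eq {x y z : K} (h : v (x - y) < v (x - z)) : v (y - z) = v (x - z) := by
  have e : x - z - (y - z) = x - y := by ring
  exact v_eq_of_sub_lt (x := x - z) (y := y - z) (by rw [e]; exact h)

theorem RVeq.refl (x : K) : RVeq v x x := by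
  by_cases h : x = 0
  · exact Or.inl ⟨h, h⟩
  · right
    rw [sub_self, map_zero]
    exact (Valuation.pos_iff v).2 h

theorem RVeq.v_eq {x x' : K} (h : RVeq v x x') : v x' = v x := by
  rcases h with ⟨h1, h2⟩ | h
  · rw [h1, h2]
  · exact v_eq_of_sub_lt h

theorem RVeq.symm {x x' : K} (h : RVeq v x x') : RVeq v x' x := by
  have e := h.v_eq
  rcases h with ⟨h1, h2⟩ | h
  · exact Or.inl ⟨h2, h1⟩
  · right
    rw [v_sub_comm, e]
    exact h

theorem RVeq.trans {x x' x'' : K} (h : RVeq v x x') (h' : RVeq v x' x'') : RVeq v x x'' := by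
  have e := h.v_eq
  rcases h with ⟨h1, h2⟩ | h
  · rcases h' with ⟨h3, h4⟩ | h'
    · exact Or.inl ⟨h1, h4⟩
    · rw [h2, map_zero] at h'
      exact absurd h' (not_lt.2 zero_le')
  · rcases h' with ⟨h3, h4⟩ | h'
    · rw [h3, map_zero] at e
      have : x = 0 := (Valuation.zero_iff v).1 e.symm
      rw [this, map_zero] at h
      exact absurd h (not_lt.2 zero_le')
    · right
      rw [e] at h'
      exact v_tri_lt h h'

theorem RVl.refl {l : K} (hl : l ≠ 0) (x : K) : RVl v l x x := by
  by_cases h : x = 0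
  · exact Or.inl ⟨h, h⟩
  · right
    rw [sub_self, map_zero, ← map_mul]
    exact (Valuation.pos_iff v).2 (mul_ne_zero hl h)

/-- Rigidity: a permutation of a finite set preserving the leading terms of differences is
the identity (equicharacteristic zero). -/
theorem rigid (hnat : ∀ n : ℕ, n ≠ 0 → v (n : K) = 1) {X : Set K} (hX : X.Finite) {f : K → K}
    (hf : ∀ x ∈ X, f x ∈ X) (hr : ∀ x ∈ X, ∀ y ∈ X, RVeq v (x - y) (f x - f y)) :
    ∀ x ∈ X, f x = x := by
  by_contra hcon
  push Not at hcon
  obtain ⟨x0, hx0, hne0⟩ := hcon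
  -- choose a point with maximal displacement
  obtain ⟨p0, hp0, hmax⟩ := hX.exists_maximalFor (fun x => v (f x - x)) X ⟨x0, hx0⟩
  have hmax' : ∀ x ∈ X, v (f x - x) ≤ v (f p0 - p0) := by
    intro x hx
    rcases le_total (v (f x - x)) (v (f p0 - p0)) with h | h
    · exact h
    · exact hmax hx h
  set t := f p0 - p0 with ht
  have ht0 : 0 < v t := by
    refine lt_of_lt_of_le ?_ (hmax' x0 hx0)
    exact (Valuation.pos_iff v).2 (sub_ne_zero.2 hne0)
  let p : ℕ → K := fun n => f^[n] p0
  have hpX : ∀ n, p n ∈ X := by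
    intro n
    induction n with
    | zero => exact hp0
    | succ n ih =>
      change f^[n + 1] p0 ∈ X
      rw [Function.iterate_succ_apply']
      exact hf _ ih
  have hstep : ∀ n, v (p n - p0) ≤ v t ∧ v (p (n + 1) - p n - t) < v t := by
    intro n
    have h1 : v (p n - p0) ≤ v t := by
      induction n with
      | zero => simp [p]
      | succ n ih =>
        have e : p (n + 1) - p0 = (f (p n) - p n) + (p n - p0) := by
          simp only [p, Function.iterate_succ_apply']; ring
        rw [e]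
        exact v_add_le (hmax' _ (hpX n)) ih
    refine ⟨h1, ?_⟩
    have h2 := hr (p n) (hpX n) p0 hp0
    have e : p (n + 1) - p n - t = (f (p n) - f p0) - (p n - p0) := by
      simp only [p, Function.iterate_succ_apply', ht]; ring
    rw [e]
    rcases h2 with ⟨h3, h4⟩ | h2
    · have : f (p n) - f p0 - (p n - p0) = 0 := by rw [h3, h4]; ring
      rw [this, map_zero]
      exact ht0
    · rw [v_sub_comm]
      exact h2.trans_le h1
  have hsum : ∀ n : ℕ, v (p n - p0 - n * t) < v t := by
    intro n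
    induction n with
    | zero => simpa [p] using ht0
    | succ n ih =>
      have e : p (n + 1) - p0 - ((n + 1 : ℕ) : K) * t = (p (n + 1) - p n - t) +
          (p n - p0 - n * t) := by push_cast; ring
      rw [e]
      exact v_add_lt (hstep n).2 ih
  -- two iterates agree
  have : ∃ m n : ℕ, m < n ∧ p m = p n := by
    by_contra hc
    push Not at hc
    have hinj : Function.Injective p := by
      intro m n hmn
      rcases lt_trichotomy m n with h | h | h
      · exact absurd hmn (hc m n h)
      · exact h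
      · exact absurd hmn.symm (hc n m h)
    exact (Set.infinite_of_injective_forall_mem hinj hpX) hX
  obtain ⟨m, n, hmn, he⟩ := this
  have h1 := hsum m
  have h2 := hsum n
  have h3 : v (((n - m : ℕ) : K) * t) < v t := by
    have e : ((n - m : ℕ) : K) * t = (p m - p0 - m * t) - (p n - p0 - n * t) := by
      rw [he, Nat.cast_sub hmn.le]; ring
    rw [e]
    exact v_sub_lt h1 h2
  rw [map_mul, hnat (n - m) (by omega), one_mul] at h3
  exact lt_irrefl _ h3

end basic

/-- The valued field is definable in the structure, and has equicharacteristic zero. -/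
structure VF (L : FirstOrder.Language.{u, u}) {K : Type u} [L.Structure K] [Field K]
    {Γ : Type w} [LinearOrderedCommGroupWithZero Γ] (v : Valuation K Γ) : Prop where
  add : DfF L (fun w : Bool → K => w true + w false)
  mul : DfF L (fun w : Bool → K => w true * w false)
  le : Df L (fun w : Bool → K => v (w true) ≤ v (w false))
  nat : ∀ n : ℕ, n ≠ 0 → v (n : K) = 1

variable {L : FirstOrder.Language.{u, u}} {K : Type u} [L.Structure K] [Field K]
variable {Γ : Type w} [LinearOrderedCommGroupWithZero Γ] {v : Valuation K Γ}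

namespace VF

variable {α : Type} [Finite α]

theorem fadd (hV : VF L v) {f g : (α → K) → K} (hf : DfF L f) (hg : DfF L g) :
    DfF L (fun w => f w + g w) :=
  hV.add.comp (f := fun b => if b then f else g) (by rintro (_ | _) <;> simpa)

theorem fmul (hV : VF L v) {f g : (α → K) → K} (hf : DfF L f) (hg : DfF L g) :
    DfF L (fun w => f w * g w) :=
  hV.mul.comp (f := fun b => if b then f else g) (by rintro (_ | _) <;> simpa)

theorem fsub (hV : VF L v) {f g : (α → K) → K} (hf : DfF L f) (hg : DfF L g) :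
    DfF L (fun w => f w - g w) := by
  have hf' : DfF L (fun w : Option α → K => f (fun i => w (some i))) :=
    hf.comp (fun j => DfF.var (some j))
  have hg' : DfF L (fun w : Option α → K => g (fun i => w (some i))) :=
    hg.comp (fun j => DfF.var (some j))
  have : Df L (fun w : Option α → K => w none + g (fun i => w (some i)) =
      f (fun i => w (some i))) := Df.eq (hV.fadd (DfF.var none) hg') hf'
  exact this.congr fun w => by
    rw [eq_sub_iff_add_eq]

theorem fzero (hV : VF L v) : DfF L (fun _ : α → K => (0 : K)) := by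
  have : Df L (fun w : Option α → K => w none + w none = w none) :=
    Df.eq (hV.fadd (DfF.var none) (DfF.var none)) (DfF.var none)
  exact this.congr fun w => by
    change w none + w none = w none ↔ w none = 0
    exact add_eq_left

theorem vle (hV : VF L v) {f g : (α → K) → K} (hf : DfF L f) (hg : DfF L g) :
    Df L (fun w => v (f w) ≤ v (g w)) :=
  hV.le.comp (f := fun b => if b then f else g) (by rintro (_ | _) <;> simpa)

theorem vlt (hV : VF L v) {f g : (α → K) → K} (hf : DfF L f) (hg : DfF L g) :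
    Df L (fun w => v (f w) < v (g w)) :=
  (hV.vle hg hf).not.congr fun w => not_le

theorem veq (hV : VF L v) {f g : (α → K) → K} (hf : DfF L f) (hg : DfF L g) :
    Df L (fun w => v (f w) = v (g w)) :=
  ((hV.vle hf hg).and (hV.vle hg hf)).congr fun w => by
    exact ⟨fun h => le_antisymm h.1 h.2, fun h => ⟨h.le, h.ge⟩⟩

theorem rveq (hV : VF L v) {f g : (α → K) → K} (hf : DfF L f) (hg : DfF L g) :
    Df L (fun w => RVeq v (f w) (g w)) :=
  ((Df.eq hf hV.fzero).and (Df.eq hg hV.fzero)).or (hV.vlt (hV.fsub hf hg) hf)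

theorem rvl (hV : VF L v) {l f g : (α → K) → K} (hl : DfF L l) (hf : DfF L f) (hg : DfF L g) :
    Df L (fun w => RVl v (l w) (f w) (g w)) := by
  have := ((Df.eq hf hV.fzero).and (Df.eq hg hV.fzero)).or (hV.vlt (hV.fsub hf hg) (hV.fmul hl hf))
  refine this.congr fun w => ?_
  simp only [RVl, map_mul]

end VF

theorem zero_mem_acl (hV : VF L v) {ι : Type} [Finite ι] (a : ι → K) : (0 : K) ∈ acl L a := by
  refine ⟨fun _ x => x = 0, ⟨?_, ?_⟩, rfl⟩
  · exact Df.eq (DfF.var none) hV.fzero
  · exact (Set.finite_singleton (0 : K)).subset fun x hx => hx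

/-- values of definable functions are algebraic -/
theorem fn_mem_acl {ι κ : Type} [Finite ι] [Finite κ] {a : ι → K} {f : (κ → K) → K}
    (hf : DfF L f) {c : κ → K} (hc : ∀ i, c i ∈ acl L a) : f c ∈ acl L a := by
  refine acl_trans hc ⟨fun w x => x = f w, ⟨hf, ?_⟩, rfl⟩
  exact (Set.finite_singleton (f c)).subset fun x hx => hx

theorem sub_mem_acl (hV : VF L v) {ι : Type} [Finite ι] {a : ι → K} {x y : K}
    (hx : x ∈ acl L a) (hy : y ∈ acl L a) : x - y ∈ acl L a := by
  have := fn_mem_acl (a := a) (hV.fsub (DfF.var true) (DfF.var false))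
    (c := fun b => if b then x else y) (by rintro (_ | _) <;> simpa)
  simpa using this

/-- A move: a finite partial elementary map fixing the base `a` and the leading terms of the
elements of `Z`. -/
structure Mv (L : FirstOrder.Language.{u, u}) {K : Type u} [L.Structure K] [Field K]
    {Γ : Type w} [LinearOrderedCommGroupWithZero Γ] (v : Valuation K Γ) {ι : Type} (a : ι → K)
    (Z : Set K) (S : Set (K × K)) : Prop where
  el : El L S
  fin : S.Finite
  fix : ∀ i, (a i, a i) ∈ S
  rig : ∀ z ∈ Z, ∃ z', (z, z') ∈ S ∧ RVeq v z z'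

namespace Mv

variable {ι : Type} {a : ι → K} {Z : Set K} {S T : Set (K × K)}

theorem monoZ (h : Mv L v a Z S) {Z' : Set K} (hZ : Z' ⊆ Z) : Mv L v a Z' S :=
  ⟨h.el, h.fin, h.fix, fun z hz => h.rig z (hZ hz)⟩

theorem rv (h : Mv L v a Z S) {z z' : K} (hz : z ∈ Z) (hzz : (z, z') ∈ S) : RVeq v z z' := by
  obtain ⟨z'', h1, h2⟩ := h.rig z hz
  rw [h.el.functional hzz h1]
  exact h2

theorem el_sub (hV : VF L v) (h : El L S) {x x' y y' z' : K} (hx : (x, x') ∈ S)
    (hy : (y, y') ∈ S) (hz : (x - y, z') ∈ S) : z' = x' - y' := by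
  have h1 := h.fn (fun b : Bool => if b then (x, x') else (y, y'))
    (by rintro (_ | _) <;> simpa) (hV.fsub (DfF.var true) (DfF.var false))
  have h2 : (x - y, x' - y') ∈ insert ((fun w : Bool → K => w true - w false)
      (fun i => ((if i then (x, x') else (y, y') : K × K)).1),
      (fun w : Bool → K => w true - w false)
      (fun i => ((if i then (x, x') else (y, y') : K × K)).2)) S := by
    left
    simp
  exact h1.functional (Set.mem_insert_of_mem _ hz) h2

/-- the leading term of a difference is preserved -/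
theorem rv_sub (hV : VF L v) (h : Mv L v a Z S) {x x' y y' : K} (hx : (x, x') ∈ S)
    (hy : (y, y') ∈ S) (hz : x - y ∈ Z) : RVeq v (x - y) (x' - y') := by
  obtain ⟨z', h1, h2⟩ := h.rig _ hz
  rw [← el_sub hV h.el hx hy h1]
  exact h2

theorem v_sub (hV : VF L v) (h : Mv L v a Z S) {x x' y y' : K} (hx : (x, x') ∈ S)
    (hy : (y, y') ∈ S) (hz : x - y ∈ Z) : v (x' - y') = v (x - y) :=
  (h.rv_sub hV hx hy hz).v_eq

/-- inverse of a move -/
theorem inv (h : Mv L v a Z S) (Z' : Set K) (hZ' : ∀ z' ∈ Z', ∃ z ∈ Z, (z, z') ∈ S) :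
    Mv L v a Z' (Prod.swap '' S) where
  el := h.el.swap
  fin := h.fin.image _
  fix := fun i => ⟨_, h.fix i, rfl⟩
  rig := by
    intro z' hz'
    obtain ⟨z, hz, hzz⟩ := hZ' z' hz'
    exact ⟨z, ⟨_, hzz, rfl⟩, (h.rv hz hzz).symm⟩

/-- composition of moves -/
theorem comp (h : Mv L v a Z S) {Z' : Set K} (h' : Mv L v a Z' T)
    (hZ : ∀ z ∈ Z, ∀ z', (z, z') ∈ S → z' ∈ Z') : Mv L v a Z (El.cmp S T) where
  el := h.el.comp h'.el
  fin := by
    have : El.cmp S T ⊆ (fun p : (K × K) × (K × K) => (p.1.1, p.2.2)) '' (S ×ˢ T) := by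
      rintro ⟨x, y⟩ ⟨b, hb1, hb2⟩
      exact ⟨((x, b), (b, y)), ⟨hb1, hb2⟩, rfl⟩
    exact ((h.fin.prod h'.fin).image _).subset this
  fix := fun i => ⟨a i, h.fix i, h'.fix i⟩
  rig := by
    intro z hz
    obtain ⟨z', h1, h2⟩ := h.rig z hz
    obtain ⟨z'', h3, h4⟩ := h'.rig z' (hZ z hz z' h1)
    exact ⟨z'', ⟨z', h1, h3⟩, h2.trans h4⟩

/-- extension of a move by one point -/
theorem ext (hK : Satur L K) (h : Mv L v a Z S) (c : K) :
    ∃ d, Mv L v a Z (insert (c, d) S) := by
  obtain ⟨d, hd⟩ := h.el.ext hK h.fin c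
  exact ⟨d, hd, h.fin.insert _, fun i => Set.mem_insert_of_mem _ (h.fix i), fun z hz => by
    obtain ⟨z', h1, h2⟩ := h.rig z hz
    exact ⟨z', Set.mem_insert_of_mem _ h1, h2⟩⟩

/-- restriction to a smaller base -/
theorem base {x : K} (h : Mv L v (oc x a) Z S) : Mv L v a Z S :=
  ⟨h.el, h.fin, fun i => h.fix (some i), h.rig⟩

theorem fixx {x : K} (h : Mv L v (oc x a) Z S) : (x, x) ∈ S := h.fix none

/-- a move fixing `x` is a move over the larger base -/
theorem toBase {x : K} (h : Mv L v a Z S) (hx : (x, x) ∈ S) : Mv L v (oc x a) Z S :=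
  ⟨h.el, h.fin, by rintro (_ | i); exacts [hx, h.fix i], h.rig⟩

end Mv

/-- elements together with their differences -/
def dif (X : Set K) : Set K := X ∪ (fun p : K × K => p.1 - p.2) '' (X ×ˢ X)

theorem dif_finite {X : Set K} (hX : X.Finite) : (dif X).Finite :=
  hX.union ((hX.prod hX).image _)

theorem mem_dif {X : Set K} {x : K} (hx : x ∈ X) : x ∈ dif X := Or.inl hx

theorem sub_mem_dif {X : Set K} {x y : K} (hx : x ∈ X) (hy : y ∈ X) : x - y ∈ dif X :=
  Or.inr ⟨(x, y), ⟨hx, hy⟩, rfl⟩

/-- Two moves with the same effect on the base of an algebraic element, both rigid on its orbit,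
have the same effect on the orbit. -/
theorem rig_unique (hV : VF L v) {κ : Type} [Finite κ] {b b' : κ → K}
    {P : (κ → K) → K → Prop}
    (hP : Df L (fun w : Option κ → K => P (fun i => w (some i)) (w none)))
    (hf : {x | P b x}.Finite) {S T : Set (K × K)} {ι : Type} {a : ι → K} {Z Z' : Set K}
    (hS : Mv L v a Z S) (hT : Mv L v a Z' T)
    (hZ : dif {x | P b x} ⊆ Z) (hZ' : dif {x | P b x} ⊆ Z')
    (hSb : ∀ i, (b i, b' i) ∈ S) (hTb : ∀ i, (b i, b' i) ∈ T) {e e1 e2 : K} (he : P b e)
    (h1 : (e, e1) ∈ S) (h2 : (e, e2) ∈ T) : e1 = e2 := by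
  classical
  have hSd : ∀ e, P b e → ∃ e', (e, e') ∈ S := fun e he => by
    obtain ⟨z, hz, _⟩ := hS.rig e (hZ (mem_dif he)); exact ⟨z, hz⟩
  have hTd : ∀ e, P b e → ∃ e', (e, e') ∈ T := fun e he => by
    obtain ⟨z, hz, _⟩ := hT.rig e (hZ' (mem_dif he)); exact ⟨z, hz⟩
  have himg : ∀ {R : Set (K × K)}, El L R → (∀ i, (b i, b' i) ∈ R) → ∀ {e e'}, P b e →
      (e, e') ∈ R → P b' e' := by
    intro R hR hRb e e' he hee
    have := hR (Option κ) (fun o => o.elim (e, e') (fun i => (b i, b' i)))
      (by rintro (_ | i); exacts [hee, hRb i]) _ hP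
    exact this.1 he
  -- the map
  have hex : ∀ x', P b' x' → ∃ x'', ∃ e, P b e ∧ (e, x') ∈ S ∧ (e, x'') ∈ T := by
    intro x' hx'
    obtain ⟨e, he, hee⟩ := orbit_surj hS.el hSb hP hf hSd hx'
    obtain ⟨e'', h''⟩ := hTd e he
    exact ⟨e'', e, he, hee, h''⟩
  let f : K → K := fun x' => if h : P b' x' then (hex x' h).choose else 0
  have hfspec : ∀ x', P b' x' → ∃ e, P b e ∧ (e, x') ∈ S ∧ (e, f x') ∈ T := by
    intro x' hx'
    simp only [f, dif_pos hx']
    exact (hex x' hx').choose_spec
  have hf' : {x | P b' x}.Finite := by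
    have hsub : {x | P b' x} ⊆ (fun p : K × K => p.2) '' S := by
      intro x hx
      obtain ⟨e, he, hee⟩ := orbit_surj hS.el hSb hP hf hSd hx
      exact ⟨_, hee, rfl⟩
    exact (hS.fin.image _).subset hsub
  have key := rigid hV.nat hf' (f := f) (by
    intro x hx
    obtain ⟨e, he, _, h3⟩ := hfspec x hx
    exact himg hT.el hTb he h3) (by
    intro x hx y hy
    obtain ⟨e, he, h3, h4⟩ := hfspec x hx
    obtain ⟨g, hg, h5, h6⟩ := hfspec y hy
    have h7 := hS.rv_sub hV h3 h5 (hZ (sub_mem_dif he hg))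
    have h8 := hT.rv_sub hV h4 h6 (hZ' (sub_mem_dif he hg))
    exact h7.symm.trans h8)
  have he1 : P b' e1 := himg hS.el hSb he h1
  obtain ⟨g, hg, h3, h4⟩ := hfspec e1 he1
  have : g = e := hS.el.injective h3 h1
  subst this
  rw [key e1 he1] at h4
  exact hT.el.functional h4 h2

end Pool.Agent.R611.HM
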