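import Pool.Agent.R611.HM.T9

/-!
# Same type over RV: back and forth
-/

set_option autoImplicit false
set_option linter.unusedSectionVars false

namespace Pool.Agent.R611.HM

open FirstOrder Language Structure Set

universe u w

variable {L : FirstOrder.Language.{u, u}} {K : Type u} [L.Structure K] [Field K]
variable {Γ : Type w} [LinearOrderedCommGroupWithZero Γ] {v : Valuation K Γ}

/-- `a` and `a'` have the same type over `RV`. -/
def RE (L : FirstOrder.Language.{u, u}) {K : Type u} [L.Structure K] [Field K]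
    {Γ : Type w} [LinearOrderedCommGroupWithZero Γ] (v : Valuation K Γ) {ι : Type}
    (a a' : ι → K) : Prop :=
  ∀ (κ : Type) [Finite κ] (P : (ι ⊕ κ → K) → Prop), Df L P → ∀ z : κ → K, P (Sum.elim a z) →
    ∃ z', (∀ k, RVeq v (z k) (z' k)) ∧ P (Sum.elim a' z')

namespace RE

variable {ι : Type} {a a' a'' : ι → K}

theorem refl (a : ι → K) : RE L v a a := fun _ _ _ _ z h => ⟨z, fun _ => RVeq.refl _, h⟩

theorem trans (h : RE L v a a') (h' : RE L v a' a'') : RE L v a a'' := by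
  intro κ _ P hP z hz
  obtain ⟨z1, h1, h2⟩ := h κ P hP z hz
  obtain ⟨z2, h3, h4⟩ := h' κ P hP z1 h2
  exact ⟨z2, fun k => (h1 k).trans (h3 k), h4⟩

theorem symm (hV : VF L v) [Finite ι] (h : RE L v a a') : RE L v a' a := by
  intro κ _ P hP z hz
  by_contra hcon
  push Not at hcon
  let Q : (ι ⊕ κ → K) → Prop := fun q => ∀ z' : κ → K,
    (∀ k, RVeq v (q (Sum.inr k)) (z' k)) → ¬ P (Sum.elim (fun i => q (Sum.inl i)) z')
  have hQ : Df L Q := by
    refine Df.allT (Q := fun z' (q : ι ⊕ κ → K) => (∀ k, RVeq v (q (Sum.inr k)) (z' k)) →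
      ¬ P (Sum.elim (fun i => q (Sum.inl i)) z')) ?_
    refine Df.imp (Df.all_fin fun k => hV.rveq (dvar _) (dvar _)) (Df.not ?_)
    refine (hP.relabel (β := (ι ⊕ κ) ⊕ κ)
      (Sum.elim (fun i => Sum.inl (Sum.inl i)) (fun k => Sum.inr k))).congr fun w => ?_
    apply iff_of_eq
    congr 1
    funext k
    rcases k with k | k <;> rfl
  obtain ⟨z'', h1, h2⟩ := h κ Q hQ z hcon
  exact h2 z (fun k => (h1 k).symm) hz

theorem comp (h : RE L v a a') {κ : Type} (σ : κ → ι) :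
    RE L v (fun k => a (σ k)) (fun k => a' (σ k)) := by
  intro ρ _ P hP z hz
  have hP' : Df L (fun w : ι ⊕ ρ → K => P (Sum.elim (fun k => w (Sum.inl (σ k)))
      (fun r => w (Sum.inr r)))) := by
    refine (hP.relabel (β := ι ⊕ ρ) (Sum.map σ id)).congr fun w => ?_
    apply iff_of_eq
    congr 1
    funext k
    rcases k with k | k <;> rfl
  exact h ρ _ hP' z hz

theorem df (h : RE L v a a') {P : (ι → K) → Prop} (hP : Df L P) (h1 : P a) : P a' := by
  have hP' : Df L (fun w : ι ⊕ Empty → K => P (fun i => w (Sum.inl i))) :=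
    hP.relabel Sum.inl
  obtain ⟨_, _, h2⟩ := h Empty _ hP' Empty.elim h1
  exact h2

theorem dfi (h : RE L v a a') {P : (ι → K) → Prop} (hP : Df L P) : P a ↔ P a' :=
  ⟨h.df hP, fun h1 => by
    by_contra hc
    exact h.df hP.not hc h1⟩

end RE

/-- formula-level saturation -/
theorem sat2 (hK : Satur L K) {ι κ β : Type} [Finite ι] [Finite κ] [Finite β] (a a' : ι → K)
    (z : κ → K) (p : β → K) (Qs : Set ((κ → K) → (β → K) → Prop))
    (hQ : ∀ Q ∈ Qs, Df L (fun w : κ ⊕ β → K => Q (fun i => w (Sum.inl i))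
      (fun i => w (Sum.inr i))))
    (h : ∀ Rs ⊆ Qs, Rs.Finite → ∀ P : (ι ⊕ κ → K) → Prop, Df L P → P (Sum.elim a z) →
      ∃ z', P (Sum.elim a' z') ∧ ∀ Q ∈ Rs, Q z' p) :
    ∃ z', El L (Set.range (fun i => (a i, a' i)) ∪ Set.range (fun k => (z k, z' k))) ∧
      ∀ Q ∈ Qs, Q z' p := by
  classical
  let T1 : Set ((κ ⊕ (ι ⊕ β) → K) → Prop) :=
    {R | ∃ P : (ι ⊕ κ → K) → Prop, Df L P ∧ P (Sum.elim a z) ∧
      R = fun w => P (Sum.elim (fun i => w (Sum.inr (Sum.inl i))) (fun k => w (Sum.inl k)))}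
  let T2 : Set ((κ ⊕ (ι ⊕ β) → K) → Prop) :=
    {R | ∃ Q ∈ Qs, R = fun w => Q (fun i => w (Sum.inl i)) (fun i => w (Sum.inr (Sum.inr i)))}
  obtain ⟨z', hz'⟩ := hK κ (ι ⊕ β) (Sum.elim a' p) (T1 ∪ T2) (by
    rintro R (⟨P, hP, -, rfl⟩ | ⟨Q, hQ', rfl⟩)
    · refine (hP.relabel (β := κ ⊕ (ι ⊕ β))
        (Sum.elim (fun i => Sum.inr (Sum.inl i)) (fun k => Sum.inl k))).congr fun w => ?_
      apply iff_of_eq
      congr 1
      funext k
      rcases k with k | k <;> rfl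
    · exact (hQ Q hQ').relabel (β := κ ⊕ (ι ⊕ β))
        (Sum.elim (fun i => Sum.inl i) (fun i => Sum.inr (Sum.inr i)))) (by
    intro Rs hRs hfin
    have := hfin.to_subtype
    have hch1 : ∀ R : Rs, ∃ P : (ι ⊕ κ → K) → Prop, Df L P ∧ P (Sum.elim a z) ∧
        (R.1 ∈ T1 → R.1 = fun w => P (Sum.elim (fun i => w (Sum.inr (Sum.inl i)))
          (fun k => w (Sum.inl k)))) := by
      intro R
      by_cases hR : R.1 ∈ T1
      · obtain ⟨P, h1, h2, h3⟩ := hR
        exact ⟨P, h1, h2, fun _ => h3⟩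
      · exact ⟨fun _ => True, Df.const _, trivial, fun h' => absurd h' hR⟩
    choose P hP hPt hPe using hch1
    have h1 : ∀ R : ↥(Rs ∩ T2), ∃ Q ∈ Qs, R.1 = fun w => Q (fun i => w (Sum.inl i))
        (fun i => w (Sum.inr (Sum.inr i))) := fun R => R.2.2
    choose q hq hqe using h1
    have : Finite ↥(Rs ∩ T2) := (hfin.subset Set.inter_subset_left).to_subtype
    obtain ⟨z', h2, h3⟩ := h (Set.range q) (by rintro _ ⟨R, rfl⟩; exact hq R)
      (Set.finite_range _) (fun w => ∀ R, P R w) (Df.all_fin hP) hPt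
    refine ⟨z', fun R hR => ?_⟩
    by_cases hR2 : R ∈ T2
    · have e := hqe ⟨R, hR, hR2⟩
      have h4 := h3 _ ⟨⟨R, hR, hR2⟩, rfl⟩
      change R _
      rw [show R = (⟨R, hR, hR2⟩ : ↥(Rs ∩ T2)).1 from rfl, e]
      exact h4
    · have hR1 : R ∈ T1 := (hRs hR).resolve_right hR2
      change R _
      rw [show R = (⟨R, hR⟩ : Rs).1 from rfl, hPe ⟨R, hR⟩ hR1]
      exact h2 ⟨R, hR⟩)
  refine ⟨z', ?_, fun Q hQ' => hz' _ (Or.inr ⟨Q, hQ', rfl⟩)⟩
  have base : ∀ P : (ι ⊕ κ → K) → Prop, Df L P →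
      (P (Sum.elim a z) ↔ P (Sum.elim a' z')) := by
    intro P hP
    have one : ∀ P : (ι ⊕ κ → K) → Prop, Df L P →
        P (Sum.elim a z) → P (Sum.elim a' z') := by
      intro P hP hPt
      exact hz' _ (Or.inl ⟨P, hP, hPt, rfl⟩)
    refine ⟨one P hP, fun h' => ?_⟩
    by_contra hc
    exact one _ hP.not hc h'
  intro γ _ t ht P hP
  have hc : ∀ i, ∃ j : ι ⊕ κ, t i = Sum.elim (fun i => (a i, a' i)) (fun k => (z k, z' k)) j := by
    intro i
    rcases ht i with ⟨j, hj⟩ | ⟨j, hj⟩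
    · exact ⟨Sum.inl j, hj.symm⟩
    · exact ⟨Sum.inr j, hj.symm⟩
  choose σ hσ using hc
  have h4 := base _ (hP.relabel σ)
  have e1 : (fun i => Sum.elim a z (σ i)) = fun i => (t i).1 := by
    funext i
    rw [hσ i]
    rcases σ i with k | k <;> rfl
  have e2 : (fun i => Sum.elim a' z' (σ i)) = fun i => (t i).2 := by
    funext i
    rw [hσ i]
    rcases σ i with k | k <;> rfl
  rw [e1, e2] at h4
  exact h4

/-- a common map -/
theorem RE.exists_map (hK : Satur L K) (hV : VF L v) {ι κ : Type} [Finite ι] [Finite κ]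
    {a a' : ι → K} (h : RE L v a a') (z : κ → K) :
    ∃ z' : κ → K, El L (Set.range (fun i => (a i, a' i)) ∪ Set.range (fun k => (z k, z' k))) ∧
      ∀ k, RVeq v (z k) (z' k) := by
  obtain ⟨z', h1, h2⟩ := sat2 hK a a' z z
    ({(fun (z' p : κ → K) => ∀ k, RVeq v (p k) (z' k))} : Set ((κ → K) → (κ → K) → Prop)) (by
    intro Q hQ
    rw [Set.mem_singleton_iff] at hQ
    rw [hQ]
    exact Df.all_fin fun k => hV.rveq (dvar _) (dvar _)) (by
    intro Rs hRs _ P hP hPt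
    obtain ⟨z', h1, h2⟩ := h κ P hP z hPt
    refine ⟨z', h2, fun Q hQ => ?_⟩
    rw [Set.mem_singleton_iff.1 (hRs hQ)]
    exact h1)
  exact ⟨z', h1, h2 _ rfl⟩

theorem RE.exists_mv (hK : Satur L K) (hV : VF L v) {ι : Type} [Finite ι]
    {a a' : ι → K} (h : RE L v a a') {Z : Set K} (hZ : Z.Finite) :
    ∃ S, Mv L v (Empty.elim : Empty → K) Z S ∧ ∀ i, (a i, a' i) ∈ S := by
  obtain ⟨n, z, rfl⟩ := exists_enum hZ
  obtain ⟨z', h1, h2⟩ := h.exists_map hK hV z
  refine ⟨_, ⟨h1, (Set.finite_range _).union (Set.finite_range _), fun i => i.elim, ?_⟩,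
    fun i => Or.inl ⟨i, rfl⟩⟩
  rintro _ ⟨k, rfl⟩
  exact ⟨z' k, Or.inr ⟨k, rfl⟩, h2 k⟩

end Pool.Agent.R611.HM
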