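import Pool.Agent.R611.HM.X1

/-!
# Same type over RV: back and forth, continued
-/

set_option autoImplicit false
set_option linter.unusedSectionVars false

namespace Pool.Agent.R611.HM

open FirstOrder Language Structure Set

universe u w

variable {L : FirstOrder.Language.{u, u}} {K : Type u} [L.Structure K] [Field K]
variable {Γ : Type w} [LinearOrderedCommGroupWithZero Γ] {v : Valuation K Γ}

/-- the matching predicate -/
def MP (v : Valuation K Γ) {ι : Type} (P : (ι → K) → K → Prop) (k : ℕ) (a a' : ι → K)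
    (y y' : K) : Prop :=
  ∃ t t' : Fin k → K, (∀ e, P a e ↔ ∃ i, t i = e) ∧ (∀ e, P a' e ↔ ∃ i, t' i = e) ∧
    (∀ i j, RVeq v (t i - t j) (t' i - t' j)) ∧ ∀ i, RVeq v (y - t i) (y' - t' i)

theorem MP_df (hV : VF L v) {ι β : Type} [Finite ι] [Finite β] {P : (ι → K) → K → Prop}
    (hP : Df L (fun w : Option ι → K => P (fun i => w (some i)) (w none))) (k : ℕ)
    (A A' : ι → β) (Y Y' : β) :
    Df L (fun w : β → K => MP v P k (fun i => w (A i)) (fun i => w (A' i)) (w Y) (w Y')) := by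
  have hPr : ∀ {γ : Type} [Finite γ] (B : ι → γ), Df L (fun w : Option γ → K =>
      P (fun i => w (some (B i))) (w none)) := by
    intro γ _ B
    refine (hP.relabel (β := Option γ) (fun o => o.map B)).congr fun w => ?_
    exact Iff.rfl
  unfold MP
  refine Df.exT (Q := fun (t : Fin k → K) (w : β → K) => ∃ t' : Fin k → K,
    (∀ e, P (fun i => w (A i)) e ↔ ∃ i, t i = e) ∧
    (∀ e, P (fun i => w (A' i)) e ↔ ∃ i, t' i = e) ∧
    (∀ i j, RVeq v (t i - t j) (t' i - t' j)) ∧ ∀ i, RVeq v (w Y - t i) (w Y' - t' i)) ?_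
  refine Df.exT (Q := fun (t' : Fin k → K) (w : β ⊕ Fin k → K) =>
    (∀ e, P (fun i => w (Sum.inl (A i))) e ↔ ∃ i, w (Sum.inr i) = e) ∧
    (∀ e, P (fun i => w (Sum.inl (A' i))) e ↔ ∃ i, t' i = e) ∧
    (∀ i j, RVeq v (w (Sum.inr i) - w (Sum.inr j)) (t' i - t' j)) ∧
      ∀ i, RVeq v (w (Sum.inl Y) - w (Sum.inr i)) (w (Sum.inl Y') - t' i)) ?_
  refine Df.and ?_ (Df.and ?_ (Df.and ?_ ?_))
  · refine Df.all1 (Q := fun e (w : (β ⊕ Fin k) ⊕ Fin k → K) =>
      P (fun i => w (Sum.inl (Sum.inl (A i)))) e ↔ ∃ i, w (Sum.inl (Sum.inr i)) = e) ?_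
    exact Df.iff (hPr (fun i => Sum.inl (Sum.inl (A i))))
      (Df.ex_fin fun i => Df.eq (dvar _) (dvar _))
  · refine Df.all1 (Q := fun e (w : (β ⊕ Fin k) ⊕ Fin k → K) =>
      P (fun i => w (Sum.inl (Sum.inl (A' i)))) e ↔ ∃ i, w (Sum.inr i) = e) ?_
    exact Df.iff (hPr (fun i => Sum.inl (Sum.inl (A' i))))
      (Df.ex_fin fun i => Df.eq (dvar _) (dvar _))
  · exact Df.all_fin fun i => Df.all_fin fun j => hV.rveq (hV.fsub (dvar _) (dvar _))
      (hV.fsub (dvar _) (dvar _))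
  · exact Df.all_fin fun i => hV.rveq (hV.fsub (dvar _) (dvar _)) (hV.fsub (dvar _) (dvar _))

/-- matching from a move -/
theorem MP_of_mv (hV : VF L v) {ι : Type} [Finite ι] {P : (ι → K) → K → Prop}
    (hP : Df L (fun w : Option ι → K => P (fun i => w (some i)) (w none))) {a a' : ι → K}
    (hf : {x | P a x}.Finite) {κ : Type} {b : κ → K} {Z : Set K} {S : Set (K × K)}
    (hS : Mv L v b Z S)
    (ha : ∀ i, (a i, a' i) ∈ S) (hZ : dif {x | P a x} ⊆ Z) {y y' : K} (hy : (y, y') ∈ S)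
    (hyZ : ∀ c, P a c → y - c ∈ Z) : MP v P hf.toFinset.card a a' y y' := by
  classical
  obtain ⟨t, ht⟩ : ∃ t : Fin hf.toFinset.card → K, ∀ e, P a e ↔ ∃ i, t i = e := by
    refine ⟨fun i => (hf.toFinset.equivFin.symm i : K), fun e => ?_⟩
    constructor
    · intro h
      have h' : e ∈ hf.toFinset := (Set.Finite.mem_toFinset hf).2 h
      exact ⟨hf.toFinset.equivFin ⟨e, h'⟩, by simp⟩
    · rintro ⟨i, rfl⟩
      exact (Set.Finite.mem_toFinset hf).1 (hf.toFinset.equivFin.symm i).2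
  have htP : ∀ i, P a (t i) := fun i => (ht _).2 ⟨i, rfl⟩
  have hd : ∀ e, P a e → ∃ e', (e, e') ∈ S := fun e he => by
    obtain ⟨z, hz, _⟩ := hS.rig e (hZ (mem_dif he)); exact ⟨z, hz⟩
  choose t' ht' using fun i => hd (t i) (htP i)
  refine ⟨t, t', ht, fun e => ⟨fun h => ?_, ?_⟩, fun i j => ?_, fun i => ?_⟩
  · obtain ⟨e0, h1, h2⟩ := orbit_surj hS.el ha hP hf hd h
    obtain ⟨i, rfl⟩ := (ht _).1 h1
    exact ⟨i, hS.el.functional (ht' i) h2⟩
  · rintro ⟨i, rfl⟩
    have := hS.el (Option ι) (fun o => o.elim (t i, t' i) (fun i => (a i, a' i)))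
      (by rintro (_ | i'); exacts [ht' i, ha i']) _ hP
    exact this.1 (htP i)
  · exact hS.rv_sub hV (ht' i) (ht' j) (hZ (sub_mem_dif (htP i) (htP j)))
  · exact hS.rv_sub hV hy (ht' i) (hyZ _ (htP i))

/-- two matched points are close -/
theorem MP_rv (hK : Satur L K) (hV : VF L v) {ι : Type} [Finite ι] {P : (ι → K) → K → Prop}
    (hP : Df L (fun w : Option ι → K => P (fun i => w (some i)) (w none))) {a a' : ι → K}
    (hf : {x | P a x}.Finite) (h : RE L v a a') {k k2 : ℕ} {y y1 y2 : K}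
    (h1 : MP v P k a a' y y1) (h2 : MP v P k2 a a' y y2) {c : K} (hc : P a' c) :
    RVeq v (y1 - c) (y2 - c) := by
  obtain ⟨T, hT, haT⟩ := h.exists_mv hK hV (dif_finite hf)
  obtain ⟨t, t', ht, ht', hr, hy⟩ := h1
  obtain ⟨s, s', hs, hs', hrs, hys⟩ := h2
  obtain ⟨i, rfl⟩ := (ht' c).1 hc
  obtain ⟨j, hj⟩ := (hs' (t' i)).1 hc
  have e1 : (t i, t' i) ∈ T := rig_enum hV hP hf hT (subset_refl _) haT ht ht' hr i
  have e2 : (s j, s' j) ∈ T := rig_enum hV hP hf hT (subset_refl _) haT hs hs' hrs j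
  rw [hj] at e2
  have e3 : t i = s j := hT.el.injective e1 e2
  have h3 := hy i
  have h4 := hys j
  rw [← e3, hj] at h4
  exact h3.symm.trans h4

theorem FD_of_RE {ι : Type} [Finite ι]
    {a a' : ι → K} (hR : RE L v a a') {P : (ι → K) → K → Prop} (hP : P ∈ FD L a) :
    P ∈ FD L a' := by
  obtain ⟨k, hk⟩ := atMost_of_finite hP.2
  have hk' : ¬ ∃ t : Fin (k + 1) → K, Function.Injective t ∧ ∀ i, P a (t i) := hk
  exact ⟨hP.1, finite_of_atMost (X := {x | P a' x}) (hR.df (df_atMost k hP.1) hk')⟩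

/-- existence of matched points -/
theorem exists_matched (hK : Satur L K) (hV : VF L v) {ι κ : Type} [Finite ι] [Finite κ]
    {a a' : ι → K} (h : RE L v a a') (y : K) (z : κ → K) :
    ∃ (y' : K) (z' : κ → K), El L (Set.range (fun i => (a i, a' i)) ∪
      Set.range (fun k => (oc y z k, oc y' z' k))) ∧ (∀ k, RVeq v (z k) (z' k)) ∧
      ∀ P, P ∈ FD L a → ∃ k, MP v P k a a' y y' := by
  classical
  let T2 : Set ((Option κ → K) → (Option (ι ⊕ ι) ⊕ κ → K) → Prop) :=
    {Q | ∃ P, ∃ hP : P ∈ FD L a, Q = fun w p => MP v P hP.2.toFinset.card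
      (fun i => p (Sum.inl (some (Sum.inl i)))) (fun i => p (Sum.inl (some (Sum.inr i))))
      (p (Sum.inl none)) (w none)}
  let Qs : Set ((Option κ → K) → (Option (ι ⊕ ι) ⊕ κ → K) → Prop) :=
    {fun w p => ∀ k, RVeq v (p (Sum.inr k)) (w (some k))} ∪ T2
  obtain ⟨w, h1, h2⟩ := sat2 hK a a' (oc y z) (Sum.elim (oc y (Sum.elim a a')) z) Qs (by
    rintro Q (rfl | ⟨P, hP, rfl⟩)
    · exact Df.all_fin fun k => hV.rveq (dvar _) (dvar _)
    · exact MP_df hV hP.1 _ (β := Option κ ⊕ (Option (ι ⊕ ι) ⊕ κ))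
        (fun i => Sum.inr (Sum.inl (some (Sum.inl i))))
        (fun i => Sum.inr (Sum.inl (some (Sum.inr i)))) (Sum.inr (Sum.inl none))
        (Sum.inl none)) (by
    intro Rs hRs hfin P0 hP0 hP0t
    have := hfin.to_subtype
    have hch : ∀ Q : Rs, ∃ P, ∃ hP : P ∈ FD L a, Q.1 ∈ T2 →
        Q.1 = fun w p => MP v P hP.2.toFinset.card
          (fun i => p (Sum.inl (some (Sum.inl i)))) (fun i => p (Sum.inl (some (Sum.inr i))))
          (p (Sum.inl none)) (w none) := by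
      intro Q
      by_cases hQ : Q.1 ∈ T2
      · obtain ⟨P, hP, e⟩ := hQ
        exact ⟨P, hP, fun _ => e⟩
      · refine ⟨fun _ _ => False, ⟨Df.const _, ?_⟩, fun h' => absurd h' hQ⟩
        convert Set.finite_empty using 1
        ext x
        simp
    choose P hP hPe using hch
    let C : Set K := ⋃ Q : Rs, {x | P Q a x}
    have hC : C.Finite := Set.finite_iUnion fun Q => (hP Q).2
    have hsub : ∀ Q : Rs, {x | P Q a x} ⊆ C := fun Q x hx => Set.mem_iUnion.2 ⟨Q, hx⟩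
    let Z : Set K := dif (C ∪ {y}) ∪ Set.range z
    have hZ : Z.Finite := (dif_finite (hC.union (Set.finite_singleton y))).union
      (Set.finite_range _)
    obtain ⟨S, hS, haS⟩ := h.exists_mv hK hV hZ
    obtain ⟨y', hy', _⟩ := hS.rig y (Or.inl (mem_dif (Or.inr rfl)))
    choose z' hz' hrz using fun k => hS.rig (z k) (Or.inr ⟨k, rfl⟩)
    refine ⟨oc y' z', ?_, fun Q hQ => ?_⟩
    · have := hS.el (ι ⊕ Option κ) (Sum.elim (fun i => (a i, a' i))
        (fun o => (oc y z o, oc y' z' o))) (by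
          rintro (i | _ | k)
          · exact haS i
          · exact hy'
          · exact hz' k) P0 hP0
      have e1 : (fun i => (Sum.elim (fun i => (a i, a' i))
        (fun o => (oc y z o, oc y' z' o)) i).1) = Sum.elim a (oc y z) := by
        funext i; rcases i with i | i <;> rfl
      have e2 : (fun i => (Sum.elim (fun i => (a i, a' i))
        (fun o => (oc y z o, oc y' z' o)) i).2) = Sum.elim a' (oc y' z') := by
        funext i; rcases i with i | i <;> rfl
      rw [e1, e2] at this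
      exact this.1 hP0t
    · rcases hRs hQ with h' | h'
      · rw [Set.mem_singleton_iff] at h'
        rw [h']
        exact hrz
      · rw [show Q = (⟨Q, hQ⟩ : Rs).1 from rfl, hPe ⟨Q, hQ⟩ h']
        refine MP_of_mv hV (hP ⟨Q, hQ⟩).1 (hP ⟨Q, hQ⟩).2 hS haS ?_ hy' ?_
        · rintro x (hx | ⟨⟨p, q⟩, ⟨hp, hq⟩, rfl⟩)
          · exact Or.inl (mem_dif (Or.inl (hsub _ hx)))
          · exact Or.inl (sub_mem_dif (Or.inl (hsub _ hp)) (Or.inl (hsub _ hq)))
        · intro c hc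
          exact Or.inl (sub_mem_dif (Or.inr rfl) (Or.inl (hsub _ hc))))
  refine ⟨w none, fun k => w (some k), ?_, fun k => ?_, fun P hP => ⟨hP.2.toFinset.card, ?_⟩⟩
  · have e : oc (w none) (fun k => w (some k)) = w := by
      funext o
      cases o <;> rfl
    rw [e]
    exact h1
  · exact h2 _ (Or.inl rfl) k
  · exact h2 _ (Or.inr ⟨P, hP, rfl⟩)

/-- Back and forth over `RV`. -/
theorem back_forth (hK : Satur L K) (hV : VF L v)
    (h0 : ∀ (ι : Type) [Finite ι] (a : ι → K) (y y' : K), nr1 L v a y y' →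
      RE L v (oc y a) (oc y' a)) {ι : Type} [Finite ι]
    {a a' : ι → K} (h : RE L v a a') (y : K) : ∃ y', RE L v (oc y a) (oc y' a') := by
  obtain ⟨y', _, hel, _, hM⟩ := exists_matched hK hV h y (Empty.elim : Empty → K)
  refine ⟨y', ?_⟩
  intro κ _ P hP z hz
  obtain ⟨y2, z2, hel2, hrz, hM2⟩ := exists_matched hK hV h y z
  have hP2 : P (Sum.elim (oc y2 a') z2) := by
    have := hel2 (Option ι ⊕ κ) (Sum.elim (fun o => (oc y a o, oc y2 a' o))
      (fun k => (z k, z2 k))) (by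
        rintro ((_ | i) | k)
        · exact Or.inr ⟨none, rfl⟩
        · exact Or.inl ⟨i, rfl⟩
        · exact Or.inr ⟨some k, rfl⟩) P hP
    have e1 : (fun i => (Sum.elim (fun o => (oc y a o, oc y2 a' o))
      (fun k => (z k, z2 k)) i).1) = Sum.elim (oc y a) z := by
      funext i; rcases i with i | i <;> rfl
    have e2 : (fun i => (Sum.elim (fun o => (oc y a o, oc y2 a' o))
      (fun k => (z k, z2 k)) i).2) = Sum.elim (oc y2 a') z2 := by
      funext i; rcases i with i | i <;> rfl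
    rw [e1, e2] at this
    exact this.1 hz
  by_cases hyy : y2 = y'
  · rw [hyy] at hP2
    exact ⟨z2, hrz, hP2⟩
  · have hn : nr1 L v a' y2 y' := by
      rintro c ⟨P', hP', hPc⟩
      have hP'a : P' ∈ FD L a := FD_of_RE (h.symm hV) hP'
      obtain ⟨k1, hk1⟩ := hM P' hP'a
      obtain ⟨k2, hk2⟩ := hM2 P' hP'a
      have h3 := MP_rv hK hV hP'.1 hP'a.2 h hk2 hk1 hPc
      rcases h3 with ⟨h4, h5⟩ | h3
      · exact absurd ((sub_eq_zero.1 h4).trans (sub_eq_zero.1 h5).symm) hyy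
      · have e : y2 - c - (y' - c) = -(y' - y2) := by ring
        rwa [e, Valuation.map_neg] at h3
    obtain ⟨z3, h4, h5⟩ := h0 ι a' y2 y' hn κ P hP z2 hP2
    exact ⟨z3, fun k => (hrz k).trans (h4 k), h5⟩

end Pool.Agent.R611.HM
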