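import Pool.Agent.R611.HM.X2

/-!
# Bisimulation relations and algebraic closure in RV-expansions
-/

set_option autoImplicit false
set_option linter.unusedSectionVars false

namespace Pool.Agent.R611.HM

open FirstOrder Language Structure Set

universe u w

variable {L L' : FirstOrder.Language.{u, u}} {K : Type u} [L.Structure K] [L'.Structure K]
  [Field K]
variable {Γ : Type w} [LinearOrderedCommGroupWithZero Γ] {v : Valuation K Γ}

/-- The functions of `L'` are `L`-definable, and each relation of `L'` is `L`-definable or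
invariant under the equality of leading terms. -/
structure RVX (L L' : FirstOrder.Language.{u, u}) {K : Type u} [L.Structure K] [L'.Structure K]
    [Field K] {Γ : Type w} [LinearOrderedCommGroupWithZero Γ] (v : Valuation K Γ) : Prop where
  func : ∀ (n : ℕ) (f : L'.Functions n), DfF L (fun w : Fin n → K => (funMap f w : K))
  rel : ∀ (n : ℕ) (r : L'.Relations n), Df L (fun w : Fin n → K => RelMap r w) ∨
    ∀ x y : Fin n → K, (∀ i, RVeq v (x i) (y i)) → (RelMap r x ↔ RelMap r y)

theorem term_dff (hX : RVX L L' v) {β : Type} [Finite β] (t : L'.Term β) :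
    DfF L (fun w : β → K => t.realize w) := by
  induction t with
  | var i => exact DfF.var i
  | func f ts ih => exact (hX.func _ f).comp ih

theorem term_dff' {β : Type} [Finite β] (t : L'.Term β) :
    DfF L' (fun w : β → K => t.realize w) := by
  unfold DfF
  rw [df_iff]
  refine ⟨Term.equal (Term.var none) (t.relabel some), fun w => ?_⟩
  rw [Formula.realize_equal, Term.realize_var, Term.realize_relabel]
  rfl

/-- adding the last variable -/
def lsn {α : Type} (n : ℕ) : α ⊕ Fin (n + 1) → Option (α ⊕ Fin n) :=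
  Sum.elim (fun i => some (Sum.inl i)) (Fin.lastCases none (fun j => some (Sum.inr j)))

theorem lsn_real {α : Type} {n : ℕ} (ψ : L'.BoundedFormula α (n + 1)) (w : α ⊕ Fin n → K) (y : K) :
    ψ.Realize (fun i => oc y w (lsn n (Sum.inl i))) (fun i => oc y w (lsn n (Sum.inr i))) ↔
      ψ.Realize (fun i => w (Sum.inl i)) (Fin.snoc (fun i => w (Sum.inr i)) y : Fin (n + 1) → K) := by
  apply iff_of_eq
  congr 1
  funext i
  refine Fin.lastCases ?_ (fun j => ?_) i
  · simp [lsn, oc]
  · simp [lsn, oc]

theorem bisim (hV : VF L v) (hV' : VF L' v) (hX : RVX L L' v)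
    (hLL : ∀ {α : Type} {P : (α → K) → Prop}, Df L P → Df L' P)
    (hbf : ∀ (ι : Type) [Finite ι] (a a' : ι → K), RE L' v a a' → ∀ y, ∃ y',
      RE L' v (oc y a) (oc y' a')) {α : Type} [Finite α] {n : ℕ}
    (ψ : L'.BoundedFormula α n) :
    ∃ E : (α ⊕ Fin n → K) → (α ⊕ Fin n → K) → Prop,
      Df L (fun w : (α ⊕ Fin n) ⊕ (α ⊕ Fin n) → K => E (fun i => w (Sum.inl i))
        (fun i => w (Sum.inr i))) ∧
      (∀ w w', E w w' → (ψ.Realize (fun i => w (Sum.inl i)) (fun i => w (Sum.inr i)) ↔
        ψ.Realize (fun i => w' (Sum.inl i)) (fun i => w' (Sum.inr i)))) ∧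
      ∀ w w', RE L' v w w' → E w w' := by
  have hel : ∀ {β : Type} (w : β ⊕ Fin n → K), Sum.elim (fun i => w (Sum.inl i))
      (fun i => w (Sum.inr i)) = w := fun w => by
    funext i; rcases i with i | i <;> rfl
  induction ψ with
  | falsum => exact ⟨fun _ _ => True, Df.const _, fun _ _ _ => Iff.rfl, fun _ _ _ => trivial⟩
  | @equal n t1 t2 =>
    have hel : ∀ (w : α ⊕ Fin n → K), Sum.elim (fun i => w (Sum.inl i))
      (fun i => w (Sum.inr i)) = w := fun w => by
      funext i; rcases i with i | i <;> rfl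
    have hd : Df L (fun w : α ⊕ Fin n → K => t1.realize w = t2.realize w) :=
      Df.eq (term_dff hX t1) (term_dff hX t2)
    refine ⟨fun w w' => (t1.realize w = t2.realize w ↔ t1.realize w' = t2.realize w'),
      (hd.relabel Sum.inl).iff (hd.relabel Sum.inr), fun w w' h => ?_, fun w w' h => ?_⟩
    · change t1.realize (Sum.elim _ _) = t2.realize (Sum.elim _ _) ↔
        t1.realize (Sum.elim _ _) = t2.realize (Sum.elim _ _)
      rw [hel, hel]
      exact h
    · exact h.dfi (hLL hd)
  | @rel n l r ts =>
    have hel : ∀ (w : α ⊕ Fin n → K), Sum.elim (fun i => w (Sum.inl i))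
      (fun i => w (Sum.inr i)) = w := fun w => by
      funext i; rcases i with i | i <;> rfl
    rcases hX.rel _ r with hr | hr
    · have hd : Df L (fun w : α ⊕ Fin n → K => RelMap r (fun i => (ts i).realize w)) :=
        hr.comp (fun i => term_dff hX (ts i))
      refine ⟨fun w w' => (RelMap r (fun i => (ts i).realize w) ↔
        RelMap r (fun i => (ts i).realize w')),
        (hd.relabel Sum.inl).iff (hd.relabel Sum.inr), fun w w' h => ?_, fun w w' h => ?_⟩
      · change RelMap r (fun i => (ts i).realize (Sum.elim _ _)) ↔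
          RelMap r (fun i => (ts i).realize (Sum.elim _ _))
        rw [hel, hel]
        exact h
      · exact h.dfi (hLL hd)
    · refine ⟨fun w w' => ∀ i, RVeq v ((ts i).realize w) ((ts i).realize w'), ?_,
        fun w w' h => ?_, fun w w' h => ?_⟩
      · refine Df.all_fin fun i => hV.rveq ?_ ?_
        · exact (term_dff hX (ts i)).comp (fun j => DfF.var (Sum.inl j))
        · exact (term_dff hX (ts i)).comp (fun j => DfF.var (Sum.inr j))
      · change RelMap r (fun i => (ts i).realize (Sum.elim _ _)) ↔
          RelMap r (fun i => (ts i).realize (Sum.elim _ _))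
        rw [hel, hel]
        exact hr _ _ h
      · intro i
        have hP : Df L' (fun q : (α ⊕ Fin n) ⊕ Unit → K =>
            q (Sum.inr ()) = (ts i).realize (fun j => q (Sum.inl j))) :=
          Df.eq (DfF.var _) ((term_dff' (ts i)).comp (fun j => DfF.var (Sum.inl j)))
        obtain ⟨z', h1, h2⟩ := h Unit _ hP (fun _ => (ts i).realize w) rfl
        have h3 := h1 ()
        have h4 : z' () = (ts i).realize w' := h2
        rwa [h4] at h3
  | imp f1 f2 ih1 ih2 =>
    obtain ⟨E1, h1, h2, h3⟩ := ih1 hel
    obtain ⟨E2, h4, h5, h6⟩ := ih2 hel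
    refine ⟨fun w w' => E1 w w' ∧ E2 w w', h1.and h4, fun w w' h => ?_, fun w w' h =>
      ⟨h3 w w' h, h6 w w' h⟩⟩
    rw [BoundedFormula.realize_imp, BoundedFormula.realize_imp, h2 w w' h.1, h5 w w' h.2]
  | @all n f ih =>
    obtain ⟨E, h1, h2, h3⟩ := ih (fun w => by funext i; rcases i with i | i <;> rfl)
    have hd : Df L (fun q : Option (Option ((α ⊕ Fin n) ⊕ (α ⊕ Fin n))) → K =>
        E (fun i => oc (q (some none)) (fun i => q (some (some (Sum.inl i)))) (lsn n i))
          (fun i => oc (q none) (fun i => q (some (some (Sum.inr i)))) (lsn n i))) := by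
      refine (h1.relabel (β := Option (Option ((α ⊕ Fin n) ⊕ (α ⊕ Fin n))))
        (Sum.elim (fun i => (lsn n i).elim (some none) (fun i => some (some (Sum.inl i))))
          (fun i => (lsn n i).elim none (fun i => some (some (Sum.inr i)))))).congr fun w => ?_
      apply iff_of_eq
      congr 1
      · funext i
        simp only [Sum.elim_inl]
        cases lsn n i <;> rfl
      · funext i
        simp only [Sum.elim_inr]
        cases lsn n i <;> rfl
    refine ⟨fun w w' => (∀ y, ∃ y', E (fun i => oc y w (lsn n i)) (fun i => oc y' w' (lsn n i))) ∧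
      ∀ y', ∃ y, E (fun i => oc y w (lsn n i)) (fun i => oc y' w' (lsn n i)), ?_,
      fun w w' h => ?_, fun w w' h => ⟨fun y => ?_, fun y' => ?_⟩⟩
    · refine Df.and ?_ ?_
      · refine Df.all1 (Q := fun y (w : (α ⊕ Fin n) ⊕ (α ⊕ Fin n) → K) => ∃ y',
          E (fun i => oc y (fun i => w (Sum.inl i)) (lsn n i))
            (fun i => oc y' (fun i => w (Sum.inr i)) (lsn n i))) ?_
        exact Df.ex1 (Q := fun y' (w : Option ((α ⊕ Fin n) ⊕ (α ⊕ Fin n)) → K) =>
          E (fun i => oc (w none) (fun i => w (some (Sum.inl i))) (lsn n i))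
            (fun i => oc y' (fun i => w (some (Sum.inr i))) (lsn n i))) hd
      · refine Df.all1 (Q := fun y' (w : (α ⊕ Fin n) ⊕ (α ⊕ Fin n) → K) => ∃ y,
          E (fun i => oc y (fun i => w (Sum.inl i)) (lsn n i))
            (fun i => oc y' (fun i => w (Sum.inr i)) (lsn n i))) ?_
        refine Df.ex1 (Q := fun y (w : Option ((α ⊕ Fin n) ⊕ (α ⊕ Fin n)) → K) =>
          E (fun i => oc y (fun i => w (some (Sum.inl i))) (lsn n i))
            (fun i => oc (w none) (fun i => w (some (Sum.inr i))) (lsn n i))) ?_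
        refine (hd.relabel (β := Option (Option ((α ⊕ Fin n) ⊕ (α ⊕ Fin n))))
          (fun o => o.elim (some none) (fun o => o.elim none (fun i => some (some i))))).congr
          fun w => ?_
        exact Iff.rfl
    · rw [BoundedFormula.realize_all, BoundedFormula.realize_all]
      constructor
      · intro hw y'
        obtain ⟨y, hy⟩ := h.2 y'
        have := h2 _ _ hy
        rw [lsn_real, lsn_real] at this
        exact this.1 (hw y)
      · intro hw y
        obtain ⟨y', hy⟩ := h.1 y
        have := h2 _ _ hy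
        rw [lsn_real, lsn_real] at this
        exact this.2 (hw y')
    · obtain ⟨y', hy'⟩ := hbf _ w w' h y
      exact ⟨y', h3 _ _ (hy'.comp (lsn n))⟩
    · obtain ⟨y, hy⟩ := hbf _ w' w (h.symm hV') y'
      exact ⟨y, h3 _ _ ((hy.symm hV').comp (lsn n))⟩

/-- Algebraic closure does not grow in RV-expansions whose theory is 0-h-minimal. -/
theorem acl_le (hK : Satur L' K) (hV : VF L v) (hV' : VF L' v) (hX : RVX L L' v)
    (hLL : ∀ {α : Type} {P : (α → K) → Prop}, Df L P → Df L' P)
    (h0 : ∀ (ι : Type) [Finite ι] (a : ι → K) (y y' : K), nr1 L' v a y y' →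
      RE L' v (oc y a) (oc y' a)) (hnt : ∃ t : K, t ≠ 0 ∧ v t < 1)
    {ι : Type} [Finite ι] (a : ι → K) : acl L' a ⊆ acl L a := by
  classical
  rintro b ⟨P, hP, hPb⟩
  obtain ⟨m, hm⟩ := atMost_of_finite hP.2
  obtain ⟨φ, hφ⟩ := df_iff.1 hP.1
  obtain ⟨E, hE, h1, h2⟩ := bisim hV hV' hX hLL (fun ι _ a a' h y =>
    back_forth hK hV' h0 h y) φ
  let τ : Option ι ⊕ Fin 0 → Option ι := Sum.elim id (fun i => i.elim0)
  have hφ2 : ∀ w : Option ι → K, φ.Realize w ↔ BoundedFormula.Realize φ
      (fun i => w (τ (Sum.inl i))) (fun i => w (τ (Sum.inr i))) := by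
    intro w
    unfold Formula.Realize
    apply iff_of_eq
    refine congrArg _ ?_
    funext i
    exact i.elim0
  let G : (Option ι → K) → K → Prop := fun w t =>
    E (fun i => w (τ i)) (fun i => oc t (fun i => w (some i)) (τ i))
  have hG : Df L (fun w : Option (Option ι) → K => G (fun i => w (some i)) (w none)) := by
    refine (hE.relabel (β := Option (Option ι)) (Sum.elim (fun i => some (τ i))
      (fun i => (τ i).elim none (fun i => some (some i))))).congr fun w => ?_
    apply iff_of_eq
    change E _ _ = E _ _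
    refine congrArg₂ E rfl ?_
    funext i
    simp only [Sum.elim_inr]
    cases τ i <;> rfl
  have hD := df_atMost m hG
  by_contra hb
  have hinf : {x | ¬ ∃ t : Fin (m + 1) → K, Function.Injective t ∧ ∀ i, G (oc x a) (t i)}.Infinite := by
    intro hfin
    refine hb ⟨fun a x => ¬ ∃ t : Fin (m + 1) → K, Function.Injective t ∧ ∀ i, G (oc x a) (t i),
      ⟨hD.congr fun w => ?_, hfin⟩, ?_⟩
    · have : oc (w none) (fun i => w (some i)) = w := by
        funext o
        cases o <;> rfl
      beta_reduce
      rw [this]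
    · rintro ⟨t, ht, htG⟩
      refine hm ⟨t, ht, fun i => ?_⟩
      have h3 := h1 _ _ (htG i)
      rw [← hφ2, ← hφ2] at h3
      change φ.Realize (oc b a) ↔ φ.Realize (oc (t i) a) at h3
      rw [← hφ, ← hφ] at h3
      exact h3.1 hPb
  obtain ⟨y, hy1, hy2⟩ := sat_acl' (L := L') hK (α := Unit) (β := ι) a a
    (fun u' p => ¬ ∃ t : Fin (m + 1) → K, Function.Injective t ∧ ∀ i, G (oc (u' ()) p) (t i))
    (by
      refine ((hLL hD).relabel (β := Unit ⊕ ι) (fun o => o.elim (Sum.inl ()) Sum.inr)).congr
        fun w => ?_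
      have : oc (w (Sum.inl ())) (fun i => w (Sum.inr i)) =
          fun o : Option ι => w (o.elim (Sum.inl ()) Sum.inr) := by
        funext o
        cases o <;> rfl
      rw [this])
    (fun c u' _ => c ≠ u' ())
    ((Df.eq (DfF.var _) (DfF.var _)).not)
    (by
      intro C hC _
      obtain ⟨x, hx, hxC⟩ := (hinf.sdiff hC).nonempty
      exact ⟨fun _ => x, hx, fun c hc h => hxC (by
        have h' : c = x := h
        rw [← h']
        exact hc)⟩)
  have hya : y () ∉ acl L' a := fun h => hy2 _ h rfl
  obtain ⟨x', hx', hn⟩ := exists_small1 hK hV' a hnt hya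
  have hnat : ∀ n : ℕ, v (n : K) ≤ 1 := by
    intro n
    rcases Nat.eq_zero_or_pos n with h | h
    · rw [h]; simp
    · rw [hV.nat n h.ne']
  refine hy1 ⟨fun i => y () + (i.1 : K) * (x' - y ()), ?_, fun i => ?_⟩
  · intro i j hij
    have h3 : ((i.1 : K) - j.1) * (x' - y ()) = 0 := by
      have : (i.1 : K) * (x' - y ()) = (j.1 : K) * (x' - y ()) := by
        simpa using hij
      rw [sub_mul, this, sub_self]
    have h4 : (i.1 : K) = j.1 := by
      rcases mul_eq_zero.1 h3 with h | h
      · exact sub_eq_zero.1 h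
      · exact absurd (sub_eq_zero.1 h) hx'
    have key : ∀ p q : ℕ, p < q → (p : K) = q → False := by
      intro p q hpq he
      have h5 := hV.nat (q - p) (by omega)
      rw [Nat.cast_sub hpq.le, he, sub_self, map_zero] at h5
      exact zero_ne_one h5
    apply Fin.ext
    rcases lt_trichotomy i.1 j.1 with h | h | h
    · exact (key _ _ h h4).elim
    · exact h
    · exact (key _ _ h h4.symm).elim
  · have h3 : nr1 L' v a (y ()) (y () + (i.1 : K) * (x' - y ())) := by
      refine hn.of_le ?_
      have e : y () + (i.1 : K) * (x' - y ()) - y () = (i.1 : K) * (x' - y ()) := by ring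
      rw [e, map_mul]
      exact mul_le_of_le_one_left' (hnat _)
    exact h2 _ _ ((h0 ι a _ _ h3).comp τ)

end Pool.Agent.R611.HM
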