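import Pool.Agent.R611.HM.X3
import Pool.Agent.R611.HM.T10

/-!
# Transfer of the condition from a large model in a larger language to a small model
-/

set_option autoImplicit false
set_option linter.unusedSectionVars false

namespace Pool.Agent.R611.HM

open FirstOrder Language Structure Set

universe u w

section

variable {L : FirstOrder.Language.{u, u}} {K : Type u} [L.Structure K] [Field K]
  {O : ValuationSubring K}

/-- 0-h-minimality at the level of types -/
theorem RE_of_nr1 {sy : ValSymbols L} (hv : IsValued sy O) (hm : HMinAt O L 0) {ι : Type}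
    [Finite ι] (a : ι → K) (y y' : K) (h : nr1 L O.valuation a y y') :
    RE L O.valuation (oc y a) (oc y' a) := by
  classical
  have hV := hv.vf
  intro κ _ P hP z hz
  obtain ⟨k, ⟨e⟩⟩ := Finite.exists_equiv_fin κ
  let Yp : (Option (Fin k ⊕ Fin 0) ⊕ ι → K) → Prop := fun q =>
    ∃ s : κ → K, (∀ i, RVeq O.valuation (q (Sum.inl (some (Sum.inl (e i))))) (s i)) ∧
      P (Sum.elim (oc (q (Sum.inl none)) (fun i => q (Sum.inr i))) s)
  have hYp : Df L Yp := by
    refine Df.exT (Q := fun (s : κ → K) (q : Option (Fin k ⊕ Fin 0) ⊕ ι → K) =>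
      (∀ i, RVeq O.valuation (q (Sum.inl (some (Sum.inl (e i))))) (s i)) ∧
      P (Sum.elim (oc (q (Sum.inl none)) (fun i => q (Sum.inr i))) s)) ?_
    refine Df.and (Df.all_fin fun i => hV.rveq (dvar _) (dvar _)) ?_
    refine (hP.relabel (β := (Option (Fin k ⊕ Fin 0) ⊕ ι) ⊕ κ)
      (Sum.elim (fun o => o.elim (Sum.inl (Sum.inl none)) (fun i => Sum.inl (Sum.inr i)))
        (fun i => Sum.inr i))).congr fun w => ?_
    apply iff_of_eq
    congr 1
    funext i
    rcases i with (_ | i) | i <;> rfl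
  let z0 : Fin k → K := fun i => z (e.symm i)
  let X : Set K := {x1 | Yp (Sum.elim (fun o => o.elim x1
      (Sum.elim z0 (fun i : Fin 0 => i.elim0))) a)}
  have hXdef : DefinableOver O L 1 (Set.range a) ∅ X := by
    refine ⟨k, 0, fun j => rv O 1 (z0 j), fun i => i.elim0, {w | Yp (Sum.elim w a)},
      fun i => i.elim0, hYp.params a (fun i => ⟨i, rfl⟩), fun z1 w1 hz1 _ => ?_⟩
    ext x1
    constructor
    · rintro ⟨s, h2, h3⟩
      refine ⟨s, fun i => ?_, h3⟩
      have h4 : RVeq O.valuation (z0 (e i)) (s i) := h2 i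
      exact ((rv_one_iff _ _).1 (hz1 (e i))).trans h4
    · rintro ⟨s, h2, h3⟩
      refine ⟨s, fun i => ?_, h3⟩
      have h4 : RVeq O.valuation (z1 (e i)) (s i) := h2 i
      exact ((rv_one_iff _ _).1 (hz1 (e i))).symm.trans h4
  obtain ⟨C, hC, hCdef, hCp⟩ := hm 1 one_ne_zero le_rfl (Set.range a) ∅ Set.finite_empty
    (by simp) X hXdef
  have hCacl := acl_of_definable hC hCdef
  have hyX : y ∈ X := by
    refine ⟨z, fun i => ?_, hz⟩
    change RVeq O.valuation (z (e.symm (e i))) (z i)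
    rw [e.symm_apply_apply]
    exact RVeq.refl _
  have hy'X : y' ∈ X := by
    refine (hCp y y' fun c hc => ?_).1 hyX
    rw [rv_one_iff]
    right
    have e : y - c - (y' - c) = -(y' - y) := by ring
    rw [e, Valuation.map_neg]
    exact h c (hCacl hc)
  obtain ⟨s, h2, h3⟩ := hy'X
  refine ⟨s, fun i => ?_, h3⟩
  have h4 : RVeq O.valuation (z (e.symm (e i))) (s i) := h2 i
  rwa [e.symm_apply_apply] at h4

end

section

variable {L L' : FirstOrder.Language.{u, u}} {K N : Type u} [L.Structure K] [L.Structure N]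
  [L'.Structure N] [Field K] [Field N] {O : ValuationSubring K} {O' : ValuationSubring N}
  {sy : ValSymbols L} (j : K ↪ₑ[L] N) (hO : IsValued sy O) (hO' : IsValued sy O')

include j hO hO'

theorem hminAt_transfer
    (hLL : ∀ {α : Type} {P : (α → N) → Prop}, Df L P → Df L' P)
    (hacl : ∀ (ι : Type) [Finite ι] (a : ι → N), acl L' a ⊆ acl L a) {s : ℕ∞}
    (h : HMinAt O' L' s) : HMinAt O L s := by
  classical
  have hV' := hO'.vf
  intro lam hlam0 hlam1 A A' hA' hAs X hXdef
  obtain ⟨l, rfl⟩ := O.valuation_surjective lam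
  have hl0 : l ≠ 0 := (Valuation.ne_zero_iff _).1 hlam0
  have hjl0 : j l ≠ 0 := fun h => hl0 (j.injective (h.trans (j_zero j hO hO').symm))
  have hjl1 : O'.valuation (j l) ≤ 1 := by
    rw [O'.valuation_le_one_iff, j_mem j hO hO', ← O.valuation_le_one_iff]
    exact hlam1
  obtain ⟨k, n, ξ, ζ, Y, hζ, hY, hX⟩ := hXdef
  choose z hz using fun i => Quot.exists_rep (ξ i)
  let w : Fin n → K := fun i => Quot.out (ζ i)
  have hw : ∀ i, Quot.mk _ (w i) = ζ i := fun i => Quot.out_eq _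
  obtain ⟨p, a, φ, ha, hφ⟩ := df_of_definable hY
  have hXm : ∀ (z1 : Fin k → K) (w1 : Fin n → K), (∀ i, RVeq O.valuation (z i) (z1 i)) →
      (∀ i, RVl O.valuation l (w i) (w1 i)) → ∀ x, x ∈ X ↔
        φ.Realize (Sum.elim a (fun o : Option (Fin k ⊕ Fin n) => o.elim x (Sum.elim z1 w1))) := by
    intro z1 w1 hz1 hw1 x
    rw [← hφ, hX z1 w1 (fun i => ?_) (fun i => ?_)]
    · rfl
    · rw [← hz i]
      exact ((rv_one_iff _ _).2 (hz1 i)).symm
    · rw [← hw i]
      exact ((rv_eq_iff hl0 hlam1 _ _).2 (hw1 i)).symm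
  let q0 : Fin p ⊕ (Unit ⊕ (Fin k ⊕ Fin n)) → K :=
    Sum.elim a (Sum.elim (fun _ => l) (Sum.elim z w))
  let F : N → (Fin p → N) → (Fin k ⊕ Fin n → N) → Prop := fun y a zw =>
    φ.Realize (Sum.elim a (fun o : Option (Fin k ⊕ Fin n) => o.elim y zw))
  have hF : ∀ {β : Type} [Finite β] (i0 : β) (ia : Fin p → β) (iz : Fin k ⊕ Fin n → β),
      Df L (fun q : β → N => F (q i0) (fun i => q (ia i)) (fun i => q (iz i))) := by
    intro β _ i0 ia iz
    rw [df_iff]
    refine ⟨φ.relabel (Sum.elim ia (fun o => o.elim i0 iz)), fun q => ?_⟩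
    rw [Formula.realize_relabel]
    apply iff_of_eq
    refine congrArg (Formula.Realize _) ?_
    funext i
    rcases i with i | _ | i <;> rfl
  have hFj : ∀ (y : K) (z1 : Fin k → K) (w1 : Fin n → K), F (j y) (j ∘ a)
      (Sum.elim (j ∘ z1) (j ∘ w1)) ↔
      φ.Realize (Sum.elim a (fun o : Option (Fin k ⊕ Fin n) => o.elim y (Sum.elim z1 w1))) := by
    intro y z1 w1
    rw [← j.map_formula]
    apply iff_of_eq
    refine congrArg (Formula.Realize _) ?_
    funext i
    rcases i with i | _ | i | i <;> rfl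
  -- invariance in `N`
  let I : ((Fin p ⊕ (Unit ⊕ (Fin k ⊕ Fin n))) ⊕ (Unit ⊕ (Fin k ⊕ Fin n)) → N) → Prop := fun q =>
    (∀ i : Fin k, RVeq O'.valuation (q (Sum.inl (Sum.inr (Sum.inr (Sum.inl i)))))
      (q (Sum.inr (Sum.inr (Sum.inl i))))) →
    (∀ i : Fin n, RVl O'.valuation (q (Sum.inl (Sum.inr (Sum.inl ()))))
      (q (Sum.inl (Sum.inr (Sum.inr (Sum.inr i))))) (q (Sum.inr (Sum.inr (Sum.inr i))))) →
    (F (q (Sum.inr (Sum.inl ()))) (fun i => q (Sum.inl (Sum.inl i)))
      (fun i => q (Sum.inr (Sum.inr i))) ↔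
     F (q (Sum.inr (Sum.inl ()))) (fun i => q (Sum.inl (Sum.inl i)))
      (fun i => q (Sum.inl (Sum.inr (Sum.inr i)))))
  have hI : Df L I := Df.imp (Df.all_fin fun i => hV'.rveq (dvar _) (dvar _))
    (Df.imp (Df.all_fin fun i => hV'.rvl (dvar _) (dvar _) (dvar _))
      (Df.iff (hF _ _ _) (hF _ _ _)))
  have hinv : ∀ (y' : N) (z2 : Fin k → N) (w2 : Fin n → N),
      (∀ i, RVeq O'.valuation (j (z i)) (z2 i)) → (∀ i, RVl O'.valuation (j l) (j (w i)) (w2 i)) →
      (F y' (j ∘ a) (Sum.elim z2 w2) ↔ F y' (j ∘ a) (Sum.elim (j ∘ z) (j ∘ w))) := by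
    intro y' z2 w2 hz2r hw2r
    have h6 := all_transfer j hI q0 (fun s => by
      intro h7 h8
      have h7' : ∀ i, RVeq O.valuation (z i) (s (Sum.inr (Sum.inl i))) := fun i =>
        (j_rveq j hO hO' _ _).1 (h7 i)
      have h8' : ∀ i, RVl O.valuation l (w i) (s (Sum.inr (Sum.inr i))) := fun i =>
        (j_rvl j hO hO' _ _ _).1 (h8 i)
      have h9 := hXm _ _ h7' h8' (s (Sum.inl ()))
      have h10 := hXm z w (fun i => RVeq.refl _) (fun i => RVl.refl hl0 _) (s (Sum.inl ()))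
      rw [← hFj] at h9 h10
      refine Iff.trans (iff_of_eq ?_) (h9.symm.trans (h10.trans (iff_of_eq ?_)))
      · refine congrArg (F _ _) ?_
        funext i
        rcases i with i | i <;> rfl
      · refine congrArg (F _ _) ?_
        funext i
        rcases i with i | i <;> rfl)
      (Sum.elim (fun _ => y') (Sum.elim z2 w2)) hz2r hw2r
    refine Iff.trans (iff_of_eq ?_) (h6.trans (iff_of_eq ?_))
    · refine congrArg (F y' (j ∘ a)) ?_
      funext i
      rcases i with i | i <;> rfl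
    · refine congrArg (F y' (j ∘ a)) ?_
      funext i
      rcases i with i | i <;> rfl
  -- the set in `N`
  let X' : Set N := {y | F y (j ∘ a) (Sum.elim (j ∘ z) (j ∘ w))}
  let A2 : Set (RV O' (O'.valuation (j l))) :=
    (fun x => rv O' (O'.valuation (j l)) (j (Quot.out x))) '' A'
  have hXdef' : DefinableOver O' L' (O'.valuation (j l)) (Set.range (j ∘ a)) A2 X' := by
    refine ⟨k, n, fun i => rv O' 1 (j (z i)), fun i => rv O' _ (j (w i)),
      {q | F (q none) (j ∘ a) (fun i => q (some i))}, fun i => ⟨ζ i, hζ i, rfl⟩, ?_, ?_⟩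
    · have h1 : Df L' (fun q : Option (Fin k ⊕ Fin n) ⊕ Fin p → N =>
          F (q (Sum.inl none)) (fun i => q (Sum.inr i)) (fun i => q (Sum.inl (some i)))) :=
        hLL (hF (β := Option (Fin k ⊕ Fin n) ⊕ Fin p) (Sum.inl none) Sum.inr
          (fun i => Sum.inl (some i)))
      exact h1.params (j ∘ a) (fun i => ⟨i, rfl⟩)
    · intro z2 w2 hz2 hw2
      ext y'
      have := hinv y' z2 w2 (fun i => ((rv_one_iff _ _).1 (hz2 i)).symm)
        (fun i => ((rv_eq_iff hjl0 hjl1 _ _).1 (hw2 i)).symm' hjl1)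
      exact this.symm
  obtain ⟨C', hC', hCdef', hCp'⟩ := h _ ((Valuation.ne_zero_iff _).2 hjl0) hjl1
    (Set.range (j ∘ a)) A2 (hA'.image _) ((Set.encard_image_le _ _).trans hAs) X' hXdef'
  have hCacl : C' ⊆ acl L (j ∘ a) := (acl_of_definable hC' hCdef').trans (hacl _ _)
  have hCf' := hC'.to_subtype
  choose P hP hPc using fun c : C' => hCacl c.2
  choose ψ hψ using fun c : C' => df_iff.1 (hP c).1
  let C : Set K := ⋃ c : C', {x | P c (j ∘ a) (j x)}
  have hCf : C.Finite := Set.finite_iUnion fun c => (hP c).2.preimage j.injective.injOn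
  have hCm : ∀ x, x ∈ C ↔ ∃ c : C', (ψ c).Realize (fun o : Option (Fin p) => o.elim x a) := by
    intro x
    simp only [C, Set.mem_iUnion, Set.mem_ofPred_eq]
    refine exists_congr fun c => ?_
    rw [← j.map_formula, ← hψ c]
    rfl
  have hCd : A.Definable₁ L C := by
    have hD : Df L (fun q : Fin 1 ⊕ Fin p → K => ∃ c : C', (ψ c).Realize
        (fun o : Option (Fin p) => o.elim (q (Sum.inl 0)) (fun i => q (Sum.inr i)))) := by
      refine Df.ex_fin fun c => ?_
      rw [df_iff]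
      refine ⟨(ψ c).relabel (fun o => o.elim (Sum.inl 0) Sum.inr), fun q => ?_⟩
      rw [Formula.realize_relabel]
      apply iff_of_eq
      refine congrArg (Formula.Realize _) ?_
      funext i
      rcases i with _ | i <;> rfl
    have h2 := hD.params a ha
    unfold Set.Definable₁
    convert h2 using 1
    ext x
    exact hCm (x 0)
  refine ⟨C, hCf, hCd, fun x x' hxx => ?_⟩
  have hxx' : ∀ c ∈ C, RVl O.valuation l (x - c) (x' - c) := fun c hc =>
    (rv_eq_iff hl0 hlam1 _ _).1 (hxx c hc)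
  have hmem : ∀ x, j x ∈ X' ↔ x ∈ X := by
    intro x
    change F _ _ _ ↔ _
    rw [hFj]
    exact (hXm z w (fun i => RVeq.refl _) (fun i => RVl.refl hl0 _) x).symm
  rw [← hmem, ← hmem]
  refine hCp' _ _ fun c hc => ?_
  rw [rv_eq_iff hjl0 hjl1]
  -- transfer
  let G : ((Fin p ⊕ (Unit ⊕ Bool)) ⊕ Unit → N) → Prop := fun q =>
    P ⟨c, hc⟩ (fun i => q (Sum.inl (Sum.inl i))) (q (Sum.inr ())) →
      RVl O'.valuation (q (Sum.inl (Sum.inr (Sum.inl ()))))
        (q (Sum.inl (Sum.inr (Sum.inr true))) - q (Sum.inr ()))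
        (q (Sum.inl (Sum.inr (Sum.inr false))) - q (Sum.inr ()))
  have hG : Df L G := by
    refine Df.imp ?_ (hV'.rvl (dvar _) (hV'.fsub (dvar _) (dvar _))
      (hV'.fsub (dvar _) (dvar _)))
    exact (hP ⟨c, hc⟩).1.relabel (β := (Fin p ⊕ (Unit ⊕ Bool)) ⊕ Unit)
      (fun o : Option (Fin p) => (o.elim (Sum.inr ()) (fun i => Sum.inl (Sum.inl i)) :
        (Fin p ⊕ (Unit ⊕ Bool)) ⊕ Unit))
  exact all_transfer j hG (Sum.elim a (Sum.elim (fun _ => l)
    (fun b : Bool => if b then x else x'))) (fun d => by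
      intro hd
      have hdC : d () ∈ C := Set.mem_iUnion.2 ⟨⟨c, hc⟩, hd⟩
      have := hxx' _ hdC
      rw [← j_rvl j hO hO', j_sub j hO hO', j_sub j hO hO'] at this
      exact this) (fun _ => c) (hPc ⟨c, hc⟩)

end

end Pool.Agent.R611.HM
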